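import Pool.Agent.Lib.MP_a4658c_nt.ID.StmB
import Pool.Agent.Lib.MP_a4658c_nt.K5.A4

/-!
MP_a4658c_nt, natural density of the invariant sets of the Kakutani map: piece ALLZERO, from the
integers prime to 6 to all integers, for sparse sets.
-/

set_option autoImplicit false

namespace K5.ID

open K5

/-- powers of logarithms are at most a constant times the square root -/
lemma az_log (B : ℕ) : ∃ K : ℝ, 0 < K ∧ ∀ x : ℝ, 1 ≤ x →
    (2 + Real.log x) ^ B ≤ K * Real.sqrt x := by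
  refine ⟨2 ^ B * B.factorial * Real.exp 1, by positivity, fun x hx => ?_⟩
  have hl : 0 ≤ Real.log x := Real.log_nonneg hx
  have h1 : ((2 + Real.log x) / 2) ^ B / (B.factorial : ℝ) ≤ Real.exp ((2 + Real.log x) / 2) :=
    Real.pow_div_factorial_le_exp _ (by positivity) B
  have h2 : Real.exp ((2 + Real.log x) / 2) = Real.exp 1 * Real.sqrt x := by
    rw [show (2 + Real.log x) / 2 = 1 + Real.log x / 2 by ring, Real.exp_add]
    congr 1
    rw [← Real.log_sqrt (by linarith), Real.exp_log (Real.sqrt_pos.2 (by linarith))]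
  rw [h2, div_le_iff₀ (by positivity), div_pow, div_le_iff₀ (by positivity)] at h1
  calc (2 + Real.log x) ^ B ≤ Real.exp 1 * Real.sqrt x * (B.factorial : ℝ) * 2 ^ B := h1
    _ = 2 ^ B * B.factorial * Real.exp 1 * Real.sqrt x := by ring

lemma az_two {A : Set ℕ} {n₀ : ℕ} (hA : ∀ n > n₀, (n ∈ A ↔ kak n ∈ A)) {m : ℕ} (hm : n₀ < m)
    (a : ℕ) : 2 ^ a * m ∈ A ↔ m ∈ A := by
  induction a with
  | zero => simp
  | succ a ih =>
    have h : kak (2 ^ (a + 1) * m) = 2 ^ a * m := by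
      have e : 2 ^ (a + 1) * m = 2 * (2 ^ a * m) := by ring
      unfold kak
      rw [if_pos ⟨2 ^ a * m, e⟩, e, Nat.mul_div_cancel_left _ (by norm_num)]
    have h1 : n₀ < 2 ^ (a + 1) * m :=
      lt_of_lt_of_le hm (Nat.le_mul_of_pos_left _ (by positivity))
    rw [hA _ h1, h, ih]

lemma az_three {A : Set ℕ} {n₀ : ℕ} (hA : ∀ n > n₀, (n ∈ A ↔ kak n ∈ A)) {m : ℕ} (hm : n₀ < m)
    (h2 : m % 2 = 1) (b : ℕ) : 3 ^ b * m ∈ A ↔ m ∈ A := by
  induction b with
  | zero => simp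
  | succ b ih =>
    have h : kak (3 ^ (b + 1) * m) = 3 ^ b * m := by
      have e : 3 ^ (b + 1) * m = 3 * (3 ^ b * m) := by ring
      have hodd : ¬ 2 ∣ 3 ^ (b + 1) * m := by
        rw [Nat.prime_two.dvd_mul]
        rintro (h | h)
        · have := Nat.prime_two.dvd_of_dvd_pow h
          omega
        · omega
      unfold kak
      rw [if_neg hodd, if_pos ⟨3 ^ b * m, e⟩, e, Nat.mul_div_cancel_left _ (by norm_num)]
    have h1 : n₀ < 3 ^ (b + 1) * m :=
      lt_of_lt_of_le hm (Nat.le_mul_of_pos_left _ (by positivity))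
    rw [hA _ h1, h, ih]

lemma az_geo (q : ℝ) (h0 : 0 ≤ q) (h1 : q < 1) (M : ℕ) :
    ∑ b ∈ Finset.range M, q ^ b ≤ (1 - q)⁻¹ := by
  rw [← tsum_geometric_of_lt_one h0 h1]
  exact (summable_geometric_of_lt_one h0 h1).sum_le_tsum _ (fun i _ => by positivity)

open Classical in
/-- the term of the double sum -/
lemma az_term {B : ℕ} {K C₁ : ℝ} (hK : 0 < K) (hC₁ : 0 ≤ C₁)
    (hlog : ∀ x : ℝ, 1 ≤ x → (2 + Real.log x) ^ B ≤ K * Real.sqrt x) {F : ℕ → ℝ}
    (hF0 : F 0 = 0) (hF : ∀ N : ℕ, 1 ≤ N → F N ≤ C₁ * N / (1 + Real.log N) ^ B)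
    {N : ℕ} (hN : 1 ≤ N) (a b : ℕ) :
    F (N / (2 ^ a * 3 ^ b)) ≤
      C₁ * K * N / (1 + Real.log N) ^ B * ((3 / 4 : ℝ) ^ a * (2 / 3 : ℝ) ^ b) := by
  set D : ℕ := 2 ^ a * 3 ^ b with hD
  have hDpos : 0 < D := by positivity
  have hD1 : (1 : ℝ) ≤ D := by exact_mod_cast hDpos
  have hNR : (1 : ℝ) ≤ N := by exact_mod_cast hN
  have hlN : 0 ≤ Real.log N := Real.log_nonneg hNR
  have hlD : 0 ≤ Real.log D := Real.log_nonneg hD1
  have hpN : 0 < (1 + Real.log N) ^ B := by positivity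
  rcases Nat.eq_zero_or_pos (N / D) with h0 | h0
  · rw [h0, hF0]
    positivity
  · have hN' : (1 : ℝ) ≤ ((N / D : ℕ) : ℝ) := by exact_mod_cast h0
    have hlN' : 0 ≤ Real.log ((N / D : ℕ) : ℝ) := Real.log_nonneg hN'
    refine (hF _ h0).trans ?_
    have hdiv : ((N / D : ℕ) : ℝ) ≤ (N : ℝ) / D := Nat.cast_div_le
    have hlt : (N : ℝ) ≤ 2 * D * ((N / D : ℕ) : ℝ) := by
      have h1 : N < D * (N / D) + D := by
        have := Nat.div_add_mod N D
        have := Nat.mod_lt N hDpos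
        omega
      have h2 : D ≤ D * (N / D) := Nat.le_mul_of_pos_right _ h0
      have h3 : N ≤ 2 * D * (N / D) := by
        have : 2 * D * (N / D) = D * (N / D) + D * (N / D) := by ring
        omega
      exact_mod_cast h3
    have hlog2 : Real.log N ≤ 1 + Real.log D + Real.log ((N / D : ℕ) : ℝ) := by
      have h1 := Real.log_le_log (by linarith) hlt
      rw [Real.log_mul (by positivity) (by positivity),
        Real.log_mul (by norm_num) (by positivity)] at h1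
      have h2 : Real.log 2 ≤ 1 := by
        have := Real.log_two_lt_d9
        linarith
      linarith
    have hprod : 1 + Real.log N ≤ (2 + Real.log D) * (1 + Real.log ((N / D : ℕ) : ℝ)) := by
      nlinarith [mul_nonneg hlD hlN']
    have hpow : (1 + Real.log N) ^ B ≤
        (2 + Real.log D) ^ B * (1 + Real.log ((N / D : ℕ) : ℝ)) ^ B := by
      rw [← mul_pow]
      exact pow_le_pow_left₀ (by positivity) hprod B
    have hsq : Real.sqrt D ≤ (3 / 2 : ℝ) ^ a * 2 ^ b := by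
      rw [Real.sqrt_le_left (by positivity)]
      rw [hD]
      push_cast
      rw [mul_pow, ← pow_mul, ← pow_mul, mul_comm a 2, mul_comm b 2, pow_mul, pow_mul]
      apply mul_le_mul
      · exact pow_le_pow_left₀ (by norm_num) (by norm_num) a
      · exact pow_le_pow_left₀ (by norm_num) (by norm_num) b
      · positivity
      · positivity
    have hDe : (1 / (D : ℝ)) * ((3 / 2 : ℝ) ^ a * 2 ^ b) = (3 / 4 : ℝ) ^ a * (2 / 3 : ℝ) ^ b := by
      rw [hD]
      push_cast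
      have e1 : (3 / 4 : ℝ) ^ a = (3 / 2) ^ a / 2 ^ a := by rw [← div_pow]; norm_num
      have e2 : (2 / 3 : ℝ) ^ b = 2 ^ b / 3 ^ b := by rw [← div_pow]
      rw [e1, e2]
      field_simp
    have hle : (2 + Real.log D) ^ B ≤ K * ((3 / 2 : ℝ) ^ a * 2 ^ b) :=
      (hlog _ hD1).trans (mul_le_mul_of_nonneg_left hsq hK.le)
    rw [div_mul_eq_mul_div, div_le_div_iff₀ (by positivity) hpN]
    calc C₁ * ((N / D : ℕ) : ℝ) * (1 + Real.log N) ^ B
        ≤ C₁ * ((N : ℝ) / D) * ((2 + Real.log D) ^ B *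
            (1 + Real.log ((N / D : ℕ) : ℝ)) ^ B) := by
          apply mul_le_mul _ hpow (by positivity) (by positivity)
          exact mul_le_mul_of_nonneg_left hdiv hC₁
      _ ≤ C₁ * ((N : ℝ) / D) * ((K * ((3 / 2 : ℝ) ^ a * 2 ^ b)) *
            (1 + Real.log ((N / D : ℕ) : ℝ)) ^ B) := by
          apply mul_le_mul_of_nonneg_left _ (by positivity)
          exact mul_le_mul_of_nonneg_right hle (by positivity)
      _ = C₁ * K * N * ((1 / (D : ℝ)) * ((3 / 2 : ℝ) ^ a * 2 ^ b)) *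
            (1 + Real.log ((N / D : ℕ) : ℝ)) ^ B := by ring
      _ = _ := by rw [hDe]

open Classical in
/-- ALLZERO -/
theorem allZero : AllZero := by
  intro A n₀ B C hA hC
  obtain ⟨K, hK, hlog⟩ := az_log B
  -- the count of the integers prime to 6 in `A` or at most `n₀`
  set F : ℕ → ℝ := fun N =>
    (((Finset.Icc 1 N).filter (fun n => U n ∧ (n ∈ A ∨ n ≤ n₀))).card : ℝ) with hFdef
  have hF0 : F 0 = 0 := by simp [hFdef]
  set C₁ : ℝ := |C| + n₀ * K with hC₁def
  have hC₁ : 0 ≤ C₁ := by positivity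
  have hF : ∀ N : ℕ, 1 ≤ N → F N ≤ C₁ * N / (1 + Real.log N) ^ B := by
    intro N hN
    have hNR : (1 : ℝ) ≤ N := by exact_mod_cast hN
    have hlN : 0 ≤ Real.log N := Real.log_nonneg hNR
    have hsub : (Finset.Icc 1 N).filter (fun n => U n ∧ (n ∈ A ∨ n ≤ n₀)) ⊆
        (Finset.Icc 1 N).filter (fun n => U n ∧ n ∈ A) ∪ Finset.Icc 1 n₀ := by
      intro n hn
      simp only [Finset.mem_filter, Finset.mem_Icc, Finset.mem_union] at hn ⊢
      tauto
    have h1 : F N ≤ (((Finset.Icc 1 N).filter (fun n => U n ∧ n ∈ A)).card : ℝ) + n₀ := by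
      have h2 := (Finset.card_le_card hsub).trans (Finset.card_union_le _ _)
      rw [Nat.card_Icc, Nat.add_sub_cancel] at h2
      have h2' : ((((Finset.Icc 1 N).filter (fun n => U n ∧ (n ∈ A ∨ n ≤ n₀))).card : ℕ) : ℝ) ≤
          ((((Finset.Icc 1 N).filter (fun n => U n ∧ n ∈ A)).card + n₀ : ℕ) : ℝ) :=
        Nat.cast_le.2 h2
      rw [Nat.cast_add] at h2'
      exact h2'
    have h3 : (n₀ : ℝ) ≤ n₀ * K * N / (1 + Real.log N) ^ B := by
      rw [le_div_iff₀ (by positivity), mul_assoc]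
      apply mul_le_mul_of_nonneg_left _ (by positivity)
      calc (1 + Real.log N) ^ B ≤ (2 + Real.log N) ^ B :=
            pow_le_pow_left₀ (by positivity) (by linarith) B
        _ ≤ K * Real.sqrt N := hlog _ hNR
        _ ≤ K * N := by
            apply mul_le_mul_of_nonneg_left _ hK.le
            rw [Real.sqrt_le_left (by positivity)]
            nlinarith
    have h4 : C * N / (1 + Real.log N) ^ B ≤ |C| * N / (1 + Real.log N) ^ B := by
      apply div_le_div_of_nonneg_right _ (by positivity)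
      exact mul_le_mul_of_nonneg_right (le_abs_self C) (by positivity)
    have h5 := hC N hN
    calc F N ≤ C * N / (1 + Real.log N) ^ B + n₀ * K * N / (1 + Real.log N) ^ B := by linarith
      _ ≤ |C| * N / (1 + Real.log N) ^ B + n₀ * K * N / (1 + Real.log N) ^ B := by linarith
      _ = C₁ * N / (1 + Real.log N) ^ B := by rw [hC₁def]; ring
  refine ⟨C₁ * K * 12, fun N hN => ?_⟩
  have hNR : (1 : ℝ) ≤ N := by exact_mod_cast hN
  have hlN : 0 ≤ Real.log N := Real.log_nonneg hNR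
  have hsub : (Finset.Icc 1 N).filter (fun n => n ∈ A) ⊆
      (Finset.range (N + 1) ×ˢ Finset.range (N + 1)).biUnion fun p : ℕ × ℕ =>
        ((Finset.Icc 1 (N / (2 ^ p.1 * 3 ^ p.2))).filter
          (fun n => U n ∧ (n ∈ A ∨ n ≤ n₀))).image fun n' => 2 ^ p.1 * 3 ^ p.2 * n' := by
    intro n hn
    rw [Finset.mem_filter, Finset.mem_Icc] at hn
    obtain ⟨⟨hn1, hnN⟩, hk⟩ := hn
    obtain ⟨a, b, n', hU, he, -⟩ := kak_reduction hn1
    have hn'1 : 1 ≤ n' := by have := hU.1; omega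
    have h2a : 1 ≤ 2 ^ a := Nat.one_le_pow _ _ (by norm_num)
    have h3b : 1 ≤ 3 ^ b := Nat.one_le_pow _ _ (by norm_num)
    have ha : a < N + 1 := by
      have h1 : a < 2 ^ a := Nat.lt_two_pow_self
      have h2 : 2 ^ a ≤ n := by
        rw [he, mul_assoc]
        exact Nat.le_mul_of_pos_right _ (Nat.mul_pos h3b hn'1)
      omega
    have hb : b < N + 1 := by
      have h1 : b < 3 ^ b := Nat.lt_pow_self (by norm_num)
      have h2 : 3 ^ b ≤ n := by
        have e : n = 3 ^ b * (2 ^ a * n') := by rw [he]; ring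
        rw [e]
        exact Nat.le_mul_of_pos_right _ (Nat.mul_pos h2a hn'1)
      omega
    rw [Finset.mem_biUnion]
    refine ⟨(a, b), Finset.mem_product.2 ⟨Finset.mem_range.2 ha, Finset.mem_range.2 hb⟩, ?_⟩
    rw [Finset.mem_image]
    refine ⟨n', Finset.mem_filter.2 ⟨Finset.mem_Icc.2 ⟨hn'1, ?_⟩, hU, ?_⟩, he.symm⟩
    · change n' ≤ N / (2 ^ a * 3 ^ b)
      rw [Nat.le_div_iff_mul_le (Nat.mul_pos h2a h3b)]
      rw [he] at hnN
      linarith
    · by_cases hle : n' ≤ n₀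
      · exact Or.inr hle
      · left
        push Not at hle
        have h1 : n₀ < 3 ^ b * n' :=
          lt_of_lt_of_le hle (Nat.le_mul_of_pos_left _ (by positivity))
        rw [he, mul_assoc, az_two hA h1, az_three hA hle hU.1] at hk
        exact hk
  have hcard := (Finset.card_le_card hsub).trans Finset.card_biUnion_le
  have hterm : ∀ p : ℕ × ℕ, ((((Finset.Icc 1 (N / (2 ^ p.1 * 3 ^ p.2))).filter
      (fun n => U n ∧ (n ∈ A ∨ n ≤ n₀))).image fun n' => 2 ^ p.1 * 3 ^ p.2 * n').card : ℝ) ≤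
      C₁ * K * N / (1 + Real.log N) ^ B * ((3 / 4 : ℝ) ^ p.1 * (2 / 3 : ℝ) ^ p.2) := by
    intro p
    refine le_trans ?_ (az_term hK hC₁ hlog hF0 hF hN p.1 p.2)
    simp only [hFdef]
    exact_mod_cast Finset.card_image_le
  have hsum : ∑ p ∈ Finset.range (N + 1) ×ˢ Finset.range (N + 1),
      ((3 / 4 : ℝ) ^ p.1 * (2 / 3 : ℝ) ^ p.2) ≤ 12 := by
    rw [Finset.sum_product, ← Finset.sum_mul_sum]
    have h1 := az_geo (3 / 4) (by norm_num) (by norm_num) (N + 1)
    have h2 := az_geo (2 / 3) (by norm_num) (by norm_num) (N + 1)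
    have h3 : 0 ≤ ∑ b ∈ Finset.range (N + 1), (2 / 3 : ℝ) ^ b :=
      Finset.sum_nonneg fun i _ => by positivity
    calc _ ≤ (1 - 3 / 4 : ℝ)⁻¹ * (1 - 2 / 3 : ℝ)⁻¹ := mul_le_mul h1 h2 h3 (by norm_num)
      _ = 12 := by norm_num
  calc (((Finset.Icc 1 N).filter (fun n => n ∈ A)).card : ℝ)
      ≤ ∑ p ∈ Finset.range (N + 1) ×ˢ Finset.range (N + 1),
        ((((Finset.Icc 1 (N / (2 ^ p.1 * 3 ^ p.2))).filter
          (fun n => U n ∧ (n ∈ A ∨ n ≤ n₀))).image fun n' => 2 ^ p.1 * 3 ^ p.2 * n').card : ℝ) := by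
        exact_mod_cast hcard
    _ ≤ ∑ p ∈ Finset.range (N + 1) ×ˢ Finset.range (N + 1),
        C₁ * K * N / (1 + Real.log N) ^ B * ((3 / 4 : ℝ) ^ p.1 * (2 / 3 : ℝ) ^ p.2) :=
        Finset.sum_le_sum fun p _ => hterm p
    _ = C₁ * K * N / (1 + Real.log N) ^ B *
        ∑ p ∈ Finset.range (N + 1) ×ˢ Finset.range (N + 1),
          ((3 / 4 : ℝ) ^ p.1 * (2 / 3 : ℝ) ^ p.2) := by rw [Finset.mul_sum]
    _ ≤ C₁ * K * N / (1 + Real.log N) ^ B * 12 := by
        apply mul_le_mul_of_nonneg_left hsum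
        positivity
    _ = C₁ * K * 12 * N / (1 + Real.log N) ^ B := by ring

end K5.ID
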