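import Pool.Agent.Lib.MP_a4658c_nt.ID.Stm
import Pool.Agent.Lib.MP_a4658c_nt.ID.AllZero

/-!
MP_a4658c_nt, natural density of the invariant sets of the Kakutani map: pieces ALL (from the
integers prime to 6 to all integers) and SIGMA (countable additivity).
-/

set_option autoImplicit false

open Filter Topology

namespace K5.ID

open K5

/-- the exponents of 2 and 3 -/
def as_v (n : ℕ) : ℕ × ℕ := (n.factorization 2, n.factorization 3)

lemma as_U_dvd {u : ℕ} : U u ↔ ¬ 2 ∣ u ∧ ¬ 3 ∣ u := by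
  unfold U
  omega

lemma as_v_mul {u : ℕ} (hu : U u) (a b : ℕ) : as_v (2 ^ a * 3 ^ b * u) = (a, b) := by
  obtain ⟨h2, h3⟩ := as_U_dvd.1 hu
  have hu0 : u ≠ 0 := by rintro rfl; exact h2 (dvd_zero _)
  have h2a : (2 ^ a : ℕ) ≠ 0 := by positivity
  have h3b : (3 ^ b : ℕ) ≠ 0 := by positivity
  unfold as_v
  rw [Nat.factorization_mul (mul_ne_zero h2a h3b) hu0, Nat.factorization_mul h2a h3b,
    Nat.Prime.factorization_pow Nat.prime_two, Nat.Prime.factorization_pow Nat.prime_three]
  simp only [Finsupp.coe_add, Pi.add_apply, Finsupp.single_apply,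
    Nat.factorization_eq_zero_of_not_dvd h2, Nat.factorization_eq_zero_of_not_dvd h3]
  simp

open Classical in
/-- the integers of `A` up to `N` with given exponents -/
noncomputable def as_H (A : Set ℕ) (p : ℕ × ℕ) (N : ℕ) : ℕ :=
  ((Finset.Icc 1 N).filter (fun n => n ∈ A ∧ as_v n = p)).card

open Classical in
lemma as_H_eq (A : Set ℕ) (a b N : ℕ) : as_H A (a, b) N =
    ((Finset.Icc 1 (N / (2 ^ a * 3 ^ b))).filter
      (fun u => U u ∧ 2 ^ a * 3 ^ b * u ∈ A)).card := by
  have hD : 0 < 2 ^ a * 3 ^ b := by positivity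
  unfold as_H
  symm
  apply Finset.card_bij (fun u _ => 2 ^ a * 3 ^ b * u)
  · intro u hu
    simp only [Finset.mem_filter, Finset.mem_Icc] at hu ⊢
    obtain ⟨⟨h1, h2⟩, h3, h4⟩ := hu
    refine ⟨⟨Nat.mul_pos hD h1, ?_⟩, h4, as_v_mul h3 a b⟩
    rw [Nat.le_div_iff_mul_le hD] at h2
    linarith
  · intro u _ v _ h
    exact Nat.eq_of_mul_eq_mul_left hD h
  · intro n hn
    simp only [Finset.mem_filter, Finset.mem_Icc] at hn
    obtain ⟨⟨h1, h2⟩, h3, h4⟩ := hn
    obtain ⟨a', b', u, hU, he, -⟩ := kak_reduction h1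
    have h5 := as_v_mul hU a' b'
    rw [← he, h4] at h5
    obtain ⟨rfl, rfl⟩ := Prod.mk.inj h5
    have hu1 : 1 ≤ u := by have := hU.1; omega
    refine ⟨u, ?_, he.symm⟩
    simp only [Finset.mem_filter, Finset.mem_Icc]
    refine ⟨⟨hu1, ?_⟩, hU, he ▸ h3⟩
    rw [Nat.le_div_iff_mul_le hD]
    rw [he] at h2
    linarith

open Classical in
lemma as_total (A : Set ℕ) (N : ℕ) :
    ∑' p : ℕ × ℕ, (as_H A p N : ℝ) / N =
      (((Finset.Icc 1 N).filter (fun n => n ∈ A)).card : ℝ) / N := by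
  have hv : ∀ n ∈ (Finset.Icc 1 N).filter (fun n => n ∈ A),
      as_v n ∈ Finset.range (N + 1) ×ˢ Finset.range (N + 1) := by
    intro n hn
    simp only [Finset.mem_filter, Finset.mem_Icc] at hn
    have h0 : n ≠ 0 := by omega
    have h2 := Nat.factorization_lt (n := n) 2 h0
    have h3 := Nat.factorization_lt (n := n) 3 h0
    unfold as_v
    simp only [Finset.mem_product, Finset.mem_range]
    omega
  have h1 := Finset.card_eq_sum_card_fiberwise (fun n hn => hv n hn)
  have h2 : ∀ p : ℕ × ℕ, p ∉ Finset.range (N + 1) ×ˢ Finset.range (N + 1) →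
      (as_H A p N : ℝ) / N = 0 := by
    intro p hp
    have : as_H A p N = 0 := by
      unfold as_H
      rw [Finset.card_eq_zero, Finset.filter_eq_empty_iff]
      rintro n hn ⟨h3, h4⟩
      exact hp (h4 ▸ hv n (Finset.mem_filter.2 ⟨hn, h3⟩))
    rw [this]
    simp
  rw [tsum_eq_sum (fun p hp => h2 p hp), ← Finset.sum_div, h1]
  congr 1
  push_cast
  refine Finset.sum_congr rfl fun p _ => ?_
  unfold as_H
  rw [Finset.filter_filter]

lemma as_geo_summable : Summable (fun p : ℕ × ℕ => (1 / 2 : ℝ) ^ p.1 * (1 / 3 : ℝ) ^ p.2) :=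
  Summable.mul_of_nonneg (summable_geometric_of_lt_one (by norm_num) (by norm_num))
    (summable_geometric_of_lt_one (by norm_num) (by norm_num))
    (fun i => by positivity) (fun i => by positivity)

lemma as_geo : ∑' p : ℕ × ℕ, (1 / 2 : ℝ) ^ p.1 * (1 / 3 : ℝ) ^ p.2 = 3 := by
  have h2 : Summable (fun i : ℕ => (1 / 2 : ℝ) ^ i) :=
    summable_geometric_of_lt_one (by norm_num) (by norm_num)
  have h3 : Summable (fun i : ℕ => (1 / 3 : ℝ) ^ i) :=
    summable_geometric_of_lt_one (by norm_num) (by norm_num)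
  rw [← Summable.tsum_mul_tsum h2 h3 as_geo_summable,
    tsum_geometric_of_lt_one (by norm_num) (by norm_num),
    tsum_geometric_of_lt_one (by norm_num) (by norm_num)]
  norm_num

open Classical in
/-- ALL -/
theorem allInt : AllInt := by
  intro A n₀ d hA hd
  set G : ℕ → ℝ := fun N =>
    (((Finset.Icc 1 N).filter (fun n => U n ∧ n ∈ A)).card : ℝ) with hG
  have key : ∀ p : ℕ × ℕ, Tendsto (fun N : ℕ => (as_H A p N : ℝ) / N) atTop
      (𝓝 (d * ((1 / 2 : ℝ) ^ p.1 * (1 / 3 : ℝ) ^ p.2))) := by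
    rintro ⟨a, b⟩
    set D : ℕ := 2 ^ a * 3 ^ b with hDdef
    have hD : 0 < D := by positivity
    have hDR : (0 : ℝ) < D := by exact_mod_cast hD
    have hDe : (1 / 2 : ℝ) ^ a * (1 / 3 : ℝ) ^ b = 1 / D := by
      rw [hDdef]
      push_cast
      rw [one_div_pow, one_div_pow]
      field_simp
    -- comparison with `G (N / D)`
    have hcmp : ∀ N : ℕ, |(as_H A (a, b) N : ℝ) - G (N / D)| ≤ n₀ := by
      intro N
      rw [as_H_eq]
      have h1 : ((Finset.Icc 1 (N / D)).filter (fun u => U u ∧ D * u ∈ A)) ⊆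
          ((Finset.Icc 1 (N / D)).filter (fun u => U u ∧ u ∈ A)) ∪ Finset.Icc 1 n₀ := by
        intro u hu
        simp only [Finset.mem_filter, Finset.mem_Icc, Finset.mem_union] at hu ⊢
        obtain ⟨hu1, hU, hk⟩ := hu
        by_cases hle : u ≤ n₀
        · exact Or.inr ⟨hu1.1, hle⟩
        · left
          push Not at hle
          have h1 : n₀ < 3 ^ b * u :=
            lt_of_lt_of_le hle (Nat.le_mul_of_pos_left _ (by positivity))
          rw [hDdef, mul_assoc, az_two hA h1, az_three hA hle hU.1] at hk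
          exact ⟨hu1, hU, hk⟩
      have h2 : ((Finset.Icc 1 (N / D)).filter (fun u => U u ∧ u ∈ A)) ⊆
          ((Finset.Icc 1 (N / D)).filter (fun u => U u ∧ D * u ∈ A)) ∪ Finset.Icc 1 n₀ := by
        intro u hu
        simp only [Finset.mem_filter, Finset.mem_Icc, Finset.mem_union] at hu ⊢
        obtain ⟨hu1, hU, hk⟩ := hu
        by_cases hle : u ≤ n₀
        · exact Or.inr ⟨hu1.1, hle⟩
        · left
          push Not at hle
          have h1 : n₀ < 3 ^ b * u :=
            lt_of_lt_of_le hle (Nat.le_mul_of_pos_left _ (by positivity))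
          refine ⟨hu1, hU, ?_⟩
          rw [hDdef, mul_assoc, az_two hA h1, az_three hA hle hU.1]
          exact hk
      have h1' := (Finset.card_le_card h1).trans (Finset.card_union_le _ _)
      have h2' := (Finset.card_le_card h2).trans (Finset.card_union_le _ _)
      rw [Nat.card_Icc, Nat.add_sub_cancel] at h1' h2'
      have h1'' : ((((Finset.Icc 1 (N / D)).filter (fun u => U u ∧ D * u ∈ A)).card : ℕ) : ℝ) ≤
          G (N / D) + n₀ := by
        simp only [hG]
        exact_mod_cast h1'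
      have h2'' : G (N / D) ≤
          ((((Finset.Icc 1 (N / D)).filter (fun u => U u ∧ D * u ∈ A)).card : ℕ) : ℝ) + n₀ := by
        simp only [hG]
        exact_mod_cast h2'
      rw [abs_le]
      constructor <;> linarith
    -- `G (N / D) / N` tends to `d / D`
    have hND : Tendsto (fun N : ℕ => N / D) atTop atTop :=
      Nat.tendsto_div_const_atTop hD.ne'
    have h3 : Tendsto (fun N : ℕ => G (N / D) / ((N / D : ℕ) : ℝ)) atTop (𝓝 d) :=
      hd.comp hND
    have h4 : Tendsto (fun N : ℕ => ((N / D : ℕ) : ℝ) / N) atTop (𝓝 (1 / D)) := by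
      have h5 : Tendsto (fun N : ℕ => (1 / D : ℝ) - 1 / (N : ℝ)) atTop (𝓝 (1 / D - 0)) :=
        tendsto_const_nhds.sub tendsto_one_div_atTop_nhds_zero_nat
      rw [sub_zero] at h5
      refine tendsto_of_tendsto_of_tendsto_of_le_of_le' h5
        (tendsto_const_nhds (x := (1 / D : ℝ))) ?_ ?_
      · filter_upwards [eventually_ge_atTop 1] with N hN
        have hNR : (0 : ℝ) < N := by exact_mod_cast hN
        have h6 : (N : ℝ) ≤ D * ((N / D : ℕ) : ℝ) + D := by
          have h7 : N ≤ D * (N / D) + D := by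
            have := Nat.div_add_mod N D
            have := Nat.mod_lt N hD
            omega
          exact_mod_cast h7
        rw [le_div_iff₀ hNR, sub_mul, one_div, one_div, inv_mul_cancel₀ hNR.ne']
        have h8 : (D : ℝ)⁻¹ * N ≤ (D : ℝ)⁻¹ * (D * ((N / D : ℕ) : ℝ) + D) :=
          mul_le_mul_of_nonneg_left h6 (by positivity)
        rw [mul_add, ← mul_assoc, inv_mul_cancel₀ hDR.ne', one_mul] at h8
        linarith
      · filter_upwards [eventually_ge_atTop 1] with N hN
        have hNR : (0 : ℝ) < N := by exact_mod_cast hN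
        rw [div_le_div_iff₀ hNR hDR, one_mul]
        have h7 : (N / D) * D ≤ N := Nat.div_mul_le_self N D
        exact_mod_cast h7
    have h5 : Tendsto (fun N : ℕ => G (N / D) / N) atTop (𝓝 (d * (1 / D))) := by
      refine (h3.mul h4).congr' ?_
      filter_upwards [eventually_ge_atTop D] with N hN
      have h6 : 0 < N / D := Nat.div_pos hN hD
      have h7 : ((N / D : ℕ) : ℝ) ≠ 0 := by
        have : (0 : ℝ) < ((N / D : ℕ) : ℝ) := by exact_mod_cast h6
        exact this.ne'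
      rw [div_mul_div_comm, mul_comm (((N / D : ℕ) : ℝ)) (N : ℝ), mul_div_mul_right _ _ h7]
    have h6 : Tendsto (fun N : ℕ => ((as_H A (a, b) N : ℝ) - G (N / D)) / N) atTop (𝓝 0) := by
      have h7 : Tendsto (fun N : ℕ => (n₀ : ℝ) / N) atTop (𝓝 0) :=
        tendsto_const_div_atTop_nhds_zero_nat _
      refine squeeze_zero_norm (fun N => ?_) h7
      rw [Real.norm_eq_abs, abs_div, Nat.abs_cast]
      exact div_le_div_of_nonneg_right (hcmp N) (Nat.cast_nonneg _)
    have h7 := h5.add h6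
    rw [add_zero] at h7
    simp only
    rw [hDe]
    refine h7.congr fun N => ?_
    rw [← add_div]
    congr 1
    ring
  have h1 := tendsto_tsum_of_dominated_convergence (𝓕 := atTop)
    (f := fun (N : ℕ) (p : ℕ × ℕ) => (as_H A p N : ℝ) / N) as_geo_summable key
    (by
      filter_upwards [eventually_ge_atTop 1] with N hN
      rintro ⟨a, b⟩
      have hNR : (0 : ℝ) < N := by exact_mod_cast hN
      have hD : 0 < 2 ^ a * 3 ^ b := by positivity
      rw [Real.norm_of_nonneg (by positivity), as_H_eq]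
      have h2 : ((Finset.Icc 1 (N / (2 ^ a * 3 ^ b))).filter
          (fun u => U u ∧ 2 ^ a * 3 ^ b * u ∈ A)).card ≤ N / (2 ^ a * 3 ^ b) := by
        refine (Finset.card_filter_le _ _).trans ?_
        rw [Nat.card_Icc, Nat.add_sub_cancel]
      have h3 : ((N / (2 ^ a * 3 ^ b) : ℕ) : ℝ) ≤ (N : ℝ) / ((2 ^ a * 3 ^ b : ℕ) : ℝ) :=
        Nat.cast_div_le
      have h4 : (((Finset.Icc 1 (N / (2 ^ a * 3 ^ b))).filter
          (fun u => U u ∧ 2 ^ a * 3 ^ b * u ∈ A)).card : ℝ) ≤
          (N : ℝ) / ((2 ^ a * 3 ^ b : ℕ) : ℝ) := by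
        refine le_trans ?_ h3
        exact_mod_cast h2
      rw [div_le_iff₀ hNR]
      refine h4.trans (le_of_eq ?_)
      push_cast
      rw [one_div_pow, one_div_pow]
      field_simp)
  rw [tsum_mul_left, as_geo, mul_comm] at h1
  refine h1.congr fun N => as_total A N

lemma as_kak_pos {n : ℕ} (hn : 1 ≤ n) : 1 ≤ kak n := by
  unfold kak
  split_ifs with h2 h3
  · omega
  · omega
  · omega

lemma as_iter {A : Set ℕ} (hA : ∀ n ≥ 1, (n ∈ A ↔ kak n ∈ A)) {n : ℕ} (hn : 1 ≤ n) (h : n ∈ A)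
    (k : ℕ) : 1 ≤ kak^[k] n ∧ kak^[k] n ∈ A := by
  induction k with
  | zero => exact ⟨hn, h⟩
  | succ k ih =>
    rw [Function.iterate_succ_apply']
    exact ⟨as_kak_pos ih.1, (hA _ ih.1).1 ih.2⟩

open Classical in
/-- the count of a set up to `N` -/
noncomputable def as_cnt (P : ℕ → Prop) (N : ℕ) : ℝ :=
  (((Finset.Icc 1 N).filter (fun n => P n)).card : ℝ)

lemma as_cnt_nonneg (P : ℕ → Prop) (N : ℕ) : 0 ≤ as_cnt P N := Nat.cast_nonneg _

lemma as_cnt_mono {P Q : ℕ → Prop} (h : ∀ n, 1 ≤ n → P n → Q n) (N : ℕ) :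
    as_cnt P N ≤ as_cnt Q N := by
  classical
  unfold as_cnt
  have : ((Finset.Icc 1 N).filter (fun n => P n)).card ≤
      ((Finset.Icc 1 N).filter (fun n => Q n)).card := by
    apply Finset.card_le_card
    intro n hn
    simp only [Finset.mem_filter, Finset.mem_Icc] at hn ⊢
    exact ⟨hn.1, h n hn.1.1 hn.2⟩
  exact_mod_cast this

lemma as_cnt_le (P : ℕ → Prop) (N : ℕ) : as_cnt P N ≤ N := by
  classical
  unfold as_cnt
  have : ((Finset.Icc 1 N).filter (fun n => P n)).card ≤ N := by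
    refine (Finset.card_filter_le _ _).trans ?_
    rw [Nat.card_Icc, Nat.add_sub_cancel]
  exact_mod_cast this

lemma as_cnt_or (P Q : ℕ → Prop) (N : ℕ) :
    as_cnt (fun n => P n ∨ Q n) N ≤ as_cnt P N + as_cnt Q N := by
  classical
  have h1 : as_cnt (fun n => P n ∨ Q n) N ≤
      ((((Finset.Icc 1 N).filter (fun n => P n) ∪
        (Finset.Icc 1 N).filter (fun n => Q n)).card : ℕ) : ℝ) := by
    unfold as_cnt
    refine Nat.cast_le.2 (Finset.card_le_card ?_)
    intro n hn
    simp only [Finset.mem_filter, Finset.mem_union] at hn ⊢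
    tauto
  refine h1.trans ?_
  unfold as_cnt
  exact_mod_cast Finset.card_union_le _ _

lemma as_cnt_fin {A : ℕ → Set ℕ} (hd : Pairwise (fun i j => Disjoint (A i) (A j)))
    (F : Finset ℕ) (N : ℕ) :
    as_cnt (fun n => ∃ i ∈ F, n ∈ A i) N = ∑ i ∈ F, as_cnt (fun n => n ∈ A i) N := by
  classical
  unfold as_cnt
  rw [← Nat.cast_sum, ← Finset.card_biUnion]
  · congr 2
    ext n
    simp only [Finset.mem_filter, Finset.mem_biUnion]
    constructor
    · rintro ⟨h1, i, hi, h2⟩
      exact ⟨i, hi, h1, h2⟩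
    · rintro ⟨i, hi, h1, h2⟩
      exact ⟨h1, i, hi, h2⟩
  · intro i _ j _ hij
    rw [Function.onFun, Finset.disjoint_left]
    intro n hn hn'
    simp only [Finset.mem_filter] at hn hn'
    exact (Set.disjoint_left.1 (hd hij)) hn.2 hn'.2

/-- SIGMA -/
theorem sigma : Sigma := by
  classical
  rintro ⟨C, c, hC, hc, hX⟩ A d hinv hdis hden
  have hden' : ∀ i, Tendsto (fun N : ℕ => as_cnt (fun n => n ∈ A i) N / N) atTop (𝓝 (d i)) := by
    intro i
    refine (hden i).congr fun N => ?_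
    unfold as_cnt
    congr 2
  have hX' : ∀ X : ℝ, 1 ≤ X → ∀ N : ℕ, as_cnt (fun n => ∀ k : ℕ, X < (kak^[k] n : ℝ)) N ≤
      C * X ^ (-c) * N := by
    intro X h1 N
    refine le_trans (le_of_eq ?_) (hX X h1 N)
    unfold as_cnt
    congr 1
  have hd0 : ∀ i, 0 ≤ d i := fun i =>
    ge_of_tendsto' (hden' i) fun N => div_nonneg (as_cnt_nonneg _ _) (Nat.cast_nonneg _)
  -- densities of the finite unions
  have hfin : ∀ F : Finset ℕ, Tendsto (fun N : ℕ => as_cnt (fun n => ∃ i ∈ F, n ∈ A i) N / N)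
      atTop (𝓝 (∑ i ∈ F, d i)) := by
    intro F
    have h1 := tendsto_finsetSum F fun i _ => hden' i
    refine h1.congr fun N => ?_
    rw [as_cnt_fin hdis, Finset.sum_div]
  have hsum : Summable d := by
    refine summable_of_sum_le hd0 (c := 1) fun F => ?_
    refine le_of_tendsto' (hfin F) fun N => ?_
    exact div_le_one_of_le₀ (as_cnt_le _ _) (Nat.cast_nonneg _)
  refine ⟨hsum, ?_⟩
  have hgoal : Tendsto (fun N : ℕ => as_cnt (fun n => ∃ i, n ∈ A i) N / N) atTop
      (𝓝 (∑' i, d i)) := by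
    rw [Metric.tendsto_atTop]
    intro ε hε
    -- choice of the level
    obtain ⟨m, hm1, hm⟩ : ∃ m : ℕ, 1 ≤ m ∧ C * (m : ℝ) ^ (-c) < ε / 4 := by
      have h1 : Tendsto (fun m : ℕ => C * (m : ℝ) ^ (-c)) atTop (𝓝 (C * 0)) :=
        ((tendsto_rpow_neg_atTop hc).comp tendsto_natCast_atTop_atTop).const_mul C
      rw [mul_zero] at h1
      have h2 := (h1.eventually (gt_mem_nhds (show (0 : ℝ) < ε / 4 by positivity))).and
        (eventually_ge_atTop 1)
      obtain ⟨m, hm⟩ := h2.exists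
      exact ⟨m, hm.2, hm.1⟩
    have hmR : (1 : ℝ) ≤ m := by exact_mod_cast hm1
    set δ : ℝ := C * (m : ℝ) ^ (-c) with hδ
    -- the indices meeting `[1, m]`
    have hFfin : {i : ℕ | ∃ n, 1 ≤ n ∧ n ≤ m ∧ n ∈ A i}.Finite := by
      have h1 : {i : ℕ | ∃ n, 1 ≤ n ∧ n ≤ m ∧ n ∈ A i} ⊆
          ⋃ n ∈ Finset.Icc 1 m, {i : ℕ | n ∈ A i} := by
        rintro i ⟨n, hn1, hn2, hn3⟩
        simp only [Set.mem_iUnion]
        exact ⟨n, Finset.mem_Icc.2 ⟨hn1, hn2⟩, hn3⟩
      refine Set.Finite.subset ?_ h1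
      refine Set.Finite.biUnion (Finset.finite_toSet _) fun n _ => ?_
      apply Set.Subsingleton.finite
      intro i hi j hj
      by_contra hij
      exact (Set.disjoint_left.1 (hdis hij)) hi hj
    set F : Finset ℕ := hFfin.toFinset with hF
    have hout : ∀ i, i ∉ F → ∀ n, 1 ≤ n → n ∈ A i → ∀ k : ℕ, (m : ℝ) < (kak^[k] n : ℝ) := by
      intro i hi n hn1 hn k
      by_contra hcon
      apply hi
      rw [hF, Set.Finite.mem_toFinset]
      obtain ⟨h1, h2⟩ := as_iter (hinv i) hn1 hn k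
      refine ⟨kak^[k] n, h1, ?_, h2⟩
      push Not at hcon
      exact_mod_cast hcon
    -- the tail of the series
    have htail : ∀ F' : Finset ℕ, Disjoint F F' → ∑ i ∈ F', d i ≤ δ := by
      intro F' hdisj
      refine le_of_tendsto (hfin F') ?_
      filter_upwards [eventually_ge_atTop 1] with N hN
      have hNR : (0 : ℝ) < N := by exact_mod_cast hN
      rw [div_le_iff₀ hNR]
      refine le_trans (as_cnt_mono ?_ N) (hX' m hmR N)
      rintro n hn1 ⟨i, hi, hni⟩
      exact hout i (fun h => Finset.disjoint_left.1 hdisj h hi) n hn1 hni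
    have htsum : ∑' i, d i ≤ ∑ i ∈ F, d i + δ := by
      refine hsum.tsum_le_of_sum_le fun F' => ?_
      have h1 : F' ⊆ F ∪ (F' \ F) := by
        intro i hi
        by_cases h : i ∈ F
        · exact Finset.mem_union_left _ h
        · exact Finset.mem_union_right _ (Finset.mem_sdiff.2 ⟨hi, h⟩)
      calc ∑ i ∈ F', d i ≤ ∑ i ∈ F ∪ (F' \ F), d i :=
            Finset.sum_le_sum_of_subset_of_nonneg h1 fun i _ _ => hd0 i
        _ = ∑ i ∈ F, d i + ∑ i ∈ F' \ F, d i := Finset.sum_union Finset.disjoint_sdiff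
        _ ≤ _ := by
            have := htail (F' \ F) Finset.disjoint_sdiff
            linarith
    have htsum' : ∑ i ∈ F, d i ≤ ∑' i, d i := hsum.sum_le_tsum F fun i _ => hd0 i
    obtain ⟨N₀, hN₀⟩ := (Metric.tendsto_atTop.1 (hfin F)) (ε / 4) (by positivity)
    refine ⟨max N₀ 1, fun N hN => ?_⟩
    have hN1 : 1 ≤ N := (le_max_right _ _).trans hN
    have hNR : (0 : ℝ) < N := by exact_mod_cast hN1
    have h1 := hN₀ N ((le_max_left _ _).trans hN)
    rw [Real.dist_eq, abs_lt] at h1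
    have h2 : as_cnt (fun n => ∃ i ∈ F, n ∈ A i) N ≤ as_cnt (fun n => ∃ i, n ∈ A i) N := by
      refine as_cnt_mono ?_ N
      rintro n - ⟨i, -, hi⟩
      exact ⟨i, hi⟩
    have h3 : as_cnt (fun n => ∃ i, n ∈ A i) N ≤
        as_cnt (fun n => ∃ i ∈ F, n ∈ A i) N + δ * N := by
      have h4 : as_cnt (fun n => ∃ i, n ∈ A i) N ≤
          as_cnt (fun n => (∃ i ∈ F, n ∈ A i) ∨ (∀ k : ℕ, (m : ℝ) < (kak^[k] n : ℝ))) N := by
        refine as_cnt_mono ?_ N
        rintro n hn1 ⟨i, hi⟩
        by_cases hiF : i ∈ F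
        · exact Or.inl ⟨i, hiF, hi⟩
        · exact Or.inr (hout i hiF n hn1 hi)
      have h5 := h4.trans (as_cnt_or _ _ N)
      have h6 := hX' m hmR N
      linarith
    have h2' : as_cnt (fun n => ∃ i ∈ F, n ∈ A i) N / N ≤
        as_cnt (fun n => ∃ i, n ∈ A i) N / N := div_le_div_of_nonneg_right h2 hNR.le
    have h3' : as_cnt (fun n => ∃ i, n ∈ A i) N / N ≤
        as_cnt (fun n => ∃ i ∈ F, n ∈ A i) N / N + δ := by
      rw [div_add' _ _ _ hNR.ne']
      exact div_le_div_of_nonneg_right h3 hNR.le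
    rw [Real.dist_eq, abs_lt]
    constructor <;> linarith
  refine hgoal.congr fun N => ?_
  unfold as_cnt
  congr 2

end K5.ID
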