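import Pool.Agent.Lib.MP_a4658c_nt.ID.Stm
import Pool.Agent.Lib.MP_a4658c_nt.K5.A4

/-!
MP_a4658c_nt, natural density of the invariant sets of the Kakutani map: from invariance under the
Kakutani map to invariance under the accelerated map.
-/

set_option autoImplicit false

namespace K5.ID

open K5

theorem core_iff {A : Set ℕ} {n₀ : ℕ} (hA : ∀ n > n₀, (n ∈ A ↔ kak n ∈ A)) {m : ℕ}
    (hm : m % 2 = 1) (h : n₀ < m) (a b : ℕ) : (2 ^ a * 3 ^ b * m ∈ A ↔ m ∈ A) := by
  induction a with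
  | zero =>
    rw [pow_zero, one_mul]
    induction b with
    | zero => rw [pow_zero, one_mul]
    | succ b ih =>
      rw [← ih]
      have e : 3 ^ (b + 1) * m = 3 * (3 ^ b * m) := by ring
      have hodd : ¬ 2 ∣ 3 ^ (b + 1) * m := by
        rw [Nat.prime_two.dvd_mul]
        rintro (h | h)
        · have := Nat.prime_two.dvd_of_dvd_pow h
          omega
        · omega
      have h1 : kak (3 ^ (b + 1) * m) = 3 ^ b * m := by
        unfold kak
        rw [if_neg hodd, if_pos ⟨3 ^ b * m, e⟩, e, Nat.mul_div_cancel_left _ (by norm_num)]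
      rw [hA (3 ^ (b + 1) * m) ?_, h1]
      have h2 : 1 ≤ 3 ^ (b + 1) := Nat.one_le_pow _ _ (by norm_num)
      exact lt_of_lt_of_le h (Nat.le_mul_of_pos_left _ h2)
  | succ a ih =>
    rw [← ih]
    have e : 2 ^ (a + 1) * 3 ^ b * m = 2 * (2 ^ a * 3 ^ b * m) := by ring
    have h1 : kak (2 ^ (a + 1) * 3 ^ b * m) = 2 ^ a * 3 ^ b * m := by
      unfold kak
      rw [if_pos ⟨2 ^ a * 3 ^ b * m, e⟩, e, Nat.mul_div_cancel_left _ (by norm_num)]
    rw [hA (2 ^ (a + 1) * 3 ^ b * m) ?_, h1]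
    have h2 : 1 ≤ 2 ^ (a + 1) * 3 ^ b :=
      Nat.mul_pos (Nat.pow_pos (by norm_num)) (Nat.pow_pos (by norm_num))
    exact lt_of_lt_of_le h (Nat.le_mul_of_pos_left _ h2)

theorem inv_of {A : Set ℕ} {n₀ : ℕ} (hA : ∀ n > n₀, (n ∈ A ↔ kak n ∈ A)) :
    Inv (n₀ : ℝ) (fun n => n ∈ A) := by
  intro n hU h1 h2
  have h1' : n₀ < n := by exact_mod_cast h1
  have h2' : n₀ < S n := by exact_mod_cast h2
  have hk : kak n = 5 * n + 1 := by
    obtain ⟨g2, g3⟩ := hU
    unfold kak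
    rw [if_neg (by omega), if_neg (by omega)]
  have h4 := dd_letter_mul_S hU
  unfold dd at h4
  show n ∈ A ↔ S n ∈ A
  rw [hA n h1', hk, ← h4]
  exact core_iff hA (U_S hU).1 h2' _ _

end K5.ID
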