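import Pool.Agent.Lib.MP_a4658c_nt.ID.StmC
import Pool.Agent.Lib.MP_a4658c_nt.ID.InvK
import Pool.Agent.Lib.MP_a4658c_nt.K5.A2

/-!
MP_a4658c_nt, piece CELLS, part A: the cells as fibres of one map, invariance along a cell, and the
density of an invariant set in a cell.
-/

set_option autoImplicit false

open Filter Topology

namespace K5.ID

open K5

/-- the part of `n` prime to 6 -/
def cellCore (n : ℕ) : ℕ := n / (2 ^ padicValNat 2 n * 3 ^ padicValNat 3 n)

lemma cell_val {a b m : ℕ} (hm : U m) :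
    padicValNat 2 (2 ^ a * 3 ^ b * m) = a ∧ padicValNat 3 (2 ^ a * 3 ^ b * m) = b := by
  obtain ⟨h1, h2⟩ := hm
  have hm0 : m ≠ 0 := by rintro rfl; simp at h1
  have h3 : padicValNat 2 m = 0 := padicValNat.eq_zero_of_not_dvd (by omega)
  have h4 : padicValNat 3 m = 0 := padicValNat.eq_zero_of_not_dvd (by omega)
  have h5 : padicValNat 2 (3 ^ b) = 0 := by
    apply padicValNat.eq_zero_of_not_dvd
    intro h
    have := Nat.prime_two.dvd_of_dvd_pow h
    omega
  have h6 : padicValNat 3 (2 ^ a) = 0 := by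
    apply padicValNat.eq_zero_of_not_dvd
    intro h
    have := Nat.prime_three.dvd_of_dvd_pow h
    omega
  have : Fact (Nat.Prime 2) := ⟨Nat.prime_two⟩
  have : Fact (Nat.Prime 3) := ⟨Nat.prime_three⟩
  constructor
  · rw [padicValNat.mul (by positivity) hm0, padicValNat.mul (by positivity) (by positivity), h3,
      h5, padicValNat.prime_pow]
    rfl
  · rw [padicValNat.mul (by positivity) hm0, padicValNat.mul (by positivity) (by positivity), h4,
      h6, padicValNat.prime_pow]
    omega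

lemma cellCore_of {a b m : ℕ} (hm : U m) : cellCore (2 ^ a * 3 ^ b * m) = m := by
  unfold cellCore
  rw [(cell_val hm).1, (cell_val hm).2]
  exact Nat.mul_div_cancel_left m (by positivity)

lemma cell_decomp {n : ℕ} (hn : 1 ≤ n) :
    U (cellCore n) ∧ n = 2 ^ padicValNat 2 n * 3 ^ padicValNat 3 n * cellCore n := by
  obtain ⟨a, b, n', h1, h2, _⟩ := kak_reduction hn
  have h3 := cell_val (a := a) (b := b) h1
  have h4 := cellCore_of (a := a) (b := b) h1
  rw [← h2] at h3 h4
  rw [h4, h3.1, h3.2]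
  exact ⟨h1, h2⟩

/-- the cell containing `n` -/
def cellOf (J s n : ℕ) : ℕ × ℕ × Bool × List Let × ℕ :=
  (padicValNat 2 n, padicValNat 3 n, cl (S^[J] (cellCore n)), fword J (cellCore n),
    S^[J] (cellCore n) % 5 ^ s)

lemma cell_iter_lower {J : ℕ} {n : ℕ} (hU : U n) {i : ℕ} (hi : i ≤ J) :
    S^[J] n ≤ 5 ^ J * S^[i] n + cnum (fword J n) := by
  have h1 : fword J n = fword (J - i) (S^[i] n) ++ fword i n := by
    rw [← fword_add, Nat.sub_add_cancel hi]
  have h2 := fword_eq (U_iter hU i) (J - i)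
  rw [← Function.iterate_add_apply, Nat.sub_add_cancel hi] at h2
  have h3 : cnum (fword (J - i) (S^[i] n)) ≤ cnum (fword J n) := by
    rw [h1, cnum_append]
    have := Nat.le_mul_of_pos_left (cnum (fword (J - i) (S^[i] n))) (D_pos (fword i n))
    omega
  have h4 : S^[J] n ≤ D (fword (J - i) (S^[i] n)) * S^[J] n := Nat.le_mul_of_pos_left _ (D_pos _)
  have h5 : 5 ^ (J - i) * S^[i] n ≤ 5 ^ J * S^[i] n :=
    Nat.mul_le_mul_right _ (Nat.pow_le_pow_right (by norm_num) (Nat.sub_le J i))
  omega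

lemma cell_mem_iff {B : Set ℕ} {n₀ : ℕ} (hB : ∀ n > n₀, (n ∈ B ↔ kak n ∈ B)) {J n : ℕ} (hU : U n)
    (hm : 5 ^ J * n₀ + cnum (fword J n) < S^[J] n) :
    n₀ < n ∧ (n ∈ B ↔ S^[J] n ∈ B) := by
  have hlow : ∀ i ≤ J, n₀ < S^[i] n := by
    intro i hi
    have h1 := cell_iter_lower hU hi
    by_contra h
    push Not at h
    have := Nat.mul_le_mul_left (5 ^ J) h
    omega
  refine ⟨hlow 0 (Nat.zero_le _), ?_⟩
  have hinv := inv_of hB
  have key : ∀ i ≤ J, (n ∈ B ↔ S^[i] n ∈ B) := by
    intro i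
    induction i with
    | zero => intro _; exact Iff.rfl
    | succ i ih =>
      intro hi
      rw [ih (by omega)]
      have h1 := hinv (S^[i] n) (U_iter hU i) (by exact_mod_cast hlow i (by omega))
        (by
          have := hlow (i + 1) hi
          rw [Function.iterate_succ_apply'] at this
          exact_mod_cast this)
      rw [Function.iterate_succ_apply']
      exact h1
  exact key J le_rfl

open Classical in
/-- number of elements of `B` up to `N` in a cell -/
noncomputable def cellCount (J s : ℕ) (B : Set ℕ) (x : ℕ × ℕ × Bool × List Let × ℕ) (N : ℕ) : ℕ :=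
  ((Finset.Icc 1 N).filter (fun n => cellOf J s n = x ∧ n ∈ B)).card

open Classical in
/-- number of elements of `B` up to `M` in a class -/
noncomputable def starCount (s : ℕ) (B : Set ℕ) (c : Bool) (b : ℕ) (M : ℕ) : ℕ :=
  ((Finset.Icc 1 M).filter (fun n => U n ∧ cl n = c ∧ n % 5 ^ s = b ∧ n ∈ B)).card

/-- the range of `m` -/
def cellM (J α β : ℕ) (v : List Let) (N : ℕ) : ℕ :=
  (5 ^ J * (N / (2 ^ α * 3 ^ β)) + cnum v) / D v

section
variable {J s n₀ α β b Λ : ℕ} {c : Bool} {v : List Let} {B : Set ℕ}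

lemma cell_facts {n : ℕ} (hn : 1 ≤ n) (hx : cellOf J s n = (α, β, c, v, b)) :
    U (cellCore n) ∧ n = 2 ^ α * 3 ^ β * cellCore n ∧ cl (S^[J] (cellCore n)) = c ∧
      fword J (cellCore n) = v ∧ S^[J] (cellCore n) % 5 ^ s = b ∧
      5 ^ J * cellCore n + cnum v = D v * S^[J] (cellCore n) := by
  obtain ⟨h1, h2⟩ := cell_decomp hn
  unfold cellOf at hx
  simp only [Prod.mk.injEq] at hx
  obtain ⟨e1, e2, e3, e4, e5⟩ := hx
  rw [e1, e2] at h2
  refine ⟨h1, h2, e3, e4, e5, ?_⟩
  have := fword_eq h1 J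
  rw [e4] at this
  exact this

lemma cellCount_le (hB : ∀ n > n₀, (n ∈ B ↔ kak n ∈ B)) (N : ℕ) :
    cellCount J s B (α, β, c, v, b) N ≤
      starCount s B c b (cellM J α β v N) + (5 ^ J * n₀ + cnum v + 1) := by
  classical
  unfold cellCount
  set T := (Finset.Icc 1 N).filter (fun n => cellOf J s n = (α, β, c, v, b) ∧ n ∈ B) with hT
  set m₀ := 5 ^ J * n₀ + cnum v with hm₀
  have hsplit : T.card = (T.filter (fun n => S^[J] (cellCore n) ≤ m₀)).card +
      (T.filter (fun n => ¬ S^[J] (cellCore n) ≤ m₀)).card :=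
    (Finset.card_filter_add_card_filter_not _).symm
  have hinj : Set.InjOn (fun n => S^[J] (cellCore n)) (T : Set ℕ) := by
    intro n hn n' hn' h
    rw [Finset.mem_coe, hT, Finset.mem_filter, Finset.mem_Icc] at hn hn'
    obtain ⟨g1, g2, g3, g4, g5, g6⟩ := cell_facts hn.1.1 hn.2.1
    obtain ⟨g1', g2', g3', g4', g5', g6'⟩ := cell_facts hn'.1.1 hn'.2.1
    have h' : S^[J] (cellCore n) = S^[J] (cellCore n') := h
    rw [h'] at g6
    have h5 : 5 ^ J * cellCore n = 5 ^ J * cellCore n' := by omega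
    have h6 := Nat.eq_of_mul_eq_mul_left (by positivity) h5
    rw [g2, g2', h6]
  have h1 : (T.filter (fun n => S^[J] (cellCore n) ≤ m₀)).card ≤ m₀ + 1 := by
    have : (T.filter (fun n => S^[J] (cellCore n) ≤ m₀)).card ≤ (Finset.range (m₀ + 1)).card := by
      apply Finset.card_le_card_of_injOn (fun n => S^[J] (cellCore n))
      · intro n hn
        rw [Finset.mem_coe, Finset.mem_filter] at hn
        rw [Finset.mem_coe, Finset.mem_range]
        have := hn.2
        show S^[J] (cellCore n) < m₀ + 1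
        omega
      · exact hinj.mono (by intro x hx; rw [Finset.mem_coe, Finset.mem_filter] at hx; exact hx.1)
    rwa [Finset.card_range] at this
  have h2 : (T.filter (fun n => ¬ S^[J] (cellCore n) ≤ m₀)).card ≤
      starCount s B c b (cellM J α β v N) := by
    unfold starCount
    apply Finset.card_le_card_of_injOn (fun n => S^[J] (cellCore n))
    · intro n hn
      rw [Finset.mem_coe, Finset.mem_filter, hT, Finset.mem_filter, Finset.mem_Icc] at hn
      obtain ⟨⟨⟨hn1, hnN⟩, hx, hnB⟩, hbig⟩ := hn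
      obtain ⟨g1, g2, g3, g4, g5, g6⟩ := cell_facts hn1 hx
      have hU := U_iter g1 J
      rw [Finset.mem_coe, Finset.mem_filter, Finset.mem_Icc]
      have hmi := cell_mem_iff hB g1 (J := J) (by rw [g4]; omega)
      have hcore : cellCore n ≤ N / (2 ^ α * 3 ^ β) := by
        rw [Nat.le_div_iff_mul_le (by positivity), mul_comm]
        omega
      refine ⟨⟨?_, ?_⟩, hU, g3, g5, ?_⟩
      · have := hU.1
        show 1 ≤ S^[J] (cellCore n)
        omega
      · show S^[J] (cellCore n) ≤ cellM J α β v N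
        unfold cellM
        rw [Nat.le_div_iff_mul_le (D_pos v), mul_comm, ← g6]
        have := Nat.mul_le_mul_left (5 ^ J) hcore
        omega
      · rw [← hmi.2, ← core_iff hB g1.1 hmi.1 α β, ← g2]
        exact hnB
    · exact hinj.mono (by intro x hx; rw [Finset.mem_coe, Finset.mem_filter] at hx; exact hx.1)
  rw [hsplit]
  omega

lemma starCount_le (hB : ∀ n > n₀, (n ∈ B ↔ kak n ∈ B)) (hv : v ∈ W Λ J c) (hs : J ≤ s)
    (hb : D v * b ≡ cnum v [MOD 5 ^ J]) (N : ℕ) :
    starCount s B c b (cellM J α β v N) ≤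
      cellCount J s B (α, β, c, v, b) N + (5 ^ J * n₀ + cnum v + 1) := by
  classical
  unfold starCount
  set T := (Finset.Icc 1 (cellM J α β v N)).filter
    (fun n => U n ∧ cl n = c ∧ n % 5 ^ s = b ∧ n ∈ B) with hT
  set m₀ := 5 ^ J * n₀ + cnum v with hm₀
  have hsplit : T.card = (T.filter (fun n => n ≤ m₀)).card + (T.filter (fun n => ¬ n ≤ m₀)).card :=
    (Finset.card_filter_add_card_filter_not _).symm
  have h1 : (T.filter (fun n => n ≤ m₀)).card ≤ m₀ + 1 := by
    have : (T.filter (fun n => n ≤ m₀)).card ≤ (Finset.range (m₀ + 1)).card := by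
      apply Finset.card_le_card
      intro n hn
      rw [Finset.mem_filter] at hn
      rw [Finset.mem_range]
      omega
    rwa [Finset.card_range] at this
  -- the inverse map
  have hback : ∀ m, m₀ < m → U m → cl m = c → m % 5 ^ s = b →
      5 ^ J * ((D v * m - cnum v) / 5 ^ J) + cnum v = D v * m := by
    intro m hm hU hc hmb
    have h3 : cnum v ≤ D v * m := by
      have := Nat.le_mul_of_pos_left m (D_pos v)
      omega
    have h4 : 5 ^ J ∣ D v * m - cnum v := by
      rw [← Nat.modEq_iff_dvd' h3]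
      have h5 : m ≡ b [MOD 5 ^ J] := by
        have h6 : m ≡ b [MOD 5 ^ s] := by
          rw [← hmb]
          exact (Nat.mod_modEq m _).symm
        exact h6.of_dvd (pow_dvd_pow 5 hs)
      exact hb.symm.trans (Nat.ModEq.mul_left _ h5.symm)
    rw [Nat.mul_div_cancel' h4]
    omega
  have h2 : (T.filter (fun n => ¬ n ≤ m₀)).card ≤ cellCount J s B (α, β, c, v, b) N := by
    unfold cellCount
    apply Finset.card_le_card_of_injOn (fun m => 2 ^ α * 3 ^ β * ((D v * m - cnum v) / 5 ^ J))
    · intro m hm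
      rw [Finset.mem_coe, Finset.mem_filter, hT, Finset.mem_filter, Finset.mem_Icc] at hm
      obtain ⟨⟨⟨hm1, hmM⟩, hU, hc, hmb, hmB⟩, hbig⟩ := hm
      push Not at hbig
      have he := hback m hbig hU hc hmb
      set n' := (D v * m - cnum v) / 5 ^ J with hn'
      have hcv := conv hU (by rw [hc]; exact hv) he
      obtain ⟨c1, c2, c3, c4⟩ := hcv
      rw [Finset.mem_coe, Finset.mem_filter, Finset.mem_Icc]
      have hmi := cell_mem_iff hB c1 (J := J) (by rw [c4, c3]; omega)
      have hval := cell_val (a := α) (b := β) c1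
      have hcore := cellCore_of (a := α) (b := β) c1
      refine ⟨⟨?_, ?_⟩, ?_, ?_⟩
      · have := c1.1
        have h7 : 1 ≤ n' := by omega
        show 1 ≤ 2 ^ α * 3 ^ β * n'
        exact Nat.mul_pos (by positivity) h7
      · show 2 ^ α * 3 ^ β * n' ≤ N
        have h8 : D v * m ≤ 5 ^ J * (N / (2 ^ α * 3 ^ β)) + cnum v := by
          unfold cellM at hmM
          rw [Nat.le_div_iff_mul_le (D_pos v)] at hmM
          rw [mul_comm]
          exact hmM
        have h9 : 5 ^ J * n' ≤ 5 ^ J * (N / (2 ^ α * 3 ^ β)) := by omega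
        have h10 : n' ≤ N / (2 ^ α * 3 ^ β) := Nat.le_of_mul_le_mul_left h9 (by positivity)
        rw [Nat.le_div_iff_mul_le (by positivity)] at h10
        rw [mul_comm]
        exact h10
      · show cellOf J s (2 ^ α * 3 ^ β * n') = _
        unfold cellOf
        rw [hval.1, hval.2, hcore, c3, c4, hc, hmb]
      · show 2 ^ α * 3 ^ β * n' ∈ B
        rw [core_iff hB c1.1 hmi.1 α β, hmi.2, c3]
        exact hmB
    · intro m hm m' hm' h
      rw [Finset.mem_coe, Finset.mem_filter, hT, Finset.mem_filter, Finset.mem_Icc] at hm hm'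
      obtain ⟨⟨⟨hm1, hmM⟩, hU, hc, hmb, hmB⟩, hbig⟩ := hm
      obtain ⟨⟨⟨hm1', hmM'⟩, hU', hc', hmb', hmB'⟩, hbig'⟩ := hm'
      push Not at hbig hbig'
      have he := hback m hbig hU hc hmb
      have he' := hback m' hbig' hU' hc' hmb'
      have h3 : (D v * m - cnum v) / 5 ^ J = (D v * m' - cnum v) / 5 ^ J :=
        Nat.eq_of_mul_eq_mul_left (by positivity) h
      rw [h3, he'] at he
      exact Nat.eq_of_mul_eq_mul_left (D_pos v) he.symm
  rw [hsplit]
  omega

end

end K5.ID
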