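import Pool.Agent.Lib.MP_a4658c_nt.ID.CellA
import Pool.Agent.Lib.MP_a4658c_nt.K5.K1
import Pool.Agent.Lib.MP_a4658c_nt.K5.S1
import Pool.Agent.Lib.MP_a4658c_nt.K5.S3

/-!
MP_a4658c_nt, piece CELLS, part B: the density of an invariant set in a cell, residues of a cell,
and the total mass of the cells.
-/

set_option autoImplicit false

open Filter Topology

namespace K5.ID

open K5

section
variable {J s n₀ α β b Λ : ℕ} {c : Bool} {v : List Let} {B : Set ℕ}

lemma cellM_upper (N : ℕ) :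
    (cellM J α β v N : ℝ) * ((2 ^ α * 3 ^ β : ℕ) * D v) ≤
      5 ^ J * N + (2 ^ α * 3 ^ β : ℕ) * cnum v := by
  set P := 2 ^ α * 3 ^ β with hP
  have hP0 : 0 < P := by positivity
  have h1 : cellM J α β v N * D v ≤ 5 ^ J * (N / P) + cnum v := Nat.div_mul_le_self _ _
  have h2 : P * (N / P) ≤ N := Nat.mul_div_le N P
  have h3 : cellM J α β v N * (P * D v) ≤ 5 ^ J * N + P * cnum v := by
    calc cellM J α β v N * (P * D v) = P * (cellM J α β v N * D v) := by ring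
      _ ≤ P * (5 ^ J * (N / P) + cnum v) := Nat.mul_le_mul_left _ h1
      _ = 5 ^ J * (P * (N / P)) + P * cnum v := by ring
      _ ≤ 5 ^ J * N + P * cnum v := by
        have := Nat.mul_le_mul_left (5 ^ J) h2
        omega
  exact_mod_cast h3

lemma cellM_lower (N : ℕ) :
    (5 : ℝ) ^ J * N ≤ (cellM J α β v N : ℝ) * ((2 ^ α * 3 ^ β : ℕ) * D v) +
      ((2 ^ α * 3 ^ β : ℕ) * D v + 5 ^ J * (2 ^ α * 3 ^ β : ℕ)) := by
  set P := 2 ^ α * 3 ^ β with hP
  have hP0 : 0 < P := by positivity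
  have h1 : 5 ^ J * (N / P) + cnum v < D v * (cellM J α β v N + 1) :=
    Nat.lt_mul_div_succ _ (D_pos v)
  have h2 : N < P * (N / P + 1) := Nat.lt_mul_div_succ _ hP0
  have h3 : 5 ^ J * N ≤ cellM J α β v N * (P * D v) + (P * D v + 5 ^ J * P) := by
    calc 5 ^ J * N ≤ 5 ^ J * (P * (N / P + 1)) := Nat.mul_le_mul_left _ h2.le
      _ = P * (5 ^ J * (N / P)) + 5 ^ J * P := by ring
      _ ≤ P * (D v * (cellM J α β v N + 1)) + 5 ^ J * P := by
        have : 5 ^ J * (N / P) ≤ D v * (cellM J α β v N + 1) := by omega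
        have := Nat.mul_le_mul_left P this
        omega
      _ = cellM J α β v N * (P * D v) + (P * D v + 5 ^ J * P) := by ring
  exact_mod_cast h3

lemma cellM_ratio : Tendsto (fun N : ℕ => (cellM J α β v N : ℝ) / N) atTop
    (𝓝 (5 ^ J / ((2 ^ α * 3 ^ β : ℕ) * D v))) := by
  set P := 2 ^ α * 3 ^ β with hP
  have hP0 : (0 : ℝ) < (P : ℝ) := by
    have : 0 < P := by positivity
    exact_mod_cast this
  have hD0 : (0 : ℝ) < (D v : ℝ) := by exact_mod_cast D_pos v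
  have hPD : (0 : ℝ) < (P : ℝ) * D v := by positivity
  have hone : Tendsto (fun N : ℕ => (1 : ℝ) / (N : ℝ)) atTop (𝓝 0) :=
    tendsto_one_div_atTop_nhds_zero_nat
  have hlo : Tendsto (fun N : ℕ => 5 ^ J / ((P : ℝ) * D v) -
      ((P : ℝ) * D v + 5 ^ J * P) / (P * D v) * (1 / (N : ℝ))) atTop
      (𝓝 (5 ^ J / ((P : ℝ) * D v))) := by
    have := (tendsto_const_nhds (x := 5 ^ J / ((P : ℝ) * D v)) (f := atTop (α := ℕ))).sub
      (hone.const_mul (((P : ℝ) * D v + 5 ^ J * P) / (P * D v)))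
    rw [mul_zero, sub_zero] at this
    exact this
  have hup : Tendsto (fun N : ℕ => 5 ^ J / ((P : ℝ) * D v) +
      ((P : ℝ) * cnum v) / (P * D v) * (1 / (N : ℝ))) atTop
      (𝓝 (5 ^ J / ((P : ℝ) * D v))) := by
    have := (tendsto_const_nhds (x := 5 ^ J / ((P : ℝ) * D v)) (f := atTop (α := ℕ))).add
      (hone.const_mul (((P : ℝ) * cnum v) / (P * D v)))
    rw [mul_zero, add_zero] at this
    exact this
  refine tendsto_of_tendsto_of_tendsto_of_le_of_le' hlo hup ?_ ?_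
  · filter_upwards [eventually_ge_atTop 1] with N hN
    have hN0 : (0 : ℝ) < N := by exact_mod_cast hN
    have h1 := cellM_lower (J := J) (α := α) (β := β) (v := v) N
    rw [← hP] at h1
    rw [le_div_iff₀ hN0]
    have e : (5 ^ J / ((P : ℝ) * D v) - ((P : ℝ) * D v + 5 ^ J * P) / (P * D v) * (1 / (N : ℝ))) * N
        = (5 ^ J * N - ((P : ℝ) * D v + 5 ^ J * P)) / (P * D v) := by
      field_simp
    rw [e, div_le_iff₀ hPD]
    linarith
  · filter_upwards [eventually_ge_atTop 1] with N hN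
    have hN0 : (0 : ℝ) < N := by exact_mod_cast hN
    have h1 := cellM_upper (J := J) (α := α) (β := β) (v := v) N
    rw [← hP] at h1
    rw [div_le_iff₀ hN0]
    have e : (5 ^ J / ((P : ℝ) * D v) + ((P : ℝ) * cnum v) / (P * D v) * (1 / (N : ℝ))) * N
        = (5 ^ J * N + (P : ℝ) * cnum v) / (P * D v) := by
      field_simp
    rw [e, le_div_iff₀ hPD]
    linarith

lemma cellM_atTop : Tendsto (fun N : ℕ => cellM J α β v N) atTop atTop := by
  have h1 := cellM_ratio (J := J) (α := α) (β := β) (v := v)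
  have hpos : (0 : ℝ) < 5 ^ J / ((2 ^ α * 3 ^ β : ℕ) * D v) := by
    have hD0 : (0 : ℝ) < (D v : ℝ) := by exact_mod_cast D_pos v
    have : 0 < 2 ^ α * 3 ^ β := by positivity
    have hP0 : (0 : ℝ) < ((2 ^ α * 3 ^ β : ℕ) : ℝ) := by exact_mod_cast this
    positivity
  have h2 : Tendsto (fun N : ℕ => (cellM J α β v N : ℝ) / N * N) atTop atTop :=
    h1.pos_mul_atTop hpos tendsto_natCast_atTop_atTop
  have h3 : Tendsto (fun N : ℕ => (cellM J α β v N : ℝ)) atTop atTop := by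
    refine h2.congr' ?_
    filter_upwards [eventually_ge_atTop 1] with N hN
    have hN0 : (0 : ℝ) < N := by exact_mod_cast hN
    field_simp
  exact tendsto_natCast_atTop_iff.1 h3

lemma starCount_zero : starCount s B c b 0 = 0 := by
  unfold starCount
  rw [Finset.Icc_eq_empty (by norm_num), Finset.filter_empty, Finset.card_empty]

/-- density of an invariant set in a cell -/
lemma cell_tendsto {L : ℝ} (hB : ∀ n > n₀, (n ∈ B ↔ kak n ∈ B)) (hv : v ∈ W Λ J c) (hs : J ≤ s)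
    (hb : D v * b ≡ cnum v [MOD 5 ^ J])
    (hL : Tendsto (fun M : ℕ => (starCount s B c b M : ℝ) / M) atTop (𝓝 L)) :
    Tendsto (fun N : ℕ => (cellCount J s B (α, β, c, v, b) N : ℝ) / N) atTop
      (𝓝 (L * (5 ^ J / ((2 ^ α * 3 ^ β : ℕ) * D v)))) := by
  set K : ℕ := 5 ^ J * n₀ + cnum v + 1 with hK
  have hmain : Tendsto (fun N : ℕ => (starCount s B c b (cellM J α β v N) : ℝ) / N) atTop
      (𝓝 (L * (5 ^ J / ((2 ^ α * 3 ^ β : ℕ) * D v)))) := by
    have h1 : Tendsto (fun N : ℕ => (starCount s B c b (cellM J α β v N) : ℝ) /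
        (cellM J α β v N : ℕ)) atTop (𝓝 L) := hL.comp cellM_atTop
    refine (h1.mul (cellM_ratio (J := J) (α := α) (β := β) (v := v))).congr (fun N => ?_)
    rcases Nat.eq_zero_or_pos (cellM J α β v N) with h | h
    · rw [h, starCount_zero]
      simp
    · have h0 : (0 : ℝ) < (cellM J α β v N : ℕ) := by exact_mod_cast h
      rw [div_mul_div_cancel₀ h0.ne']
  have hKN : Tendsto (fun N : ℕ => (K : ℝ) * (1 / (N : ℝ))) atTop (𝓝 0) := by
    have := (tendsto_one_div_atTop_nhds_zero_nat (𝕜 := ℝ)).const_mul (K : ℝ)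
    rwa [mul_zero] at this
  have hlo := hmain.sub hKN
  have hup := hmain.add hKN
  rw [sub_zero] at hlo
  rw [add_zero] at hup
  refine tendsto_of_tendsto_of_tendsto_of_le_of_le hlo hup (fun N => ?_) (fun N => ?_)
  · have h1 := starCount_le (α := α) (β := β) hB hv hs hb N
    rw [← hK] at h1
    have h2 : (starCount s B c b (cellM J α β v N) : ℝ) ≤
        (cellCount J s B (α, β, c, v, b) N : ℝ) + K := by exact_mod_cast h1
    show (starCount s B c b (cellM J α β v N) : ℝ) / N - K * (1 / (N : ℝ)) ≤ _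
    rw [mul_one_div, ← sub_div]
    exact div_le_div_of_nonneg_right (by linarith) (Nat.cast_nonneg N)
  · have h1 := cellCount_le (J := J) (s := s) (c := c) (v := v) (b := b) (α := α) (β := β) hB N
    rw [← hK] at h1
    have h2 : (cellCount J s B (α, β, c, v, b) N : ℝ) ≤
        (starCount s B c b (cellM J α β v N) : ℝ) + K := by exact_mod_cast h1
    show _ ≤ (starCount s B c b (cellM J α β v N) : ℝ) / N + K * (1 / (N : ℝ))
    rw [mul_one_div, ← add_div]
    exact div_le_div_of_nonneg_right h2 (Nat.cast_nonneg N)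

lemma length_le_sA (hv : v ∈ W Λ J c) : J ≤ sA v := by
  induction J generalizing c v with
  | zero => exact Nat.zero_le _
  | succ J ih =>
    rw [mem_W_succ] at hv
    obtain ⟨l, hl, w, hw, rfl⟩ := hv
    rw [mem_L] at hl
    rw [sA_cons]
    have := ih hw
    have := hl.1.1
    omega

/-- all elements of a cell have the same residue -/
lemma cell_residue {i j l : ℕ} (hv : v ∈ W Λ J c) (hi : i ≤ J) (hj : j ≤ sB v)
    {n₁ n₂ : ℕ} (h1 : 1 ≤ n₁) (h2 : 1 ≤ n₂) (hx1 : cellOf J (J + l) n₁ = (α, β, c, v, b))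
    (hx2 : cellOf J (J + l) n₂ = (α, β, c, v, b)) :
    n₁ ≡ n₂ [MOD 2 ^ i * 3 ^ j * 5 ^ l] := by
  obtain ⟨-, g2, -, -, g5, g6⟩ := cell_facts h1 hx1
  obtain ⟨-, g2', -, -, g5', g6'⟩ := cell_facts h2 hx2
  have h3 : S^[J] (cellCore n₁) ≡ S^[J] (cellCore n₂) [MOD 5 ^ (J + l)] := by
    unfold Nat.ModEq
    rw [g5, g5']
  have h4 : D v * S^[J] (cellCore n₁) ≡ D v * S^[J] (cellCore n₂) [MOD D v * 5 ^ (J + l)] :=
    Nat.ModEq.mul_left' _ h3
  rw [← g6, ← g6'] at h4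
  have h5 : 5 ^ J * cellCore n₁ ≡ 5 ^ J * cellCore n₂ [MOD D v * 5 ^ (J + l)] :=
    Nat.ModEq.add_right_cancel' _ h4
  have e : D v * 5 ^ (J + l) = 5 ^ J * (D v * 5 ^ l) := by
    rw [pow_add]
    ring
  rw [e] at h5
  have h6 : cellCore n₁ ≡ cellCore n₂ [MOD D v * 5 ^ l] :=
    Nat.ModEq.mul_left_cancel' (by positivity) h5
  have h7 : 2 ^ i * 3 ^ j * 5 ^ l ∣ D v * 5 ^ l := by
    apply Nat.mul_dvd_mul_right
    rw [D_eq]
    exact Nat.mul_dvd_mul (pow_dvd_pow 2 (hi.trans (length_le_sA hv))) (pow_dvd_pow 3 hj)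
  rw [g2, g2']
  exact Nat.ModEq.mul_left _ (h6.of_dvd h7)

end

/-! ### masses -/

lemma word_two (Λ J : ℕ) (c : Bool) :
    ∑ w ∈ W Λ J c, 1 / (D w : ℝ) * K5.v (endc c w) * (1 / 2) ^ sB w ≤ 0.7 ^ J * K5.v c := by
  induction J generalizing c with
  | zero => rw [sum_W_zero]; simp
  | succ J ih =>
    rw [sum_W_succ]
    calc ∑ l ∈ L Λ c, ∑ w ∈ W Λ J (nx l),
          1 / (D (l :: w) : ℝ) * K5.v (endc c (l :: w)) * (1 / 2) ^ sB (l :: w)
        = ∑ l ∈ L Λ c, kap l * (1 / 2) ^ l.2 *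
          ∑ w ∈ W Λ J (nx l), 1 / (D w : ℝ) * K5.v (endc (nx l) w) * (1 / 2) ^ sB w := by
          refine Finset.sum_congr rfl fun l _ => ?_
          rw [Finset.mul_sum]
          refine Finset.sum_congr rfl fun w _ => ?_
          rw [D_cons, endc_cons, sB_cons, pow_add]
          unfold kap
          push_cast
          rw [← one_div_mul_one_div]
          ring
      _ ≤ ∑ l ∈ L Λ c, kap l * (1 / 2) ^ l.2 * (0.7 ^ J * K5.v (nx l)) := by
          refine Finset.sum_le_sum fun l _ => ?_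
          have := kap_pos l
          exact mul_le_mul_of_nonneg_left (ih (nx l)) (by positivity)
      _ = 0.7 ^ J * ∑ l ∈ L Λ c, kap l * K5.v (nx l) * (1 / 2) ^ l.2 := by
          rw [Finset.mul_sum]
          refine Finset.sum_congr rfl fun l _ => ?_
          ring
      _ ≤ 0.7 ^ J * (0.7 * K5.v c) :=
          mul_le_mul_of_nonneg_left (sum_L_two Λ c) (by positivity)
      _ = 0.7 ^ (J + 1) * K5.v c := by ring

lemma word_small (Λ J j : ℕ) (c : Bool) :
    ∑ w ∈ (W Λ J c).filter (fun w => ¬ j ≤ sB w), 1 / (D w : ℝ) ≤ 2 ^ j * 0.7 ^ J * (4 / 3) := by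
  have h1 : ∑ w ∈ (W Λ J c).filter (fun w => ¬ j ≤ sB w), 1 / (D w : ℝ) ≤
      ∑ w ∈ (W Λ J c).filter (fun w => ¬ j ≤ sB w),
        2 ^ j * (1 / 3) * (1 / (D w : ℝ) * K5.v (endc c w) * (1 / 2) ^ sB w) := by
    refine Finset.sum_le_sum fun w hw => ?_
    rw [Finset.mem_filter] at hw
    have h2 : sB w ≤ j := by omega
    have h3 := v_ge (endc c w)
    have h4 : (0 : ℝ) < D w := by exact_mod_cast D_pos w
    have h5 : (1 / 2 : ℝ) ^ j ≤ (1 / 2) ^ sB w :=
      pow_le_pow_of_le_one (by norm_num) (by norm_num) h2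
    have h6 : (2 : ℝ) ^ j * (1 / 2) ^ j = 1 := by rw [← mul_pow]; norm_num
    have h7 : (1 : ℝ) ≤ 2 ^ j * (1 / 2) ^ sB w :=
      h6.symm.le.trans (mul_le_mul_of_nonneg_left h5 (by positivity))
    have h8 : (1 : ℝ) ≤ (1 / 3) * K5.v (endc c w) := by linarith
    calc 1 / (D w : ℝ) = 1 / (D w : ℝ) * (1 * 1) := by ring
      _ ≤ 1 / (D w : ℝ) * ((1 / 3) * K5.v (endc c w) * (2 ^ j * (1 / 2) ^ sB w)) := by
        apply mul_le_mul_of_nonneg_left _ (by positivity)
        exact mul_le_mul h8 h7 (by norm_num) (by linarith)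
      _ = _ := by ring
  refine h1.trans ?_
  rw [← Finset.mul_sum]
  have h2 : ∑ w ∈ (W Λ J c).filter (fun w => ¬ j ≤ sB w),
      1 / (D w : ℝ) * K5.v (endc c w) * (1 / 2) ^ sB w ≤ 0.7 ^ J * K5.v c := by
    refine le_trans ?_ (word_two Λ J c)
    apply Finset.sum_le_sum_of_subset_of_nonneg (Finset.filter_subset _ _)
    intro w _ _
    have := v_pos (endc c w)
    positivity
  calc 2 ^ j * (1 / 3 : ℝ) * _ ≤ 2 ^ j * (1 / 3) * (0.7 ^ J * K5.v c) :=
        mul_le_mul_of_nonneg_left h2 (by positivity)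
    _ ≤ 2 ^ j * (1 / 3) * (0.7 ^ J * 4) := by
        apply mul_le_mul_of_nonneg_left _ (by positivity)
        exact mul_le_mul_of_nonneg_left (v_le c) (by positivity)
    _ = 2 ^ j * 0.7 ^ J * (4 / 3) := by ring

lemma word_total (Λ J : ℕ) (hΛ : 1 ≤ Λ) :
    2 * (1 - J * (2 * (1 / 2 : ℝ) ^ Λ)) ≤ ∑ c : Bool, ∑ w ∈ W Λ J c, 1 / (D w : ℝ) := by
  have h1 : ∑ c : Bool, ∑ w ∈ W Λ J c, 1 / (D w : ℝ) = ∑ c' : Bool, ∑ c : Bool,
      ∑ w ∈ (W Λ J c).filter (fun w => endc c w = c'), 1 / (D w : ℝ) := by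
    rw [Finset.sum_comm]
    refine Finset.sum_congr rfl fun c _ => ?_
    rw [Finset.sum_fiberwise]
  rw [h1, Fintype.sum_bool]
  have h2 := col_ge Λ J hΛ true
  have h3 := col_ge Λ J hΛ false
  linarith

lemma word_good (Λ J j : ℕ) (hΛ : 1 ≤ Λ) :
    2 * (1 - J * (2 * (1 / 2 : ℝ) ^ Λ)) - 2 * (2 ^ j * 0.7 ^ J * (4 / 3)) ≤
      ∑ c : Bool, ∑ w ∈ (W Λ J c).filter (fun w => j ≤ sB w), 1 / (D w : ℝ) := by
  have h1 := word_total Λ J hΛ
  have h2 : ∀ c : Bool, ∑ w ∈ W Λ J c, 1 / (D w : ℝ) =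
      ∑ w ∈ (W Λ J c).filter (fun w => j ≤ sB w), 1 / (D w : ℝ) +
      ∑ w ∈ (W Λ J c).filter (fun w => ¬ j ≤ sB w), 1 / (D w : ℝ) := fun c =>
    (Finset.sum_filter_add_sum_filter_not _ _ _).symm
  rw [Fintype.sum_bool, h2 true, h2 false] at h1
  rw [Fintype.sum_bool]
  have h3 := word_small Λ J j true
  have h4 := word_small Λ J j false
  linarith

/-- choice of `J` and `Λ` -/
lemma word_choice (i j : ℕ) {η : ℝ} (hη : 0 < η) : ∃ J Λ : ℕ, i ≤ J ∧
    2 - η ≤ ∑ c : Bool, ∑ w ∈ (W Λ J c).filter (fun w => j ≤ sB w), 1 / (D w : ℝ) := by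
  have h1 : Tendsto (fun J : ℕ => 2 * (2 ^ j * (0.7 : ℝ) ^ J * (4 / 3))) atTop (𝓝 0) := by
    have := (tendsto_pow_atTop_nhds_zero_of_lt_one (r := (0.7 : ℝ)) (by norm_num)
      (by norm_num)).const_mul (2 * 2 ^ j * (4 / 3 : ℝ))
    rw [mul_zero] at this
    exact this.congr fun J => by ring
  obtain ⟨J, hJ1, hJ2⟩ := ((h1.eventually_lt_const (half_pos hη)).and
    (eventually_ge_atTop i)).exists
  have h2 : Tendsto (fun Λ : ℕ => 2 * (J * (2 * (1 / 2 : ℝ) ^ Λ))) atTop (𝓝 0) := by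
    have := (tendsto_pow_atTop_nhds_zero_of_lt_one (r := (1 / 2 : ℝ)) (by norm_num)
      (by norm_num)).const_mul (4 * (J : ℝ))
    rw [mul_zero] at this
    exact this.congr fun Λ => by ring
  obtain ⟨Λ, hΛ1, hΛ2⟩ := ((h2.eventually_lt_const (half_pos hη)).and
    (eventually_ge_atTop 1)).exists
  refine ⟨J, Λ, hJ2, ?_⟩
  have := word_good Λ J j hΛ2
  linarith

/-- choice of `H` -/
lemma pow_choice {η : ℝ} (hη : 0 < η) : ∃ H : ℕ,
    3 - η ≤ ∑ α ∈ Finset.range H, ∑ β ∈ Finset.range H, 1 / ((2 ^ α * 3 ^ β : ℕ) : ℝ) := by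
  have h2 : Tendsto (fun H : ℕ => ∑ α ∈ Finset.range H, (1 / 2 : ℝ) ^ α) atTop (𝓝 2) := by
    have := (hasSum_geometric_of_lt_one (r := (1 / 2 : ℝ)) (by norm_num)
      (by norm_num)).tendsto_sum_nat
    convert this using 2
    norm_num
  have h3 : Tendsto (fun H : ℕ => ∑ β ∈ Finset.range H, (1 / 3 : ℝ) ^ β) atTop (𝓝 (3 / 2)) := by
    have := (hasSum_geometric_of_lt_one (r := (1 / 3 : ℝ)) (by norm_num)
      (by norm_num)).tendsto_sum_nat
    convert this using 2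
    norm_num
  have h4 := h2.mul h3
  have h5 : (3 : ℝ) - η < 2 * (3 / 2) := by linarith
  obtain ⟨H, hH⟩ := (h4.eventually_const_lt h5).exists
  refine ⟨H, hH.le.trans (le_of_eq ?_)⟩
  rw [Finset.sum_mul_sum]
  refine Finset.sum_congr rfl fun α _ => Finset.sum_congr rfl fun β _ => ?_
  push_cast
  rw [one_div_pow, one_div_pow, one_div_mul_one_div]

end K5.ID
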