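import Pool.Agent.Lib.MP_a4658c_nt.ID.CellB

/-!
MP_a4658c_nt, piece CELLS: from equidistribution modulo the powers of 5 in the two classes prime to
6 to all residue classes to 5-smooth moduli.
-/

set_option autoImplicit false

open Filter Topology

namespace K5.ID

open K5

lemma cong_count (v : List Let) (J l : ℕ) : 5 ^ l ≤
    ((Finset.range (5 ^ (J + l))).filter (fun b => D v * b ≡ cnum v [MOD 5 ^ J])).card := by
  have hcop : Nat.Coprime (D v) (5 ^ J) := by
    rw [D_eq]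
    apply Nat.Coprime.mul_left
    · exact Nat.Coprime.pow _ _ (by norm_num)
    · exact Nat.Coprime.pow _ _ (by norm_num)
  obtain ⟨k, hk1, hk2⟩ := Nat.chineseRemainder hcop 0 (cnum v)
  obtain ⟨b₁, hb₁⟩ := Nat.modEq_zero_iff_dvd.1 hk1
  have hb₀ : D v * (b₁ % 5 ^ J) ≡ cnum v [MOD 5 ^ J] := by
    refine ((Nat.mod_modEq b₁ (5 ^ J)).mul_left (D v)).trans ?_
    rw [← hb₁]
    exact hk2
  have hlt : b₁ % 5 ^ J < 5 ^ J := Nat.mod_lt _ (by positivity)
  set b₀ := b₁ % 5 ^ J with hb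
  calc 5 ^ l = (Finset.range (5 ^ l)).card := (Finset.card_range _).symm
    _ ≤ _ := by
      apply Finset.card_le_card_of_injOn (fun t => b₀ + 5 ^ J * t)
      · intro t ht
        rw [Finset.mem_coe, Finset.mem_range] at ht
        rw [Finset.mem_coe, Finset.mem_filter, Finset.mem_range]
        constructor
        · show b₀ + 5 ^ J * t < 5 ^ (J + l)
          rw [pow_add]
          calc b₀ + 5 ^ J * t < 5 ^ J + 5 ^ J * t := by omega
            _ = 5 ^ J * (t + 1) := by ring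
            _ ≤ 5 ^ J * 5 ^ l := Nat.mul_le_mul_left _ ht
        · show D v * (b₀ + 5 ^ J * t) ≡ cnum v [MOD 5 ^ J]
          have h1 : D v * (b₀ + 5 ^ J * t) = D v * b₀ + 5 ^ J * (D v * t) := by ring
          rw [h1]
          refine (Nat.ModEq.add_left _ (Nat.modEq_zero_iff_dvd.2 (dvd_mul_right _ _))).trans ?_
          rw [add_zero]
          exact hb₀
      · intro t _ t' _ h
        have h1 : b₀ + 5 ^ J * t = b₀ + 5 ^ J * t' := h
        exact Nat.eq_of_mul_eq_mul_left (by positivity) (Nat.add_left_cancel h1)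

/-- good cells -/
def cellValid (Λ J j l : ℕ) (x : ℕ × ℕ × Bool × List Let × ℕ) : Prop :=
  x.2.2.2.1 ∈ W Λ J x.2.2.1 ∧ j ≤ sB x.2.2.2.1 ∧
    D x.2.2.2.1 * x.2.2.2.2 ≡ cnum x.2.2.2.1 [MOD 5 ^ J]

/-- mass of a cell -/
noncomputable def cellMass (l : ℕ) (x : ℕ × ℕ × Bool × List Let × ℕ) : ℝ :=
  1 / (((2 ^ x.1 * 3 ^ x.2.1 : ℕ) : ℝ) * 6 * D x.2.2.2.1 * 5 ^ l)

lemma cellMass_nonneg (l : ℕ) (x : ℕ × ℕ × Bool × List Let × ℕ) : 0 ≤ cellMass l x := by
  unfold cellMass
  positivity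

open Classical in
/-- the index set of the cells -/
noncomputable def cellIndex (H Λ J j l : ℕ) : Finset (ℕ × ℕ × Bool × List Let × ℕ) :=
  (Finset.range H ×ˢ Finset.range H ×ˢ (Finset.univ : Finset Bool) ×ˢ
    (W Λ J true ∪ W Λ J false) ×ˢ Finset.range (5 ^ (J + l))).filter (cellValid Λ J j l)

lemma cellIndex_mass (H Λ J j l : ℕ) :
    (∑ α ∈ Finset.range H, ∑ β ∈ Finset.range H, 1 / ((2 ^ α * 3 ^ β : ℕ) : ℝ)) *
      ((1 / 6) * ∑ c : Bool, ∑ w ∈ (W Λ J c).filter (fun w => j ≤ sB w), 1 / (D w : ℝ)) ≤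
    ∑ x ∈ cellIndex H Λ J j l, cellMass l x := by
  classical
  unfold cellIndex
  rw [Finset.sum_filter, Finset.sum_product, Finset.sum_mul]
  refine Finset.sum_le_sum fun α _ => ?_
  rw [Finset.sum_product, Finset.sum_mul]
  refine Finset.sum_le_sum fun β _ => ?_
  rw [Finset.sum_product, Finset.mul_sum, Finset.mul_sum]
  refine Finset.sum_le_sum fun c _ => ?_
  rw [Finset.sum_product, Finset.mul_sum, Finset.mul_sum]
  have hsub : (W Λ J c).filter (fun w => j ≤ sB w) ⊆ W Λ J true ∪ W Λ J false := by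
    intro w hw
    rw [Finset.mem_filter] at hw
    rw [Finset.mem_union]
    cases c
    · exact Or.inr hw.1
    · exact Or.inl hw.1
  refine le_trans ?_ (Finset.sum_le_sum_of_subset_of_nonneg hsub ?_)
  · refine Finset.sum_le_sum fun w hw => ?_
    rw [Finset.mem_filter] at hw
    have h1 : ∀ b : ℕ, (if cellValid Λ J j l (α, β, c, w, b) then cellMass l (α, β, c, w, b) else 0)
        = (if D w * b ≡ cnum w [MOD 5 ^ J] then
            1 / (((2 ^ α * 3 ^ β : ℕ) : ℝ) * 6 * D w * 5 ^ l) else 0) := by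
      intro b
      have : cellValid Λ J j l (α, β, c, w, b) ↔ D w * b ≡ cnum w [MOD 5 ^ J] :=
        ⟨fun h => h.2.2, fun h => ⟨hw.1, hw.2, h⟩⟩
      rw [if_congr this rfl rfl]
      rfl
    rw [Finset.sum_congr rfl fun b _ => h1 b, ← Finset.sum_filter, Finset.sum_const,
      nsmul_eq_mul]
    have h2 := cong_count w J l
    have h3 : (5 : ℝ) ^ l ≤ (((Finset.range (5 ^ (J + l))).filter
        (fun b => D w * b ≡ cnum w [MOD 5 ^ J])).card : ℝ) := by exact_mod_cast h2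
    have hD0 : (0 : ℝ) < (D w : ℝ) := by exact_mod_cast D_pos w
    have hP : 0 < 2 ^ α * 3 ^ β := by positivity
    have hP0 : (0 : ℝ) < ((2 ^ α * 3 ^ β : ℕ) : ℝ) := by exact_mod_cast hP
    calc 1 / ((2 ^ α * 3 ^ β : ℕ) : ℝ) * ((1 / 6) * (1 / (D w : ℝ)))
        = 5 ^ l * (1 / (((2 ^ α * 3 ^ β : ℕ) : ℝ) * 6 * D w * 5 ^ l)) := by
          field_simp
      _ ≤ _ := mul_le_mul_of_nonneg_right h3 (by positivity)
  · intro w _ _
    refine Finset.sum_nonneg fun b _ => ?_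
    split_ifs
    · exact cellMass_nonneg _ _
    · exact le_rfl

lemma cells_choice (i j l : ℕ) {ε : ℝ} (hε : 0 < ε) : ∃ H Λ J : ℕ, i ≤ J ∧
    1 - ε ≤ ∑ x ∈ cellIndex H Λ J j l, cellMass l x := by
  set η : ℝ := min ε 1 with hη
  have hη0 : 0 < η := lt_min hε one_pos
  have hη1 : η ≤ 1 := min_le_right _ _
  obtain ⟨J, Λ, hJ, h1⟩ := word_choice i j hη0
  obtain ⟨H, h2⟩ := pow_choice hη0
  refine ⟨H, Λ, J, hJ, le_trans ?_ (cellIndex_mass H Λ J j l)⟩
  have h3 : (3 - η) * ((1 / 6) * (2 - η)) ≤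
      (∑ α ∈ Finset.range H, ∑ β ∈ Finset.range H, 1 / ((2 ^ α * 3 ^ β : ℕ) : ℝ)) *
      ((1 / 6) * ∑ c : Bool, ∑ w ∈ (W Λ J c).filter (fun w => j ≤ sB w), 1 / (D w : ℝ)) := by
    apply mul_le_mul h2 _ (by linarith) (by linarith)
    linarith
  refine le_trans ?_ h3
  have h4 : η ≤ ε := min_le_left _ _
  nlinarith

section
variable {A : Set ℕ} {n₀ : ℕ} {d : ℝ}

/-- the sum over cells -/
lemma cells_tendsto (hA : ∀ n > n₀, (n ∈ A ↔ kak n ∈ A)) (hS : Star A d) {Λ J j l : ℕ}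
    (I : Finset (ℕ × ℕ × Bool × List Let × ℕ))
    (hI : ∀ x ∈ I, cellValid Λ J j l x ∧ x.2.2.2.2 < 5 ^ (J + l)) :
    Tendsto (fun N : ℕ => ∑ x ∈ I, (cellCount J (J + l) A x N : ℝ) / N) atTop
      (𝓝 (d * ∑ x ∈ I, cellMass l x)) := by
  rw [Finset.mul_sum]
  refine tendsto_finset_sum _ fun x hx => ?_
  obtain ⟨α, β, c, w, b⟩ := x
  obtain ⟨⟨h1, h2, h3⟩, h4⟩ := hI _ hx
  have h5 : Tendsto (fun M : ℕ => (starCount (J + l) A c b M : ℝ) / M) atTop
      (𝓝 (d / (6 * 5 ^ (J + l)))) := by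
    have := hS c (J + l) b h4
    refine this.congr fun M => ?_
    unfold starCount
    congr
  have h6 := cell_tendsto (α := α) (β := β) hA h1 (Nat.le_add_right J l) h3 h5
  convert h6 using 2
  unfold cellMass
  have hD0 : (0 : ℝ) < (D w : ℝ) := by exact_mod_cast D_pos w
  have hP : 0 < 2 ^ α * 3 ^ β := by positivity
  have hP0 : (0 : ℝ) < ((2 ^ α * 3 ^ β : ℕ) : ℝ) := by exact_mod_cast hP
  show d * (1 / (((2 ^ α * 3 ^ β : ℕ) : ℝ) * 6 * D w * 5 ^ l)) = _
  rw [pow_add]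
  field_simp

open Classical in
lemma cells_le {J s N : ℕ} (I : Finset (ℕ × ℕ × Bool × List Let × ℕ)) (R : ℕ → Prop)
    (hR : ∀ n, 1 ≤ n → cellOf J s n ∈ I → R n) :
    ∑ x ∈ I, cellCount J s A x N ≤
      ((Finset.Icc 1 N).filter (fun n => R n ∧ n ∈ A)).card := by
  have h1 : ∑ x ∈ I, cellCount J s A x N = (I.biUnion (fun x =>
      (Finset.Icc 1 N).filter (fun n => cellOf J s n = x ∧ n ∈ A))).card := by
    rw [Finset.card_biUnion]
    · rfl
    · intro x _ y _ hxy
      rw [Function.onFun, Finset.disjoint_left]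
      intro n hn hn'
      rw [Finset.mem_filter] at hn hn'
      exact hxy (hn.2.1.symm.trans hn'.2.1)
  rw [h1]
  apply Finset.card_le_card
  intro n hn
  rw [Finset.mem_biUnion] at hn
  obtain ⟨x, hx, hn⟩ := hn
  rw [Finset.mem_filter, Finset.mem_Icc] at hn
  rw [Finset.mem_filter, Finset.mem_Icc]
  exact ⟨hn.1, hR n hn.1.1 (by rw [hn.2.1]; exact hx), hn.2.2⟩

lemma star_nonneg (hS : Star A d) : 0 ≤ d := by
  have h := hS true 0 0 (by norm_num)
  have h1 : 0 ≤ d / (6 * 5 ^ 0) := ge_of_tendsto' h fun N => by positivity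
  rw [pow_zero, mul_one] at h1
  linarith

end

lemma residue_tendsto {q a : ℕ} (hq : 1 ≤ q) (ha : a < q) :
    Tendsto (fun N : ℕ => (((Finset.Icc 1 N).filter (fun n => n % q = a)).card : ℝ) / N) atTop
      (𝓝 (1 / q)) := by
  have h1 : ∀ N : ℕ, 1 / (q : ℝ) * N - 1 ≤
      (((Finset.Icc 1 N).filter (fun n => n % q = a)).card : ℝ) := by
    intro N
    have := class_sum_ge (fun _ => 1) (fun _ => zero_le_one) (fun _ _ _ _ => le_rfl) q a N hq ha
    simpa using this
  have h2 : ∀ N : ℕ, (((Finset.Icc 1 N).filter (fun n => n % q = a)).card : ℝ) ≤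
      1 / (q : ℝ) * N + 1 := by
    intro N
    have := class_sum_le (fun _ => 1) (fun _ => zero_le_one) (fun _ _ _ _ => le_rfl) q a N hq
    simpa using this
  have hone : Tendsto (fun N : ℕ => (1 : ℝ) / (N : ℝ)) atTop (𝓝 0) :=
    tendsto_one_div_atTop_nhds_zero_nat
  have hlo := (tendsto_const_nhds (x := 1 / (q : ℝ)) (f := atTop (α := ℕ))).sub hone
  have hup := (tendsto_const_nhds (x := 1 / (q : ℝ)) (f := atTop (α := ℕ))).add hone
  rw [sub_zero] at hlo
  rw [add_zero] at hup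
  refine tendsto_of_tendsto_of_tendsto_of_le_of_le' hlo hup ?_ ?_
  · filter_upwards [eventually_ge_atTop 1] with N hN
    have hN0 : (0 : ℝ) < N := by exact_mod_cast hN
    rw [le_div_iff₀ hN0]
    have e : (1 / (q : ℝ) - 1 / (N : ℝ)) * N = 1 / (q : ℝ) * N - 1 := by field_simp
    rw [e]
    exact h1 N
  · filter_upwards [eventually_ge_atTop 1] with N hN
    have hN0 : (0 : ℝ) < N := by exact_mod_cast hN
    rw [div_le_iff₀ hN0]
    have e : (1 / (q : ℝ) + 1 / (N : ℝ)) * N = 1 / (q : ℝ) * N + 1 := by field_simp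
    rw [e]
    exact h2 N

/-- cells inside one residue class, of almost full mass -/
lemma cells_key {A : Set ℕ} {n₀ : ℕ} {d : ℝ} (hA : ∀ n > n₀, (n ∈ A ↔ kak n ∈ A))
    (hS : Star A d) (hSc : Star Aᶜ (1 - d)) (i j l a : ℕ) (ha : a < 2 ^ i * 3 ^ j * 5 ^ l) {ε : ℝ}
    (hε : 0 < ε) : ∃ (Λ J : ℕ) (I : Finset (ℕ × ℕ × Bool × List Let × ℕ)),
    (∀ x ∈ I, cellValid Λ J j l x ∧ x.2.2.2.2 < 5 ^ (J + l)) ∧
    (∀ n, 1 ≤ n → cellOf J (J + l) n ∈ I → n % (2 ^ i * 3 ^ j * 5 ^ l) = a) ∧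
    1 / ((2 ^ i * 3 ^ j * 5 ^ l : ℕ) : ℝ) - ε ≤ ∑ x ∈ I, cellMass l x := by
  classical
  obtain ⟨H, Λ, J, hJ, hmass⟩ := cells_choice i j l hε
  set q := 2 ^ i * 3 ^ j * 5 ^ l with hq
  have hq1 : 1 ≤ q := by
    have : 0 < q := by positivity
    omega
  set I := cellIndex H Λ J j l with hI
  have hIv : ∀ x ∈ I, cellValid Λ J j l x ∧ x.2.2.2.2 < 5 ^ (J + l) := by
    intro x hx
    rw [hI] at hx
    unfold cellIndex at hx
    rw [Finset.mem_filter] at hx
    refine ⟨hx.2, ?_⟩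
    have h1 := hx.1
    simp only [Finset.mem_product, Finset.mem_range] at h1
    exact h1.2.2.2.2
  set Ia := I.filter (fun x => ∃ n, 1 ≤ n ∧ cellOf J (J + l) n = x ∧ n % q = a) with hIa
  set Ib := I.filter (fun x => ¬ ∃ n, 1 ≤ n ∧ cellOf J (J + l) n = x ∧ n % q = a) with hIb
  have hab : ∑ x ∈ Ia, cellMass l x + ∑ x ∈ Ib, cellMass l x = ∑ x ∈ I, cellMass l x :=
    Finset.sum_filter_add_sum_filter_not _ _ _
  have hAc : ∀ n > n₀, (n ∈ Aᶜ ↔ kak n ∈ Aᶜ) := fun n hn => not_congr (hA n hn)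
  refine ⟨Λ, J, Ia, fun x hx => hIv x (Finset.mem_filter.1 hx).1, ?_, ?_⟩
  · intro n hn hx
    rw [hIa, Finset.mem_filter] at hx
    obtain ⟨hxI, n', hn', hx', ha'⟩ := hx
    obtain ⟨⟨h1, h2, h3⟩, h4⟩ := hIv _ hxI
    have h5 := cell_residue (α := (cellOf J (J + l) n).1) (β := (cellOf J (J + l) n).2.1)
      (b := (cellOf J (J + l) n).2.2.2.2) h1 hJ h2 hn hn' rfl hx'
    rw [← hq] at h5
    rw [← ha']
    exact h5
  · -- upper bound for the mass outside
    have hIbv : ∀ x ∈ Ib, cellValid Λ J j l x ∧ x.2.2.2.2 < 5 ^ (J + l) :=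
      fun x hx => hIv x (Finset.mem_filter.1 hx).1
    have ht1 := cells_tendsto hA hS Ib hIbv
    have ht2 := cells_tendsto hAc hSc Ib hIbv
    have ht := ht1.add ht2
    have e : d * ∑ x ∈ Ib, cellMass l x + (1 - d) * ∑ x ∈ Ib, cellMass l x =
        ∑ x ∈ Ib, cellMass l x := by ring
    rw [e] at ht
    have hout : ∀ n, 1 ≤ n → cellOf J (J + l) n ∈ Ib → ¬ n % q = a := by
      intro n hn hx h
      rw [hIb, Finset.mem_filter] at hx
      exact hx.2 ⟨n, hn, rfl, h⟩
    have hres := (tendsto_const_nhds (x := (1 : ℝ)) (f := atTop (α := ℕ))).sub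
      (residue_tendsto hq1 ha)
    have hle : ∑ x ∈ Ib, cellMass l x ≤ 1 - 1 / (q : ℝ) := by
      refine le_of_tendsto_of_tendsto ht hres ?_
      filter_upwards [eventually_ge_atTop 1] with N hN
      have hN0 : (0 : ℝ) < N := by exact_mod_cast hN
      have h1 : ∑ x ∈ Ib, cellCount J (J + l) A x N ≤
          ((Finset.Icc 1 N).filter (fun n => ¬ n % q = a ∧ n ∈ A)).card :=
        (cells_le (A := A) (J := J) (s := J + l) (N := N) Ib _ hout).trans (le_of_eq (by congr))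
      have h2 : ∑ x ∈ Ib, cellCount J (J + l) Aᶜ x N ≤
          ((Finset.Icc 1 N).filter (fun n => ¬ n % q = a ∧ n ∈ Aᶜ)).card :=
        (cells_le (A := Aᶜ) (J := J) (s := J + l) (N := N) Ib _ hout).trans (le_of_eq (by congr))
      have h3 : ((Finset.Icc 1 N).filter (fun n => ¬ n % q = a ∧ n ∈ A)).card +
          ((Finset.Icc 1 N).filter (fun n => ¬ n % q = a ∧ n ∈ Aᶜ)).card +
          ((Finset.Icc 1 N).filter (fun n => n % q = a)).card = N := by
        have g1 : ((Finset.Icc 1 N).filter (fun n => ¬ n % q = a)).card =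
            ((Finset.Icc 1 N).filter (fun n => ¬ n % q = a ∧ n ∈ A)).card +
            ((Finset.Icc 1 N).filter (fun n => ¬ n % q = a ∧ n ∈ Aᶜ)).card := by
          rw [← Finset.filter_filter, ← Finset.filter_filter]
          exact (Finset.card_filter_add_card_filter_not (fun n => n ∈ A)).symm
        have g2 : ((Finset.Icc 1 N).filter (fun n => n % q = a)).card +
            ((Finset.Icc 1 N).filter (fun n => ¬ n % q = a)).card = N := by
          rw [Finset.card_filter_add_card_filter_not]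
          simp
        omega
      have h4 : (∑ x ∈ Ib, cellCount J (J + l) A x N) + (∑ x ∈ Ib, cellCount J (J + l) Aᶜ x N) +
          ((Finset.Icc 1 N).filter (fun n => n % q = a)).card ≤ N := by omega
      have h5 : ((∑ x ∈ Ib, (cellCount J (J + l) A x N : ℝ)) +
          (∑ x ∈ Ib, (cellCount J (J + l) Aᶜ x N : ℝ)) +
          (((Finset.Icc 1 N).filter (fun n => n % q = a)).card : ℝ)) ≤ N := by exact_mod_cast h4
      show ∑ x ∈ Ib, (cellCount J (J + l) A x N : ℝ) / N +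
        ∑ x ∈ Ib, (cellCount J (J + l) Aᶜ x N : ℝ) / N ≤ _
      rw [← Finset.sum_div, ← Finset.sum_div, ← add_div, le_sub_iff_add_le, ← add_div,
        div_le_one hN0]
      exact h5
    linarith

theorem cells : Cells := by
  classical
  intro A n₀ d hA hS hSc i j l a ha
  have hd0 := star_nonneg hS
  have hd1 := star_nonneg hSc
  have hAc : ∀ n > n₀, (n ∈ Aᶜ ↔ kak n ∈ Aᶜ) := fun n hn => not_congr (hA n hn)
  have hq1 : 1 ≤ 2 ^ i * 3 ^ j * 5 ^ l := by
    have : 0 < 2 ^ i * 3 ^ j * 5 ^ l := by positivity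
    omega
  have hkey := fun {ε : ℝ} (hε : 0 < ε) => cells_key hA hS hSc i j l a ha hε
  have hres := residue_tendsto hq1 ha
  have ecast : ((2 : ℝ) ^ i * 3 ^ j * 5 ^ l) = ((2 ^ i * 3 ^ j * 5 ^ l : ℕ) : ℝ) := by push_cast; rfl
  rw [ecast]
  set q := 2 ^ i * 3 ^ j * 5 ^ l with hq
  have hq0 : (0 : ℝ) < q := by exact_mod_cast hq1
  rw [tendsto_order]
  constructor
  · intro y hy
    have hε : 0 < (d / q - y) / 2 := by linarith
    obtain ⟨Λ, J, I, h1, h2, h3⟩ := hkey hε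
    have ht := cells_tendsto hA hS I h1
    have hlt : y < d * ∑ x ∈ I, cellMass l x := by
      have h4 := mul_le_mul_of_nonneg_left h3 hd0
      have h5 : d * (1 / (q : ℝ) - (d / q - y) / 2) = d / q - d * ((d / q - y) / 2) := by ring
      have h6 : d * ((d / q - y) / 2) ≤ 1 * ((d / q - y) / 2) :=
        mul_le_mul_of_nonneg_right (by linarith) hε.le
      linarith
    filter_upwards [ht.eventually_const_lt hlt, eventually_ge_atTop 1] with N hN hN1
    have hN0 : (0 : ℝ) < N := by exact_mod_cast hN1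
    refine lt_of_lt_of_le hN ?_
    rw [← Finset.sum_div]
    apply div_le_div_of_nonneg_right _ hN0.le
    have h4 : ∑ x ∈ I, cellCount J (J + l) A x N ≤
        ((Finset.Icc 1 N).filter (fun n => n % q = a ∧ n ∈ A)).card :=
      (cells_le (A := A) (J := J) (s := J + l) (N := N) I _ h2).trans (le_of_eq (by congr))
    exact_mod_cast h4
  · intro y hy
    have hε : 0 < (y - d / q) / 2 := by linarith
    obtain ⟨Λ, J, I, h1, h2, h3⟩ := hkey hε
    have ht := cells_tendsto hAc hSc I h1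
    have htt := hres.sub ht
    have hlt : 1 / (q : ℝ) - (1 - d) * ∑ x ∈ I, cellMass l x < y := by
      have h4 := mul_le_mul_of_nonneg_left h3 hd1
      have h5 : (1 - d) * (1 / (q : ℝ) - (y - d / q) / 2) =
          1 / q - d / q - (1 - d) * ((y - d / q) / 2) := by ring
      have h6 : (1 - d) * ((y - d / q) / 2) ≤ 1 * ((y - d / q) / 2) :=
        mul_le_mul_of_nonneg_right (by linarith) hε.le
      linarith
    filter_upwards [htt.eventually_lt_const hlt, eventually_ge_atTop 1] with N hN hN1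
    have hN0 : (0 : ℝ) < N := by exact_mod_cast hN1
    refine lt_of_le_of_lt ?_ hN
    rw [← Finset.sum_div, ← sub_div]
    apply div_le_div_of_nonneg_right _ hN0.le
    have h4 : ∑ x ∈ I, cellCount J (J + l) Aᶜ x N ≤
        ((Finset.Icc 1 N).filter (fun n => n % q = a ∧ n ∈ Aᶜ)).card :=
      (cells_le (A := Aᶜ) (J := J) (s := J + l) (N := N) I _ h2).trans (le_of_eq (by congr))
    have h5 : ((Finset.Icc 1 N).filter (fun n => n % q = a)).card =
        ((Finset.Icc 1 N).filter (fun n => n % q = a ∧ n ∈ A)).card +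
        ((Finset.Icc 1 N).filter (fun n => n % q = a ∧ n ∈ Aᶜ)).card := by
      rw [← Finset.filter_filter, ← Finset.filter_filter]
      exact (Finset.card_filter_add_card_filter_not (fun n => n ∈ A)).symm
    have h6 : ((Finset.Icc 1 N).filter (fun n => n % q = a ∧ n ∈ A)).card +
        ∑ x ∈ I, cellCount J (J + l) Aᶜ x N ≤
        ((Finset.Icc 1 N).filter (fun n => n % q = a)).card := by omega
    have h7 : (((Finset.Icc 1 N).filter (fun n => n % q = a ∧ n ∈ A)).card : ℝ) +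
        ∑ x ∈ I, (cellCount J (J + l) Aᶜ x N : ℝ) ≤
        (((Finset.Icc 1 N).filter (fun n => n % q = a)).card : ℝ) := by exact_mod_cast h6
    linarith

end K5.ID
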