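import Pool.Agent.Lib.MP_a4658c_nt.ID.Defs

/-!
MP_a4658c_nt, natural density of the invariant sets of the Kakutani map: statements of two more
pieces.
-/

set_option autoImplicit false

namespace K5.ID

open K5

/-- UC, the smoothed density of a residue class mod 6 (`fP` with the predicate `True`) -/
def UC : Prop := ∃ C : ℝ, 0 < C ∧ ∀ (c : Bool) (t : ℝ), 0 ≤ t →
  |fP (fun _ => True) c t - 1 / 3| ≤ C * Real.exp (-t)

open Classical in
/-- ALLZERO, from the integers prime to 6 to all integers, for sparse sets -/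
def AllZero : Prop := ∀ (A : Set ℕ) (n₀ B : ℕ) (C : ℝ), (∀ n > n₀, (n ∈ A ↔ kak n ∈ A)) →
  (∀ N : ℕ, 1 ≤ N → (((Finset.Icc 1 N).filter (fun n => U n ∧ n ∈ A)).card : ℝ)
    ≤ C * N / (1 + Real.log N) ^ B) →
  ∃ C' : ℝ, ∀ N : ℕ, 1 ≤ N → (((Finset.Icc 1 N).filter (fun n => n ∈ A)).card : ℝ)
    ≤ C' * N / (1 + Real.log N) ^ B

end K5.ID
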