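import Pool.Agent.Lib.MP_a4658c_nt.ID.Transfer
import Pool.Agent.Lib.MP_a4658c_nt.ID.StmB

/-!
MP_a4658c_nt, natural density of the invariant sets of the Kakutani map: the smoothed densities of
an invariant predicate converge.
-/

set_option autoImplicit false

open Filter Topology

namespace K5.ID

open K5

/-- a point from which `X ≤ exp (T / 4)` -/
theorem exists_T (t₀ X : ℝ) : ∃ T : ℝ, t₀ ≤ T ∧ X ≤ Real.exp (T / 4) := by
  refine ⟨max t₀ (4 * X), le_max_left _ _, ?_⟩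
  have h1 : 4 * X ≤ max t₀ (4 * X) := le_max_right _ _
  have h2 := Real.add_one_le_exp (max t₀ (4 * X) / 4)
  linarith

theorem conv_of (hTr : Trans) (hUC : UC) (hNe : Near) (hPr : Propagate) {X : ℝ} {P : ℕ → Prop}
    (hP : Inv X P) : ∃ M : ℝ, 0 ≤ M ∧ M ≤ 1 / 3 ∧ ∀ c, Tendsto (fP P c) atTop (𝓝 M) := by
  obtain ⟨Cu, hCu, hu⟩ := hUC
  obtain ⟨t1, C1, ht1, hC1, H1⟩ := hTr 1
  obtain ⟨t2, C2, ht2, hC2, H2⟩ := hTr 2
  obtain ⟨T1, hT1, hX1⟩ := exists_T t1 X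
  obtain ⟨T2, hT2, hX2⟩ := exists_T t2 X
  have hf := TI_of hP H1 hT1 hX1
  have hg := TI_of hP.not H2 hT2 hX2
  -- the exponential is eventually small
  have hexp : ∀ ε > 0, ∃ T : ℝ, 0 ≤ T ∧ ∀ t ≥ T, Cu * Real.exp (-t) ≤ ε := by
    intro ε hε
    have h1 : Tendsto (fun t : ℝ => Cu * Real.exp (-t)) atTop (𝓝 (Cu * 0)) :=
      Real.tendsto_exp_neg_atTop_nhds_zero.const_mul Cu
    rw [mul_zero] at h1
    obtain ⟨T, hT⟩ := Filter.eventually_atTop.1 (h1.eventually (Iic_mem_nhds hε))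
    exact ⟨max T 0, le_max_right _ _, fun t ht => hT t ((le_max_left _ _).trans ht)⟩
  obtain ⟨S, hS⟩ : ∃ S : Set ℝ, S = {y | ∃ T : ℝ, ∀ t ≥ T, ∀ c, fP P c t ≤ y} := ⟨_, rfl⟩
  have hS3 : (3 : ℝ) ∈ S := by
    rw [hS]
    exact ⟨0, fun t _ c => fP_le_three P c t⟩
  have hS0 : ∀ y ∈ S, 0 ≤ y := by
    intro y hy
    rw [hS] at hy
    obtain ⟨T, hT⟩ := hy
    exact (fP_nonneg P true T).trans (hT T le_rfl true)
  have hSb : BddBelow S := ⟨0, hS0⟩
  obtain ⟨M, hM⟩ : ∃ M, M = sInf S := ⟨_, rfl⟩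
  have hM0 : 0 ≤ M := by
    rw [hM]
    exact le_csInf ⟨3, hS3⟩ hS0
  have hup : ∀ ε > 0, ∃ T : ℝ, ∀ t ≥ T, ∀ c, fP P c t ≤ M + ε := by
    intro ε hε
    obtain ⟨y, hy, hyM⟩ := exists_lt_of_csInf_lt ⟨3, hS3⟩ (show sInf S < M + ε by linarith)
    rw [hS] at hy
    obtain ⟨T, hT⟩ := hy
    exact ⟨T, fun t ht c => (hT t ht c).trans hyM.le⟩
  have hlow : ∀ ε > 0, ∀ T : ℝ, ∃ t ≥ T, ∃ c, M - ε ≤ fP P c t := by
    intro ε hε T
    by_contra hcon
    push Not at hcon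
    have h1 : M - ε ∈ S := by
      rw [hS]
      exact ⟨T, fun t ht c => (hcon t ht c).le⟩
    have h2 := csInf_le hSb h1
    linarith
  have hM3 : M ≤ 1 / 3 := by
    refine le_of_forall_pos_le_add fun ε hε => ?_
    obtain ⟨T, hT0, hT⟩ := hexp ε hε
    rw [hM]
    refine csInf_le hSb ?_
    rw [hS]
    refine ⟨T, fun t ht c => ?_⟩
    have h1 := fP_add P c t
    have h2 := fP_nonneg (fun n => ¬ P n) c t
    have h3 := (abs_le.1 (hu c t (hT0.trans ht))).2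
    have h4 := hT t ht
    linarith
  refine ⟨M, hM0, hM3, ?_⟩
  have hnear := hNe T1 C1 (fP P) hC1.le hf (fP_nonneg P) (fun c s s' h => fP_lip P c h) M hup hlow
  obtain ⟨K, κ, T, hK, hκ, hT1', H⟩ := hPr 1 le_rfl
  have Hg := H T2 C2 (fP fun n => ¬ P n) hC2.le hg (fP_nonneg _) (fP_le_three _)
  have hlow' : ∀ ε > 0, ∃ T' : ℝ, ∀ t ≥ T', ∀ c, M - ε ≤ fP P c t := by
    intro ε hε
    obtain ⟨e, he⟩ : ∃ e, e = ε / 5 := ⟨_, rfl⟩
    have he0 : 0 < e := by rw [he]; positivity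
    -- the length of the window
    obtain ⟨l, hl1, hl2⟩ : ∃ l : ℝ, T ≤ l ∧ K * Real.exp (-(κ * l)) ≤ e := by
      have h1 : Tendsto (fun l : ℝ => K * Real.exp (-(κ * l))) atTop (𝓝 (K * 0)) := by
        refine Tendsto.const_mul K ?_
        exact Real.tendsto_exp_neg_atTop_nhds_zero.comp (tendsto_id.const_mul_atTop hκ)
      rw [mul_zero] at h1
      obtain ⟨l, hl⟩ := Filter.eventually_atTop.1 (h1.eventually (Iic_mem_nhds he0))
      exact ⟨max l T, le_max_right _ _, hl _ (le_max_left _ _)⟩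
    obtain ⟨T3, hT30, hT3⟩ := hexp e he0
    obtain ⟨T0, hT0⟩ : ∃ T0, T0 = T2 + T + T3 + K * (C2 + 1) / e + |T2| := ⟨_, rfl⟩
    have hq : 0 < K * (C2 + 1) / e := by positivity
    have ha := neg_abs_le T2
    have ha2 := abs_nonneg T2
    have hT00 : 0 < T0 := by
      rw [hT0]
      linarith
    obtain ⟨s₀, hs₀, hs⟩ := hnear e he0 l (T0 + |T2|)
    have hs1 : T2 ≤ s₀ := by linarith [le_abs_self T2]
    have hs2 : T ≤ s₀ := by linarith
    have hs3 : T3 ≤ s₀ := by linarith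
    have hs4 : K * (C2 + 1) / s₀ ^ 1 ≤ e := by
      rw [pow_one, div_le_iff₀ (by linarith)]
      have h1 : K * (C2 + 1) / e ≤ s₀ := by linarith
      rw [div_le_iff₀ he0] at h1
      linarith
    have hβ : 0 ≤ 1 / 3 - M + 2 * e := by linarith
    have hw : ∀ c s, s₀ ≤ s → s ≤ s₀ + l → fP (fun n => ¬ P n) c s ≤ 1 / 3 - M + 2 * e := by
      intro c s h1 h2
      have h3 := hs c s h1 h2
      have h4 := fP_add P c s
      have h5 := (abs_le.1 (hu c s (by linarith))).2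
      have h6 := hT3 s (by linarith)
      linarith
    have hfin := Hg s₀ l (1 / 3 - M + 2 * e) hs1 hs2 hl1 hβ hw
    refine ⟨s₀, fun t ht c => ?_⟩
    have h1 := hfin c t ht
    have h4 := fP_add P c t
    have h5 := (abs_le.1 (hu c t (by linarith))).1
    have h6 := hT3 t (by linarith)
    rw [he] at *
    linarith
  intro c
  rw [Metric.tendsto_atTop]
  intro ε hε
  obtain ⟨T1', h1'⟩ := hup (ε / 2) (by linarith)
  obtain ⟨T2', h2'⟩ := hlow' (ε / 2) (by linarith)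
  refine ⟨max T1' T2', fun t ht => ?_⟩
  have h1 := h1' t ((le_max_left _ _).trans ht) c
  have h2 := h2' t ((le_max_right _ _).trans ht) c
  rw [Real.dist_eq, abs_lt]
  constructor <;> linarith

end K5.ID
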