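import Pool.Agent.Lib.MP_a4658c_nt.K5.RDefs
import Pool.Agent.Lib.MP_a4658c_nt.K5.NDefs

/-!
MP_a4658c_nt, natural density of the invariant sets of the Kakutani map: definitions.
-/

set_option autoImplicit false

namespace K5.ID

open K5

/-- `P` is invariant under the accelerated map above `X`. -/
def Inv (X : ℝ) (P : ℕ → Prop) : Prop :=
  ∀ n : ℕ, U n → X < (n : ℝ) → X < (S n : ℝ) → (P n ↔ P (S n))

open Classical in
/-- the points of `P` of class `c` in `[z₁, z₂]` -/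
noncomputable def MP (P : ℕ → Prop) (c : Bool) (N₂ : ℕ) (z₁ z₂ : ℝ) : Finset ℕ :=
  (Finset.Icc 1 N₂).filter (fun m => U m ∧ P m ∧ cl m = c ∧ z₁ ≤ (m : ℝ) ∧ (m : ℝ) ≤ z₂)

open Classical in
/-- the smoothed density of `P` in class `c`, cut off at `N` -/
noncomputable def RP (P : ℕ → Prop) (c : Bool) (N : ℕ) (x : ℝ) : ℝ :=
  ∑ n ∈ (Finset.Icc 1 N).filter (fun n => U n ∧ P n ∧ cl n = c), ker x n

open Classical in
/-- the smoothed density of `P` in class `c` at `x = exp t` -/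
noncomputable def fP (P : ℕ → Prop) (c : Bool) (t : ℝ) : ℝ :=
  ∑' n : ℕ, if 1 ≤ n ∧ U n ∧ P n ∧ cl n = c then ker (Real.exp t) n else 0

/-- length of the alphabet, for errors of size `t ^ (-A)` -/
noncomputable def LA (A : ℕ) (t : ℝ) : ℕ := (A + 2) * LL t
noncomputable def KA (A : ℕ) (t : ℝ) : ℝ := 6 ^ LA A t
noncomputable def YA (A : ℕ) (t : ℝ) : ℝ := 5 ^ kk t / KA A t ^ 3

/-- The transfer inequality for a pair of functions `h true`, `h false` of `t = log x`, with error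
`C / t ^ A`, for `t ≥ t₀`. -/
def TI (A : ℕ) (t₀ C : ℝ) (h : Bool → ℝ → ℝ) : Prop :=
  ∀ t : ℝ, t₀ ≤ t → ∀ r : ℕ, r ≤ rr t → ∀ c' : Bool,
    h c' t ≤ ∑ c₁ : Bool, ∑ w ∈ (W (LA A t) r c₁).filter
      (fun w => endc c₁ w = c' ∧ (D w : ℝ) ≤ Real.exp (t / 4)),
      1 / (D w : ℝ) * h c₁ (t + r * Real.log 5 - Real.log (D w)) + C / t ^ A

end K5.ID
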