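import Pool.Agent.Lib.MP_a4658c_nt.ID.Conv

/-!
MP_a4658c_nt, natural density of the invariant sets of the Kakutani map: the lower transfer
inequality and the pointwise bound for sets of density zero.
-/

set_option autoImplicit false

open Filter Topology

namespace K5.ID

open K5

/-- powers against the exponential -/
theorem exp_neg_le (A : ℕ) : ∃ C : ℝ, 0 < C ∧ ∀ t : ℝ, 0 < t →
    Real.exp (-(3 * t / 4)) ≤ C / t ^ A := by
  refine ⟨(A.factorial : ℝ) * (4 / 3) ^ A, by positivity, fun t ht => ?_⟩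
  have h1 := Real.pow_div_factorial_le_exp (3 * t / 4) (by positivity) A
  have hf : (0 : ℝ) < A.factorial := by exact_mod_cast A.factorial_pos
  rw [Real.exp_neg, le_div_iff₀ (by positivity), inv_mul_le_iff₀ (Real.exp_pos _)]
  rw [div_le_iff₀ hf] at h1
  have h2 : t ^ A = (3 * t / 4) ^ A * (4 / 3) ^ A := by
    rw [← mul_pow]
    congr 1
    ring
  rw [h2]
  calc (3 * t / 4) ^ A * (4 / 3) ^ A ≤ (Real.exp (3 * t / 4) * A.factorial) * (4 / 3) ^ A :=
        mul_le_mul_of_nonneg_right h1 (by positivity)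
    _ = _ := by ring

open Classical in
/-- the total mass of the words used is at most one -/
theorem mass_le (Λ r : ℕ) (c' : Bool) (E : ℝ) :
    ∑ c₁ : Bool, ∑ w ∈ (W Λ r c₁).filter (fun w => endc c₁ w = c' ∧ (D w : ℝ) ≤ E),
      1 / (D w : ℝ) ≤ 1 := by
  refine le_trans ?_ (col_le Λ r c')
  refine Finset.sum_le_sum fun c₁ _ => ?_
  refine Finset.sum_le_sum_of_subset_of_nonneg ?_ fun w _ _ => by positivity
  intro w hw
  rw [Finset.mem_filter] at hw ⊢
  exact ⟨hw.1, hw.2.1⟩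

open Classical in
/-- the lower transfer inequality -/
theorem lower_of (hTr : Trans) (hUC : UC) (A : ℕ) : ∃ t₀ C : ℝ, 0 < t₀ ∧ 0 < C ∧
    ∀ (P : ℕ → Prop) (X t : ℝ), Inv X P → t₀ ≤ t → X ≤ Real.exp (t / 4) →
    ∀ r : ℕ, r ≤ rr t → ∀ c' : Bool,
      ∑ c₁ : Bool, ∑ w ∈ (W (LA A t) r c₁).filter
        (fun w => endc c₁ w = c' ∧ (D w : ℝ) ≤ Real.exp (t / 4)),
        1 / (D w : ℝ) * fP P c₁ (t + r * Real.log 5 - Real.log (D w)) ≤
      fP P c' t + C / t ^ A := by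
  classical
  obtain ⟨Cu, hCu, hu⟩ := hUC
  obtain ⟨t₀, C, ht₀, hC, H⟩ := hTr A
  obtain ⟨Ce, hCe, he⟩ := exp_neg_le A
  refine ⟨t₀, C + 2 * Cu * Ce, ht₀, by positivity, ?_⟩
  intro P X t hP ht hX r hr c'
  have htp : 0 < t := by linarith
  have h1 := H (fun n => ¬ P n) X t hP.not ht hX r hr c'
  obtain ⟨E, hE⟩ : ∃ E, E = Real.exp (-(3 * t / 4)) := ⟨_, rfl⟩
  have hEt : E ≤ Ce / t ^ A := by
    rw [hE]
    exact he t htp
  have hE2 : Real.exp (-t) ≤ E := by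
    rw [hE]
    exact Real.exp_le_exp.2 (by linarith)
  have h2 := fP_add P c' t
  have h3 := (abs_le.1 (hu c' t htp.le)).1
  have hl5 : 0 ≤ Real.log 5 := Real.log_nonneg (by norm_num)
  have h4 : ∑ c₁ : Bool, ∑ w ∈ (W (LA A t) r c₁).filter
        (fun w => endc c₁ w = c' ∧ (D w : ℝ) ≤ Real.exp (t / 4)),
        1 / (D w : ℝ) * fP (fun n => ¬ P n) c₁ (t + r * Real.log 5 - Real.log (D w)) ≤
      ∑ c₁ : Bool, ∑ w ∈ (W (LA A t) r c₁).filter
        (fun w => endc c₁ w = c' ∧ (D w : ℝ) ≤ Real.exp (t / 4)),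
        ((1 / 3 + Cu * E) * (1 / (D w : ℝ)) -
          1 / (D w : ℝ) * fP P c₁ (t + r * Real.log 5 - Real.log (D w))) := by
    refine Finset.sum_le_sum fun c₁ _ => Finset.sum_le_sum fun w hw => ?_
    rw [Finset.mem_filter] at hw
    have hD : (0 : ℝ) < D w := by exact_mod_cast D_pos w
    have hlog : Real.log (D w) ≤ t / 4 := by
      rw [Real.log_le_iff_le_exp hD]
      exact hw.2.2
    obtain ⟨s, hs⟩ : ∃ s, s = t + r * Real.log 5 - Real.log (D w) := ⟨_, rfl⟩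
    rw [← hs]
    have hr0 : 0 ≤ (r : ℝ) * Real.log 5 := by positivity
    have hs34 : 3 * t / 4 ≤ s := by
      rw [hs]
      linarith
    have g1 := fP_add P c₁ s
    have g2 := (abs_le.1 (hu c₁ s (by linarith))).2
    have g3 : Real.exp (-s) ≤ E := by
      rw [hE]
      exact Real.exp_le_exp.2 (by linarith)
    have g4 : Cu * Real.exp (-s) ≤ Cu * E := mul_le_mul_of_nonneg_left g3 hCu.le
    have g5 : fP (fun n => ¬ P n) c₁ s ≤ (1 / 3 + Cu * E) - fP P c₁ s := by linarith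
    have g6 : 0 < 1 / (D w : ℝ) := by positivity
    have g7 := mul_le_mul_of_nonneg_left g5 g6.le
    linarith
  have h5 : ∑ c₁ : Bool, ∑ w ∈ (W (LA A t) r c₁).filter
        (fun w => endc c₁ w = c' ∧ (D w : ℝ) ≤ Real.exp (t / 4)),
        ((1 / 3 + Cu * E) * (1 / (D w : ℝ)) -
          1 / (D w : ℝ) * fP P c₁ (t + r * Real.log 5 - Real.log (D w))) =
      (1 / 3 + Cu * E) * (∑ c₁ : Bool, ∑ w ∈ (W (LA A t) r c₁).filter
        (fun w => endc c₁ w = c' ∧ (D w : ℝ) ≤ Real.exp (t / 4)), 1 / (D w : ℝ)) -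
      ∑ c₁ : Bool, ∑ w ∈ (W (LA A t) r c₁).filter
        (fun w => endc c₁ w = c' ∧ (D w : ℝ) ≤ Real.exp (t / 4)),
        1 / (D w : ℝ) * fP P c₁ (t + r * Real.log 5 - Real.log (D w)) := by
    rw [Finset.mul_sum, ← Finset.sum_sub_distrib]
    refine Finset.sum_congr rfl fun c₁ _ => ?_
    rw [Finset.mul_sum, ← Finset.sum_sub_distrib]
  have h6 := mass_le (LA A t) r c' (Real.exp (t / 4))
  have hE0 : 0 < E := by
    rw [hE]
    exact Real.exp_pos _
  have h7 : (1 / 3 + Cu * E) * (∑ c₁ : Bool, ∑ w ∈ (W (LA A t) r c₁).filter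
        (fun w => endc c₁ w = c' ∧ (D w : ℝ) ≤ Real.exp (t / 4)), 1 / (D w : ℝ)) ≤
      (1 / 3 + Cu * E) * 1 := mul_le_mul_of_nonneg_left h6 (by positivity)
  rw [h5] at h4
  have h8 : Cu * Real.exp (-t) ≤ Cu * E := mul_le_mul_of_nonneg_left hE2 hCu.le
  have h9 : (C + 2 * Cu * Ce) / t ^ A = C / t ^ A + 2 * Cu * (Ce / t ^ A) := by ring
  have h10 : 2 * Cu * E ≤ 2 * Cu * (Ce / t ^ A) :=
    mul_le_mul_of_nonneg_left hEt (by positivity)
  rw [h9]
  linarith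

end K5.ID
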