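import Pool.Agent.Lib.MP_a4658c_nt.ID.Dich

/-!
MP_a4658c_nt, natural density of the invariant sets of the Kakutani map: a window lower bound
propagates with a loss of a constant factor.
-/

set_option autoImplicit false

open Filter Topology

namespace K5.ID

open K5

theorem half_of (hTr : Trans) (hUC : UC) (hPr : Propagate) (A : ℕ) (hA : 1 ≤ A) :
    ∃ l K T : ℝ, 0 < l ∧ 0 < K ∧ 1 ≤ T ∧
    ∀ (P : ℕ → Prop) (X s₀ m : ℝ), Inv X P → T ≤ s₀ → X ≤ Real.exp (s₀ / 4) → 0 < m →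
      m ≤ 1 / 3 → (∀ c s, s₀ ≤ s → s ≤ s₀ + l → m ≤ fP P c s) →
      ∀ c s, s₀ ≤ s → m / 2 - K / s₀ ^ A ≤ fP P c s := by
  classical
  obtain ⟨Cu, hCu, hu⟩ := hUC
  obtain ⟨t₀, C, ht₀, hC, H⟩ := hTr (A + 1)
  obtain ⟨Ce, hCe, he⟩ := exp_neg_le A
  obtain ⟨K, κ, T, hK, hκ, hT1, HP⟩ := hPr A hA
  -- the length of the window
  obtain ⟨l, hl0, hl1, hl2⟩ : ∃ l : ℝ, 0 < l ∧ T ≤ l ∧ K * Real.exp (-(κ * l)) ≤ 1 := by
    have h1 : Tendsto (fun l : ℝ => K * Real.exp (-(κ * l))) atTop (𝓝 (K * 0)) := by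
      refine Tendsto.const_mul K ?_
      exact Real.tendsto_exp_neg_atTop_nhds_zero.comp (tendsto_id.const_mul_atTop hκ)
    rw [mul_zero] at h1
    obtain ⟨l, hl⟩ := Filter.eventually_atTop.1 (h1.eventually (Iic_mem_nhds one_pos))
    exact ⟨max l T, lt_of_lt_of_le (by linarith) (le_max_right _ _), le_max_right _ _,
      hl _ (le_max_left _ _)⟩
  refine ⟨l, K * (C + 1) + 3 * (Cu * Ce), T + t₀ + Cu * Ce + 1, hl0, by positivity, ?_, ?_⟩
  · have : 0 < Cu * Ce := by positivity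
    linarith
  intro P X s₀ m hP hs₀ hX hm hm3 hwin
  have hCC : 0 < Cu * Ce := by positivity
  have hs0 : 0 < s₀ := by linarith
  have hs1 : 1 ≤ s₀ := by linarith
  have hsA : 0 < s₀ ^ A := by positivity
  have hsA1 : s₀ ≤ s₀ ^ A := le_self_pow₀ hs1 (by omega)
  obtain ⟨E, hE⟩ : ∃ E, E = Real.exp (-(3 * s₀ / 4)) := ⟨_, rfl⟩
  have hE0 : 0 < E := by
    rw [hE]
    exact Real.exp_pos _
  have hEs : E ≤ Ce / s₀ ^ A := by
    rw [hE]
    exact he s₀ hs0
  have hCE : Cu * E ≤ Cu * Ce / s₀ ^ A := by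
    rw [mul_div_assoc]
    exact mul_le_mul_of_nonneg_left hEs hCu.le
  have hCE1 : Cu * E ≤ 1 := by
    refine hCE.trans ?_
    rw [div_le_one hsA]
    linarith
  obtain ⟨b, hb⟩ : ∃ b, b = 1 / 3 - m := ⟨_, rfl⟩
  have hb0 : 0 ≤ b := by linarith
  obtain ⟨m', hm'⟩ : ∃ m', m' = m + Cu * E := ⟨_, rfl⟩
  have hm'0 : 0 < m' := by
    rw [hm']
    positivity
  have hm'3 : m' ≤ 3 := by linarith
  obtain ⟨g, hg⟩ : ∃ g : Bool → ℝ → ℝ, g = fP (fun n => ¬ P n) := ⟨_, rfl⟩
  have hfg : ∀ c t, fP P c t + g c t = fP (fun _ => True) c t := by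
    intro c t
    rw [hg]
    exact fP_add P c t
  have hexpE : ∀ t, 3 * s₀ / 4 ≤ t → Cu * Real.exp (-t) ≤ Cu * E := by
    intro t ht
    refine mul_le_mul_of_nonneg_left ?_ hCu.le
    rw [hE]
    exact Real.exp_le_exp.2 (by linarith)
  have hgb : ∀ c t, 3 * s₀ / 4 ≤ t → g c t ≤ b + m' := by
    intro c t ht
    have h1 := hfg c t
    have h2 := (abs_le.1 (hu c t (by linarith))).2
    have h3 := hexpE t ht
    have h4 := fP_nonneg P c t
    rw [hb, hm']
    linarith
  obtain ⟨h, hh⟩ : ∃ h : Bool → ℝ → ℝ, h = fun c t =>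
    if 3 * s₀ / 4 ≤ t then 3 / m' * max (g c t - b) 0 else 0 := ⟨_, rfl⟩
  have hh1 : ∀ c t, 3 * s₀ / 4 ≤ t → h c t = 3 / m' * max (g c t - b) 0 := by
    intro c t ht
    rw [hh]
    exact if_pos ht
  have h3m : 0 < 3 / m' := by positivity
  have hh0 : ∀ c t, 0 ≤ h c t := by
    intro c t
    rw [hh]
    simp only
    split_ifs
    · exact mul_nonneg h3m.le (le_max_right _ _)
    · exact le_rfl
  have hh3 : ∀ c t, h c t ≤ 3 := by
    intro c t
    by_cases ht : 3 * s₀ / 4 ≤ t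
    · rw [hh1 c t ht]
      have h1 : max (g c t - b) 0 ≤ m' := max_le (by linarith [hgb c t ht]) hm'0.le
      calc 3 / m' * max (g c t - b) 0 ≤ 3 / m' * m' := mul_le_mul_of_nonneg_left h1 h3m.le
        _ = 3 := by field_simp
    · rw [hh]
      simp only
      rw [if_neg ht]
      norm_num
  have hTI : TI (A + 1) s₀ (3 * C / m') h := by
    intro t ht r hr c'
    have htp : 0 < t := by linarith
    have hX' : X ≤ Real.exp (t / 4) := hX.trans (Real.exp_le_exp.2 (by linarith))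
    have h1 := H (fun n => ¬ P n) X t hP.not (by linarith) hX' r hr c'
    rw [← hg] at h1
    rw [hh1 c' t (by linarith)]
    have hpos : ∀ c₁ : Bool, ∀ w ∈ (W (LA (A + 1) t) r c₁).filter
        (fun w => endc c₁ w = c' ∧ (D w : ℝ) ≤ Real.exp (t / 4)),
        3 / m' * (1 / (D w : ℝ) * (g c₁ (t + r * Real.log 5 - Real.log (D w)) - b)) ≤
        1 / (D w : ℝ) * h c₁ (t + r * Real.log 5 - Real.log (D w)) := by
      intro c₁ w hw
      rw [Finset.mem_filter] at hw
      have hD : (0 : ℝ) < D w := by exact_mod_cast D_pos w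
      have hlog : Real.log (D w) ≤ t / 4 := by
        rw [Real.log_le_iff_le_exp hD]
        exact hw.2.2
      have hr0 : 0 ≤ (r : ℝ) * Real.log 5 := by
        have : 0 ≤ Real.log 5 := Real.log_nonneg (by norm_num)
        positivity
      rw [hh1 c₁ _ (by linarith)]
      have h2 : g c₁ (t + r * Real.log 5 - Real.log (D w)) - b ≤
          max (g c₁ (t + r * Real.log 5 - Real.log (D w)) - b) 0 := le_max_left _ _
      have h3 : 0 < 1 / (D w : ℝ) := by positivity
      have h4 := mul_le_mul_of_nonneg_left h2 h3.le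
      have h5 := mul_le_mul_of_nonneg_left h4 h3m.le
      linarith
    have hsum0 : 0 ≤ ∑ c₁ : Bool, ∑ w ∈ (W (LA (A + 1) t) r c₁).filter
        (fun w => endc c₁ w = c' ∧ (D w : ℝ) ≤ Real.exp (t / 4)),
        1 / (D w : ℝ) * h c₁ (t + r * Real.log 5 - Real.log (D w)) :=
      Finset.sum_nonneg fun c₁ _ => Finset.sum_nonneg fun w _ =>
        mul_nonneg (by positivity) (hh0 _ _)
    have herr : 0 ≤ 3 * C / m' / t ^ (A + 1) := by positivity
    rcases le_or_gt (g c' t - b) 0 with hle | hgt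
    · rw [max_eq_right hle, mul_zero]
      linarith
    · rw [max_eq_left hgt.le]
      have hmass := mass_le (LA (A + 1) t) r c' (Real.exp (t / 4))
      have h2 : ∑ c₁ : Bool, ∑ w ∈ (W (LA (A + 1) t) r c₁).filter
          (fun w => endc c₁ w = c' ∧ (D w : ℝ) ≤ Real.exp (t / 4)),
          3 / m' * (1 / (D w : ℝ) * (g c₁ (t + r * Real.log 5 - Real.log (D w)) - b)) =
          3 / m' * (∑ c₁ : Bool, ∑ w ∈ (W (LA (A + 1) t) r c₁).filter
          (fun w => endc c₁ w = c' ∧ (D w : ℝ) ≤ Real.exp (t / 4)),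
            1 / (D w : ℝ) * g c₁ (t + r * Real.log 5 - Real.log (D w)) -
          b * ∑ c₁ : Bool, ∑ w ∈ (W (LA (A + 1) t) r c₁).filter
          (fun w => endc c₁ w = c' ∧ (D w : ℝ) ≤ Real.exp (t / 4)), 1 / (D w : ℝ)) := by
        rw [Finset.mul_sum (a := b), ← Finset.sum_sub_distrib, Finset.mul_sum]
        refine Finset.sum_congr rfl fun c₁ _ => ?_
        rw [Finset.mul_sum (a := b), ← Finset.sum_sub_distrib, Finset.mul_sum]
        refine Finset.sum_congr rfl fun w _ => ?_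
        ring
      have h3 : ∑ c₁ : Bool, ∑ w ∈ (W (LA (A + 1) t) r c₁).filter
          (fun w => endc c₁ w = c' ∧ (D w : ℝ) ≤ Real.exp (t / 4)),
          3 / m' * (1 / (D w : ℝ) * (g c₁ (t + r * Real.log 5 - Real.log (D w)) - b)) ≤
          ∑ c₁ : Bool, ∑ w ∈ (W (LA (A + 1) t) r c₁).filter
          (fun w => endc c₁ w = c' ∧ (D w : ℝ) ≤ Real.exp (t / 4)),
          1 / (D w : ℝ) * h c₁ (t + r * Real.log 5 - Real.log (D w)) :=
        Finset.sum_le_sum fun c₁ _ => Finset.sum_le_sum fun w hw => hpos c₁ w hw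
      refine le_trans ?_ (add_le_add h3 le_rfl)
      rw [h2]
      have h4 : 3 * C / m' / t ^ (A + 1) = 3 / m' * (C / t ^ (A + 1)) := by ring
      rw [h4, ← mul_add]
      refine mul_le_mul_of_nonneg_left ?_ h3m.le
      have h5 := mul_le_mul_of_nonneg_left hmass hb0
      linarith
  have hfin := HP s₀ (3 * C / m') h (by positivity) hTI hh0 hh3 s₀ l (3 / m' * (Cu * E)) le_rfl
    (by linarith) hl1 (by positivity) (by
      intro c s h1 h2
      rw [hh1 c s (by linarith)]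
      refine mul_le_mul_of_nonneg_left (max_le ?_ (by positivity)) h3m.le
      have g1 := hwin c s h1 h2
      have g2 := hfg c s
      have g3 := (abs_le.1 (hu c s (by linarith))).2
      have g4 := hexpE s (by linarith)
      rw [hb]
      linarith)
  intro c s hs
  have f1 := hfin c s hs
  rw [hh1 c s (by linarith)] at f1
  have f2 : 3 / m' * (g c s - b) ≤ 3 / m' * max (g c s - b) 0 :=
    mul_le_mul_of_nonneg_left (le_max_left _ _) h3m.le
  have f3 : 3 / m' * (g c s - b) ≤ 3 / m' * (Cu * E) + 1 + K * (3 * C / m' + 1) / s₀ ^ A := by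
    linarith
  have f4 : g c s - b ≤ Cu * E + m' / 3 + K * (C + 1) / s₀ ^ A := by
    have e1 : g c s - b = m' / 3 * (3 / m' * (g c s - b)) := by field_simp
    rw [e1]
    refine (mul_le_mul_of_nonneg_left f3 (by positivity)).trans ?_
    have e2 : m' / 3 * (3 / m' * (Cu * E) + 1 + K * (3 * C / m' + 1) / s₀ ^ A) =
        Cu * E + m' / 3 + K * (C + m' / 3) / s₀ ^ A := by
      field_simp
    rw [e2]
    have e3 : K * (C + m' / 3) / s₀ ^ A ≤ K * (C + 1) / s₀ ^ A := by
      apply div_le_div_of_nonneg_right _ hsA.le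
      refine mul_le_mul_of_nonneg_left ?_ hK.le
      linarith
    linarith
  have f5 := hfg c s
  have f6 := (abs_le.1 (hu c s (by linarith))).1
  have f7 := hexpE s (by linarith)
  have f8 : (K * (C + 1) + 3 * (Cu * Ce)) / s₀ ^ A =
      K * (C + 1) / s₀ ^ A + 3 * (Cu * Ce / s₀ ^ A) := by ring
  rw [f8]
  rw [hb, hm'] at f4
  have f9 : 0 < Cu * E := by positivity
  linarith

end K5.ID
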