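import Pool.Agent.Lib.MP_a4658c_nt.ID.DichB

/-!
MP_a4658c_nt, natural density of the invariant sets of the Kakutani map: sets of density zero
are sparse.
-/

set_option autoImplicit false

open Filter Topology

namespace K5.ID

open K5

/-- a letter with given class and displacement close to `-δ` -/
theorem letter_of (δ : ℝ) (hδ : 0 ≤ δ) (c c' : Bool) : ∃ a b : ℕ, 1 ≤ a ∧ b ≤ 1 ∧
    (1 ≤ b ∨ (a % 2 = 1 ↔ c = true)) ∧ decide (1 ≤ b) = c' ∧
    δ + Real.log 2 ≤ a * Real.log 2 ∧ a * Real.log 2 ≤ δ + 3 * Real.log 2 := by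
  have hl : 0 < Real.log 2 := Real.log_pos (by norm_num)
  obtain ⟨a₀, ha₀⟩ : ∃ a₀ : ℕ, a₀ = ⌈δ / Real.log 2⌉₊ + 1 := ⟨_, rfl⟩
  have h1 : δ + Real.log 2 ≤ a₀ * Real.log 2 := by
    have := Nat.le_ceil (δ / Real.log 2)
    rw [div_le_iff₀ hl] at this
    rw [ha₀]
    push_cast
    linarith
  have h2 : a₀ * Real.log 2 ≤ δ + 2 * Real.log 2 := by
    have := Nat.ceil_lt_add_one (show 0 ≤ δ / Real.log 2 by positivity)
    have h3 : (⌈δ / Real.log 2⌉₊ : ℝ) * Real.log 2 ≤ δ + Real.log 2 := by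
      have h4 := mul_le_mul_of_nonneg_right this.le hl.le
      have h5 : (δ / Real.log 2 + 1) * Real.log 2 = δ + Real.log 2 := by field_simp
      rwa [h5] at h4
    rw [ha₀]
    push_cast
    linarith
  have h10 : 1 ≤ a₀ := by omega
  cases c' with
  | true => exact ⟨a₀, 1, h10, le_rfl, Or.inl le_rfl, rfl, h1, by linarith⟩
  | false =>
    by_cases hp : (a₀ % 2 = 1 ↔ c = true)
    · exact ⟨a₀, 0, h10, by omega, Or.inr hp, rfl, h1, by linarith⟩
    · refine ⟨a₀ + 1, 0, by omega, by omega, Or.inr ?_, rfl, ?_, ?_⟩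
      · cases c <;> simp at hp ⊢ <;> omega
      · push_cast
        linarith
      · push_cast
        linarith

theorem LA_tendsto (A n : ℕ) : ∃ T : ℝ, ∀ t ≥ T, n ≤ LA A t ∧ 1 ≤ rr t := by
  refine ⟨100 * (2 ^ n + 20) + 100, fun t ht => ?_⟩
  have h1 : (2 : ℝ) ^ n + 20 ≤ t / 100 := by linarith
  have h2 : 2 ^ n + 20 ≤ kk t := by
    unfold kk
    apply Nat.le_floor
    push_cast
    exact h1
  constructor
  · have h3 : n ≤ Nat.log 2 (kk t) := by
      apply Nat.le_log_of_pow_le (by norm_num)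
      omega
    unfold LA LL
    have h4 : 1 ≤ A + 2 := by omega
    calc n ≤ 2 * Nat.log 2 (kk t) + 2 := by omega
      _ = 1 * (2 * Nat.log 2 (kk t) + 2) := by ring
      _ ≤ _ := Nat.mul_le_mul_right _ h4
  · have h5 : 20 ≤ kk t := (Nat.le_add_left _ _).trans h2
    unfold rr
    rw [Nat.le_div_iff_mul_le (by norm_num)]
    omega

open Classical in
theorem step_of (hTr : Trans) (hUC : UC) (A : ℕ) (l : ℝ) (hl : 0 < l) :
    ∃ T c₂ C : ℝ, 1 ≤ T ∧ 0 < c₂ ∧ 0 < C ∧
    ∀ (P : ℕ → Prop) (X y : ℝ), Inv X P → T ≤ y → X ≤ Real.exp (y / 4) →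
      ∀ c c' s, y ≤ s → s ≤ y + l → c₂ * fP P c y - C / y ^ A ≤ fP P c' s := by
  obtain ⟨t₀, C, ht₀, hC, H⟩ := lower_of hTr hUC A
  have hl2 : 0 < Real.log 2 := Real.log_pos (by norm_num)
  obtain ⟨n, hn⟩ : ∃ n : ℕ, l / Real.log 2 + 3 ≤ n := exists_nat_ge _
  obtain ⟨T1, hT1⟩ := LA_tendsto A n
  obtain ⟨M, hM⟩ : ∃ M, M = 24 * Real.exp l := ⟨_, rfl⟩
  have hM0 : 0 < M := by
    rw [hM]
    positivity
  refine ⟨t₀ + |T1| + 4 * M + 1, Real.exp (-2) / M, C, ?_, by positivity, hC, ?_⟩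
  · have := abs_nonneg T1
    linarith
  intro P X y hP hy hX c c' s hs1 hs2
  have hT1a := le_abs_self T1
  have hT1n := abs_nonneg T1
  have hy0 : 0 < y := by linarith
  have hX' : X ≤ Real.exp (s / 4) := hX.trans (Real.exp_le_exp.2 (by linarith))
  obtain ⟨hLA, hrr⟩ := hT1 s (by linarith)
  obtain ⟨a, b, ha1, hb1, hval, hnx, hal, hau⟩ := letter_of (s - y) (by linarith) c c'
  have h1 := H P X s hP (by linarith) hX' 1 hrr c'
  -- the word
  have ha2 : a ≤ n := by
    have h2 : (a : ℝ) * Real.log 2 ≤ (l / Real.log 2 + 3) * Real.log 2 := by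
      have h3 : (l / Real.log 2 + 3) * Real.log 2 = l + 3 * Real.log 2 := by field_simp
      rw [h3]
      linarith
    have h4 := le_of_mul_le_mul_right h2 hl2
    exact_mod_cast h4.trans hn
  have hmem : [(a, b)] ∈ W (LA A s) 1 c := by
    have h2 : ((a, b) : Let) :: [] ∈ W (LA A s) (0 + 1) c := by
      rw [cons_mem_W]
      refine ⟨mem_L.2 ⟨⟨ha1, by omega, ?_⟩, hval⟩, mem_W_zero.2 rfl⟩
      simp only
      omega
    exact h2
  have hDr : (D [(a, b)] : ℝ) = 2 ^ a * 3 ^ b := by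
    simp [dd]
  have hD0 : (0 : ℝ) < D [(a, b)] := by exact_mod_cast D_pos _
  have hlogD : Real.log (D [(a, b)]) = a * Real.log 2 + b * Real.log 3 := by
    rw [hDr, Real.log_mul (by positivity) (by positivity), Real.log_pow, Real.log_pow]
  have hl3 : 0 < Real.log 3 := Real.log_pos (by norm_num)
  have hb0 : (0 : ℝ) ≤ b := Nat.cast_nonneg _
  have hb1' : (b : ℝ) ≤ 1 := by exact_mod_cast hb1
  have hbl : (b : ℝ) * Real.log 3 ≤ Real.log 3 := mul_le_of_le_one_left hl3.le hb1'
  have hbl0 : 0 ≤ (b : ℝ) * Real.log 3 := by positivity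
  have hDM : (D [(a, b)] : ℝ) ≤ M := by
    rw [← Real.log_le_log_iff hD0 hM0, hlogD, hM, Real.log_mul (by norm_num) (Real.exp_pos l).ne',
      Real.log_exp]
    have h2 : Real.log 24 = 3 * Real.log 2 + Real.log 3 := by
      rw [show (24 : ℝ) = 2 ^ 3 * 3 by norm_num, Real.log_mul (by norm_num) (by norm_num),
        Real.log_pow]
      push_cast
      ring
    rw [h2]
    linarith
  have hDE : (D [(a, b)] : ℝ) ≤ Real.exp (s / 4) := by
    refine hDM.trans ?_
    have := Real.add_one_le_exp (s / 4)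
    linarith
  have hend : endc c [(a, b)] = c' := by
    simp only [endc_cons, endc_nil, nx]
    exact hnx
  -- the term
  have h2 : 1 / (D [(a, b)] : ℝ) *
      fP P c (s + (1 : ℕ) * Real.log 5 - Real.log (D [(a, b)])) ≤
      ∑ c₁ : Bool, ∑ w ∈ (W (LA A s) 1 c₁).filter
        (fun w => endc c₁ w = c' ∧ (D w : ℝ) ≤ Real.exp (s / 4)),
        1 / (D w : ℝ) * fP P c₁ (s + (1 : ℕ) * Real.log 5 - Real.log (D w)) := by
    have h3 : 1 / (D [(a, b)] : ℝ) *
        fP P c (s + (1 : ℕ) * Real.log 5 - Real.log (D [(a, b)])) ≤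
        ∑ w ∈ (W (LA A s) 1 c).filter
        (fun w => endc c w = c' ∧ (D w : ℝ) ≤ Real.exp (s / 4)),
        1 / (D w : ℝ) * fP P c (s + (1 : ℕ) * Real.log 5 - Real.log (D w)) := by
      refine Finset.single_le_sum
        (f := fun w => 1 / (D w : ℝ) * fP P c (s + (1 : ℕ) * Real.log 5 - Real.log (D w)))
        (fun w _ => mul_nonneg (by positivity) (fP_nonneg _ _ _)) ?_
      exact Finset.mem_filter.2 ⟨hmem, hend, hDE⟩
    refine h3.trans ?_
    exact Finset.single_le_sum
      (f := fun c₁ : Bool => ∑ w ∈ (W (LA A s) 1 c₁).filter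
        (fun w => endc c₁ w = c' ∧ (D w : ℝ) ≤ Real.exp (s / 4)),
        1 / (D w : ℝ) * fP P c₁ (s + (1 : ℕ) * Real.log 5 - Real.log (D w)))
      (fun c₁ _ => Finset.sum_nonneg fun w _ => mul_nonneg (by positivity) (fP_nonneg _ _ _))
      (Finset.mem_univ c)
  have h3 := h2.trans h1
  -- comparison with `y`
  obtain ⟨z, hz⟩ : ∃ z, z = s + (1 : ℕ) * Real.log 5 - Real.log (D [(a, b)]) := ⟨_, rfl⟩
  rw [← hz] at h3
  have hz' : z = s + Real.log 5 - a * Real.log 2 - b * Real.log 3 := by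
    rw [hz, hlogD]
    push_cast
    ring
  have hlog5 : Real.log 5 ≤ 2 := by
    rw [Real.log_le_iff_le_exp (by norm_num)]
    have := Real.add_one_le_exp (1 : ℝ)
    have h4 : Real.exp 2 = Real.exp 1 * Real.exp 1 := by
      rw [← Real.exp_add]
      norm_num
    have h5 := Real.exp_one_gt_d9
    rw [h4]
    nlinarith
  have hz1 : z ≤ y + 2 := by
    rw [hz']
    linarith
  have hz2 : y - 2 ≤ z := by
    rw [hz']
    have h4 : Real.log 24 ≤ Real.log 5 + 2 := by
      have h5 : Real.log 24 - Real.log 5 = Real.log (24 / 5) :=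
        (Real.log_div (by norm_num) (by norm_num)).symm
      have h6 : Real.log (24 / 5) ≤ Real.log 5 := Real.log_le_log (by norm_num) (by norm_num)
      linarith
    have h5 : Real.log 24 = 3 * Real.log 2 + Real.log 3 := by
      rw [show (24 : ℝ) = 2 ^ 3 * 3 by norm_num, Real.log_mul (by norm_num) (by norm_num),
        Real.log_pow]
      push_cast
      ring
    linarith
  have hcmp : Real.exp (-2) * fP P c y ≤ fP P c z := by
    have hf0 := fP_nonneg P c y
    have key : fP P c y ≤ Real.exp 2 * fP P c z := by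
      have hfz := fP_nonneg P c z
      rcases le_total y z with h | h
      · have h4 := (fP_lip P c h).2
        have h5 : Real.exp (z - y) ≤ Real.exp 2 := Real.exp_le_exp.2 (by linarith)
        exact h4.trans (mul_le_mul_of_nonneg_right h5 hfz)
      · have h4 := (fP_lip P c h).1
        have h5 : Real.exp (y - z) ≤ Real.exp 2 := Real.exp_le_exp.2 (by linarith)
        exact h4.trans (mul_le_mul_of_nonneg_right h5 hfz)
    rw [Real.exp_neg, inv_mul_le_iff₀ (Real.exp_pos 2)]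
    exact key
  have hfin1 : Real.exp (-2) / M * fP P c y ≤ 1 / (D [(a, b)] : ℝ) * fP P c z := by
    have h4 : 1 / M ≤ 1 / (D [(a, b)] : ℝ) := one_div_le_one_div_of_le hD0 hDM
    calc Real.exp (-2) / M * fP P c y = 1 / M * (Real.exp (-2) * fP P c y) := by ring
      _ ≤ 1 / (D [(a, b)] : ℝ) * fP P c z := by
        refine mul_le_mul h4 hcmp ?_ (by positivity)
        exact mul_nonneg (Real.exp_pos _).le (fP_nonneg _ _ _)
  have hfin2 : C / s ^ A ≤ C / y ^ A := by
    apply div_le_div_of_nonneg_left hC.le (by positivity)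
    exact pow_le_pow_left₀ hy0.le hs1 A
  linarith

/-- density zero implies sparse, for the smoothed densities -/
theorem zero_of (hTr : Trans) (hUC : UC) (hPr : Propagate) (A : ℕ) {P : ℕ → Prop} {X : ℝ}
    (hP : Inv X P) (h0 : ∀ c, Tendsto (fP P c) atTop (𝓝 0)) :
    ∃ C : ℝ, 0 < C ∧ ∀ c, ∀ y : ℝ, 1 ≤ y → fP P c y ≤ C / y ^ A := by
  rcases Nat.eq_zero_or_pos A with hA | hA
  · subst hA
    refine ⟨3, by norm_num, fun c y _ => ?_⟩
    simpa using fP_le_three P c y
  obtain ⟨l, K, T1, hl, hK, hT1, HH⟩ := half_of hTr hUC hPr A hA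
  obtain ⟨T2, c₂, C, hT2, hc₂, hC, HS⟩ := step_of hTr hUC A l hl
  obtain ⟨T3, hT3, hX3⟩ := exists_T (T1 + T2) X
  obtain ⟨T, hT⟩ : ∃ T, T = T3 + 12 * K := ⟨_, rfl⟩
  have hTpos : 1 ≤ T := by linarith
  have hbig : ∀ c, ∀ y : ℝ, T ≤ y → fP P c y ≤ ((2 * K + C) / c₂) / y ^ A := by
    intro c y hy
    have hy0 : 0 < y := by linarith
    have hy1 : 1 ≤ y := by linarith
    have hyA : 0 < y ^ A := by positivity
    have hyA1 : y ≤ y ^ A := le_self_pow₀ hy1 (by omega)
    have hXy : X ≤ Real.exp (y / 4) := hX3.trans (Real.exp_le_exp.2 (by linarith))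
    obtain ⟨m₀, hm₀⟩ : ∃ m₀, m₀ = c₂ * fP P c y - C / y ^ A := ⟨_, rfl⟩
    have hgoal : m₀ ≤ 2 * K / y ^ A := by
      rcases le_or_gt m₀ 0 with hm | hm
      · exact hm.trans (by positivity)
      · have hs := HS P X y hP (by linarith) hXy c
        have hw : ∀ c' s, y ≤ s → s ≤ y + l → min m₀ (1 / 3) ≤ fP P c' s := by
          intro c' s h1 h2
          refine (min_le_left _ _).trans ?_
          rw [hm₀]
          exact hs c' s h1 h2
        have hmin0 : 0 < min m₀ (1 / 3) := lt_min hm (by norm_num)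
        have h1 := HH P X y (min m₀ (1 / 3)) hP (by linarith) hXy hmin0 (min_le_right _ _) hw
        have h2 : min m₀ (1 / 3) / 2 - K / y ^ A ≤ 0 := by
          refine ge_of_tendsto (h0 true) ?_
          filter_upwards [eventually_ge_atTop y] with s hs'
          exact h1 true s hs'
        have h3 : K / y ^ A ≤ 1 / 12 := by
          rw [div_le_iff₀ hyA]
          linarith
        have h4 : min m₀ (1 / 3) < 1 / 3 := by linarith
        have h5 : min m₀ (1 / 3) = m₀ := by
          rcases le_total m₀ (1 / 3) with h | h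
          · exact min_eq_left h
          · rw [min_eq_right h] at h4
            exact absurd h4 (lt_irrefl _)
        rw [h5] at h2
        have h6 : 2 * K / y ^ A = 2 * (K / y ^ A) := by ring
        rw [h6]
        linarith
    have h1 : c₂ * fP P c y ≤ (2 * K + C) / y ^ A := by
      have h2 : (2 * K + C) / y ^ A = 2 * K / y ^ A + C / y ^ A := by ring
      rw [h2]
      linarith
    have h3 : ((2 * K + C) / c₂) / y ^ A = ((2 * K + C) / y ^ A) / c₂ := by ring
    rw [h3, le_div_iff₀ hc₂]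
    linarith
  refine ⟨(2 * K + C) / c₂ + 3 * T ^ A, by positivity, fun c y hy => ?_⟩
  have hy0 : 0 < y := by linarith
  have hyA : 0 < y ^ A := by positivity
  have hsum : ((2 * K + C) / c₂ + 3 * T ^ A) / y ^ A =
      ((2 * K + C) / c₂) / y ^ A + 3 * (T ^ A / y ^ A) := by ring
  rw [hsum]
  rcases le_or_gt T y with h | h
  · have h1 := hbig c y h
    have h2 : 0 ≤ 3 * (T ^ A / y ^ A) := by positivity
    linarith
  · have h1 := fP_le_three P c y
    have h2 : 1 ≤ T ^ A / y ^ A := by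
      rw [one_le_div hyA]
      exact pow_le_pow_left₀ hy0.le h.le A
    have h3 : 0 ≤ ((2 * K + C) / c₂) / y ^ A := by positivity
    linarith

end K5.ID
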