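import Pool.Agent.Lib.MP_a4658c_nt.ID.EqMix

/-!
MP_a4658c_nt, equidistribution of the invariant sets of the Kakutani map in residue classes:
the coarse density.
-/

set_option autoImplicit false

namespace K5.ID

open K5

/-- the coarse condition for words of length `k`, modulus `5 ^ (k + s)` -/
lemma coarse_iff0 {k s : ℕ} {w : List Let} {m : ℕ} :
    (5 : ZMod (5 ^ (k + s))) ^ s * (Fm (k + s) w - (m : ZMod (5 ^ (k + s)))) = 0 ↔
      (5 : ℤ) ^ k ∣ (D w : ℤ) * m - cnum w := by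
  have hu : IsUnit ((D w : ℕ) : ZMod (5 ^ (k + s))) := IsUnit.of_mul_eq_one _ (D_mul_inv (k + s) w)
  have h2 : ((D w : ℕ) : ZMod (5 ^ (k + s))) * ((5 : ZMod (5 ^ (k + s))) ^ s *
      (Fm (k + s) w - (m : ZMod (5 ^ (k + s)))))
      = (((5 : ℤ) ^ s * ((cnum w : ℤ) - (D w : ℤ) * m) : ℤ) : ZMod (5 ^ (k + s))) := by
    push_cast
    have h3 := D_mul_inv (k + s) w
    unfold Fm
    calc ((D w : ℕ) : ZMod (5 ^ (k + s))) * (5 ^ s * ((cnum w : ZMod (5 ^ (k + s))) *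
          ((D w : ℕ) : ZMod (5 ^ (k + s)))⁻¹ - (m : ZMod (5 ^ (k + s)))))
        = 5 ^ s * ((cnum w : ZMod (5 ^ (k + s))) * (((D w : ℕ) : ZMod (5 ^ (k + s))) *
          ((D w : ℕ) : ZMod (5 ^ (k + s)))⁻¹) - ((D w : ℕ) : ZMod (5 ^ (k + s))) * m) := by ring
      _ = _ := by rw [h3, mul_one]
  have h3 : (5 : ZMod (5 ^ (k + s))) ^ s * (Fm (k + s) w - (m : ZMod (5 ^ (k + s)))) = 0 ↔
      ((D w : ℕ) : ZMod (5 ^ (k + s))) * ((5 : ZMod (5 ^ (k + s))) ^ s *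
        (Fm (k + s) w - (m : ZMod (5 ^ (k + s))))) = 0 :=
    (hu.mul_right_eq_zero).symm
  rw [h3, h2, ZMod.intCast_zmod_eq_zero_iff_dvd]
  have h4 : (((5 ^ (k + s) : ℕ) : ℤ)) = 5 ^ s * 5 ^ k := by
    push_cast
    rw [pow_add, mul_comm]
  rw [h4, mul_dvd_mul_iff_left (pow_ne_zero s (by norm_num)), ← dvd_neg, neg_sub]

open Classical in
/-- Main term: every pair `(m, w)` comes from one point `n`. -/
lemma coarse_mainR {Λ k s lmax N₂ N' : ℕ} {c' : Bool} {P : ℕ → Prop}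
    {X x Y K E z₁ z₂ : ℝ} (hP : Inv X P) (hx : 0 < x) (hK : 1 ≤ K)
    (hKz : K < z₁) (hX : X < (z₁ - K) / (5 * K)) (hz₂ : 0 ≤ z₂) (hE0 : 0 ≤ E)
    (hN' : z₂ * E ≤ N') :
    ∑ c : Bool, ∑ m ∈ MP P c N₂ z₁ z₂, 1 / (m : ℝ) *
        ∑ w ∈ (TAs Λ k lmax (k + s) Y E c c').filter (fun w =>
          (5 : ZMod (5 ^ (k + s))) ^ s * (Fm (k + s) w - (m : ZMod (5 ^ (k + s)))) = 0 ∧ Fr w ≤ K),
          5 ^ k / (D w : ℝ) * kr ((m : ℝ) * D w / 5 ^ k) x
      ≤ 1 / (1 - K / z₁) * RP P c' N' x := by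
  have h1K : 0 < 1 - K / z₁ := by
    have : K / z₁ < 1 := by rw [div_lt_one (by linarith)]; exact hKz
    linarith
  set A : Finset ((_ : Bool) × (_ : ℕ) × List Let) :=
    Finset.univ.sigma (fun c : Bool => (MP P c N₂ z₁ z₂).sigma (fun m =>
      (TAs Λ k lmax (k + s) Y E c c').filter (fun w =>
        (5 : ZMod (5 ^ (k + s))) ^ s * (Fm (k + s) w - (m : ZMod (5 ^ (k + s)))) = 0 ∧ Fr w ≤ K)))
    with hA
  set f : ((_ : Bool) × (_ : ℕ) × List Let) → ℝ := fun a =>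
    1 / (a.2.1 : ℝ) * (5 ^ k / (D a.2.2 : ℝ) * kr ((a.2.1 : ℝ) * D a.2.2 / 5 ^ k) x) with hf
  have hLHS : ∑ c : Bool, ∑ m ∈ MP P c N₂ z₁ z₂, 1 / (m : ℝ) *
        ∑ w ∈ (TAs Λ k lmax (k + s) Y E c c').filter (fun w =>
          (5 : ZMod (5 ^ (k + s))) ^ s * (Fm (k + s) w - (m : ZMod (5 ^ (k + s)))) = 0 ∧ Fr w ≤ K),
          5 ^ k / (D w : ℝ) * kr ((m : ℝ) * D w / 5 ^ k) x = ∑ a ∈ A, f a := by
    rw [hA, Finset.sum_sigma]
    refine Finset.sum_congr rfl fun c _ => ?_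
    rw [Finset.sum_sigma]
    refine Finset.sum_congr rfl fun m _ => ?_
    rw [Finset.mul_sum]
  have hRHS : 1 / (1 - K / z₁) * RP P c' N' x =
      ∑ n ∈ (Finset.Icc 1 N').filter (fun n => U n ∧ P n ∧ cl n = c'),
        1 / (1 - K / z₁) * ker x n := by
    unfold RP
    rw [Finset.mul_sum]
  rw [hLHS, hRHS]
  have hprop : ∀ a ∈ A, ∃ n : ℕ, 1 ≤ n ∧
      5 ^ k * n + cnum a.2.2 = D a.2.2 * a.2.1 ∧
      (U n ∧ P n) ∧ cl n = c' ∧ cl a.2.1 = a.1 ∧ U a.2.1 ∧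
      a.2.2 ∈ W Λ k a.1 ∧ (n : ℝ) ≤ N' ∧ f a ≤ 1 / (1 - K / z₁) * ker x n := by
    rintro ⟨c, m, w⟩ ha
    rw [hA, Finset.mem_sigma, Finset.mem_sigma] at ha
    obtain ⟨-, hm, hw⟩ := ha
    simp only at hm hw
    rw [MP, Finset.mem_filter] at hm
    obtain ⟨-, hUm0, hPm0, hclm, hz1, hz2⟩ := hm
    rw [Finset.mem_filter, TAs, Finset.mem_filter] at hw
    obtain ⟨⟨hwW, hend, hDE, -⟩, hcong, hF⟩ := hw
    rw [coarse_iff0] at hcong
    subst hclm
    obtain ⟨n, hn1, heq, hG, hcl, hnle, hterm⟩ :=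
      id4_term (r := 0) (w₂ := []) hP hx hK hKz hX hUm0 hPm0 hz1 hwW hF hcong
    refine ⟨n, hn1, heq, hG, hcl.trans hend, rfl, hUm0, hwW, ?_, ?_⟩
    · refine hnle.trans (le_trans ?_ hN')
      rw [div_le_iff₀ (by positivity)]
      have h5 : (1 : ℝ) ≤ 5 ^ k := one_le_pow₀ (by norm_num)
      have h6 : (m : ℝ) * D w ≤ z₂ * E := mul_le_mul hz2 hDE (Nat.cast_nonneg _) hz₂
      refine h6.trans ?_
      exact le_mul_of_one_le_right (by positivity) h5
    · simp only [hf]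
      simpa using hterm
  choose! nn hnn using hprop
  refine id4_inj_sum A _ f (fun n => 1 / (1 - K / z₁) * ker x n) nn ?_ ?_ ?_ ?_
  · intro a ha
    obtain ⟨hn1, heq, hG, hcl, hcm, hUm, ht, hnN, -⟩ := hnn a ha
    exact Finset.mem_filter.2 ⟨Finset.mem_Icc.2 ⟨hn1, by exact_mod_cast hnN⟩, hG.1, hG.2, hcl⟩
  · intro a ha b hb hab
    obtain ⟨-, heqa, -, -, hcma, hUma, hta, -, -⟩ := hnn a ha
    obtain ⟨-, heqb, -, -, hcmb, hUmb, htb, -, -⟩ := hnn b hb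
    rw [← hcma] at hta
    rw [← hcmb] at htb
    obtain ⟨-, -, hSa, hfa⟩ := conv hUma hta heqa
    obtain ⟨-, -, hSb, hfb⟩ := conv hUmb htb heqb
    have hm : a.2.1 = b.2.1 := by rw [← hSa, ← hSb, hab]
    have hw : a.2.2 = b.2.2 := by rw [← hfa, ← hfb, hab]
    have hc : a.1 = b.1 := by rw [← hcma, ← hcmb, hm]
    obtain ⟨a1, a2, a3⟩ := a
    obtain ⟨b1, b2, b3⟩ := b
    simp only at hm hw hc
    subst hm hw hc
    rfl
  · intro a ha
    exact (hnn a ha).2.2.2.2.2.2.2.2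
  · intro n _
    have := ker_nonneg hx n
    positivity

open Classical in
/-- The words with `Fr > K` contribute little. -/
lemma coarse_restR {Λ k s lmax N₂ : ℕ} {c' : Bool} {P : ℕ → Prop}
    {x Y K E z₁ z₂ : ℝ}
    (hx : 0 < x) (hK : 1 ≤ K) (hz₁ : 1 ≤ z₁) (hz : z₁ ≤ z₂) :
    ∑ c : Bool, ∑ m ∈ MP P c N₂ z₁ z₂, 1 / (m : ℝ) *
        ∑ w ∈ (TAs Λ k lmax (k + s) Y E c c').filter (fun w =>
          (5 : ZMod (5 ^ (k + s))) ^ s * (Fm (k + s) w - (m : ZMod (5 ^ (k + s)))) = 0 ∧ K < Fr w),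
          5 ^ k / (D w : ℝ) * kr ((m : ℝ) * D w / 5 ^ k) x
      ≤ 54 / K * (5 ^ k / z₁ + Real.log (z₂ / z₁)) := by
  have hK0 : 0 < K := by linarith
  have hz0 : 0 < z₁ := by linarith
  have hlog : 0 ≤ Real.log (z₂ / z₁) := Real.log_nonneg ((one_le_div hz0).2 hz)
  have h5j : (0 : ℝ) < 5 ^ k := by positivity
  set H : ℝ := 5 ^ k / z₁ + Real.log (z₂ / z₁) with hH
  have hH0 : 0 ≤ H := by positivity
  -- one class
  have hc : ∀ c : Bool, ∑ m ∈ MP P c N₂ z₁ z₂, 1 / (m : ℝ) *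
        ∑ w ∈ (TAs Λ k lmax (k + s) Y E c c').filter (fun w =>
          (5 : ZMod (5 ^ (k + s))) ^ s * (Fm (k + s) w - (m : ZMod (5 ^ (k + s)))) = 0 ∧ K < Fr w),
          5 ^ k / (D w : ℝ) * kr ((m : ℝ) * D w / 5 ^ k) x ≤ 27 / K * H := by
    intro c
    -- bound `kr ≤ 1` and enlarge the set of words
    have h1 : ∀ m ∈ MP P c N₂ z₁ z₂, 1 / (m : ℝ) *
        ∑ w ∈ (TAs Λ k lmax (k + s) Y E c c').filter (fun w =>
          (5 : ZMod (5 ^ (k + s))) ^ s * (Fm (k + s) w - (m : ZMod (5 ^ (k + s)))) = 0 ∧ K < Fr w),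
          5 ^ k / (D w : ℝ) * kr ((m : ℝ) * D w / 5 ^ k) x ≤
        ∑ w ∈ (W Λ k c).filter (fun w => K < Fr w),
          5 ^ k / (D w : ℝ) * (if (5 : ℤ) ^ k ∣
            (D w : ℤ) * m - cnum w then 1 / (m : ℝ) else 0) := by
      intro m hm
      rw [MP, Finset.mem_filter, Finset.mem_Icc] at hm
      have hm0 : (0 : ℝ) < m := by linarith [hm.2.2.2.2.1]
      rw [Finset.mul_sum]
      refine le_trans (Finset.sum_le_sum (g := fun w : List Let =>
        5 ^ k / (D w : ℝ) * (if (5 : ℤ) ^ k ∣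
            (D w : ℤ) * m - cnum w then 1 / (m : ℝ) else 0)) ?_) ?_
      · intro w hw
        rw [Finset.mem_filter, TAs, Finset.mem_filter] at hw
        obtain ⟨⟨hwW, -⟩, hcong, -⟩ := hw
        rw [coarse_iff0] at hcong
        rw [if_pos hcong]
        have hD : (0 : ℝ) < D w := by exact_mod_cast D_pos w
        have h2 : kr ((m : ℝ) * D w / 5 ^ k) x ≤ 1 := kr_le_one (by positivity) hx
        calc 1 / (m : ℝ) * (5 ^ k / (D w : ℝ) * kr ((m : ℝ) * D w / 5 ^ k) x)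
            ≤ 1 / (m : ℝ) * (5 ^ k / (D w : ℝ) * 1) := by
              refine mul_le_mul_of_nonneg_left ?_ (by positivity)
              exact mul_le_mul_of_nonneg_left h2 (by positivity)
          _ = _ := by ring
      · refine Finset.sum_le_sum_of_subset_of_nonneg ?_ ?_
        · intro w hw
          rw [Finset.mem_filter, TAs, Finset.mem_filter] at hw
          exact Finset.mem_filter.2 ⟨hw.1.1, hw.2.2⟩
        · intro w _ _
          have hD : (0 : ℝ) < D w := by exact_mod_cast D_pos w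
          split_ifs
          · positivity
          · simp
    refine (Finset.sum_le_sum h1).trans ?_
    rw [Finset.sum_comm]
    have h2 : ∀ w ∈ (W Λ k c).filter (fun w => K < Fr w),
        ∑ m ∈ MP P c N₂ z₁ z₂, 5 ^ k / (D w : ℝ) * (if (5 : ℤ) ^ k ∣
            (D w : ℤ) * m - cnum w then 1 / (m : ℝ) else 0) ≤
        H * (1 / (D w : ℝ)) := by
      intro w _
      have hD : (0 : ℝ) < D w := by exact_mod_cast D_pos w
      obtain ⟨a, ha⟩ := id4_class k w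
      have h3 : ∑ m ∈ MP P c N₂ z₁ z₂, (if (5 : ℤ) ^ k ∣
            (D w : ℤ) * m - cnum w then 1 / (m : ℝ) else 0) ≤
          1 / z₁ + Real.log (z₂ / z₁) / (5 ^ k : ℕ) := by
        refine le_trans ?_ (class_harmonic (5 ^ k) a N₂ (Nat.one_le_pow _ _ (by norm_num))
          hz₁ hz)
        rw [← Finset.sum_filter]
        refine Finset.sum_le_sum_of_subset_of_nonneg ?_ ?_
        · intro m hm
          rw [Finset.mem_filter, MP, Finset.mem_filter] at hm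
          exact Finset.mem_filter.2 ⟨hm.1.1, ha m hm.2, hm.1.2.2.2.2.1, hm.1.2.2.2.2.2⟩
        · intro m _ _
          positivity
      rw [← Finset.mul_sum]
      have h4 : 5 ^ k / (D w : ℝ) * (1 / z₁ + Real.log (z₂ / z₁) / (5 ^ k : ℕ)) =
          H * (1 / (D w : ℝ)) := by
        rw [hH]
        push_cast
        field_simp
      rw [← h4]
      exact mul_le_mul_of_nonneg_left h3 (by positivity)
    refine (Finset.sum_le_sum h2).trans ?_
    rw [← Finset.mul_sum]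
    calc H * ∑ w ∈ (W Λ k c).filter (fun w => K < Fr w), 1 / (D w : ℝ)
        ≤ H * (20 / K) := mul_le_mul_of_nonneg_left (mass_F Λ k c hK0) hH0
      _ = 20 / K * H := by ring
      _ ≤ 27 / K * H := by
          refine mul_le_mul_of_nonneg_right ?_ hH0
          exact div_le_div_of_nonneg_right (by norm_num) hK0.le
  refine (Finset.sum_le_sum fun c _ => hc c).trans (le_of_eq ?_)
  rw [Finset.sum_const, Finset.card_univ, Fintype.card_bool, nsmul_eq_mul]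
  push_cast
  ring


end K5.ID
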