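import Pool.Agent.Lib.MP_a4658c_nt.ID.DichC
import Pool.Agent.Lib.MP_a4658c_nt.ID.InvK

/-!
MP_a4658c_nt, natural density of the invariant sets of the Kakutani map: assembly from the pieces.
-/

set_option autoImplicit false

open Filter Topology

namespace K5.ID

open K5

open Classical in
/-- the sum over the integers prime to 6 in `A` of the kernel -/
theorem sum_classes (P : ℕ → Prop) (t : ℝ) :
    ∑' n : ℕ, (if 1 ≤ n ∧ (U n ∧ P n) then ker (Real.exp t) n else 0) =
      fP P true t + fP P false t := by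
  rw [fP_eq, fP_eq, ← (tP_summable P true (Real.exp_pos t)).tsum_add
    (tP_summable P false (Real.exp_pos t))]
  refine tsum_congr fun n => ?_
  unfold tP
  by_cases h1 : 1 ≤ n ∧ (U n ∧ P n)
  · rw [if_pos h1]
    by_cases h2 : cl n = true
    · rw [if_pos ⟨h1.1, h1.2.1, h1.2.2, h2⟩, if_neg (fun h => by rw [h2] at h; simp at h),
        add_zero]
    · have h3 : cl n = false := by simpa using h2
      rw [if_neg (fun h => h2 h.2.2.2), if_pos ⟨h1.1, h1.2.1, h1.2.2, h3⟩, zero_add]
  · rw [if_neg h1, if_neg (fun h => h1 ⟨h.1, h.2.1, h.2.2.1⟩),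
      if_neg (fun h => h1 ⟨h.1, h.2.1, h.2.2.1⟩), add_zero]

open Classical in
/-- existence of the natural density -/
theorem density_of (hTr : Trans) (hUC : UC) (hNe : Near) (hPr : Propagate) (hTa : Taub)
    (hAl : AllInt) (A : Set ℕ) (n₀ : ℕ) (hA : ∀ n > n₀, (n ∈ A ↔ kak n ∈ A)) :
    ∃ d : ℝ, Tendsto (fun N : ℕ => (((Finset.Icc 1 N).filter (fun n => n ∈ A)).card : ℝ) / N)
      atTop (𝓝 d) ∧ (d = 0 → ∀ c, Tendsto (fP (fun n => n ∈ A) c) atTop (𝓝 0)) := by
  obtain ⟨M, hM0, hM3, hM⟩ := conv_of hTr hUC hNe hPr (inv_of hA)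
  have h1 : Tendsto (fun t : ℝ => ∑' n : ℕ,
      if 1 ≤ n ∧ (fun n => U n ∧ n ∈ A) n then ker (Real.exp t) n else 0) atTop (𝓝 (2 * M)) := by
    have h2 := (hM true).add (hM false)
    rw [← two_mul] at h2
    refine h2.congr fun t => ?_
    exact (sum_classes (fun n => n ∈ A) t).symm
  have h2 := hTa (fun n => U n ∧ n ∈ A) (2 * M) (by convert h1)
  have h3 : 2 * M / 2 = M := by ring
  rw [h3] at h2
  refine ⟨3 * M, hAl A n₀ M hA (by convert h2), fun h0 c => ?_⟩
  have h4 : M = 0 := by linarith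
  rw [← h4]
  exact hM c

open Classical in
/-- the count against the smoothed density -/
theorem card_le_fP (P : ℕ → Prop) (N : ℕ) (hN : 1 ≤ N) :
    (((Finset.Icc 1 N).filter (fun n => U n ∧ P n)).card : ℝ) ≤
      N * (fP P true (Real.log N) + fP P false (Real.log N)) := by
  have hN0 : (0 : ℝ) < N := by exact_mod_cast hN
  have hx : Real.exp (Real.log N) = N := Real.exp_log hN0
  have h1 : ∀ c, ∑ n ∈ (Finset.Icc 1 N).filter (fun n => U n ∧ P n ∧ cl n = c), (1 / N : ℝ) ≤
      fP P c (Real.log N) := by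
    intro c
    refine le_trans ?_ (RP_le_fP P c N (Real.log N))
    rw [hx]
    unfold RP
    refine Finset.sum_le_sum fun n hn => ?_
    rw [Finset.mem_filter, Finset.mem_Icc] at hn
    have hn0 : (0 : ℝ) < n := by exact_mod_cast hn.1.1
    have hnN : (n : ℝ) ≤ N := by exact_mod_cast hn.1.2
    unfold ker
    refine le_min le_rfl ?_
    rw [div_le_div_iff₀ hN0 (by positivity)]
    nlinarith
  have h2 : ((Finset.Icc 1 N).filter (fun n => U n ∧ P n)) =
      ((Finset.Icc 1 N).filter (fun n => U n ∧ P n ∧ cl n = true)) ∪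
      ((Finset.Icc 1 N).filter (fun n => U n ∧ P n ∧ cl n = false)) := by
    ext n
    simp only [Finset.mem_union, Finset.mem_filter]
    cases h : cl n <;> simp
  have h3 : (((Finset.Icc 1 N).filter (fun n => U n ∧ P n)).card : ℝ) ≤
      (((Finset.Icc 1 N).filter (fun n => U n ∧ P n ∧ cl n = true)).card : ℝ) +
      (((Finset.Icc 1 N).filter (fun n => U n ∧ P n ∧ cl n = false)).card : ℝ) := by
    rw [h2]
    exact_mod_cast Finset.card_union_le _ _
  have h4 := h1 true
  have h5 := h1 false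
  rw [Finset.sum_const, nsmul_eq_mul, mul_one_div, div_le_iff₀ hN0] at h4 h5
  linarith

open Classical in
/-- sets of density zero are sparse -/
theorem sparse_of (hTr : Trans) (hUC : UC) (hPr : Propagate) (hAZ : AllZero) (A : Set ℕ) (n₀ : ℕ)
    (hA : ∀ n > n₀, (n ∈ A ↔ kak n ∈ A))
    (h0 : ∀ c, Tendsto (fP (fun n => n ∈ A) c) atTop (𝓝 0)) (B : ℕ) :
    ∃ C : ℝ, ∀ N : ℕ, 1 ≤ N → (((Finset.Icc 1 N).filter (fun n => n ∈ A)).card : ℝ)
      ≤ C * N / (1 + Real.log N) ^ B := by
  obtain ⟨C, hC, h⟩ := zero_of hTr hUC hPr B (inv_of hA) h0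
  refine hAZ A n₀ B ((2 * C + 6) * 2 ^ B) hA fun N hN => ?_
  have hN0 : (0 : ℝ) < N := by exact_mod_cast hN
  have hN1 : (1 : ℝ) ≤ N := by exact_mod_cast hN
  have hl0 : 0 ≤ Real.log N := Real.log_nonneg hN1
  have h1 := card_le_fP (fun n => n ∈ A) N hN
  refine h1.trans ?_
  have hkey : ∀ c, fP (fun n => n ∈ A) c (Real.log N) ≤
      (C + 3) * 2 ^ B / (1 + Real.log N) ^ B := by
    intro c
    have hpos : 0 < (1 + Real.log N) ^ B := by positivity
    rcases le_or_gt 1 (Real.log N) with hl | hl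
    · have h2 := h c (Real.log N) hl
      refine h2.trans ?_
      rw [div_le_div_iff₀ (by positivity) hpos]
      have h3 : (1 + Real.log N) ^ B ≤ 2 ^ B * (Real.log N) ^ B := by
        rw [← mul_pow]
        exact pow_le_pow_left₀ (by positivity) (by linarith) B
      calc C * (1 + Real.log N) ^ B ≤ C * (2 ^ B * (Real.log N) ^ B) :=
            mul_le_mul_of_nonneg_left h3 hC.le
        _ ≤ (C + 3) * (2 ^ B * (Real.log N) ^ B) := by
            refine mul_le_mul_of_nonneg_right (by linarith) (by positivity)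
        _ = _ := by ring
    · have h2 := fP_le_three (fun n => n ∈ A) c (Real.log N)
      refine h2.trans ?_
      rw [le_div_iff₀ hpos]
      have h3 : (1 + Real.log N) ^ B ≤ 2 ^ B := pow_le_pow_left₀ (by positivity) (by linarith) B
      have h4 : (0 : ℝ) < 2 ^ B := by positivity
      nlinarith
  calc (N : ℝ) * (fP (fun n => n ∈ A) true (Real.log N) +
        fP (fun n => n ∈ A) false (Real.log N))
      ≤ N * ((C + 3) * 2 ^ B / (1 + Real.log N) ^ B + (C + 3) * 2 ^ B / (1 + Real.log N) ^ B) :=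
        mul_le_mul_of_nonneg_left (add_le_add (hkey true) (hkey false)) hN0.le
    _ = _ := by ring

end K5.ID
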