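import Pool.Agent.Lib.MP_a4658c_nt.ID.EqTransfer
import Pool.Agent.Lib.MP_a4658c_nt.ID.Main

/-!
MP_a4658c_nt, equidistribution of the invariant sets of the Kakutani map in residue classes:
limits.
-/

set_option autoImplicit false

open Filter Topology

namespace K5.ID

open K5

/-- the inequality for the smoothed densities -/
def TransR : Prop := ∀ s : ℕ, ∃ t₀ C : ℝ, 0 < t₀ ∧ 0 < C ∧
    ∀ (P : ℕ → Prop) (X t : ℝ) (b : ℕ), Inv X P → t₀ ≤ t → X ≤ Real.exp (t / 4) →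
    ∀ c' : Bool, fP (fun n => P n ∧ n % 5 ^ s = b) c' t ≤ 1 / 5 ^ s * fP P c' t + C / t

theorem transR_of (n1 : NumBasic) (n2 : NumDeficit) (n3 : NumTails) (n4 : NumRest)
    (n6 : NumFactor) (n7 : NumMix) (hInv : Inversion) : TransR := by
  intro s
  obtain ⟨t₀, C, ht₀, hC, H⟩ := transferR n1 n2 n3 n4 n6 n7 hInv s
  refine ⟨t₀, C, ht₀, hC, ?_⟩
  intro P X t b hP ht hX c'
  refine fP_le_of_RP _ c' t _ fun N => ?_
  obtain ⟨N', hN'⟩ := H P X t b hP ht hX c' N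
  refine hN'.trans ?_
  have h1 := RP_le_fP P c' N' t
  have h2 : (0 : ℝ) < 1 / 5 ^ s := by positivity
  have h3 := mul_le_mul_of_nonneg_left h1 h2.le
  linarith

/-- the smoothed densities of the residue classes add up -/
theorem fP_sum (P : ℕ → Prop) (c : Bool) (s : ℕ) (t : ℝ) :
    ∑ b ∈ Finset.range (5 ^ s), fP (fun n => P n ∧ n % 5 ^ s = b) c t = fP P c t := by
  simp only [fP_eq]
  rw [← Summable.tsum_finsetSum (fun b _ => tP_summable _ c (Real.exp_pos t))]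
  refine tsum_congr fun n => ?_
  unfold tP
  by_cases h1 : 1 ≤ n ∧ U n ∧ P n ∧ cl n = c
  · rw [if_pos h1, Finset.sum_eq_single (n % 5 ^ s)]
    · rw [if_pos ⟨h1.1, h1.2.1, ⟨h1.2.2.1, rfl⟩, h1.2.2.2⟩]
    · intro b _ hb
      rw [if_neg (fun h => hb h.2.2.1.2.symm)]
    · intro hb
      exact absurd (Finset.mem_range.2 (Nat.mod_lt _ (by positivity))) hb
  · rw [if_neg h1]
    refine Finset.sum_eq_zero fun b _ => ?_
    rw [if_neg (fun h => h1 ⟨h.1, h.2.1, h.2.2.1.1, h.2.2.2⟩)]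

theorem residue_lim (hTR : TransR) {X : ℝ} {P : ℕ → Prop} (hP : Inv X P) {M : ℝ} {c : Bool}
    (hM : Tendsto (fP P c) atTop (𝓝 M)) (s b : ℕ) (hb : b < 5 ^ s) :
    Tendsto (fP (fun n => P n ∧ n % 5 ^ s = b) c) atTop (𝓝 (M / 5 ^ s)) := by
  obtain ⟨t₀, C, ht₀, hC, H⟩ := hTR s
  obtain ⟨T, hT, hX⟩ := exists_T t₀ X
  have h5 : (0 : ℝ) < 5 ^ s := by positivity
  have hCt : Tendsto (fun t : ℝ => C / t) atTop (𝓝 0) := tendsto_const_nhds.div_atTop tendsto_id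
  have hup : ∀ b', ∀ t ≥ T, fP (fun n => P n ∧ n % 5 ^ s = b') c t ≤
      1 / 5 ^ s * fP P c t + C / t := by
    intro b' t ht
    exact H P X t b' hP (hT.trans ht) (hX.trans (Real.exp_le_exp.2 (by linarith))) c
  have hlow : ∀ t ≥ T, fP P c t - (5 ^ s - 1) * (1 / 5 ^ s * fP P c t + C / t) ≤
      fP (fun n => P n ∧ n % 5 ^ s = b) c t := by
    intro t ht
    have h1 := fP_sum P c s t
    rw [← Finset.add_sum_erase _ _ (Finset.mem_range.2 hb)] at h1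
    have h2 : ∑ b' ∈ (Finset.range (5 ^ s)).erase b, fP (fun n => P n ∧ n % 5 ^ s = b') c t ≤
        ∑ _b' ∈ (Finset.range (5 ^ s)).erase b, (1 / 5 ^ s * fP P c t + C / t) :=
      Finset.sum_le_sum fun b' _ => hup b' t ht
    rw [Finset.sum_const, Finset.card_erase_of_mem (Finset.mem_range.2 hb), Finset.card_range,
      nsmul_eq_mul] at h2
    have h3 : ((5 ^ s - 1 : ℕ) : ℝ) = 5 ^ s - 1 := by
      rw [Nat.cast_sub (Nat.one_le_pow _ _ (by norm_num))]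
      push_cast
      ring
    rw [h3] at h2
    linarith
  have hl1 : Tendsto (fun t : ℝ => 1 / 5 ^ s * fP P c t + C / t) atTop
      (𝓝 (1 / 5 ^ s * M + 0)) := (hM.const_mul _).add hCt
  have hl2 : Tendsto (fun t : ℝ => fP P c t - (5 ^ s - 1) * (1 / 5 ^ s * fP P c t + C / t)) atTop
      (𝓝 (M - (5 ^ s - 1) * (1 / 5 ^ s * M + 0))) := hM.sub (hl1.const_mul _)
  have e1 : 1 / 5 ^ s * M + 0 = M / 5 ^ s := by ring
  have e2 : M - (5 ^ s - 1) * (1 / 5 ^ s * M + 0) = M / 5 ^ s := by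
    field_simp
    ring
  rw [e1] at hl1
  rw [e2] at hl2
  refine tendsto_of_tendsto_of_tendsto_of_le_of_le' hl2 hl1 ?_ ?_
  · filter_upwards [eventually_ge_atTop T] with t ht
    exact hlow t ht
  · filter_upwards [eventually_ge_atTop T] with t ht
    exact hup b t ht

open Classical in
theorem star_of (hTr : Trans) (hUC : UC) (hNe : Near) (hPr : Propagate) (hTa : Taub)
    (hAl : AllInt) (hTR : TransR) (A : Set ℕ) (n₀ : ℕ) (hA : ∀ n > n₀, (n ∈ A ↔ kak n ∈ A))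
    {d : ℝ} (hd : Tendsto (fun N : ℕ => (((Finset.Icc 1 N).filter (fun n => n ∈ A)).card : ℝ) / N)
      atTop (𝓝 d)) : Star A d := by
  obtain ⟨M, hM0, hM3, hM⟩ := conv_of hTr hUC hNe hPr (inv_of hA)
  have h1 : Tendsto (fun t : ℝ => ∑' n : ℕ,
      if 1 ≤ n ∧ (fun n => U n ∧ n ∈ A) n then ker (Real.exp t) n else 0) atTop (𝓝 (2 * M)) := by
    have h2 := (hM true).add (hM false)
    rw [← two_mul] at h2
    refine h2.congr fun t => ?_
    exact (sum_classes (fun n => n ∈ A) t).symm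
  have h2 := hTa (fun n => U n ∧ n ∈ A) (2 * M) (by convert h1)
  have h3 : 2 * M / 2 = M := by ring
  rw [h3] at h2
  have h4 := hAl A n₀ M hA (by convert h2)
  have hdM : d = 3 * M := tendsto_nhds_unique hd (by convert h4)
  intro c s b hb
  have h5 := residue_lim hTR (inv_of hA) (hM c) s b hb
  have h6 : Tendsto (fun t : ℝ => ∑' n : ℕ,
      if 1 ≤ n ∧ (fun n => U n ∧ cl n = c ∧ n % 5 ^ s = b ∧ n ∈ A) n then
        ker (Real.exp t) n else 0) atTop (𝓝 (M / 5 ^ s)) := by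
    refine h5.congr fun t => ?_
    rw [fP_eq]
    refine tsum_congr fun n => ?_
    unfold tP
    by_cases h7 : 1 ≤ n ∧ U n ∧ (n ∈ A ∧ n % 5 ^ s = b) ∧ cl n = c
    · rw [if_pos h7, if_pos ⟨h7.1, h7.2.1, h7.2.2.2, h7.2.2.1.2, h7.2.2.1.1⟩]
    · rw [if_neg h7, if_neg (fun h => h7 ⟨h.1, h.2.1, ⟨h.2.2.2.2, h.2.2.2.1⟩, h.2.2.1⟩)]
  have h7 := hTa (fun n => U n ∧ cl n = c ∧ n % 5 ^ s = b ∧ n ∈ A) (M / 5 ^ s) (by convert h6)
  have h8 : M / 5 ^ s / 2 = d / (6 * 5 ^ s) := by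
    rw [hdM]
    field_simp
    ring
  rw [h8] at h7
  convert h7

end K5.ID
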