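import Pool.Agent.Lib.MP_a4658c_nt.ID.EqPush

/-!
MP_a4658c_nt, equidistribution of the invariant sets of the Kakutani map in residue classes:
mixing.
-/

set_option autoImplicit false

namespace K5.ID

open K5

private lemma id6_split {Λ k lmax M : ℕ} {c c' : Bool} {Y E : ℝ} (P : List Let → Prop)
    [DecidablePred P]
    (g : List Let → ℝ) (G₀ : ℕ → ℕ → ℝ) (C₀ : ℝ)
    (hg : ∀ w, g w = C₀ / (D w : ℝ) * G₀ (sA w) (sB w)) :
    ∑ w ∈ (TAs Λ k lmax M Y E c c').filter P, g w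
      = ∑ e ∈ Finset.range (k * Λ + 1) ×ˢ Finset.range (k * Λ + 1),
          if ((2 : ℝ) ^ e.1 * 3 ^ e.2) ≤ E then
            G₀ e.1 e.2 * (C₀ * ∑ w ∈ (TTs Λ k lmax M Y c c' e.1 e.2).filter P, 1 / (D w : ℝ))
          else 0 := by
  classical
  rw [← Finset.sum_fiberwise_of_maps_to (s := (TAs Λ k lmax M Y E c c').filter P)
    (t := Finset.range (k * Λ + 1) ×ˢ Finset.range (k * Λ + 1))
    (g := fun w => (sA w, sB w))]
  · refine Finset.sum_congr rfl fun e _ => ?_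
    have hset : ((TAs Λ k lmax M Y E c c').filter P).filter (fun w => (sA w, sB w) = e)
        = if ((2 : ℝ) ^ e.1 * 3 ^ e.2) ≤ E then (TTs Λ k lmax M Y c c' e.1 e.2).filter P
          else ∅ := by
      ext w
      split_ifs with h
      · simp only [TAs, TTs, Finset.mem_filter, Prod.ext_iff]
        constructor
        · rintro ⟨⟨⟨h1, h2, h3, h4⟩, h5⟩, h6, h7⟩
          exact ⟨⟨h1, h2, h6, h7, h4⟩, h5⟩
        · rintro ⟨⟨h1, h2, h6, h7, h4⟩, h5⟩
          refine ⟨⟨⟨h1, h2, ?_, h4⟩, h5⟩, h6, h7⟩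
          rw [D_eq, h6, h7]; push_cast; exact h
      · simp only [TAs, Finset.mem_filter, Prod.ext_iff, Finset.notMem_empty, iff_false]
        rintro ⟨⟨⟨h1, h2, h3, h4⟩, h5⟩, h6, h7⟩
        apply h
        rw [D_eq, h6, h7] at h3; push_cast at h3; exact h3
    rw [hset]
    split_ifs with h
    · rw [Finset.mul_sum, Finset.mul_sum]
      refine Finset.sum_congr rfl fun w hw => ?_
      have hw' := Finset.mem_filter.mp (Finset.mem_filter.mp hw).1
      rw [hg, hw'.2.2.1, hw'.2.2.2.1]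
      ring
    · simp
  · intro w hw
    have hw' := Finset.mem_filter.mp (Finset.mem_filter.mp hw).1
    have := id3_s_le hw'.1
    rw [Finset.mem_product, Finset.mem_range, Finset.mem_range]
    exact ⟨by simpa using Nat.lt_succ_of_le this.1, by simpa using Nat.lt_succ_of_le this.2⟩

open Classical in
lemma mix_applyR {Λ k s b lmax N₂ : ℕ} {c c' : Bool} {P : ℕ → Prop} {x Y E z₁ z₂ Mx : ℝ} (hx : 0 < x)
    (hz₁ : 1 ≤ z₁) (hz : z₁ ≤ z₂)
    (hmix : ∀ A B : ℕ, ∑ y : ZMod (5 ^ (k + s)),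
      |hh (k + s) (TTs Λ k lmax (k + s) Y c c' A B) y -
        ht (k + s) s (TTs Λ k lmax (k + s) Y c c' A B) y| ≤ Mx) :
    ∑ m ∈ MP P c N₂ z₁ z₂, 1 / (m : ℝ) *
        ∑ w ∈ (TAs Λ k lmax (k + s) Y E c c').filter
          (fun w => Fb k s b w = (m : ZMod (5 ^ (k + s)))),
          5 ^ k / (D w : ℝ) * kr ((m : ℝ) * D w / 5 ^ k) x
      ≤ 1 / 5 ^ s * (∑ m ∈ MP P c N₂ z₁ z₂, 1 / (m : ℝ) *
          ∑ w ∈ (TAs Λ k lmax (k + s) Y E c c').filter (fun w =>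
            (5 : ZMod (5 ^ (k + s))) ^ s * (Fm (k + s) w - (m : ZMod (5 ^ (k + s)))) = 0),
            5 ^ k / (D w : ℝ) * kr ((m : ℝ) * D w / 5 ^ k) x)
        + (k * Λ + 1) ^ 2 * Mx * (1 / z₁ + Real.log (z₂ / z₁) / 5 ^ (k + s)) := by
  have h5s : (1 : ℝ) ≤ 5 ^ s := one_le_pow₀ (by norm_num)
  have h5s0 : (0 : ℝ) < 5 ^ s := by positivity
  have h5k0 : (0 : ℝ) < 5 ^ k := by positivity
  set ES := Finset.range (k * Λ + 1) ×ˢ Finset.range (k * Λ + 1) with hES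
  -- the translation attached to an endpoint
  obtain ⟨θ, hθ⟩ : ∃ θ : ℕ × ℕ → ZMod (5 ^ (k + s)), θ = fun e =>
    5 ^ k * ((2 ^ e.1 * 3 ^ e.2 : ℕ) : ZMod (5 ^ (k + s)))⁻¹ * b := ⟨_, rfl⟩
  have hθ0 : ∀ e, (5 : ZMod (5 ^ (k + s))) ^ s * θ e = 0 := by
    intro e
    rw [hθ]
    have h5M : (5 : ZMod (5 ^ (k + s))) ^ (k + s) = 0 := by
      have h := ZMod.natCast_self (5 ^ (k + s))
      push_cast at h
      exact h
    calc (5 : ZMod (5 ^ (k + s))) ^ s *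
          (5 ^ k * ((2 ^ e.1 * 3 ^ e.2 : ℕ) : ZMod (5 ^ (k + s)))⁻¹ * b)
        = 5 ^ (k + s) * (((2 ^ e.1 * 3 ^ e.2 : ℕ) : ZMod (5 ^ (k + s)))⁻¹ * b) := by
          rw [pow_add]; ring
      _ = 0 := by rw [h5M, zero_mul]
  set dh : ℕ × ℕ → ZMod (5 ^ (k + s)) → ℝ := fun e y =>
    |hh (k + s) (TTs Λ k lmax (k + s) Y c c' e.1 e.2) (y - θ e) -
      ht (k + s) s (TTs Λ k lmax (k + s) Y c c' e.1 e.2) (y - θ e)| with hdh
  have hz0 : 0 < z₁ := by linarith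
  -- pointwise in m
  have hm : ∀ m ∈ MP P c N₂ z₁ z₂,
      ∑ w ∈ (TAs Λ k lmax (k + s) Y E c c').filter
          (fun w => Fb k s b w = (m : ZMod (5 ^ (k + s)))),
          5 ^ k / (D w : ℝ) * kr ((m : ℝ) * D w / 5 ^ k) x
        ≤ 1 / 5 ^ s * (∑ w ∈ (TAs Λ k lmax (k + s) Y E c c').filter (fun w =>
            (5 : ZMod (5 ^ (k + s))) ^ s * (Fm (k + s) w - (m : ZMod (5 ^ (k + s)))) = 0),
            5 ^ k / (D w : ℝ) * kr ((m : ℝ) * D w / 5 ^ k) x)
          + ∑ e ∈ ES, dh e (m : ZMod (5 ^ (k + s))) := by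
    intro m hm
    have hm1 : 1 ≤ m := (Finset.mem_Icc.mp (Finset.mem_filter.mp hm).1).1
    have hm0 : (0 : ℝ) < m := by exact_mod_cast hm1
    rw [id6_split (P := fun w => Fb k s b w = (m : ZMod (5 ^ (k + s))))
        (g := fun w => 5 ^ k / (D w : ℝ) * kr ((m : ℝ) * D w / 5 ^ k) x)
        (G₀ := fun A B => kr ((m : ℝ) * (2 ^ A * 3 ^ B) / 5 ^ k) x) (C₀ := 5 ^ k)
        (fun w => by rw [D_eq]; push_cast; rfl),
      id6_split (P := fun w => (5 : ZMod (5 ^ (k + s))) ^ s *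
          (Fm (k + s) w - (m : ZMod (5 ^ (k + s)))) = 0)
        (g := fun w => 5 ^ k / (D w : ℝ) * kr ((m : ℝ) * D w / 5 ^ k) x)
        (G₀ := fun A B => kr ((m : ℝ) * (2 ^ A * 3 ^ B) / 5 ^ k) x) (C₀ := 5 ^ k)
        (fun w => by rw [D_eq]; push_cast; rfl),
      Finset.mul_sum, ← Finset.sum_add_distrib]
    refine Finset.sum_le_sum fun e _ => ?_
    split_ifs with h
    · have hk0 : 0 ≤ kr ((m : ℝ) * (2 ^ e.1 * 3 ^ e.2) / 5 ^ k) x := kr_nonneg (by positivity) hx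
      have hk1 : kr ((m : ℝ) * (2 ^ e.1 * 3 ^ e.2) / 5 ^ k) x ≤ 1 := kr_le_one (by positivity) hx
      have hd : hh (k + s) (TTs Λ k lmax (k + s) Y c c' e.1 e.2) ((m : ZMod (5 ^ (k + s))) - θ e)
          - ht (k + s) s (TTs Λ k lmax (k + s) Y c c' e.1 e.2) ((m : ZMod (5 ^ (k + s))) - θ e)
          ≤ dh e (m : ZMod (5 ^ (k + s))) := le_abs_self _
      have hd0 : 0 ≤ dh e (m : ZMod (5 ^ (k + s))) := abs_nonneg _
      have e1 : 5 ^ s * (5 ^ k * ∑ w ∈ (TTs Λ k lmax (k + s) Y c c' e.1 e.2).filter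
            (fun w => Fb k s b w = (m : ZMod (5 ^ (k + s)))), 1 / (D w : ℝ)) =
          hh (k + s) (TTs Λ k lmax (k + s) Y c c' e.1 e.2) ((m : ZMod (5 ^ (k + s))) - θ e) := by
        unfold hh
        rw [← mul_assoc, ← pow_add, add_comm s k]
        congr 1
        refine Finset.sum_congr ?_ fun _ _ => rfl
        refine Finset.filter_congr fun w hw => ?_
        have hw' := (Finset.mem_filter.mp hw).2
        have hDe : D w = 2 ^ e.1 * 3 ^ e.2 := by rw [D_eq, hw'.2.1, hw'.2.2.1]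
        unfold Fb
        rw [hDe, eq_sub_iff_add_eq, hθ]
      have e2 : ht (k + s) s (TTs Λ k lmax (k + s) Y c c' e.1 e.2)
            ((m : ZMod (5 ^ (k + s))) - θ e)
          = 5 ^ k * ∑ w ∈ (TTs Λ k lmax (k + s) Y c c' e.1 e.2).filter
            (fun w => (5 : ZMod (5 ^ (k + s))) ^ s *
              (Fm (k + s) w - (m : ZMod (5 ^ (k + s)))) = 0), 1 / (D w : ℝ) := by
        unfold ht
        rw [Nat.add_sub_cancel]
        congr 1
        refine Finset.sum_congr ?_ fun _ _ => rfl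
        refine Finset.filter_congr fun w _ => ?_
        have h7 : (5 : ZMod (5 ^ (k + s))) ^ s * (Fm (k + s) w - ((m : ZMod (5 ^ (k + s))) - θ e)) =
            5 ^ s * (Fm (k + s) w - (m : ZMod (5 ^ (k + s)))) + 5 ^ s * θ e := by ring
        rw [h7, hθ0, add_zero]
      rw [← e2]
      obtain ⟨kk0, hkk0⟩ : ∃ kk0, kk0 = kr ((m : ℝ) * (2 ^ e.1 * 3 ^ e.2) / 5 ^ k) x := ⟨_, rfl⟩
      obtain ⟨q1, hq1⟩ : ∃ q1, q1 = 5 ^ k * ∑ w ∈ (TTs Λ k lmax (k + s) Y c c' e.1 e.2).filter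
            (fun w => Fb k s b w = (m : ZMod (5 ^ (k + s)))), 1 / (D w : ℝ) := ⟨_, rfl⟩
      rw [← hq1] at e1 ⊢
      rw [← hkk0] at hk0 hk1 ⊢
      have e3 : q1 = 1 / 5 ^ s * hh (k + s) (TTs Λ k lmax (k + s) Y c c' e.1 e.2)
          ((m : ZMod (5 ^ (k + s))) - θ e) := by
        rw [← e1]
        field_simp
      have h8 : (0 : ℝ) < 1 / 5 ^ s := by positivity
      have h9 : 1 / (5 : ℝ) ^ s ≤ 1 := by
        rw [div_le_one h5s0]
        exact h5s
      rw [e3]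
      have h10 : kk0 * (1 / 5 ^ s * hh (k + s) (TTs Λ k lmax (k + s) Y c c' e.1 e.2)
          ((m : ZMod (5 ^ (k + s))) - θ e)) - 1 / 5 ^ s * (kk0 * ht (k + s) s
          (TTs Λ k lmax (k + s) Y c c' e.1 e.2) ((m : ZMod (5 ^ (k + s))) - θ e)) =
          (kk0 * (1 / 5 ^ s)) * (hh (k + s) (TTs Λ k lmax (k + s) Y c c' e.1 e.2)
          ((m : ZMod (5 ^ (k + s))) - θ e) - ht (k + s) s (TTs Λ k lmax (k + s) Y c c' e.1 e.2)
          ((m : ZMod (5 ^ (k + s))) - θ e)) := by ring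
      have h11 : 0 ≤ kk0 * (1 / 5 ^ s) := by positivity
      have h12 : kk0 * (1 / 5 ^ s) ≤ 1 := mul_le_one₀ hk1 h8.le h9
      have h13 := mul_le_mul_of_nonneg_left hd h11
      have h14 := mul_le_mul_of_nonneg_right h12 hd0
      linarith
    · simpa using abs_nonneg _
  -- the error term
  have herr : ∀ e : ℕ × ℕ, ∑ m ∈ MP P c N₂ z₁ z₂, 1 / (m : ℝ) * dh e (m : ZMod (5 ^ (k + s)))
      ≤ Mx * (1 / z₁ + Real.log (z₂ / z₁) / 5 ^ (k + s)) := by
    intro e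
    rw [← Finset.sum_fiberwise_of_maps_to (s := MP P c N₂ z₁ z₂)
      (t := (Finset.univ : Finset (ZMod (5 ^ (k + s))))) (g := fun m : ℕ => (m : ZMod (5 ^ (k + s))))
      (fun _ _ => Finset.mem_univ _)]
    have hbd : ∀ y : ZMod (5 ^ (k + s)),
        ∑ m ∈ (MP P c N₂ z₁ z₂).filter (fun m : ℕ => (m : ZMod (5 ^ (k + s))) = y),
          1 / (m : ℝ) * dh e (m : ZMod (5 ^ (k + s)))
        ≤ dh e y * (1 / z₁ + Real.log (z₂ / z₁) / 5 ^ (k + s)) := by
      intro y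
      have h5 : 1 ≤ 5 ^ (k + s) := Nat.one_le_pow _ _ (by norm_num)
      have hch := class_harmonic (5 ^ (k + s)) y.val N₂ h5 hz₁ hz
      push_cast at hch
      calc ∑ m ∈ (MP P c N₂ z₁ z₂).filter (fun m : ℕ => (m : ZMod (5 ^ (k + s))) = y),
          1 / (m : ℝ) * dh e (m : ZMod (5 ^ (k + s)))
          = dh e y * ∑ m ∈ (MP P c N₂ z₁ z₂).filter
              (fun m : ℕ => (m : ZMod (5 ^ (k + s))) = y), 1 / (m : ℝ) := by
            rw [Finset.mul_sum]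
            refine Finset.sum_congr rfl fun m hm => ?_
            rw [(Finset.mem_filter.mp hm).2]; ring
        _ ≤ dh e y * ∑ m ∈ (Finset.Icc 1 N₂).filter
              (fun m : ℕ => m % 5 ^ (k + s) = y.val ∧ z₁ ≤ (m : ℝ) ∧ (m : ℝ) ≤ z₂),
                1 / (m : ℝ) := by
            refine mul_le_mul_of_nonneg_left ?_ (abs_nonneg _)
            refine Finset.sum_le_sum_of_subset_of_nonneg ?_ (fun _ _ _ => by positivity)
            intro m hm
            obtain ⟨h1, h2⟩ := Finset.mem_filter.mp hm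
            obtain ⟨h3, h4, hP4, h5, h6, h7⟩ := Finset.mem_filter.mp h1
            refine Finset.mem_filter.mpr ⟨h3, ?_, h6, h7⟩
            rw [← h2, ZMod.val_natCast]
        _ ≤ _ := by gcongr
    calc _ ≤ ∑ y : ZMod (5 ^ (k + s)), dh e y * (1 / z₁ + Real.log (z₂ / z₁) / 5 ^ (k + s)) :=
          Finset.sum_le_sum fun y _ => hbd y
      _ = (∑ y : ZMod (5 ^ (k + s)), dh e y) * (1 / z₁ + Real.log (z₂ / z₁) / 5 ^ (k + s)) := by
          rw [Finset.sum_mul]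
      _ ≤ _ := by
          have htr : ∑ y : ZMod (5 ^ (k + s)), dh e y = ∑ y : ZMod (5 ^ (k + s)),
              |hh (k + s) (TTs Λ k lmax (k + s) Y c c' e.1 e.2) y -
                ht (k + s) s (TTs Λ k lmax (k + s) Y c c' e.1 e.2) y| := by
            rw [hdh]
            exact Fintype.sum_equiv (Equiv.subRight (θ e)) _ _ fun y => rfl
          rw [htr]
          refine mul_le_mul_of_nonneg_right (hmix e.1 e.2) ?_
          have : 0 ≤ Real.log (z₂ / z₁) := Real.log_nonneg (by rw [one_le_div hz0]; exact hz)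
          positivity
  calc _ ≤ ∑ m ∈ MP P c N₂ z₁ z₂, 1 / (m : ℝ) *
        (1 / 5 ^ s * (∑ w ∈ (TAs Λ k lmax (k + s) Y E c c').filter (fun w =>
            (5 : ZMod (5 ^ (k + s))) ^ s * (Fm (k + s) w - (m : ZMod (5 ^ (k + s)))) = 0),
            5 ^ k / (D w : ℝ) * kr ((m : ℝ) * D w / 5 ^ k) x)
          + ∑ e ∈ ES, dh e (m : ZMod (5 ^ (k + s)))) := by
        refine Finset.sum_le_sum fun m hm' => ?_
        exact mul_le_mul_of_nonneg_left (hm m hm') (by positivity)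
    _ = 1 / 5 ^ s * (∑ m ∈ MP P c N₂ z₁ z₂, 1 / (m : ℝ) *
          ∑ w ∈ (TAs Λ k lmax (k + s) Y E c c').filter (fun w =>
            (5 : ZMod (5 ^ (k + s))) ^ s * (Fm (k + s) w - (m : ZMod (5 ^ (k + s)))) = 0),
            5 ^ k / (D w : ℝ) * kr ((m : ℝ) * D w / 5 ^ k) x)
        + ∑ e ∈ ES, ∑ m ∈ MP P c N₂ z₁ z₂, 1 / (m : ℝ) * dh e (m : ZMod (5 ^ (k + s))) := by
        rw [Finset.sum_comm (s := ES), Finset.mul_sum, ← Finset.sum_add_distrib]
        refine Finset.sum_congr rfl fun m _ => ?_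
        rw [← Finset.mul_sum (s := ES)]
        ring
    _ ≤ _ := by
        gcongr
        calc ∑ e ∈ ES, ∑ m ∈ MP P c N₂ z₁ z₂, 1 / (m : ℝ) * dh e (m : ZMod (5 ^ (k + s)))
            ≤ ∑ e ∈ ES, Mx * (1 / z₁ + Real.log (z₂ / z₁) / 5 ^ (k + s)) :=
              Finset.sum_le_sum fun e _ => herr e
          _ = _ := by
              rw [Finset.sum_const, hES, Finset.card_product, Finset.card_range, nsmul_eq_mul]
              push_cast; ring


end K5.ID
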