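import Pool.Agent.Lib.MP_a4658c_nt.ID.Defs

/-!
MP_a4658c_nt, equidistribution of the invariant sets of the Kakutani map in residue classes:
statements of two pieces.
-/

set_option autoImplicit false

open Filter Topology

namespace K5.ID

open K5

open Classical in
/-- words of length `k` with given classes and endpoint and a good stopped prefix for the
modulus `5 ^ M` -/
noncomputable def TTs (Λ k lmax M : ℕ) (Y : ℝ) (c c' : Bool) (A B : ℕ) : Finset (List Let) :=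
  (W Λ k c).filter (fun w => endc c w = c' ∧ sA w = A ∧ sB w = B ∧ Tm M lmax Y w)

/-- INVERSION, mixing for shorter words modulo the same power of 5 -/
def Inversion : Prop := ∀ (s Λ M r lmax : ℕ) (Y Mx : ℝ) (c : Bool), 2 ≤ Λ → r ≤ M → s + lmax ≤ M →
  0 ≤ Mx →
  (∀ (c' : Bool) (A B : ℕ), ∑ y : ZMod (5 ^ M),
    |hh M (TTs Λ M lmax M Y c c' A B) y - ht M r (TTs Λ M lmax M Y c c' A B) y| ≤ Mx) →
  ∀ (c' : Bool) (A B : ℕ), ∑ y : ZMod (5 ^ M),
    |hh M (TTs Λ (M - s) lmax M Y c c' A B) y - ht M r (TTs Λ (M - s) lmax M Y c c' A B) y|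
      ≤ 52 ^ s * Mx

open Classical in
/-- equidistribution modulo the powers of 5 in the two classes prime to 6 -/
def Star (A : Set ℕ) (d : ℝ) : Prop := ∀ (c : Bool) (s b : ℕ), b < 5 ^ s →
  Tendsto (fun N : ℕ => (((Finset.Icc 1 N).filter
    (fun n => U n ∧ cl n = c ∧ n % 5 ^ s = b ∧ n ∈ A)).card : ℝ) / N) atTop
    (𝓝 (d / (6 * 5 ^ s)))

open Classical in
/-- CELLS, from `Star` to all residue classes to 5-smooth moduli -/
def Cells : Prop := ∀ (A : Set ℕ) (n₀ : ℕ) (d : ℝ), (∀ n > n₀, (n ∈ A ↔ kak n ∈ A)) →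
  Star A d → Star Aᶜ (1 - d) → ∀ i j l a : ℕ, a < 2 ^ i * 3 ^ j * 5 ^ l →
  Tendsto (fun N : ℕ => (((Finset.Icc 1 N).filter
    (fun n => n % (2 ^ i * 3 ^ j * 5 ^ l) = a ∧ n ∈ A)).card : ℝ) / N) atTop
    (𝓝 (d / (2 ^ i * 3 ^ j * 5 ^ l)))

end K5.ID
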