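import Pool.Agent.Lib.MP_a4658c_nt.ID.Mix
import Pool.Agent.Lib.MP_a4658c_nt.ID.StmC

/-!
MP_a4658c_nt, equidistribution of the invariant sets of the Kakutani map in residue classes:
pushing forward the points of a residue class mod `5 ^ s`.
-/

set_option autoImplicit false

namespace K5.ID

open K5

open Classical in
/-- all words of length `k` with bounded divisor and a good stopped prefix for `5 ^ M` -/
noncomputable def TAs (Λ k lmax M : ℕ) (Y E : ℝ) (c c' : Bool) : Finset (List Let) :=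
  (W Λ k c).filter (fun w => endc c w = c' ∧ (D w : ℝ) ≤ E ∧ Tm M lmax Y w)

/-- the residue of the end point of `w` when its starting point is `b` mod `5 ^ s` -/
noncomputable def Fb (k s b : ℕ) (w : List Let) : ZMod (5 ^ (k + s)) :=
  Fm (k + s) w + 5 ^ k * ((D w : ℕ) : ZMod (5 ^ (k + s)))⁻¹ * b

open Classical in
/-- pushing forward the points in a residue class mod `5 ^ s` -/
lemma pushR {Λ k s b lmax N N₂ : ℕ} {c' : Bool} {P : ℕ → Prop} {X x Y K E z z' z₁ z₂ : ℝ}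
    (hP : Inv X P) (hx : 0 < x) (hK : 1 ≤ K) (hX : X < (z₁ - K) / (5 * K))
    (hE : 1 ≤ E) (hz₁ : 0 < z₁) (hKz : K < z₁) (h1 : z₁ * E ≤ z) (h2 : 5 ^ k * z' + K ≤ z₂)
    (hN₂ : z₂ ≤ N₂)
    (hTm : ∀ c, ∀ w ∈ W Λ k c, Pgood lmax Y K E w → Tm (k + s) lmax Y w) :
    ∑ n ∈ (Finset.Icc 1 N).filter (fun n => U n ∧ (P n ∧ n % 5 ^ s = b) ∧ cl n = c' ∧ z ≤ (n : ℝ) ∧ (n : ℝ) ≤ z' ∧
        GoodN Λ k lmax Y K E n), ker x n
      ≤ (1 / (1 - K / z₁)) ^ 2 * ∑ c : Bool, ∑ m ∈ MP P c N₂ z₁ z₂, 1 / (m : ℝ) *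
          ∑ w ∈ (TAs Λ k lmax (k + s) Y E c c').filter
            (fun w => Fb k s b w = (m : ZMod (5 ^ (k + s)))),
            5 ^ k / (D w : ℝ) * kr ((m : ℝ) * D w / 5 ^ k) x := by
  set A := (Finset.Icc 1 N).filter (fun n => U n ∧ (P n ∧ n % 5 ^ s = b) ∧ cl n = c' ∧ z ≤ (n : ℝ) ∧ (n : ℝ) ≤ z' ∧
        GoodN Λ k lmax Y K E n) with hA
  set T : Finset (Σ _ : Bool, Σ _ : ℕ, List Let) :=
    (Finset.univ : Finset Bool).sigma (fun c => (MP P c N₂ z₁ z₂).sigma (fun m =>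
      (TAs Λ k lmax (k + s) Y E c c').filter
            (fun w => Fb k s b w = (m : ZMod (5 ^ (k + s)))))) with hT
  set g : (Σ _ : Bool, Σ _ : ℕ, List Let) → ℝ := fun p =>
    1 / (p.2.1 : ℝ) * (5 ^ k / (D p.2.2 : ℝ) * kr ((p.2.1 : ℝ) * D p.2.2 / 5 ^ k) x) with hg
  set φ : ℕ → (Σ _ : Bool, Σ _ : ℕ, List Let) :=
    fun n => ⟨cl (S^[k] n), S^[k] n, fword k n⟩ with hφ
  have hrhs : ∑ c : Bool, ∑ m ∈ MP P c N₂ z₁ z₂, 1 / (m : ℝ) *
          ∑ w ∈ (TAs Λ k lmax (k + s) Y E c c').filter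
            (fun w => Fb k s b w = (m : ZMod (5 ^ (k + s)))),
            5 ^ k / (D w : ℝ) * kr ((m : ℝ) * D w / 5 ^ k) x = ∑ p ∈ T, g p := by
    rw [hT, Finset.sum_sigma]
    refine Finset.sum_congr rfl fun c _ => ?_
    rw [Finset.sum_sigma]
    refine Finset.sum_congr rfl fun m _ => ?_
    rw [Finset.mul_sum]
  rw [hrhs]
  have hfact : ∀ n ∈ A, φ n ∈ T ∧ ker x n ≤ (1 / (1 - K / z₁)) ^ 2 * g (φ n) := by
    intro n hn
    rw [hA, Finset.mem_filter, Finset.mem_Icc] at hn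
    obtain ⟨⟨hn1, -⟩, hU, ⟨hPn, hnb⟩, hcl, hzn, hnz, hgood⟩ := hn
    obtain ⟨hW, hY, hF, hDE⟩ := hgood
    have heq := fword_eq hU k
    have hUm := U_iter hU k
    set m : ℕ := S^[k] n with hm
    set w : List Let := fword k n with hw
    have hD0 : (0 : ℝ) < D w := by exact_mod_cast D_pos w
    have hD1 : (1 : ℝ) ≤ D w := by exact_mod_cast D_pos w
    have hP1 : (1 : ℝ) ≤ 5 ^ k := one_le_pow₀ (by norm_num)
    have heqR : (5 : ℝ) ^ k * n + (cnum w : ℝ) = (D w : ℝ) * m := by exact_mod_cast heq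
    have hc0 : (0 : ℝ) ≤ (cnum w : ℝ) := Nat.cast_nonneg _
    have hn0 : (0 : ℝ) < n := by exact_mod_cast hn1
    have hm1 : 1 ≤ m := by
      have := hUm.1
      omega
    have hm0 : (0 : ℝ) ≤ m := Nat.cast_nonneg _
    have hmz₁ : z₁ ≤ (m : ℝ) := by
      have e1 : (n : ℝ) ≤ 5 ^ k * n := le_mul_of_one_le_left hn0.le hP1
      have e2 : (D w : ℝ) * m ≤ E * m := mul_le_mul_of_nonneg_right hDE hm0
      have e3 : z₁ * E ≤ E * m := by linarith
      have e4 : E * z₁ ≤ E * m := by linarith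
      exact le_of_mul_le_mul_left e4 (by linarith)
    have hFK : (cnum w : ℝ) / D w ≤ K := hF
    have hmz₂ : (m : ℝ) ≤ z₂ := by
      have e1 : (m : ℝ) = 5 ^ k * n / D w + (cnum w : ℝ) / D w := by
        field_simp
        linarith
      have e2 : (5 : ℝ) ^ k * n / D w ≤ 5 ^ k * n := div_le_self (by positivity) hD1
      have e3 : (5 : ℝ) ^ k * n ≤ 5 ^ k * z' := mul_le_mul_of_nonneg_left hnz (by positivity)
      linarith
    constructor
    · rw [hT, hφ]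
      simp only [Finset.mem_sigma, Finset.mem_univ, true_and, Finset.mem_filter]
      refine ⟨?_, ?_, ?_⟩
      · rw [MP, Finset.mem_filter, Finset.mem_Icc]
        refine ⟨⟨hm1, ?_⟩, hUm, ?_, rfl, hmz₁, hmz₂⟩
        · exact_mod_cast hmz₂.trans hN₂
        · refine (ends_iff hP hU hK hm.symm hw.symm hF ?_).1 hPn
          refine hX.trans_le ?_
          exact div_le_div_of_nonneg_right (by linarith) (by positivity)
      · rw [TAs, Finset.mem_filter]
        refine ⟨hW, ?_, hDE, hTm _ _ hW ⟨hY, hF, hDE⟩⟩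
        have := endc_fword hU k
        rw [← hm, ← hw] at this
        rw [this, hcl]
      · unfold Fb Fm
        have hb : (5 : ZMod (5 ^ (k + s))) ^ k * n = 5 ^ k * b := by
          have h6 : ((5 ^ k * n : ℕ) : ZMod (5 ^ (k + s))) = ((5 ^ k * b : ℕ) : ZMod (5 ^ (k + s))) := by
            rw [ZMod.natCast_eq_natCast_iff, pow_add]
            refine Nat.ModEq.mul_left' _ ?_
            rw [← hnb]
            exact (Nat.mod_modEq n (5 ^ s)).symm
          push_cast at h6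
          exact h6
        have e1 : (5 : ZMod (5 ^ (k + s))) ^ k * n + (cnum w : ZMod (5 ^ (k + s)))
            = ((D w : ℕ) : ZMod (5 ^ (k + s))) * m := by exact_mod_cast congrArg (Nat.cast) heq
        rw [hb] at e1
        show (cnum w : ZMod (5 ^ (k + s))) * ((D w : ℕ) : ZMod (5 ^ (k + s)))⁻¹ +
          5 ^ k * ((D w : ℕ) : ZMod (5 ^ (k + s)))⁻¹ * b = _
        have e2 : (cnum w : ZMod (5 ^ (k + s))) * ((D w : ℕ) : ZMod (5 ^ (k + s)))⁻¹ +
            5 ^ k * ((D w : ℕ) : ZMod (5 ^ (k + s)))⁻¹ * b =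
            (5 ^ k * b + (cnum w : ZMod (5 ^ (k + s)))) * ((D w : ℕ) : ZMod (5 ^ (k + s)))⁻¹ := by
          ring
        rw [e2, e1, mul_comm, ← mul_assoc, mul_comm _ ((D w : ℕ) : ZMod (5 ^ (k + s))), D_mul_inv,
          one_mul]
    · exact idPoint hx hz₁ hKz hn1 (by positivity) hD0 hc0 hFK hmz₁ heqR
  have hinj : Set.InjOn φ (A : Set ℕ) := by
    intro n hn n' hn' hee
    rw [Finset.mem_coe, hA, Finset.mem_filter] at hn hn'
    have e1 := fword_eq hn.2.1 k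
    have e2 := fword_eq hn'.2.1 k
    rw [hφ] at hee
    simp only [Sigma.mk.injEq, heq_eq_eq] at hee
    obtain ⟨-, hmm, hww⟩ := hee
    rw [hmm, hww] at e1
    have e3 : 5 ^ k * n = 5 ^ k * n' := by omega
    exact Nat.eq_of_mul_eq_mul_left (by positivity) e3
  have hg0 : ∀ p ∈ T, 0 ≤ g p := by
    intro p hp
    rw [hT] at hp
    simp only [Finset.mem_sigma, Finset.mem_univ, true_and, Finset.mem_filter] at hp
    have hm := hp.1
    rw [MP, Finset.mem_filter] at hm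
    have hm0 : (0 : ℝ) < (p.2.1 : ℝ) := lt_of_lt_of_le hz₁ hm.2.2.2.2.1
    have hD0 : (0 : ℝ) < D p.2.2 := by exact_mod_cast D_pos _
    have := kr_nonneg (by positivity : (0 : ℝ) < (p.2.1 : ℝ) * D p.2.2 / 5 ^ k) hx
    rw [hg]
    positivity
  calc ∑ n ∈ A, ker x n ≤ ∑ n ∈ A, (1 / (1 - K / z₁)) ^ 2 * g (φ n) :=
        Finset.sum_le_sum fun n hn => (hfact n hn).2
    _ = (1 / (1 - K / z₁)) ^ 2 * ∑ n ∈ A, g (φ n) := by rw [Finset.mul_sum]
    _ = (1 / (1 - K / z₁)) ^ 2 * ∑ p ∈ A.image φ, g p := by rw [Finset.sum_image hinj]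
    _ ≤ (1 / (1 - K / z₁)) ^ 2 * ∑ p ∈ T, g p := by
        refine mul_le_mul_of_nonneg_left ?_ (by positivity)
        refine Finset.sum_le_sum_of_subset_of_nonneg ?_ (fun p hp _ => hg0 p hp)
        intro p hp
        rw [Finset.mem_image] at hp
        obtain ⟨n, hn, rfl⟩ := hp
        exact (hfact n hn).1



end K5.ID
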