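import Pool.Agent.Lib.MP_a4658c_nt.ID.EqCoarse
import Pool.Agent.Lib.MP_a4658c_nt.ID.DichC

/-!
MP_a4658c_nt, equidistribution of the invariant sets of the Kakutani map in residue classes:
the smoothed density of an invariant set in a residue class mod `5 ^ s` is at most `5 ^ (-s)` times
its smoothed density.
-/

set_option autoImplicit false

open Filter Topology

namespace K5.ID

open K5

/-- Good words have a good stopped prefix. -/
lemma good_TmR {Λ k M lmax : ℕ} {c : Bool} {w : List Let} (hw : w ∈ W Λ k c) {Y K E : ℝ}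
    (hY : 1 ≤ Y) (hK : 0 ≤ K) (hKY : K * (Y * 6 ^ Λ) < 5 ^ M) (h : Pgood lmax Y K E w) :
    Tm M lmax Y w := by
  classical
  obtain ⟨h1, h2, -⟩ := h
  have hex : ∃ l : ℕ, Y < (D (w.take l) : ℝ) := ⟨lmax, h1⟩
  obtain ⟨l, hl, hlm⟩ : ∃ l : ℕ, Y < (D (w.take l) : ℝ) ∧ ∀ l' < l, (D (w.take l') : ℝ) ≤ Y :=
    ⟨Nat.find hex, Nat.find_spec hex, fun l' hl' => not_lt.1 (Nat.find_min hex hl')⟩
  have hll : l ≤ lmax := by
    by_contra hcon
    have := hlm lmax (not_le.1 hcon)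
    linarith
  have hl0 : l ≠ 0 := by
    rintro rfl
    simp at hl
    linarith
  obtain ⟨j, rfl⟩ := Nat.exists_eq_succ_of_ne_zero hl0
  have hlen := length_of_mem_W hw
  have hjk : j + 1 ≤ k := by
    by_contra hcon
    have g1 := hlm j (Nat.lt_succ_self j)
    rw [List.take_of_length_le (by omega)] at g1
    rw [List.take_of_length_le (by omega)] at hl
    linarith
  refine ⟨j + 1, hll, ⟨hl, hlm⟩, ?_⟩
  have g1 := (take_mem_W hw hjk).1
  have g2 := take_mem_W g1 (Nat.le_succ j)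
  rw [List.take_take, min_eq_left (Nat.le_succ j)] at g2
  obtain ⟨-, g3⟩ := g2
  rw [show j + 1 - j = 0 + 1 by omega, mem_W_succ] at g3
  obtain ⟨x, hx, w', hw', g4⟩ := g3
  rw [mem_W_zero] at hw'
  subst hw'
  have g5 : (D (w.take (j + 1)) : ℝ) ≤ Y * 6 ^ Λ := by
    have e1 : w.take (j + 1) = (w.take (j + 1)).take j ++ (w.take (j + 1)).drop j :=
      (List.take_append_drop j _).symm
    have e2 : (w.take (j + 1)).take j = w.take j := by
      rw [List.take_take, min_eq_left (Nat.le_succ j)]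
    rw [e2, g4] at e1
    rw [e1, D_append]
    have e3 : D [x] = dd x := by simp
    have e4 : (dd x : ℝ) ≤ 6 ^ Λ := by
      rw [mem_L] at hx
      obtain ⟨⟨-, hx1, hx2⟩, -⟩ := hx
      have : dd x ≤ 6 ^ Λ := by
        unfold dd
        calc 2 ^ x.1 * 3 ^ x.2 ≤ 2 ^ Λ * 3 ^ Λ := Nat.mul_le_mul
              (Nat.pow_le_pow_right (by norm_num) hx1) (Nat.pow_le_pow_right (by norm_num) hx2)
          _ = 6 ^ Λ := by rw [← mul_pow]; norm_num
      exact_mod_cast this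
    rw [e3]
    push_cast
    exact mul_le_mul (hlm j (Nat.lt_succ_self j)) e4 (by positivity) (by linarith)
  have g6 : Fr (w.take (j + 1)) ≤ K := by
    have e1 := Fr_append (w.take (j + 1)) (w.drop (j + 1))
    rw [List.take_append_drop] at e1
    have e2 : 0 ≤ 5 ^ (w.take (j + 1)).length / (D (w.take (j + 1)) : ℝ) *
        Fr (w.drop (j + 1)) := mul_nonneg (by positivity) (Fr_nonneg _)
    linarith
  have hD : (0 : ℝ) < D (w.take (j + 1)) := by exact_mod_cast D_pos _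
  have g7 : (cnum (w.take (j + 1)) : ℝ) < 5 ^ M := by
    have e1 : (cnum (w.take (j + 1)) : ℝ) = Fr (w.take (j + 1)) * D (w.take (j + 1)) := by
      unfold Fr
      field_simp
    rw [e1]
    calc Fr (w.take (j + 1)) * D (w.take (j + 1)) ≤ K * (Y * 6 ^ Λ) :=
          mul_le_mul g6 g5 hD.le hK
      _ < 5 ^ M := hKY
  exact_mod_cast g7

open Classical in
/-- the good part -/
private lemma goodR {Λ k s b lmax N : ℕ} {c' : Bool} {P : ℕ → Prop} {t X Y K E Mx : ℝ}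
    (hP : Inv X P) (hK : 1 ≤ K) (hE : E = Real.exp (t / 4)) (htp : 0 < t)
    (hY : 1 ≤ Y)
    (hKY : K * (Y * 6 ^ Λ) < 5 ^ (k + s)) (hKz : K < Real.exp (t / 2))
    (hX : X < (Real.exp (t / 2) - K) / (5 * K))
    (h2 : 5 ^ k * Real.exp (5 * t / 4) + K ≤ Real.exp (2 * t))
    (hTm : ∀ c, ∀ w ∈ W Λ k c, Pgood lmax Y K E w → Tm (k + s) lmax Y w)
    (hmix : ∀ (c : Bool) (A B : ℕ), ∑ y : ZMod (5 ^ (k + s)),
      |hh (k + s) (TTs Λ k lmax (k + s) Y c c' A B) y -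
        ht (k + s) s (TTs Λ k lmax (k + s) Y c c' A B) y| ≤ Mx) :
    ∃ N' : ℕ, ∑ n ∈ (Finset.Icc 1 N).filter (fun n => U n ∧ (P n ∧ n % 5 ^ s = b) ∧ cl n = c' ∧
        Real.exp (3 * t / 4) ≤ (n : ℝ) ∧ (n : ℝ) ≤ Real.exp (5 * t / 4) ∧
        GoodN Λ k lmax Y K E n), ker (Real.exp t) n ≤
      (1 / (1 - K / Real.exp (t / 2))) ^ 2 *
        (1 / 5 ^ s * ((1 / (1 - K / Real.exp (t / 2))) * RP P c' N' (Real.exp t) +
        54 / K * (5 ^ k / Real.exp (t / 2)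
          + Real.log (Real.exp (2 * t) / Real.exp (t / 2)))) +
        2 * ((k * Λ + 1) ^ 2 * Mx * (1 / Real.exp (t / 2) +
          Real.log (Real.exp (2 * t) / Real.exp (t / 2)) / 5 ^ (k + s)))) := by
  have hx : 0 < Real.exp t := Real.exp_pos t
  have hz₁ : 0 < Real.exp (t / 2) := Real.exp_pos _
  have hz₁1 : 1 ≤ Real.exp (t / 2) := Real.one_le_exp (by linarith)
  have hz12 : Real.exp (t / 2) ≤ Real.exp (2 * t) := Real.exp_le_exp.2 (by linarith)
  have hE1 : 1 ≤ E := by rw [hE]; exact Real.one_le_exp (by linarith)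
  obtain ⟨N₂, hN₂⟩ : ∃ N₂ : ℕ, Real.exp (2 * t) ≤ N₂ := exists_nat_ge _
  obtain ⟨N', hN'⟩ : ∃ N' : ℕ, Real.exp (2 * t) * E ≤ N' := exists_nat_ge _
  refine ⟨N', ?_⟩
  have h1 : Real.exp (t / 2) * E ≤ Real.exp (3 * t / 4) := by
    rw [hE, ← Real.exp_add]
    apply Real.exp_le_exp.2
    linarith
  have hpush := pushR (Λ := Λ) (k := k) (s := s) (b := b) (lmax := lmax) (N := N) (N₂ := N₂)
    (c' := c') (X := X)
    (P := P) (x := Real.exp t) (Y := Y) (K := K) (E := E) (z := Real.exp (3 * t / 4))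
    (z' := Real.exp (5 * t / 4)) (z₁ := Real.exp (t / 2)) (z₂ := Real.exp (2 * t)) hP hx
    hK hX hE1 hz₁ hKz h1 h2 hN₂ hTm
  refine hpush.trans ?_
  have hfrac : 0 < 1 - K / Real.exp (t / 2) := by
    rw [sub_pos, div_lt_one hz₁]
    exact hKz
  apply mul_le_mul_of_nonneg_left _ (by positivity)
  have hmx : ∀ c : Bool, _ := fun c => mix_applyR (Λ := Λ) (k := k) (s := s) (b := b)
    (lmax := lmax)
    (N₂ := N₂) (c := c) (c' := c') (P := P) (x := Real.exp t) (Y := Y) (E := E)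
    (z₁ := Real.exp (t / 2)) (z₂ := Real.exp (2 * t)) (Mx := Mx) hx hz₁1 hz12 (hmix c)
  refine (Finset.sum_le_sum fun c _ => hmx c).trans ?_
  rw [Finset.sum_add_distrib, Finset.sum_const, Finset.card_univ, Fintype.card_bool, nsmul_eq_mul,
    Nat.cast_ofNat, ← Finset.mul_sum]
  apply add_le_add _ le_rfl
  apply mul_le_mul_of_nonneg_left _ (by positivity)
  have hmain := coarse_mainR (Λ := Λ) (k := k) (s := s) (lmax := lmax) (N₂ := N₂) (N' := N')
    (c' := c') (P := P) (X := X) (x := Real.exp t) (Y := Y) (K := K) (E := E)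
    (z₁ := Real.exp (t / 2)) (z₂ := Real.exp (2 * t)) hP hx hK hKz hX (Real.exp_pos _).le
    (by linarith) hN'
  have hrest := coarse_restR (Λ := Λ) (k := k) (s := s) (lmax := lmax) (N₂ := N₂)
    (c' := c') (P := P) (x := Real.exp t) (Y := Y) (K := K) (E := E)
    (z₁ := Real.exp (t / 2)) (z₂ := Real.exp (2 * t)) hx hK hz₁1 hz12
  have hsplit : ∀ c : Bool, ∑ m ∈ MP P c N₂ (Real.exp (t / 2)) (Real.exp (2 * t)),
      1 / (m : ℝ) * ∑ w ∈ (TAs Λ k lmax (k + s) Y E c c').filter (fun w =>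
            (5 : ZMod (5 ^ (k + s))) ^ s * (Fm (k + s) w - (m : ZMod (5 ^ (k + s)))) = 0),
            5 ^ k / (D w : ℝ) * kr ((m : ℝ) * D w / 5 ^ k) (Real.exp t) =
      (∑ m ∈ MP P c N₂ (Real.exp (t / 2)) (Real.exp (2 * t)), 1 / (m : ℝ) *
        ∑ w ∈ (TAs Λ k lmax (k + s) Y E c c').filter (fun w =>
          (5 : ZMod (5 ^ (k + s))) ^ s * (Fm (k + s) w - (m : ZMod (5 ^ (k + s)))) = 0 ∧
            Fr w ≤ K),
          5 ^ k / (D w : ℝ) * kr ((m : ℝ) * D w / 5 ^ k) (Real.exp t)) +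
      ∑ m ∈ MP P c N₂ (Real.exp (t / 2)) (Real.exp (2 * t)), 1 / (m : ℝ) *
        ∑ w ∈ (TAs Λ k lmax (k + s) Y E c c').filter (fun w =>
          (5 : ZMod (5 ^ (k + s))) ^ s * (Fm (k + s) w - (m : ZMod (5 ^ (k + s)))) = 0 ∧
            K < Fr w),
          5 ^ k / (D w : ℝ) * kr ((m : ℝ) * D w / 5 ^ k) (Real.exp t) := by
    intro c
    rw [← Finset.sum_add_distrib]
    apply Finset.sum_congr rfl
    intro m _
    rw [← mul_add]
    congr 1
    exact id5_fsplit (TAs Λ k lmax (k + s) Y E c c') (fun w =>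
      (5 : ZMod (5 ^ (k + s))) ^ s * (Fm (k + s) w - (m : ZMod (5 ^ (k + s)))) = 0)
      (fun w => Fr w)
      (fun w => 5 ^ k / (D w : ℝ) * kr ((m : ℝ) * D w / 5 ^ k) (Real.exp t)) K
  rw [Finset.sum_congr rfl fun c _ => hsplit c, Finset.sum_add_distrib]
  exact add_le_add hmain hrest

open Classical in
/-- the inequality for the cut off smoothed densities -/
theorem transferR (n1 : NumBasic) (n2 : NumDeficit) (n3 : NumTails) (n4 : NumRest)
    (n6 : NumFactor) (n7 : NumMix) (hInv : Inversion) (s : ℕ) :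
    ∃ t₀ C : ℝ, 0 < t₀ ∧ 0 < C ∧
    ∀ (P : ℕ → Prop) (X t : ℝ) (b : ℕ), Inv X P → t₀ ≤ t → X ≤ Real.exp (t / 4) →
    ∀ (c' : Bool) (N : ℕ), ∃ N' : ℕ,
      RP (fun n => P n ∧ n % 5 ^ s = b) c' N (Real.exp t) ≤
        1 / 5 ^ s * RP P c' N' (Real.exp t) + C / t := by
  obtain ⟨K₀, hK₀, hFD⟩ := FD (10 * 1 + 28)
  obtain ⟨t1, ht1, H1⟩ := n1 1
  obtain ⟨t2, C2, ht2, hC2, H2⟩ := n2 1
  obtain ⟨t3, C3, ht3, hC3, H3⟩ := n3 1
  obtain ⟨t4, C4, ht4, hC4, H4⟩ := n4 1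
  obtain ⟨t6, C6, ht6, hC6, H6⟩ := n6 1
  obtain ⟨t7, C7, ht7, hC7, H7⟩ := n7 1 K₀ hK₀
  obtain ⟨t8, H8⟩ : ∃ T : ℝ, ∀ t ≥ T, s ≤ rr t := by
    refine ⟨100 * (20 * s) + 100, fun t ht => ?_⟩
    have h2 : 20 * s ≤ kk t := by
      unfold kk
      apply Nat.le_floor
      push_cast
      linarith
    unfold rr
    rw [Nat.le_div_iff_mul_le (by norm_num)]
    omega
  obtain ⟨Dc, hDc⟩ : ∃ Dc, Dc = C4 + 52 ^ s * C7 := ⟨_, rfl⟩
  have hDc0 : 0 < Dc := by rw [hDc]; positivity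
  refine ⟨1 + t1 + t2 + t3 + t4 + t6 + t7 + |t8|, C3 + C2 / 2 + (3 * C6 + Dc + C6 * Dc),
    by positivity, by positivity, ?_⟩
  intro P X t b hP htt hXt c' N
  have h8a := le_abs_self t8
  have h8b := abs_nonneg t8
  have htpos : 0 < t := by linarith
  have ht1' : 1 ≤ t := by linarith
  obtain ⟨b1, b2, b3, b4, b5, b6, b7, b8, b9, b10⟩ := H1 t (by linarith)
  have h2 := H2 t (by linarith)
  have h3 := H3 t (by linarith)
  have hsr : s ≤ rr t := H8 t (by linarith)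
  have h4 := H4 t (by linarith) s
  obtain ⟨h6, h6'⟩ := H6 t (by linarith)
  have h7 := H7 t (by linarith) s hsr
  rw [pow_one] at h2 h3 h4 h6 h7
  have hsk : s ≤ kk t := hsr.trans b1
  have hlms : lm t ≤ kk t - s := b2.trans (Nat.sub_le_sub_left hsr _)
  obtain ⟨k, hk⟩ : ∃ k, k = kk t - s := ⟨_, rfl⟩
  have hks : kk t = k + s := by omega
  have hkle : k ≤ kk t := by omega
  have h5k : (5 : ℝ) ^ k ≤ 5 ^ kk t := pow_le_pow_right₀ (by norm_num) hkle
  have hkr : (k : ℝ) ≤ kk t := by exact_mod_cast hkle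
  -- the parts
  have hx : 0 < Real.exp t := Real.exp_pos t
  obtain ⟨Pb, hPb⟩ : ∃ Pb : ℕ → Prop, Pb = fun n => P n ∧ n % 5 ^ s = b := ⟨_, rfl⟩
  have hsp := id5_split (LA 1 t) k (lm t) N c' (fun n => P n ∧ n % 5 ^ s = b) (Real.exp t)
    (YA 1 t) (KA 1 t) (EE t)
    (Real.exp (3 * t / 4)) (Real.exp (5 * t / 4)) hx
  have hlow := ker_sum_low hx (Real.exp_pos (3 * t / 4)).le N
  have hhigh := ker_sum_high hx (Real.one_le_exp (by linarith : 0 ≤ 5 * t / 4)) N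
  have hbad := bad_mass (LA 1 t) k N c' (Pgood (lm t) (YA 1 t) (KA 1 t) (EE t)) (E := EE t)
    (x := Real.exp t) (by linarith) hx (fun w hw => hw.2.2)
  have hdef := good_deficit (LA 1 t) k (lm t) (by omega) (by omega) (Y := YA 1 t)
    (K := KA 1 t) (E := EE t) (by linarith) (by linarith) (by linarith) c'
  obtain ⟨q, hq⟩ : ∃ q, q = K₀ / (((kk t - s - lm t : ℕ) : ℝ) + 1) ^ (10 * 1 + 28) := ⟨_, rfl⟩
  have hq0 : 0 ≤ q := by rw [hq]; positivity
  have hYpos : 0 < YA 1 t := by linarith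
  obtain ⟨Mx, hMx⟩ : ∃ Mx, Mx = 5 ^ kk t * (2 * ((lm t : ℝ) + 1) * ((kk t : ℝ) * LA 1 t + 1) ^ 2) *
        (8 * q * Real.sqrt (5 ^ kk t / YA 1 t)) := ⟨_, rfl⟩
  have hMx0 : 0 ≤ Mx := by rw [hMx]; positivity
  have hmix : ∀ (c c' : Bool) (A' B' : ℕ), ∑ y : ZMod (5 ^ (kk t)),
      |hh (kk t) (TTs (LA 1 t) (kk t) (lm t) (kk t) (YA 1 t) c c' A' B') y -
        ht (kk t) s (TTs (LA 1 t) (kk t) (lm t) (kk t) (YA 1 t) c c' A' B') y| ≤ Mx := by
    intro c c' A' B'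
    rw [hMx]
    refine mixing hsk hlms hYpos hq0 ?_ c c' A' B'
    intro ψ hψ R hR
    refine QB_mono (by positivity) le_rfl ?_ (hFD (LA 1 t) (kk t) ψ b3 hψ R)
    rw [hq]
    apply div_le_div_of_nonneg_left hK₀.le (by positivity)
    apply pow_le_pow_left₀ (by positivity)
    have : ((kk t - s - lm t : ℕ) : ℝ) ≤ R := by exact_mod_cast hR
    linarith
  have hmix2 : ∀ (c : Bool) (A' B' : ℕ), ∑ y : ZMod (5 ^ (k + s)),
      |hh (k + s) (TTs (LA 1 t) k (lm t) (k + s) (YA 1 t) c c' A' B') y -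
        ht (k + s) s (TTs (LA 1 t) k (lm t) (k + s) (YA 1 t) c c' A' B') y| ≤ 52 ^ s * Mx := by
    intro c A' B'
    have h9 := hInv s (LA 1 t) (kk t) s (lm t) (YA 1 t) Mx c b3 hsk (by omega) hMx0
      (hmix c) c' A' B'
    have h10 : kk t - s = k := hk.symm
    rw [h10, hks] at h9
    exact h9
  have hTm : ∀ c, ∀ w ∈ W (LA 1 t) k c, Pgood (lm t) (YA 1 t) (KA 1 t) (EE t) w →
      Tm (k + s) (lm t) (YA 1 t) w := by
    intro c w hw hg
    rw [← hks]
    exact good_TmR hw b5 (by linarith) b6 hg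
  obtain ⟨N', hgood⟩ := goodR (Λ := LA 1 t) (k := k) (s := s) (b := b) (lmax := lm t) (N := N)
    (c' := c') (P := P)
    (t := t) (X := X) (Y := YA 1 t) (K := KA 1 t) (E := EE t) (Mx := 52 ^ s * Mx) hP b4 rfl htpos
    b5 (by rw [← hks]; exact b6) b8
    (b9 X hXt) (by
      refine le_trans ?_ b10
      have h9 : 5 ^ k * Real.exp (5 * t / 4) ≤ 5 ^ kk t * Real.exp (5 * t / 4) :=
        mul_le_mul_of_nonneg_right h5k (Real.exp_pos _).le
      linarith) hTm hmix2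
  refine ⟨N', ?_⟩
  -- tails
  have e1 : Real.exp (3 * t / 4) / Real.exp t = Real.exp (-(t / 4)) := by
    rw [← Real.exp_sub]
    congr 1
    ring
  have e2 : 2 * Real.exp t / Real.exp (5 * t / 4) = 2 * Real.exp (-(t / 4)) := by
    rw [mul_div_assoc, ← Real.exp_sub]
    congr 2
    ring
  rw [e1] at hlow
  rw [e2] at hhigh
  obtain ⟨F, hF⟩ : ∃ F, F = 1 / (1 - KA 1 t / Real.exp (t / 2)) := ⟨_, rfl⟩
  rw [← hF] at hgood h6
  have hF1 : 1 ≤ F := by
    rw [hF, le_div_iff₀ h6', one_mul]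
    have : 0 ≤ KA 1 t / Real.exp (t / 2) := by positivity
    linarith
  have hF0 : 0 < F := by linarith
  obtain ⟨R, hR⟩ : ∃ R, R = RP P c' N' (Real.exp t) := ⟨_, rfl⟩
  have hR0 : 0 ≤ R := by rw [hR]; exact RP_nonneg P c' N' hx
  have hR3 : R ≤ 3 := by rw [hR]; exact RP_le_three P c' N' hx
  rw [← hR] at hgood ⊢
  obtain ⟨σ, hσ⟩ : ∃ σ : ℝ, σ = 1 / 5 ^ s := ⟨_, rfl⟩
  have hσ0 : 0 < σ := by rw [hσ]; positivity
  have hσ1 : σ ≤ 1 := by
    rw [hσ, div_le_one (by positivity)]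
    exact one_le_pow₀ (by norm_num)
  rw [← hσ] at hgood ⊢
  have hlogn : 0 ≤ Real.log (Real.exp (2 * t) / Real.exp (t / 2)) := by
    apply Real.log_nonneg
    rw [one_le_div (Real.exp_pos _)]
    exact Real.exp_le_exp.2 (by linarith)
  -- the rest term
  have hrest : 54 / KA 1 t * (5 ^ k / Real.exp (t / 2)
          + Real.log (Real.exp (2 * t) / Real.exp (t / 2))) ≤ C4 / t := by
    rw [← hk] at h4
    exact h4
  -- the mixing term
  have hmixt : 2 * ((k * (LA 1 t : ℝ) + 1) ^ 2 * (52 ^ s * Mx) * (1 / Real.exp (t / 2) +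
          Real.log (Real.exp (2 * t) / Real.exp (t / 2)) / 5 ^ (k + s))) ≤ 52 ^ s * C7 / t := by
    rw [← hks]
    have g1 : (k * (LA 1 t : ℝ) + 1) ^ 2 ≤ ((kk t : ℝ) * LA 1 t + 1) ^ 2 := by
      gcongr
    have g2 : 0 ≤ (52 ^ s * Mx) * (1 / Real.exp (t / 2) +
          Real.log (Real.exp (2 * t) / Real.exp (t / 2)) / 5 ^ kk t) := by positivity
    have g3 := mul_le_mul_of_nonneg_right g1 g2
    have g4 : 2 * (((kk t : ℝ) * LA 1 t + 1) ^ 2 * Mx * (1 / Real.exp (t / 2) +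
          Real.log (Real.exp (2 * t) / Real.exp (t / 2)) / 5 ^ kk t)) ≤ C7 / t := by
      rw [hMx, hq]
      exact h7
    have g5 : (0 : ℝ) < 52 ^ s := by positivity
    have g6 := mul_le_mul_of_nonneg_left g4 g5.le
    have g7 : 52 ^ s * C7 / t = 52 ^ s * (C7 / t) := by ring
    rw [g7]
    refine le_trans ?_ g6
    calc 2 * ((k * (LA 1 t : ℝ) + 1) ^ 2 * (52 ^ s * Mx) * (1 / Real.exp (t / 2) +
          Real.log (Real.exp (2 * t) / Real.exp (t / 2)) / 5 ^ kk t))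
        = 2 * ((k * (LA 1 t : ℝ) + 1) ^ 2 * ((52 ^ s * Mx) * (1 / Real.exp (t / 2) +
          Real.log (Real.exp (2 * t) / Real.exp (t / 2)) / 5 ^ kk t))) := by ring
      _ ≤ 2 * (((kk t : ℝ) * LA 1 t + 1) ^ 2 * ((52 ^ s * Mx) * (1 / Real.exp (t / 2) +
          Real.log (Real.exp (2 * t) / Real.exp (t / 2)) / 5 ^ kk t))) :=
          mul_le_mul_of_nonneg_left g3 (by norm_num)
      _ = _ := by ring
  have hg2 : F ^ 2 * (σ * (F * R + 54 / KA 1 t * (5 ^ k / Real.exp (t / 2)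
          + Real.log (Real.exp (2 * t) / Real.exp (t / 2)))) +
        2 * ((k * (LA 1 t : ℝ) + 1) ^ 2 * (52 ^ s * Mx) * (1 / Real.exp (t / 2) +
          Real.log (Real.exp (2 * t) / Real.exp (t / 2)) / 5 ^ (k + s)))) ≤
      σ * R + (3 * C6 + Dc + C6 * Dc) / t := by
    have g0 : σ * (F * R + 54 / KA 1 t * (5 ^ k / Real.exp (t / 2)
          + Real.log (Real.exp (2 * t) / Real.exp (t / 2)))) ≤ F * (σ * R) + C4 / t := by
      have e3 : σ * (54 / KA 1 t * (5 ^ k / Real.exp (t / 2)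
          + Real.log (Real.exp (2 * t) / Real.exp (t / 2)))) ≤ 1 * (C4 / t) :=
        mul_le_mul hσ1 hrest (by positivity) (by norm_num)
      rw [mul_add]
      have e4 : σ * (F * R) = F * (σ * R) := by ring
      linarith
    have g1 : C4 / t + 52 ^ s * C7 / t = Dc / t := by rw [hDc]; ring
    have g2 : Dc / t ≤ F * (Dc / t) := le_mul_of_one_le_left (by positivity) hF1
    have g5 : 0 ≤ σ * R + Dc / t := by positivity
    have g6 : F ^ 3 * (σ * R + Dc / t) ≤ (1 + C6 / t) * (σ * R + Dc / t) :=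
      mul_le_mul_of_nonneg_right h6 g5
    have hσR : σ * R ≤ 3 := by
      calc σ * R ≤ 1 * R := mul_le_mul_of_nonneg_right hσ1 hR0
        _ ≤ 3 := by linarith
    have g7 : (1 + C6 / t) * (σ * R + Dc / t) ≤ σ * R + (3 * C6 + Dc + C6 * Dc) / t := by
      have g8 : C6 / t * (σ * R) ≤ C6 / t * 3 := mul_le_mul_of_nonneg_left hσR (by positivity)
      have g9 : C6 / t * (Dc / t) ≤ C6 * Dc / t := by
        rw [div_mul_div_comm]
        apply div_le_div_of_nonneg_left (by positivity) htpos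
        exact le_mul_of_one_le_left htpos.le ht1'
      have g10 : (3 * C6 + Dc + C6 * Dc) / t = C6 / t * 3 + Dc / t + C6 * Dc / t := by ring
      have g12 : (1 + C6 / t) * (σ * R + Dc / t) =
          σ * R + Dc / t + C6 / t * (σ * R) + C6 / t * (Dc / t) := by ring
      rw [g10, g12]
      linarith
    refine le_trans ?_ (g6.trans g7)
    have g11 : F ^ 3 * (σ * R + Dc / t) = F ^ 2 * (F * (σ * R) + F * (Dc / t)) := by ring
    rw [g11]
    apply mul_le_mul_of_nonneg_left _ (by positivity)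
    linarith
  have hgood' := hgood.trans hg2
  have hfin : (C3 + C2 / 2 + (3 * C6 + Dc + C6 * Dc)) / t =
      C3 / t + C2 / t / 2 + (3 * C6 + Dc + C6 * Dc) / t := by ring
  rw [hfin]
  have hdef2 : (k : ℝ) * (2 * (1 / 2 : ℝ) ^ LA 1 t) + 6 * YA 1 t * (0.81 / 5) ^ lm t
      + 40 / KA 1 t + 2 * (5 ^ k / Real.sqrt (EE t)) ≤ C2 / t := by
    refine le_trans ?_ h2
    have g1 : (k : ℝ) * (2 * (1 / 2 : ℝ) ^ LA 1 t) ≤ kk t * (2 * (1 / 2 : ℝ) ^ LA 1 t) :=
      mul_le_mul_of_nonneg_right hkr (by positivity)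
    have g2 : 5 ^ k / Real.sqrt (EE t) ≤ 5 ^ kk t / Real.sqrt (EE t) :=
      div_le_div_of_nonneg_right h5k (Real.sqrt_nonneg _)
    linarith
  have hdef' := hdef.trans hdef2
  have hEE : EE t = Real.exp (t / 4) := rfl
  rw [hEE] at hsp hbad hdef' hgood'
  rw [hEE] at h3
  refine hsp.trans ((add_le_add (add_le_add (add_le_add hlow hhigh) hbad)
    (le_trans (le_of_eq ?_) hgood')).trans ?_)
  · refine Finset.sum_congr ?_ fun _ _ => rfl
    ext n
    simp only [Finset.mem_filter]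
  · linarith

end K5.ID
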