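import Pool.Agent.Lib.MP_a4658c_nt.ID.Stm

/-!
MP_a4658c_nt, natural density of the invariant sets of the Kakutani map: the law of the minimum
of the orbit.
-/

set_option autoImplicit false

open Filter Topology

namespace K5.ID

open K5

/-- the integers whose orbit has minimum `m` -/
def Amin (m : ℕ) : Set ℕ := {n | (∃ k : ℕ, kak^[k] n = m) ∧ ∀ k : ℕ, m ≤ kak^[k] n}

theorem Amin_inv (m : ℕ) : ∀ n > m, (n ∈ Amin m ↔ kak n ∈ Amin m) := by
  intro n hn
  constructor
  · rintro ⟨⟨k, hk⟩, h2⟩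
    refine ⟨?_, fun k => ?_⟩
    · rcases k with _ | k
      · rw [Function.iterate_zero_apply] at hk
        omega
      · exact ⟨k, by rwa [Function.iterate_succ_apply] at hk⟩
    · have := h2 (k + 1)
      rwa [Function.iterate_succ_apply] at this
  · rintro ⟨⟨k, hk⟩, h2⟩
    refine ⟨⟨k + 1, by rwa [Function.iterate_succ_apply]⟩, fun k => ?_⟩
    rcases k with _ | k
    · rw [Function.iterate_zero_apply]
      exact hn.le
    · rw [Function.iterate_succ_apply]
      exact h2 k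

theorem kak_pos {n : ℕ} (hn : 1 ≤ n) : 1 ≤ kak n := by
  unfold kak
  split_ifs with h1 h2
  · obtain ⟨a, rfl⟩ := h1
    rw [Nat.mul_div_cancel_left _ (by norm_num)]
    omega
  · obtain ⟨a, rfl⟩ := h2
    rw [Nat.mul_div_cancel_left _ (by norm_num)]
    omega
  · omega

theorem kak_iter_pos {n : ℕ} (hn : 1 ≤ n) (k : ℕ) : 1 ≤ kak^[k] n := by
  induction k with
  | zero => exact hn
  | succ k ih =>
    rw [Function.iterate_succ_apply']
    exact kak_pos ih

theorem Amin_unique {n m m' : ℕ} (h : n ∈ Amin m) (h' : n ∈ Amin m') : m = m' := by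
  obtain ⟨⟨k, hk⟩, h2⟩ := h
  obtain ⟨⟨k', hk'⟩, h2'⟩ := h'
  have h3 := h2 k'
  have h4 := h2' k
  rw [hk'] at h3
  rw [hk] at h4
  omega

theorem exists_Amin (n : ℕ) : ∃ m, n ∈ Amin m := by
  classical
  have hex : ∃ m, ∃ k, kak^[k] n = m := ⟨n, 0, rfl⟩
  refine ⟨Nat.find hex, Nat.find_spec hex, fun k => ?_⟩
  exact Nat.find_min' hex ⟨k, rfl⟩

open Classical in
/-- counting by the minimum -/
theorem count_min (N X : ℕ) : ((Finset.Icc 1 N).card : ℝ) =
    ∑ m ∈ Finset.Icc 1 X, (((Finset.Icc 1 N).filter (fun n => n ∈ Amin m)).card : ℝ) +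
      (((Finset.Icc 1 N).filter (fun n => ∀ k : ℕ, (X : ℝ) < (kak^[k] n : ℝ))).card : ℝ) := by
  have h1 : (Finset.Icc 1 N) = ((Finset.Icc 1 X).biUnion
      (fun m => (Finset.Icc 1 N).filter (fun n => n ∈ Amin m))) ∪
      ((Finset.Icc 1 N).filter (fun n => ∀ k : ℕ, (X : ℝ) < (kak^[k] n : ℝ))) := by
    ext n
    simp only [Finset.mem_union, Finset.mem_biUnion, Finset.mem_filter]
    constructor
    · intro hn
      obtain ⟨m, hm⟩ := exists_Amin n
      have hn1 := (Finset.mem_Icc.1 hn).1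
      by_cases hX : m ≤ X
      · refine Or.inl ⟨m, Finset.mem_Icc.2 ⟨?_, hX⟩, hn, hm⟩
        obtain ⟨k, hk⟩ := hm.1
        rw [← hk]
        exact kak_iter_pos hn1 k
      · refine Or.inr ⟨hn, fun k => ?_⟩
        have h2 := hm.2 k
        have h3 : X < kak^[k] n := by omega
        exact_mod_cast h3
    · rintro (⟨m, -, h, -⟩ | ⟨h, -⟩) <;> exact h
  have hdisj : Disjoint ((Finset.Icc 1 X).biUnion
      (fun m => (Finset.Icc 1 N).filter (fun n => n ∈ Amin m)))
      ((Finset.Icc 1 N).filter (fun n => ∀ k : ℕ, (X : ℝ) < (kak^[k] n : ℝ))) := by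
    rw [Finset.disjoint_left]
    intro n h2 h3
    rw [Finset.mem_biUnion] at h2
    obtain ⟨m, hm, hn⟩ := h2
    rw [Finset.mem_filter] at hn h3
    obtain ⟨k, hk⟩ := hn.2.1
    have h4 := h3.2 k
    rw [hk] at h4
    have h5 : X < m := by exact_mod_cast h4
    have h6 := (Finset.mem_Icc.1 hm).2
    omega
  conv_lhs => rw [h1]
  rw [Finset.card_union_of_disjoint hdisj, Finset.card_biUnion]
  · push_cast
    rfl
  · intro m _ m' _ hne
    rw [Function.onFun, Finset.disjoint_left]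
    intro n h2 h3
    rw [Finset.mem_filter] at h2 h3
    exact hne (Amin_unique h2.2 h3.2)

open Classical in
theorem minLaw {C c : ℝ} (hc : 0 < c)
    (hcount : ∀ (X : ℝ), 1 ≤ X → ∀ N : ℕ,
      (((Finset.Icc 1 N).filter (fun n => ∀ k : ℕ, X < (kak^[k] n : ℝ))).card : ℝ)
        ≤ C * X ^ (-c) * N)
    (δ : ℕ → ℝ) (hδ : ∀ m, Tendsto (fun N : ℕ =>
      (((Finset.Icc 1 N).filter (fun n => n ∈ Amin m)).card : ℝ) / N) atTop (𝓝 (δ m))) :
    (∀ X : ℕ, 1 ≤ X → 1 - ∑ m ∈ Finset.Icc 1 X, δ m ≤ C * (X : ℝ) ^ (-c)) ∧ HasSum δ 1 := by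
  have hδ0 : ∀ m, 0 ≤ δ m := fun m => ge_of_tendsto' (hδ m) fun N => by positivity
  have hrest : ∀ X : ℕ, Tendsto (fun N : ℕ => (((Finset.Icc 1 N).filter
      (fun n => ∀ k : ℕ, (X : ℝ) < (kak^[k] n : ℝ))).card : ℝ) / N) atTop
      (𝓝 (1 - ∑ m ∈ Finset.Icc 1 X, δ m)) := by
    intro X
    have h1 : Tendsto (fun N : ℕ => ∑ m ∈ Finset.Icc 1 X,
        (((Finset.Icc 1 N).filter (fun n => n ∈ Amin m)).card : ℝ) / N) atTop
        (𝓝 (∑ m ∈ Finset.Icc 1 X, δ m)) := tendsto_finsetSum _ fun m _ => hδ m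
    have h2 : Tendsto (fun _ : ℕ => (1 : ℝ)) atTop (𝓝 1) := tendsto_const_nhds
    refine (h2.sub h1).congr' ?_
    filter_upwards [eventually_ge_atTop 1] with N hN
    have hN0 : (0 : ℝ) < N := by exact_mod_cast hN
    have h3 := count_min N X
    rw [Nat.card_Icc, Nat.add_sub_cancel] at h3
    rw [← Finset.sum_div, eq_div_iff hN0.ne', sub_mul, div_mul_cancel₀ _ hN0.ne']
    linarith
  have hub : ∀ X : ℕ, 1 ≤ X → 1 - ∑ m ∈ Finset.Icc 1 X, δ m ≤ C * (X : ℝ) ^ (-c) := by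
    intro X hX
    refine le_of_tendsto (hrest X) ?_
    filter_upwards [eventually_ge_atTop 1] with N hN
    have hN0 : (0 : ℝ) < N := by exact_mod_cast hN
    rw [div_le_iff₀ hN0]
    exact hcount X (by exact_mod_cast hX) N
  have hlb : ∀ X : ℕ, ∑ m ∈ Finset.Icc 1 X, δ m ≤ 1 := by
    intro X
    have h1 : 0 ≤ 1 - ∑ m ∈ Finset.Icc 1 X, δ m := ge_of_tendsto' (hrest X) fun N => by positivity
    linarith
  have hδzero : δ 0 = 0 := by
    refine tendsto_nhds_unique (hδ 0) ?_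
    have h1 : ∀ N : ℕ, (((Finset.Icc 1 N).filter (fun n => n ∈ Amin 0)).card : ℝ) / N = 0 := by
      intro N
      have h2 : (Finset.Icc 1 N).filter (fun n => n ∈ Amin 0) = ∅ := by
        ext n
        simp only [Finset.mem_filter, Finset.mem_Icc, Finset.notMem_empty, iff_false]
        rintro ⟨⟨h3, -⟩, ⟨k, hk⟩, -⟩
        have := kak_iter_pos h3 k
        omega
      rw [h2]
      simp
    simp only [h1]
    exact tendsto_const_nhds
  have hrange : ∀ X : ℕ, ∑ m ∈ Finset.range (X + 1), δ m = ∑ m ∈ Finset.Icc 1 X, δ m := by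
    intro X
    rw [Finset.sum_range_succ', hδzero, add_zero, Finset.range_eq_Ico,
      Finset.sum_Ico_add' (fun k => δ k) 0 X 1]
    rfl
  refine ⟨hub, ?_⟩
  rw [hasSum_iff_tendsto_nat_of_nonneg hδ0, ← tendsto_add_atTop_iff_nat 1]
  simp only [hrange]
  have h1 : Tendsto (fun X : ℕ => 1 - C * (X : ℝ) ^ (-c)) atTop (𝓝 (1 - C * 0)) := by
    refine tendsto_const_nhds.sub (Tendsto.const_mul C ?_)
    exact (tendsto_rpow_neg_atTop hc).comp tendsto_natCast_atTop_atTop
  rw [mul_zero, sub_zero] at h1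
  refine tendsto_of_tendsto_of_tendsto_of_le_of_le' h1 tendsto_const_nhds ?_
    (Eventually.of_forall hlb)
  filter_upwards [eventually_ge_atTop 1] with X hX
  have := hub X hX
  linarith

end K5.ID
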