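import Pool.Agent.Lib.MP_a4658c_nt.ID.Stm
import Pool.Agent.Lib.MP_a4658c_nt.K5.S3

/-!
MP_a4658c_nt, natural density of the invariant sets of the Kakutani map: piece NEAR (near-maximal
windows).
-/

set_option autoImplicit false

namespace K5.ID

open K5

private lemma near_irr : Irrational (Real.log 2 / Real.log 3) := by
  rintro ⟨r, hr⟩
  have h2 : 0 < Real.log 2 := Real.log_pos (by norm_num)
  have h3 : 0 < Real.log 3 := Real.log_pos (by norm_num)
  have hpos : (0 : ℝ) < (r : ℝ) := by rw [hr]; positivity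
  have hpos' : 0 < r := by exact_mod_cast hpos
  have hnum : 0 < r.num := Rat.num_pos.2 hpos'
  obtain ⟨n, hn⟩ : ∃ n : ℕ, r.num = (n : ℤ) := ⟨r.num.toNat, (Int.toNat_of_nonneg hnum.le).symm⟩
  have hd : (0 : ℝ) < (r.den : ℝ) := by exact_mod_cast r.den_pos
  have hr' : (r : ℝ) = (n : ℝ) / (r.den : ℝ) := by
    have := Rat.cast_def (K := ℝ) r
    rw [this, hn]
    simp
  rw [hr'] at hr
  have e1 : (r.den : ℝ) * Real.log 2 = (n : ℝ) * Real.log 3 := by
    field_simp at hr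
    linarith
  rw [← Real.log_pow, ← Real.log_pow] at e1
  have e2 : (2 : ℝ) ^ r.den = 3 ^ n :=
    Real.log_injOn_pos (by simp) (by simp) e1
  have e3 : (2 : ℕ) ^ r.den = 3 ^ n := by exact_mod_cast e2
  have h4 : 2 ∣ (3 : ℕ) ^ n := by
    rw [← e3]
    exact dvd_pow_self 2 r.den_pos.ne'
  have h5 := Nat.Prime.dvd_of_dvd_pow Nat.prime_two h4
  omega

/-- the points `a log 2 + b log 3` with `a, b ≥ 1` are `η`-dense far out -/
private lemma near_gap (η : ℝ) (hη : 0 < η) : ∃ x₀ : ℝ, ∀ x, x₀ ≤ x → ∃ a b : ℕ, 1 ≤ a ∧ 1 ≤ b ∧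
    |x - (a * Real.log 2 + b * Real.log 3)| < η := by
  have h2 : 0 < Real.log 2 := Real.log_pos (by norm_num)
  have h3 : 0 < Real.log 3 := Real.log_pos (by norm_num)
  have hd := dense_addSubgroupClosure_pair_iff.2 near_irr
  obtain ⟨g, hg, hg0, hgη⟩ := hd.exists_between hη
  obtain ⟨m, n, hmn⟩ := AddSubgroup.mem_closure_pair.1 hg
  simp only [zsmul_eq_mul] at hmn
  obtain ⟨K, hK⟩ := exists_nat_ge (Real.log 2 / g)
  have hK' : Real.log 2 ≤ K * g := by rwa [div_le_iff₀ hg0] at hK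
  set b₀ : ℤ := 1 + |n| * K with hb₀
  refine ⟨b₀ * Real.log 3 + (|m| * K + 1) * Real.log 2, fun x hx => ?_⟩
  set a₀ : ℤ := ⌊(x - b₀ * Real.log 3) / Real.log 2⌋ with ha₀
  have ha1 : (a₀ : ℝ) * Real.log 2 ≤ x - b₀ * Real.log 3 := by
    have := Int.floor_le ((x - b₀ * Real.log 3) / Real.log 2)
    rwa [le_div_iff₀ h2] at this
  have ha2 : x - b₀ * Real.log 3 < ((a₀ : ℝ) + 1) * Real.log 2 := by
    have := Int.lt_floor_add_one ((x - b₀ * Real.log 3) / Real.log 2)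
    rwa [div_lt_iff₀ h2] at this
  have ha3 : |m| * K + 1 ≤ a₀ := by
    rw [ha₀, Int.le_floor, le_div_iff₀ h2]
    push_cast
    have h12 : ((|m| : ℤ) : ℝ) = |(m : ℝ)| := by push_cast; rfl
    rw [h12] at hx
    linarith
  set u : ℝ := (x - b₀ * Real.log 3 - a₀ * Real.log 2) / g with hu
  have hu0 : 0 ≤ u := by
    apply div_nonneg _ hg0.le
    linarith
  set j : ℕ := ⌊u⌋₊ with hj
  have hj1 : (j : ℝ) * g ≤ x - b₀ * Real.log 3 - a₀ * Real.log 2 := by
    have := Nat.floor_le hu0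
    rwa [hu, le_div_iff₀ hg0] at this
  have hj2 : x - b₀ * Real.log 3 - a₀ * Real.log 2 < ((j : ℝ) + 1) * g := by
    have := Nat.lt_floor_add_one u
    rwa [hu, div_lt_iff₀ hg0] at this
  have hjK : j ≤ K := by
    have h7 : (j : ℝ) * g < K * g := by nlinarith
    have h8 : (j : ℝ) < K := lt_of_mul_lt_mul_right h7 hg0.le
    exact_mod_cast h8.le
  have hjK' : (j : ℤ) ≤ (K : ℤ) := by exact_mod_cast hjK
  have hj0 : (0 : ℤ) ≤ (j : ℤ) := by positivity
  have hA : 1 ≤ a₀ + j * m := by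
    have h9 : -(|m| * K) ≤ j * m := by
      have h10 : -(|m| * j) ≤ j * m := by
        nlinarith [neg_abs_le m]
      nlinarith [abs_nonneg m]
    linarith
  have hB : 1 ≤ b₀ + j * n := by
    have h9 : -(|n| * K) ≤ j * n := by
      have h10 : -(|n| * j) ≤ j * n := by
        nlinarith [neg_abs_le n]
      nlinarith [abs_nonneg n]
    linarith
  refine ⟨(a₀ + j * m).toNat, (b₀ + j * n).toNat, by omega, by omega, ?_⟩
  have cA : (((a₀ + j * m).toNat : ℕ) : ℝ) = (a₀ : ℝ) + j * m := by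
    have : (((a₀ + j * m).toNat : ℕ) : ℤ) = a₀ + j * m := Int.toNat_of_nonneg (by linarith)
    have h11 : ((((a₀ + j * m).toNat : ℕ) : ℤ) : ℝ) = ((a₀ + j * m : ℤ) : ℝ) := by rw [this]
    push_cast at h11 ⊢
    exact h11
  have cB : (((b₀ + j * n).toNat : ℕ) : ℝ) = (b₀ : ℝ) + j * n := by
    have : (((b₀ + j * n).toNat : ℕ) : ℤ) = b₀ + j * n := Int.toNat_of_nonneg (by linarith)
    have h11 : ((((b₀ + j * n).toNat : ℕ) : ℤ) : ℝ) = ((b₀ + j * n : ℤ) : ℝ) := by rw [this]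
    push_cast at h11 ⊢
    exact h11
  rw [cA, cB]
  have e : x - (((a₀ : ℝ) + j * m) * Real.log 2 + ((b₀ : ℝ) + j * n) * Real.log 3)
      = x - b₀ * Real.log 3 - a₀ * Real.log 2 - j * g := by
    rw [← hmn]; ring
  rw [e, abs_lt]
  constructor <;> linarith

theorem near : Near := by
  intro t₀ C h hC hTI h0 hlip M hup hlow ε hε l T
  have hM : 0 ≤ M := by
    by_contra hneg
    push Not at hneg
    obtain ⟨T1, hT1⟩ := hup (-M / 2) (by linarith)
    have h1 := hT1 T1 le_rfl true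
    have h2 := h0 true T1
    linarith
  rcases lt_or_ge l 0 with hl | hl
  · exact ⟨T, le_rfl, fun c s h1 h2 => by exfalso; linarith⟩
  have hl2 : 0 < Real.log 2 := Real.log_pos (by norm_num)
  have hl3 : 0 < Real.log 3 := Real.log_pos (by norm_num)
  obtain ⟨η, hη, hη2⟩ : ∃ η : ℝ, 0 < η ∧ M - ε / 2 ≤ Real.exp (-η) * M := by
    refine ⟨ε / (2 * (M + 1)), by positivity, ?_⟩
    have h1 := Real.add_one_le_exp (-(ε / (2 * (M + 1))))
    have h2 : ε / (2 * (M + 1)) * M ≤ ε / 2 := by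
      rw [div_mul_eq_mul_div, div_le_div_iff₀ (by positivity) (by norm_num)]
      nlinarith
    nlinarith
  obtain ⟨x₀, hx₀⟩ := near_gap η hη
  set y₀ : ℝ := x₀ + Real.log 2 + Real.log 3 - 2 * Real.log 5 with hy₀
  set Dm : ℝ := Real.exp (y₀ + l + 2 * Real.log 5 + η) with hDm
  have hDm0 : 0 < Dm := Real.exp_pos _
  obtain ⟨B, hB⟩ := pow_unbounded_of_one_lt Dm (by norm_num : (1 : ℝ) < 2)
  set δ : ℝ := ε / (8 * Dm) with hδ
  have hδ0 : 0 < δ := by positivity
  obtain ⟨T1, hT1⟩ := hup δ hδ0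
  set Tb : ℝ := max (max (max t₀ (T + y₀ + l)) (max (4 / 3 * T1) 4000))
    (max (max (100 * 2 ^ B) (4 * (y₀ + l + 2 * Real.log 5 + η))) (4 * C * Dm / ε)) with hTb
  obtain ⟨t, ht, c', hc'⟩ := hlow δ hδ0 Tb
  have ht' : Tb ≤ t := ht
  rw [hTb] at ht'
  simp only [max_le_iff] at ht'
  obtain ⟨⟨⟨k1, k2⟩, k3, k4⟩, ⟨k5, k6⟩, k7⟩ := ht'
  have htpos : 0 < t := by linarith
  refine ⟨t - y₀ - l, by linarith, fun c s hs1 hs2 => ?_⟩
  -- the last letter
  set e : ℕ := if c' = true then 1 else 0 with he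
  have he1 : e ≤ 1 := by rw [he]; split_ifs <;> norm_num
  have he1' : (e : ℝ) ≤ 1 := by exact_mod_cast he1
  have he0' : (0 : ℝ) ≤ e := Nat.cast_nonneg e
  have hnx : nx (1, e) = c' := by
    unfold nx
    rw [he]
    cases c' <;> simp
  obtain ⟨a, b, ha, hb, hab⟩ := hx₀ (t - s + 2 * Real.log 5 - Real.log 2 - e * Real.log 3)
    (by nlinarith)
  set w₀ : List Let := [(a, b), (1, e)] with hw₀
  have hD0 : (D w₀ : ℝ) = 2 ^ a * 3 ^ b * (2 * 3 ^ e) := by
    rw [hw₀]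
    simp [dd]
  have hDpos : (0 : ℝ) < D w₀ := by exact_mod_cast D_pos w₀
  have hlogD : Real.log (D w₀) = a * Real.log 2 + b * Real.log 3 + Real.log 2 + e * Real.log 3 := by
    rw [hD0, Real.log_mul (by positivity) (by positivity), Real.log_mul (by positivity)
      (by positivity), Real.log_mul (by positivity) (by positivity), Real.log_pow, Real.log_pow,
      Real.log_pow]
    ring
  have hab' : |t + 2 * Real.log 5 - Real.log (D w₀) - s| < η := by
    rw [hlogD]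
    have e1 : t + 2 * Real.log 5 - (a * Real.log 2 + b * Real.log 3 + Real.log 2 + e * Real.log 3)
        - s = t - s + 2 * Real.log 5 - Real.log 2 - e * Real.log 3
          - (a * Real.log 2 + b * Real.log 3) := by ring
    rw [e1]
    exact hab
  have hab2 := abs_lt.1 hab'
  have hDle : (D w₀ : ℝ) ≤ Dm := by
    rw [← Real.exp_log hDpos, hDm]
    apply Real.exp_le_exp.2
    linarith [hab2.1]
  have hDexp : (D w₀ : ℝ) ≤ Real.exp (t / 4) := by
    refine hDle.trans ?_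
    rw [hDm]
    apply Real.exp_le_exp.2
    linarith
  -- membership
  have h2a : (2 : ℝ) ^ a ≤ D w₀ := by
    rw [hD0]
    have h1 : (1 : ℝ) ≤ 3 ^ b := one_le_pow₀ (by norm_num)
    have h2 : (1 : ℝ) ≤ 2 * 3 ^ e := by
      have : (1 : ℝ) ≤ 3 ^ e := one_le_pow₀ (by norm_num)
      linarith
    have h3 : (0 : ℝ) < 2 ^ a := by positivity
    calc (2 : ℝ) ^ a = 2 ^ a * 1 * 1 := by ring
      _ ≤ 2 ^ a * 3 ^ b * (2 * 3 ^ e) := by gcongr
  have h2b : (2 : ℝ) ^ b ≤ D w₀ := by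
    rw [hD0]
    have h1 : (2 : ℝ) ^ b ≤ 3 ^ b := pow_le_pow_left₀ (by norm_num) (by norm_num) b
    have h2 : (1 : ℝ) ≤ 2 * 3 ^ e := by
      have : (1 : ℝ) ≤ 3 ^ e := one_le_pow₀ (by norm_num)
      linarith
    have h3 : (1 : ℝ) ≤ 2 ^ a := one_le_pow₀ (by norm_num)
    calc (2 : ℝ) ^ b = 1 * 2 ^ b * 1 := by ring
      _ ≤ 2 ^ a * 3 ^ b * (2 * 3 ^ e) := by gcongr
  have haB : a ≤ B := by
    have h1 : (2 : ℝ) ^ a < 2 ^ B := lt_of_le_of_lt (h2a.trans hDle) hB
    exact ((pow_lt_pow_iff_right₀ (by norm_num : (1 : ℝ) < 2)).1 h1).le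
  have hbB : b ≤ B := by
    have h1 : (2 : ℝ) ^ b < 2 ^ B := lt_of_le_of_lt (h2b.trans hDle) hB
    exact ((pow_lt_pow_iff_right₀ (by norm_num : (1 : ℝ) < 2)).1 h1).le
  have hkk1 : 2 ^ B ≤ kk t := by
    unfold kk
    apply Nat.le_floor
    push_cast
    rw [le_div_iff₀ (by norm_num)]
    linarith
  have hkk2 : 40 ≤ kk t := by
    unfold kk
    apply Nat.le_floor
    push_cast
    rw [le_div_iff₀ (by norm_num)]
    linarith
  have hLA : B + 2 ≤ LA 1 t := by
    have h1 : B ≤ Nat.log 2 (kk t) := by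
      apply (Nat.le_log_iff_pow_le (by norm_num) (by omega)).2 hkk1
    unfold LA LL
    omega
  have hrr : 2 ≤ rr t := by
    unfold rr
    omega
  have hmem : w₀ ∈ W (LA 1 t) 2 c := by
    rw [hw₀, cons_mem_W, cons_mem_W, mem_W_zero, mem_L, mem_L]
    refine ⟨⟨⟨ha, by omega, by simp only; omega⟩, Or.inl hb⟩, ⟨⟨⟨le_rfl, by simp only; omega, by
      simp only; omega⟩, Or.inr ?_⟩, rfl⟩⟩
    unfold nx
    simp [hb]
  have hend : endc c w₀ = c' := by
    rw [hw₀, endc_cons, endc_cons, endc_nil, hnx]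
  -- transfer inequality
  have hti := hTI t k1 2 hrr c'
  have hcol := col_le (LA 1 t) 2 c'
  set F : Bool → Finset (List Let) := fun c₁ => (W (LA 1 t) 2 c₁).filter
      (fun w => endc c₁ w = c' ∧ (D w : ℝ) ≤ Real.exp (t / 4)) with hF
  have hcol' : ∑ c₁ : Bool, ∑ w ∈ F c₁, 1 / (D w : ℝ) ≤ 1 := by
    refine le_trans (Finset.sum_le_sum fun c₁ _ => ?_) hcol
    refine Finset.sum_le_sum_of_subset_of_nonneg ?_ (fun w _ _ => by positivity)
    intro w hw
    rw [hF] at hw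
    simp only [Finset.mem_filter] at hw ⊢
    exact ⟨hw.1, hw.2.1⟩
  have hterm : ∀ c₁ : Bool, ∀ w ∈ F c₁,
      0 ≤ 1 / (D w : ℝ) * (M + δ - h c₁ (t + (2 : ℕ) * Real.log 5 - Real.log (D w))) := by
    intro c₁ w hw
    rw [hF] at hw
    simp only [Finset.mem_filter] at hw
    have hDw : (0 : ℝ) < D w := by exact_mod_cast D_pos w
    have h1 : Real.log (D w) ≤ t / 4 := by
      rw [← Real.log_exp (t / 4)]
      exact Real.log_le_log hDw hw.2.2
    have hl5 : 0 < Real.log 5 := Real.log_pos (by norm_num)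
    have h2 := hT1 (t + (2 : ℕ) * Real.log 5 - Real.log (D w)) (by
      push_cast
      linarith) c₁
    apply mul_nonneg (by positivity)
    linarith
  have hw₀F : w₀ ∈ F c := by
    rw [hF]
    simp only [Finset.mem_filter]
    exact ⟨hmem, hend, hDexp⟩
  set τ : ℝ := t + (2 : ℕ) * Real.log 5 - Real.log (D w₀) with hτ
  have hsingle : 1 / (D w₀ : ℝ) * (M + δ - h c τ) ≤ ∑ c₁ : Bool, ∑ w ∈ F c₁,
      1 / (D w : ℝ) * (M + δ - h c₁ (t + (2 : ℕ) * Real.log 5 - Real.log (D w))) := by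
    refine le_trans ?_ (Finset.single_le_sum (f := fun c₁ : Bool => ∑ w ∈ F c₁,
      1 / (D w : ℝ) * (M + δ - h c₁ (t + (2 : ℕ) * Real.log 5 - Real.log (D w))))
      (fun c₁ _ => Finset.sum_nonneg (hterm c₁)) (Finset.mem_univ c))
    exact Finset.single_le_sum (f := fun w =>
      1 / (D w : ℝ) * (M + δ - h c (t + (2 : ℕ) * Real.log 5 - Real.log (D w))))
      (hterm c) hw₀F
  have hsplit : ∑ c₁ : Bool, ∑ w ∈ F c₁,
      1 / (D w : ℝ) * (M + δ - h c₁ (t + (2 : ℕ) * Real.log 5 - Real.log (D w)))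
      = (M + δ) * (∑ c₁ : Bool, ∑ w ∈ F c₁, 1 / (D w : ℝ))
        - ∑ c₁ : Bool, ∑ w ∈ F c₁,
          1 / (D w : ℝ) * h c₁ (t + (2 : ℕ) * Real.log 5 - Real.log (D w)) := by
    rw [Finset.mul_sum, ← Finset.sum_sub_distrib]
    refine Finset.sum_congr rfl fun c₁ _ => ?_
    rw [Finset.mul_sum, ← Finset.sum_sub_distrib]
    refine Finset.sum_congr rfl fun w _ => ?_
    ring
  have hMδ : 0 ≤ M + δ := by linarith
  have hmain : 1 / (D w₀ : ℝ) * (M + δ - h c τ) ≤ 2 * δ + C / t := by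
    have h1 : (M + δ) * (∑ c₁ : Bool, ∑ w ∈ F c₁, 1 / (D w : ℝ)) ≤ M + δ :=
      mul_le_of_le_one_right hMδ hcol'
    rw [pow_one] at hti
    linarith
  have hCt : 0 ≤ 2 * δ + C / t := by positivity
  have hτle : M - Dm * (2 * δ + C / t) ≤ h c τ := by
    have h1 : M + δ - h c τ ≤ D w₀ * (2 * δ + C / t) := by
      rw [one_div, inv_mul_le_iff₀ hDpos] at hmain
      exact hmain
    have h2 : D w₀ * (2 * δ + C / t) ≤ Dm * (2 * δ + C / t) :=
      mul_le_mul_of_nonneg_right hDle hCt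
    linarith
  have hκ : Dm * (2 * δ + C / t) ≤ ε / 2 := by
    have h1 : Dm * (2 * δ) = ε / 4 := by
      rw [hδ]
      field_simp
      ring
    have h2 : Dm * (C / t) ≤ ε / 4 := by
      rw [← mul_div_assoc, div_le_div_iff₀ htpos (by norm_num)]
      rw [div_le_iff₀ hε] at k7
      linarith
    rw [mul_add]
    linarith
  have hκ0 : 0 ≤ Dm * (2 * δ + C / t) := by positivity
  have hτs : |τ - s| < η := by
    rw [hτ]
    push_cast
    exact hab'
  have hls : h c τ ≤ Real.exp η * h c s := by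
    have h3 : h c τ ≤ Real.exp |τ - s| * h c s := by
      rcases le_total s τ with h4 | h4
      · rw [abs_of_nonneg (by linarith)]
        exact (hlip c s τ h4).1
      · rw [abs_of_nonpos (by linarith), neg_sub]
        exact (hlip c τ s h4).2
    refine h3.trans (mul_le_mul_of_nonneg_right (Real.exp_le_exp.2 hτs.le) (h0 c s))
  have hls' : Real.exp (-η) * h c τ ≤ h c s := by
    rw [Real.exp_neg, inv_mul_le_iff₀ (Real.exp_pos η)]
    exact hls
  have he1 : Real.exp (-η) ≤ 1 := by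
    rw [Real.exp_le_one_iff]
    linarith
  have h5 : Real.exp (-η) * (M - Dm * (2 * δ + C / t)) ≤ Real.exp (-η) * h c τ :=
    mul_le_mul_of_nonneg_left hτle (Real.exp_pos _).le
  have h6 : Real.exp (-η) * (Dm * (2 * δ + C / t)) ≤ Dm * (2 * δ + C / t) :=
    mul_le_of_le_one_left hκ0 he1
  nlinarith

end K5.ID
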