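import Pool.Agent.Lib.MP_a4658c_nt.ID.Stm

/-! MP_a4658c_nt, project ID, piece NUM1: numerical estimates with errors of size `t ^ (-A)`. -/

set_option autoImplicit false

namespace K5.ID

open K5

private lemma Num1_kk {t : ℝ} (ht : 200 ≤ t) :
    (kk t : ℝ) ≤ t / 100 ∧ t ≤ 200 * (kk t : ℝ) ∧ 2 ≤ kk t := by
  have h1 : (kk t : ℝ) ≤ t / 100 := Nat.floor_le (by linarith)
  have h2 : t / 100 < (kk t : ℝ) + 1 := Nat.lt_floor_add_one _
  have h3 : 2 ≤ kk t := by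
    unfold kk; rw [Nat.le_floor_iff (by linarith)]; push_cast; linarith
  have h4 : (2 : ℝ) ≤ kk t := by exact_mod_cast h3
  exact ⟨h1, by linarith, h3⟩

private lemma Num1_KK {t : ℝ} (hk : 1 ≤ kk t) : (6 : ℝ) ^ LL t ≤ 36 * (kk t : ℝ) ^ 6 := by
  unfold LL
  have h1 : 2 ^ Nat.log 2 (kk t) ≤ kk t := Nat.pow_log_le_self 2 (by omega)
  have h2 : ((2 : ℝ) ^ Nat.log 2 (kk t)) ≤ kk t := by exact_mod_cast h1
  have h3 : (6 : ℝ) ^ (2 * Nat.log 2 (kk t) + 2) = 36 * (36 : ℝ) ^ Nat.log 2 (kk t) := by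
    rw [pow_add, pow_mul]; norm_num; ring
  rw [h3]
  have h4 : (36 : ℝ) ^ Nat.log 2 (kk t) ≤ (kk t : ℝ) ^ 6 := by
    calc (36 : ℝ) ^ Nat.log 2 (kk t) ≤ (64 : ℝ) ^ Nat.log 2 (kk t) := by
          gcongr; norm_num
      _ = ((2 : ℝ) ^ Nat.log 2 (kk t)) ^ 6 := by
          rw [← pow_mul, mul_comm, pow_mul]; norm_num
      _ ≤ (kk t : ℝ) ^ 6 := by gcongr
  linarith

private lemma Num1_KA (A : ℕ) {t : ℝ} (hk : 1 ≤ kk t) :
    KA A t ≤ (36 * (kk t : ℝ) ^ 6) ^ (A + 2) := by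
  unfold KA LA
  rw [mul_comm, pow_mul]
  have h := Num1_KK hk
  gcongr

private lemma Num1_KA_ge (A : ℕ) {t : ℝ} (hk : 1 ≤ kk t) : (kk t : ℝ) ^ (A + 1) ≤ KA A t := by
  have hk1 : (1 : ℝ) ≤ kk t := by exact_mod_cast hk
  have h0 : (kk t : ℝ) ≤ 6 ^ LL t := by
    unfold LL
    have h1 : kk t < 2 ^ (Nat.log 2 (kk t) + 1) := Nat.lt_pow_succ_log_self (by norm_num) _
    have h2 : (kk t : ℝ) ≤ 2 ^ (Nat.log 2 (kk t) + 1) := by exact_mod_cast h1.le
    refine h2.trans ?_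
    calc (2 : ℝ) ^ (Nat.log 2 (kk t) + 1) ≤ 2 ^ (2 * Nat.log 2 (kk t) + 2) :=
          pow_le_pow_right₀ (by norm_num) (by omega)
      _ ≤ 6 ^ (2 * Nat.log 2 (kk t) + 2) := by gcongr; norm_num
  unfold KA LA
  calc (kk t : ℝ) ^ (A + 1) ≤ (kk t : ℝ) ^ (A + 2) := pow_le_pow_right₀ hk1 (by omega)
    _ ≤ (6 ^ LL t) ^ (A + 2) := by gcongr
    _ = 6 ^ ((A + 2) * LL t) := by rw [← pow_mul, mul_comm]

private lemma Num1_exp (t : ℝ) (ht : 200 ≤ t) : (5 : ℝ) ^ kk t ≤ Real.exp (t / 50) := by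
  obtain ⟨h1, _, _⟩ := Num1_kk ht
  have h5 : (5 : ℝ) ≤ Real.exp 2 := by
    have : (2.7182818283 : ℝ) < Real.exp 1 := Real.exp_one_gt_d9
    have h : Real.exp 2 = Real.exp 1 * Real.exp 1 := by rw [← Real.exp_add]; norm_num
    rw [h]; nlinarith
  calc (5 : ℝ) ^ kk t ≤ (Real.exp 2) ^ kk t := by gcongr
    _ = Real.exp (2 * kk t) := by rw [← Real.exp_nat_mul]; ring_nf
    _ ≤ Real.exp (t / 50) := by
        apply Real.exp_le_exp.mpr; linarith

private lemma Num1_pow_exp (n : ℕ) (a : ℝ) (ha : 0 < a) : ∃ C : ℝ, 0 < C ∧ ∀ t : ℝ, 0 ≤ t →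
    t ^ n ≤ C * Real.exp (a * t) := by
  refine ⟨n.factorial / a ^ n, by positivity, fun t ht => ?_⟩
  have h := Real.pow_div_factorial_le_exp (a * t) (by positivity) n
  have hn : (0 : ℝ) < n.factorial := by positivity
  rw [div_le_iff₀ hn, mul_pow] at h
  rw [div_mul_eq_mul_div, le_div_iff₀ (by positivity)]
  linarith

/-- `exp (-a t) ≤ C / t ^ A`. -/
private lemma Num1_exp_neg (A : ℕ) (a : ℝ) (ha : 0 < a) : ∃ C : ℝ, 0 < C ∧ ∀ t : ℝ, 0 < t →
    Real.exp (-(a * t)) ≤ C / t ^ A := by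
  obtain ⟨C, hC, h⟩ := Num1_pow_exp A a ha
  refine ⟨C, hC, fun t ht => ?_⟩
  have := h t ht.le
  rw [le_div_iff₀ (by positivity), Real.exp_neg, inv_mul_le_iff₀ (Real.exp_pos _)]
  linarith

/-- `6 KA ≤ exp (t/4)` from some point on -/
private lemma Num1_KA_exp (A : ℕ) : ∃ t₁ : ℝ, 200 ≤ t₁ ∧ ∀ t, t₁ ≤ t →
    6 * KA A t ≤ Real.exp (t / 4) := by
  obtain ⟨C, hC, h⟩ := Num1_pow_exp (6 * (A + 2)) (1 / 8) (by norm_num)
  set K : ℝ := 6 * 36 ^ (A + 2) * C with hK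
  have hK0 : 0 < K := by positivity
  refine ⟨max 200 (8 * Real.log K), le_max_left _ _, fun t ht => ?_⟩
  have ht2 : 200 ≤ t := (le_max_left _ _).trans ht
  have ht3 : 8 * Real.log K ≤ t := (le_max_right _ _).trans ht
  obtain ⟨h1, h2, h3⟩ := Num1_kk ht2
  have hKA := Num1_KA A (t := t) (by omega)
  have hkt : (kk t : ℝ) ≤ t := by linarith
  have h4 : K ≤ Real.exp (1 / 8 * t) := by
    rw [← Real.log_le_iff_le_exp hK0]
    linarith
  calc 6 * KA A t ≤ 6 * (36 * (kk t : ℝ) ^ 6) ^ (A + 2) := by linarith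
    _ ≤ 6 * (36 * t ^ 6) ^ (A + 2) := by gcongr
    _ = 6 * 36 ^ (A + 2) * t ^ (6 * (A + 2)) := by rw [mul_pow, ← pow_mul]; ring
    _ ≤ 6 * 36 ^ (A + 2) * (C * Real.exp (1 / 8 * t)) := by
        gcongr
        exact h t (by linarith)
    _ = K * Real.exp (1 / 8 * t) := by rw [hK]; ring
    _ ≤ Real.exp (1 / 8 * t) * Real.exp (1 / 8 * t) := by gcongr
    _ = Real.exp (t / 4) := by rw [← Real.exp_add]; congr 1; ring

theorem num_basic : NumBasic := by
  intro A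
  obtain ⟨t₁, ht₁, hE⟩ := Num1_KA_exp A
  have hlim := tendsto_pow_const_div_const_pow_of_one_lt (18 * (A + 2)) (r := (5 : ℝ))
    (by norm_num)
  have hev : ∀ᶠ n : ℕ in Filter.atTop, (n : ℝ) ^ (18 * (A + 2)) / 5 ^ n < 1 / 46656 ^ (A + 2) :=
    hlim.eventually_lt_const (by positivity)
  obtain ⟨n₀, hn₀⟩ := Filter.eventually_atTop.mp hev
  refine ⟨t₁ + 100 * (n₀ + 1), by positivity, fun t ht => ?_⟩
  have hn0 : (0 : ℝ) ≤ n₀ := by positivity
  have htt : t₁ ≤ t := by nlinarith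
  have ht2 : 200 ≤ t := by linarith
  obtain ⟨h1, h2, h3⟩ := Num1_kk ht2
  have hkn : n₀ ≤ kk t := by
    have h4 : t / 100 < (kk t : ℝ) + 1 := Nat.lt_floor_add_one _
    have : (n₀ : ℝ) < (kk t : ℝ) + 1 := by nlinarith
    have : (n₀ : ℝ) < ((kk t + 1 : ℕ) : ℝ) := by push_cast; exact this
    have := Nat.cast_lt.mp this
    omega
  have hL : 2 ≤ LA A t := by
    unfold LA LL
    nlinarith [Nat.zero_le (A * (2 * Nat.log 2 (kk t) + 2))]
  have hK1 : 1 ≤ KA A t := by unfold KA; exact one_le_pow₀ (by norm_num)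
  have hKpos : 0 < KA A t := by linarith
  have hK36 : 36 ≤ KA A t := by
    unfold KA
    calc (36 : ℝ) = 6 ^ 2 := by norm_num
      _ ≤ 6 ^ LA A t := pow_le_pow_right₀ (by norm_num) hL
  have h5pos : (0 : ℝ) < 5 ^ kk t := by positivity
  have hY : 1 ≤ YA A t := by
    unfold YA
    rw [one_le_div (by positivity)]
    have h6 := hn₀ _ hkn
    rw [div_lt_iff₀ h5pos] at h6
    have hK := Num1_KA A (t := t) (by omega)
    calc KA A t ^ 3 ≤ ((36 * (kk t : ℝ) ^ 6) ^ (A + 2)) ^ 3 := by gcongr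
      _ = 46656 ^ (A + 2) * (kk t : ℝ) ^ (18 * (A + 2)) := by
          have e : (36 * (kk t : ℝ) ^ 6) ^ 3 = 46656 * (kk t : ℝ) ^ 18 := by ring
          rw [← pow_mul, mul_comm (A + 2) 3, pow_mul (36 * (kk t : ℝ) ^ 6) 3 (A + 2), e, mul_pow,
            ← pow_mul]
      _ ≤ 46656 ^ (A + 2) * (1 / 46656 ^ (A + 2) * 5 ^ kk t) := by gcongr
      _ = 5 ^ kk t := by
          rw [← mul_assoc, mul_one_div_cancel (by positivity), one_mul]
  have hE := hE t htt
  have he4 : 1 ≤ Real.exp (t / 4) := Real.one_le_exp (by linarith)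
  have hsq : Real.exp (t / 2) = Real.exp (t / 4) * Real.exp (t / 4) := by
    rw [← Real.exp_add]; congr 1; ring
  have hKlt : KA A t < Real.exp (t / 2) := by rw [hsq]; nlinarith
  refine ⟨Nat.div_le_self _ _, ?_, hL, hK1, hY, ?_, ?_, hKlt, ?_, ?_⟩
  · unfold lm rr; omega
  · have : KA A t * (YA A t * 6 ^ LA A t) = 5 ^ kk t / KA A t := by
      unfold YA
      change KA A t * (5 ^ kk t / KA A t ^ 3 * KA A t) = _
      field_simp
    rw [this]
    exact div_lt_self h5pos (by linarith)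
  · unfold EE; exact he4
  · intro X hX
    rw [lt_div_iff₀ (by positivity), hsq]
    have h6 : X * (5 * KA A t) ≤ Real.exp (t / 4) * (5 * KA A t) := by gcongr
    nlinarith
  · have hexp := Num1_exp t ht2
    have e1 : (5 : ℝ) ^ kk t * Real.exp (5 * t / 4) ≤ Real.exp (t / 50 + 5 * t / 4) := by
      rw [Real.exp_add]; gcongr
    have e2 : KA A t ≤ Real.exp (t / 50 + 5 * t / 4) := by
      have : Real.exp (t / 4) ≤ Real.exp (t / 50 + 5 * t / 4) := by
        apply Real.exp_le_exp.mpr; nlinarith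
      linarith
    have e3 : 2 * Real.exp (t / 50 + 5 * t / 4) ≤ Real.exp (2 * t) := by
      have h8 : Real.exp (2 * t) = Real.exp (t / 50 + 5 * t / 4) * Real.exp (73 / 100 * t) := by
        rw [← Real.exp_add]; congr 1; ring
      have h9 : 2 ≤ Real.exp (73 / 100 * t) := by
        have := Real.add_one_le_exp (73 / 100 * t)
        nlinarith
      rw [h8]; nlinarith [Real.exp_pos (t / 50 + 5 * t / 4)]
    linarith

theorem num_tails : NumTails := by
  intro A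
  obtain ⟨C, hC, h⟩ := Num1_exp_neg A (1 / 4) (by norm_num)
  refine ⟨1, 7 * C, by norm_num, by positivity, fun t ht => ?_⟩
  have ht0 : 0 < t := by linarith
  have h1 := h t ht0
  have e0 : Real.exp (-(t / 4)) = Real.exp (-(1 / 4 * t)) := by congr 1; ring
  have e1 : 1 / Real.exp t ≤ Real.exp (-(1 / 4 * t)) := by
    rw [one_div, ← Real.exp_neg]; apply Real.exp_le_exp.mpr; linarith
  have e2 : EE t / Real.exp t ≤ Real.exp (-(1 / 4 * t)) := by
    unfold EE; rw [← Real.exp_sub]; apply Real.exp_le_exp.mpr; linarith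
  have e3 : (1 + 8 / 3 * EE t) / Real.exp t = 1 / Real.exp t + 8 / 3 * (EE t / Real.exp t) := by
    ring
  rw [e3, e0]
  have : 7 * C / t ^ A = 7 * (C / t ^ A) := by ring
  rw [this]
  linarith [Real.exp_pos (-(1 / 4 * t))]

theorem num_rest : NumRest := by
  intro A
  refine ⟨200, 54 * 301 * 200 ^ A, by norm_num, by positivity, fun t ht r => ?_⟩
  obtain ⟨h1, h2, h3⟩ := Num1_kk ht
  set k := kk t with hk
  have hk1 : (2 : ℝ) ≤ k := by exact_mod_cast h3
  have hk0 : (0 : ℝ) < k := by linarith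
  have ht0 : 0 < t := by linarith
  have hl : Real.log (Real.exp (2 * t) / Real.exp (t / 2)) = 3 / 2 * t := by
    rw [← Real.exp_sub, Real.log_exp]; ring
  have hexp := Num1_exp t ht
  rw [← hk] at hexp
  have h5 : (5 : ℝ) ^ (k - r) / Real.exp (t / 2) ≤ 1 := by
    rw [div_le_one (Real.exp_pos _)]
    calc (5 : ℝ) ^ (k - r) ≤ 5 ^ k := pow_le_pow_right₀ (by norm_num) (Nat.sub_le _ _)
      _ ≤ Real.exp (t / 50) := hexp
      _ ≤ Real.exp (t / 2) := Real.exp_le_exp.mpr (by linarith)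
  have h2K := Num1_KA_ge A (t := t) (by rw [← hk]; omega)
  rw [← hk] at h2K
  have hKpos : 0 < KA A t := by unfold KA; positivity
  rw [hl]
  calc 54 / KA A t * (5 ^ (k - r) / Real.exp (t / 2) + 3 / 2 * t)
      ≤ 54 / (k : ℝ) ^ (A + 1) * (301 * k) := by
        gcongr
        nlinarith
    _ = 54 * 301 / (k : ℝ) ^ A := by rw [pow_succ]; field_simp
    _ ≤ 54 * 301 * 200 ^ A / t ^ A := by
        have h6 : t ^ A ≤ 200 ^ A * (k : ℝ) ^ A := by
          rw [← mul_pow]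
          gcongr
        rw [div_le_div_iff₀ (by positivity) (by positivity)]
        linarith

theorem num_factor : NumFactor := by
  intro A
  obtain ⟨C, hC, h⟩ := Num1_exp_neg A (1 / 4) (by norm_num)
  obtain ⟨t₁, ht₁, hE⟩ := Num1_KA_exp A
  refine ⟨t₁, 14 * C, by linarith, by positivity, fun t ht => ?_⟩
  have ht0 : 0 < t := by linarith
  have hKe := hE t ht
  have hKpos : 0 < KA A t := by unfold KA; positivity
  have hsq : Real.exp (t / 2) = Real.exp (t / 4) * Real.exp (t / 4) := by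
    rw [← Real.exp_add]; congr 1; ring
  have he4 : 0 < Real.exp (t / 4) := Real.exp_pos _
  have he41 : 1 ≤ Real.exp (t / 4) := Real.one_le_exp (by linarith)
  set d := KA A t / Real.exp (t / 2) with hd
  have hd0 : 0 ≤ d := by positivity
  have hd1 : d ≤ Real.exp (-(1 / 4 * t)) := by
    rw [hd, hsq, div_le_iff₀ (by positivity)]
    have : Real.exp (-(1 / 4 * t)) * (Real.exp (t / 4) * Real.exp (t / 4)) = Real.exp (t / 4) := by
      rw [← Real.exp_add, ← Real.exp_add]; congr 1; ring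
    rw [this]; linarith
  have hd2 : d ≤ 1 / 2 := by
    rw [hd, hsq, div_le_iff₀ (by positivity)]
    nlinarith
  have h1d : 0 < 1 - d := by linarith
  refine ⟨?_, h1d⟩
  have e1 : 1 / (1 - d) ≤ 1 + 2 * d := by
    rw [div_le_iff₀ h1d]; nlinarith
  have hdC : d ≤ C / t ^ A := hd1.trans (h t ht0)
  have hpos : 0 ≤ 1 / (1 - d) := by positivity
  calc (1 / (1 - d)) ^ 3 ≤ (1 + 2 * d) ^ 3 := by gcongr
    _ ≤ 1 + 14 * d := by nlinarith [mul_nonneg hd0 hd0]
    _ ≤ 1 + 14 * (C / t ^ A) := by gcongr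
    _ = 1 + 14 * C / t ^ A := by ring

end K5.ID
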