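import Pool.Agent.Lib.MP_a4658c_nt.ID.Stm

/-! MP_a4658c_nt, project ID, piece NUM2: deficit of the good words and the mixing error, with
errors of size `t ^ (-A)`. -/

set_option autoImplicit false

namespace K5.ID

open K5

private lemma Num2_kk {t : ℝ} (ht : 200 ≤ t) :
    (kk t : ℝ) ≤ t / 100 ∧ t ≤ 200 * (kk t : ℝ) ∧ 2 ≤ kk t := by
  have h1 : (kk t : ℝ) ≤ t / 100 := Nat.floor_le (by linarith)
  have h2 : t / 100 < (kk t : ℝ) + 1 := Nat.lt_floor_add_one _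
  have h3 : 2 ≤ kk t := by
    unfold kk; rw [Nat.le_floor_iff (by linarith)]; push_cast; linarith
  have h4 : (2 : ℝ) ≤ kk t := by exact_mod_cast h3
  exact ⟨h1, by linarith, h3⟩

private lemma Num2_LL (t : ℝ) : (LL t : ℝ) ≤ 2 * (kk t : ℝ) + 2 := by
  have : LL t ≤ 2 * kk t + 2 := by
    unfold LL
    have := Nat.log_le_self 2 (kk t)
    omega
  exact_mod_cast this

private lemma Num2_KK {t : ℝ} (hk : 1 ≤ kk t) : (6 : ℝ) ^ LL t ≤ 36 * (kk t : ℝ) ^ 6 := by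
  unfold LL
  have h1 : 2 ^ Nat.log 2 (kk t) ≤ kk t := Nat.pow_log_le_self 2 (by omega)
  have h2 : ((2 : ℝ) ^ Nat.log 2 (kk t)) ≤ kk t := by exact_mod_cast h1
  have h3 : (6 : ℝ) ^ (2 * Nat.log 2 (kk t) + 2) = 36 * (36 : ℝ) ^ Nat.log 2 (kk t) := by
    rw [pow_add, pow_mul]; norm_num; ring
  rw [h3]
  have h4 : (36 : ℝ) ^ Nat.log 2 (kk t) ≤ (kk t : ℝ) ^ 6 := by
    calc (36 : ℝ) ^ Nat.log 2 (kk t) ≤ (64 : ℝ) ^ Nat.log 2 (kk t) := by
          gcongr; norm_num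
      _ = ((2 : ℝ) ^ Nat.log 2 (kk t)) ^ 6 := by
          rw [← pow_mul, mul_comm, pow_mul]; norm_num
      _ ≤ (kk t : ℝ) ^ 6 := by gcongr
  linarith

/-- `2^LL ≥ k^2`. -/
private lemma Num2_two_LL {t : ℝ} (hk : 1 ≤ kk t) : (kk t : ℝ) ^ 2 ≤ 2 ^ LL t := by
  unfold LL
  have h1 : kk t < 2 ^ (Nat.log 2 (kk t) + 1) := Nat.lt_pow_succ_log_self (by norm_num) _
  have h2 : (kk t : ℝ) ≤ 2 ^ (Nat.log 2 (kk t) + 1) := by exact_mod_cast h1.le
  calc (kk t : ℝ) ^ 2 ≤ ((2 : ℝ) ^ (Nat.log 2 (kk t) + 1)) ^ 2 := by gcongr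
    _ = 2 ^ (2 * Nat.log 2 (kk t) + 2) := by rw [← pow_mul]; ring_nf

/-- `2^LA ≥ k^(A+1)`. -/
private lemma Num2_two_LA (A : ℕ) {t : ℝ} (hk : 1 ≤ kk t) :
    (kk t : ℝ) ^ (A + 1) ≤ 2 ^ LA A t := by
  have hk1 : (1 : ℝ) ≤ kk t := by exact_mod_cast hk
  have h := Num2_two_LL hk
  calc (kk t : ℝ) ^ (A + 1) ≤ (kk t : ℝ) ^ (2 * (A + 2)) :=
        pow_le_pow_right₀ hk1 (by omega)
    _ = ((kk t : ℝ) ^ 2) ^ (A + 2) := by rw [pow_mul]
    _ ≤ (2 ^ LL t) ^ (A + 2) := by gcongr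
    _ = 2 ^ LA A t := by unfold LA; rw [← pow_mul, mul_comm]

private lemma Num2_exp (t : ℝ) (ht : 200 ≤ t) : (5 : ℝ) ^ kk t ≤ Real.exp (t / 50) := by
  obtain ⟨h1, _, _⟩ := Num2_kk ht
  have h5 : (5 : ℝ) ≤ Real.exp 2 := by
    have : (2.7182818283 : ℝ) < Real.exp 1 := Real.exp_one_gt_d9
    have h : Real.exp 2 = Real.exp 1 * Real.exp 1 := by rw [← Real.exp_add]; norm_num
    rw [h]; nlinarith
  calc (5 : ℝ) ^ kk t ≤ (Real.exp 2) ^ kk t := by gcongr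
    _ = Real.exp (2 * kk t) := by rw [← Real.exp_nat_mul]; ring_nf
    _ ≤ Real.exp (t / 50) := by
        apply Real.exp_le_exp.mpr; linarith

/-- `exp (-a t) ≤ C / t^A`. -/
private lemma Num2_exp_neg (A : ℕ) (a : ℝ) (ha : 0 < a) : ∃ C : ℝ, 0 < C ∧ ∀ t : ℝ, 0 < t →
    Real.exp (-(a * t)) ≤ C / t ^ A := by
  refine ⟨A.factorial / a ^ A, by positivity, fun t ht => ?_⟩
  have h := Real.pow_div_factorial_le_exp (a * t) (by positivity) A
  have hn : (0 : ℝ) < A.factorial := by positivity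
  have haA : 0 < a ^ A := by positivity
  rw [div_le_iff₀ hn, mul_pow] at h
  rw [le_div_iff₀ (by positivity), Real.exp_neg, inv_mul_le_iff₀ (Real.exp_pos _),
    mul_div_assoc', le_div_iff₀ haA]
  linarith

/-- `1 / k^A ≤ 200^A / t^A`. -/
private lemma Num2_inv (A : ℕ) {t : ℝ} (ht : 200 ≤ t) :
    1 / (kk t : ℝ) ^ A ≤ 200 ^ A / t ^ A := by
  obtain ⟨_, h2, h3⟩ := Num2_kk ht
  have hk1 : (2 : ℝ) ≤ kk t := by exact_mod_cast h3
  have hk0 : (0 : ℝ) < kk t := by linarith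
  have ht0 : 0 < t := by linarith
  rw [div_le_div_iff₀ (by positivity) (by positivity), one_mul, ← mul_pow]
  gcongr

/-- deficit of the good words -/
theorem num_deficit : NumDeficit := by
  intro A
  obtain ⟨C₄, hC₄, h₄⟩ := Num2_exp_neg A (1 / 10) (by norm_num)
  have hb := (tendsto_pow_const_mul_const_pow_of_abs_lt_one (A * 10)
    (r := (0.76 : ℝ)) (by rw [abs_lt]; norm_num)).bddAbove_range
  obtain ⟨M, hM⟩ := hb
  have hM' : ∀ n : ℕ, (n : ℝ) ^ (A * 10) * 0.76 ^ n ≤ M := fun n => hM ⟨n, rfl⟩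
  have hM1 : 0 < M := lt_of_lt_of_le (by norm_num) (hM' 1)
  set B : ℝ := 1 + M * (5 / 0.81) ^ 9 with hB
  have hB1 : 1 ≤ B := by rw [hB]; have : 0 ≤ M * (5 / 0.81) ^ 9 := by positivity
                         linarith
  refine ⟨200, 2 * 200 ^ A + 6 * B * 200 ^ A + 40 * 200 ^ A + 2 * C₄, by norm_num,
    by positivity, fun t ht => ?_⟩
  obtain ⟨h1, h2, h3⟩ := Num2_kk ht
  have hinv := Num2_inv A ht
  have h2L := Num2_two_LA A (t := t) (by omega)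
  have hexp := Num2_exp t ht
  set k := kk t with hk
  have hk1 : (2 : ℝ) ≤ k := by exact_mod_cast h3
  have hk0 : (0 : ℝ) < k := by linarith
  have ht0 : 0 < t := by linarith
  have hKpos : 0 < KA A t := by unfold KA; positivity
  have hkA : (0 : ℝ) < (k : ℝ) ^ A := by positivity
  -- term 1
  have t1 : (k : ℝ) * (2 * (1 / 2 : ℝ) ^ LA A t) ≤ 2 * 200 ^ A / t ^ A := by
    have : (1 / 2 : ℝ) ^ LA A t ≤ 1 / (k : ℝ) ^ (A + 1) := by
      rw [one_div_pow]; gcongr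
    calc (k : ℝ) * (2 * (1 / 2 : ℝ) ^ LA A t) ≤ k * (2 * (1 / (k : ℝ) ^ (A + 1))) := by gcongr
      _ = 2 * (1 / (k : ℝ) ^ A) := by rw [pow_succ]; field_simp
      _ ≤ 2 * (200 ^ A / t ^ A) := by gcongr
      _ = 2 * 200 ^ A / t ^ A := by ring
  -- term 2
  have t2 : 6 * YA A t * (0.81 / 5) ^ lm t ≤ 6 * B * 200 ^ A / t ^ A := by
    have hYle : YA A t ≤ 5 ^ k := by
      unfold YA; rw [← hk]
      apply div_le_self (by positivity)
      apply one_le_pow₀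
      unfold KA; exact one_le_pow₀ (by norm_num)
    have hYpos : 0 ≤ YA A t := by unfold YA; positivity
    have hx : (5 : ℝ) ^ k * (0.81 / 5) ^ lm t ≤ B * (1 / (k : ℝ) ^ A) := by
      have hlm : 9 * k ≤ 10 * lm t + 9 := by unfold lm; rw [← hk]; omega
      rw [← pow_le_pow_iff_left₀ (by positivity) (by positivity) (n := 10) (by norm_num)]
      have e1 : ((5 : ℝ) ^ k * (0.81 / 5) ^ lm t) ^ 10
          = 5 ^ (10 * k) * ((0.81 / 5) ^ (10 * lm t + 9) * (5 / 0.81) ^ 9) := by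
        rw [mul_pow, ← pow_mul, ← pow_mul, mul_comm k 10, mul_comm (lm t) 10, pow_add,
          mul_assoc ((0.81 / 5 : ℝ) ^ (10 * lm t)), ← mul_pow]
        norm_num
      have e2 : ((0.81 / 5 : ℝ)) ^ (10 * lm t + 9) ≤ (0.81 / 5) ^ (9 * k) :=
        pow_le_pow_of_le_one (by norm_num) (by norm_num) hlm
      have e3 : (5 : ℝ) ^ (10 * k) * (0.81 / 5) ^ (9 * k) ≤ 0.76 ^ k := by
        rw [pow_mul, pow_mul, ← mul_pow]
        gcongr; norm_num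
      have e4 := hM' k
      rw [e1, mul_pow]
      have e5 : (0.76 : ℝ) ^ k ≤ M * (1 / (k : ℝ) ^ A) ^ 10 := by
        rw [one_div_pow, ← pow_mul, mul_one_div, le_div_iff₀ (by positivity)]; linarith
      have e6 : M * (5 / 0.81) ^ 9 ≤ B ^ 10 := by
        calc M * (5 / 0.81) ^ 9 ≤ B := by rw [hB]; linarith
          _ = B ^ 1 := (pow_one _).symm
          _ ≤ B ^ 10 := pow_le_pow_right₀ hB1 (by norm_num)
      calc (5 : ℝ) ^ (10 * k) * ((0.81 / 5) ^ (10 * lm t + 9) * (5 / 0.81) ^ 9)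
          ≤ 5 ^ (10 * k) * ((0.81 / 5) ^ (9 * k) * (5 / 0.81) ^ 9) := by gcongr
        _ = (5 ^ (10 * k) * (0.81 / 5) ^ (9 * k)) * (5 / 0.81) ^ 9 := by ring
        _ ≤ 0.76 ^ k * (5 / 0.81) ^ 9 := by gcongr
        _ ≤ (M * (1 / (k : ℝ) ^ A) ^ 10) * (5 / 0.81) ^ 9 := by gcongr
        _ = (M * (5 / 0.81) ^ 9) * (1 / (k : ℝ) ^ A) ^ 10 := by ring
        _ ≤ B ^ 10 * (1 / (k : ℝ) ^ A) ^ 10 := by gcongr
    calc 6 * YA A t * (0.81 / 5) ^ lm t ≤ 6 * 5 ^ k * (0.81 / 5) ^ lm t := by gcongr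
      _ = 6 * (5 ^ k * (0.81 / 5) ^ lm t) := by ring
      _ ≤ 6 * (B * (1 / (k : ℝ) ^ A)) := by gcongr
      _ ≤ 6 * (B * (200 ^ A / t ^ A)) := by gcongr
      _ = 6 * B * 200 ^ A / t ^ A := by ring
  -- term 3
  have t3 : 40 / KA A t ≤ 40 * 200 ^ A / t ^ A := by
    have hkk : (k : ℝ) ^ A ≤ KA A t := by
      calc (k : ℝ) ^ A ≤ (k : ℝ) ^ (A + 1) := pow_le_pow_right₀ (by linarith) (by omega)
        _ ≤ 2 ^ LA A t := h2L
        _ ≤ KA A t := by unfold KA; gcongr; norm_num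
    calc 40 / KA A t ≤ 40 / (k : ℝ) ^ A := by gcongr
      _ = 40 * (1 / (k : ℝ) ^ A) := by ring
      _ ≤ 40 * (200 ^ A / t ^ A) := by gcongr
      _ = _ := by ring
  -- term 4
  have t4 : 2 * (5 ^ k / Real.sqrt (EE t)) ≤ 2 * C₄ / t ^ A := by
    have hs : Real.sqrt (EE t) = Real.exp (t / 8) := by
      unfold EE
      rw [Real.sqrt_eq_iff_mul_self_eq (Real.exp_pos _).le (Real.exp_pos _).le, ← Real.exp_add]
      congr 1; ring
    rw [hs]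
    calc 2 * (5 ^ k / Real.exp (t / 8)) ≤ 2 * (Real.exp (t / 50) / Real.exp (t / 8)) := by gcongr
      _ = 2 * Real.exp (t / 50 - t / 8) := by rw [Real.exp_sub]
      _ ≤ 2 * Real.exp (-(1 / 10 * t)) := by
          gcongr; linarith
      _ ≤ 2 * (C₄ / t ^ A) := by gcongr; exact h₄ t ht0
      _ = _ := by ring
  calc _ ≤ 2 * 200 ^ A / t ^ A + 6 * B * 200 ^ A / t ^ A + 40 * 200 ^ A / t ^ A
        + 2 * C₄ / t ^ A := by linarith
    _ = _ := by ring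

/-- mixing error, `q = K₀ / (k-r-lmax+1)^(10A+28)` -/
theorem num_mix : NumMix := by
  intro A K₀ hK₀
  refine ⟨200, 2 * (25 * ((A : ℝ) + 2) ^ 2 * (4 * (25 * ((A : ℝ) + 2) ^ 2) *
    (8 * (K₀ * 20 ^ (10 * A + 28)) * 6 ^ (3 * (A + 2))))) * 301 * 200 ^ A, by norm_num,
    by positivity, fun t ht r hr => ?_⟩
  obtain ⟨h1, h2, h3⟩ := Num2_kk ht
  have hinv := Num2_inv A ht
  have hexp := Num2_exp t ht
  have hLL := Num2_LL t
  have hKK := Num2_KK (t := t) (by omega)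
  set k := kk t with hk
  have hk2 : (2 : ℝ) ≤ k := by exact_mod_cast h3
  have hk1 : (1 : ℝ) ≤ k := by linarith
  have hk0 : (0 : ℝ) < k := by linarith
  have ht0 : 0 < t := by linarith
  have hA0 : (0 : ℝ) ≤ A := by positivity
  -- a
  have ha : (k : ℝ) * LA A t + 1 ≤ 5 * ((A : ℝ) + 2) * (k : ℝ) ^ 2 := by
    have e1 : (LA A t : ℝ) = ((A : ℝ) + 2) * LL t := by unfold LA; push_cast; ring
    rw [e1]
    have e2 : ((A : ℝ) + 2) * LL t ≤ ((A : ℝ) + 2) * (2 * k + 2) := by gcongr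
    have e3 : (k : ℝ) * (((A : ℝ) + 2) * LL t) ≤ k * (((A : ℝ) + 2) * (2 * k + 2)) := by gcongr
    have e4 : (k : ℝ) ≤ k ^ 2 := by nlinarith
    have e5 : ((A : ℝ) + 2) * k ≤ ((A : ℝ) + 2) * k ^ 2 := by gcongr
    nlinarith
  have ha0 : 0 ≤ (k : ℝ) * LA A t + 1 := by positivity
  -- lm
  have hlm : (lm t : ℝ) + 1 ≤ 2 * k := by
    have : 10 * lm t ≤ 9 * k := by unfold lm; rw [← hk]; omega
    have h' : 10 * (lm t : ℝ) ≤ 9 * k := by exact_mod_cast this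
    linarith
  -- q
  have hq1 : (k : ℝ) / 20 ≤ ((k - r - lm t : ℕ) : ℝ) + 1 := by
    have : k ≤ 20 * (k - r - lm t) := by
      unfold rr at hr; unfold lm; rw [← hk] at hr ⊢; omega
    have h' : (k : ℝ) ≤ 20 * ((k - r - lm t : ℕ) : ℝ) := by exact_mod_cast this
    linarith
  have hq : K₀ / (((k - r - lm t : ℕ) : ℝ) + 1) ^ (10 * A + 28)
      ≤ K₀ * 20 ^ (10 * A + 28) / (k : ℝ) ^ (10 * A + 28) := by
    have h20 : ((k : ℝ) / 20) ^ (10 * A + 28)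
        ≤ (((k - r - lm t : ℕ) : ℝ) + 1) ^ (10 * A + 28) := by gcongr
    calc K₀ / (((k - r - lm t : ℕ) : ℝ) + 1) ^ (10 * A + 28)
        ≤ K₀ / ((k : ℝ) / 20) ^ (10 * A + 28) := by gcongr
      _ = K₀ * 20 ^ (10 * A + 28) / (k : ℝ) ^ (10 * A + 28) := by
          rw [div_pow, div_div_eq_mul_div]
  -- sqrt
  have hKpos : 0 < KA A t := by unfold KA; positivity
  have hs : Real.sqrt (5 ^ k / YA A t) ≤ (6 * (k : ℝ) ^ 3) ^ (3 * (A + 2)) := by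
    have e1 : (5 : ℝ) ^ k / YA A t = KA A t ^ 3 := by
      unfold YA; rw [← hk]; field_simp
    rw [e1]
    apply Real.sqrt_le_iff.mpr
    refine ⟨by positivity, ?_⟩
    have e2 : KA A t = (6 ^ LL t) ^ (A + 2) := by
      unfold KA LA; rw [← pow_mul, mul_comm]
    rw [e2]
    calc (((6 : ℝ) ^ LL t) ^ (A + 2)) ^ 3 ≤ ((36 * (k : ℝ) ^ 6) ^ (A + 2)) ^ 3 := by gcongr
      _ = ((6 * (k : ℝ) ^ 3) ^ (3 * (A + 2))) ^ 2 := by
          have e3 : 36 * (k : ℝ) ^ 6 = (6 * (k : ℝ) ^ 3) ^ 2 := by ring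
          rw [e3, ← pow_mul, ← pow_mul, ← pow_mul]
          congr 1; ring
  -- last factor
  have hl : Real.log (Real.exp (2 * t) / Real.exp (t / 2)) = 3 / 2 * t := by
    rw [← Real.exp_sub, Real.log_exp]; ring
  have h5 : (0 : ℝ) < 5 ^ k := by positivity
  have hlast : (5 : ℝ) ^ k * (1 / Real.exp (t / 2)
      + Real.log (Real.exp (2 * t) / Real.exp (t / 2)) / 5 ^ k) ≤ 301 * k := by
    rw [hl, mul_add]
    have e1 : (5 : ℝ) ^ k * (1 / Real.exp (t / 2)) ≤ 1 := by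
      rw [mul_one_div, div_le_one (Real.exp_pos _)]
      exact hexp.trans (Real.exp_le_exp.mpr (by linarith))
    have e2 : (5 : ℝ) ^ k * (3 / 2 * t / 5 ^ k) = 3 / 2 * t := by field_simp
    rw [e2]; nlinarith
  have hlast0 : 0 ≤ (5 : ℝ) ^ k * (1 / Real.exp (t / 2)
      + Real.log (Real.exp (2 * t) / Real.exp (t / 2)) / 5 ^ k) := by
    rw [hl]; positivity
  have hq0 : 0 ≤ K₀ / (((k - r - lm t : ℕ) : ℝ) + 1) ^ (10 * A + 28) := by positivity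
  calc 2 * (((k : ℝ) * LA A t + 1) ^ 2 *
      (5 ^ k * (2 * ((lm t : ℝ) + 1) * ((k : ℝ) * LA A t + 1) ^ 2) *
        (8 * (K₀ / (((k - r - lm t : ℕ) : ℝ) + 1) ^ (10 * A + 28)) *
          Real.sqrt (5 ^ k / YA A t))) *
      (1 / Real.exp (t / 2) + Real.log (Real.exp (2 * t) / Real.exp (t / 2)) / 5 ^ k))
      = 2 * (((k : ℝ) * LA A t + 1) ^ 2 *
        ((2 * ((lm t : ℝ) + 1) * ((k : ℝ) * LA A t + 1) ^ 2) *
        (8 * (K₀ / (((k - r - lm t : ℕ) : ℝ) + 1) ^ (10 * A + 28)) *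
          Real.sqrt (5 ^ k / YA A t)))) *
        (5 ^ k * (1 / Real.exp (t / 2)
          + Real.log (Real.exp (2 * t) / Real.exp (t / 2)) / 5 ^ k)) := by ring
    _ ≤ 2 * ((5 * ((A : ℝ) + 2) * (k : ℝ) ^ 2) ^ 2 *
        ((2 * (2 * k) * (5 * ((A : ℝ) + 2) * (k : ℝ) ^ 2) ^ 2) *
        (8 * (K₀ * 20 ^ (10 * A + 28) / (k : ℝ) ^ (10 * A + 28)) *
          (6 * (k : ℝ) ^ 3) ^ (3 * (A + 2))))) * (301 * k) := by
        gcongr
    _ = 2 * (25 * ((A : ℝ) + 2) ^ 2 * (4 * (25 * ((A : ℝ) + 2) ^ 2) *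
        (8 * (K₀ * 20 ^ (10 * A + 28)) * 6 ^ (3 * (A + 2))))) * 301 * (1 / (k : ℝ) ^ A) := by
        have e1 : (6 * (k : ℝ) ^ 3) ^ (3 * (A + 2)) = 6 ^ (3 * (A + 2)) * (k : ℝ) ^ (9 * A + 18) := by
          rw [mul_pow, ← pow_mul]; congr 2; ring
        have e2 : (k : ℝ) ^ (10 * A + 28) = (k : ℝ) ^ (9 * A + 18) * ((k : ℝ) ^ 10 * (k : ℝ) ^ A) := by
          rw [← pow_add, ← pow_add]; congr 1; ring
        rw [e1, e2]
        field_simp
        ring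
    _ ≤ 2 * (25 * ((A : ℝ) + 2) ^ 2 * (4 * (25 * ((A : ℝ) + 2) ^ 2) *
        (8 * (K₀ * 20 ^ (10 * A + 28)) * 6 ^ (3 * (A + 2))))) * 301 * (200 ^ A / t ^ A) := by
        gcongr
    _ = _ := by ring

end K5.ID
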