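import Pool.Agent.Lib.MP_a4658c_nt.ID.Stm
import Pool.Agent.Lib.MP_a4658c_nt.K5.S2
import Pool.Agent.Lib.MP_a4658c_nt.K5.S3

/-!
MP_a4658c_nt, PROP: propagation of an upper bound from a window to everything above it.
-/

set_option autoImplicit false

namespace K5.ID

open K5

/-- one application of the transfer inequality -/
private lemma pr_step (A : ℕ) (t₀ C : ℝ) (h : Bool → ℝ → ℝ) (hTI : TI A t₀ C h)
    (h3 : ∀ c t, h c t ≤ 3) (s₀ t b : ℝ) (ht0 : t₀ ≤ t)
    (hb : 0 ≤ b) (hw : ∀ c s, s₀ ≤ s → s ≤ t - 1 → h c s ≤ b) (r : ℕ) (hr : r ≤ rr t)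
    (c' : Bool) :
    h c' t ≤ b + 18 * Real.exp 1 * 0.81 ^ r
      + 6 * (5 ^ r / Real.sqrt (5 ^ r * Real.exp (t - s₀))) + C / t ^ A := by
  have h1 := hTI t ht0 r hr c'
  set Λ := LA A t with hΛ
  set Y : ℝ := Real.exp 1 * 5 ^ r with hY
  set E : ℝ := 5 ^ r * Real.exp (t - s₀) with hE
  have hYpos : 0 < Y := by positivity
  have hEpos : 0 < E := by positivity
  have h5 : (0 : ℝ) < 5 ^ r := by positivity
  have hterm : ∀ c₁ : Bool, ∀ w : List Let,
      1 / (D w : ℝ) * h c₁ (t + r * Real.log 5 - Real.log (D w)) ≤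
        1 / (D w : ℝ) * b + (if (D w : ℝ) ≤ Y then 3 * (1 / (D w : ℝ)) else 0)
          + (if E < (D w : ℝ) then 3 * (1 / (D w : ℝ)) else 0) := by
    intro c₁ w
    have hd : (0 : ℝ) < D w := by exact_mod_cast D_pos w
    have hd' : (0 : ℝ) < 1 / (D w : ℝ) := by positivity
    have hs : (0 : ℝ) ≤ if (D w : ℝ) ≤ Y then 3 * (1 / (D w : ℝ)) else 0 := by
      split_ifs <;> positivity
    have hl : (0 : ℝ) ≤ if E < (D w : ℝ) then 3 * (1 / (D w : ℝ)) else 0 := by
      split_ifs <;> positivity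
    have hbd : 0 ≤ 1 / (D w : ℝ) * b := by positivity
    have hh3 : 1 / (D w : ℝ) * h c₁ (t + r * Real.log 5 - Real.log (D w)) ≤
        3 * (1 / (D w : ℝ)) := by
      rw [mul_comm 3]
      exact mul_le_mul_of_nonneg_left (h3 _ _) hd'.le
    by_cases c1 : (D w : ℝ) ≤ Y
    · rw [if_pos c1]; linarith
    · by_cases c2 : E < (D w : ℝ)
      · rw [if_pos c2]; linarith
      · rw [if_neg c1, if_neg c2, add_zero, add_zero]
        refine mul_le_mul_of_nonneg_left (hw _ _ ?_ ?_) hd'.le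
        · push Not at c2
          have := Real.log_le_log hd c2
          rw [hE, Real.log_mul h5.ne' (Real.exp_pos _).ne', Real.log_exp, Real.log_pow] at this
          linarith
        · push Not at c1
          have := Real.log_lt_log hYpos c1
          rw [hY, Real.log_mul (Real.exp_pos _).ne' h5.ne', Real.log_exp, Real.log_pow] at this
          linarith
  have hcol := col_le Λ r c'
  have hsm : ∀ c₁ : Bool, ∑ w ∈ W Λ r c₁, (if (D w : ℝ) ≤ Y then 3 * (1 / (D w : ℝ)) else 0) ≤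
      9 * Real.exp 1 * 0.81 ^ r := by
    intro c₁
    have h2 := mass_small Λ r r le_rfl c₁ hYpos.le
    have h3' : (W Λ r c₁).filter (fun w => (D (w.take r) : ℝ) ≤ Y) =
        (W Λ r c₁).filter (fun w => (D w : ℝ) ≤ Y) := by
      refine Finset.filter_congr fun w hw => ?_
      rw [List.take_of_length_le (length_of_mem_W hw).le]
    rw [h3'] at h2
    rw [← Finset.sum_filter, ← Finset.mul_sum]
    calc 3 * ∑ w ∈ (W Λ r c₁).filter (fun w => (D w : ℝ) ≤ Y), 1 / (D w : ℝ)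
        ≤ 3 * (3 * Y * (0.81 / 5) ^ r) := by linarith
      _ = 9 * Real.exp 1 * 0.81 ^ r := by
        rw [hY, div_pow]
        field_simp
        ring
  have hlg : ∀ c₁ : Bool, ∑ w ∈ W Λ r c₁, (if E < (D w : ℝ) then 3 * (1 / (D w : ℝ)) else 0) ≤
      3 * (5 ^ r / Real.sqrt E) := by
    intro c₁
    have h2 := mass_large Λ r c₁ hEpos
    rw [← Finset.sum_filter, ← Finset.mul_sum]
    linarith
  have hmain : ∑ c₁ : Bool, ∑ w ∈ (W Λ r c₁).filter
      (fun w => endc c₁ w = c' ∧ (D w : ℝ) ≤ Real.exp (t / 4)),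
      1 / (D w : ℝ) * h c₁ (t + r * Real.log 5 - Real.log (D w)) ≤
      b + 18 * Real.exp 1 * 0.81 ^ r + 6 * (5 ^ r / Real.sqrt E) := by
    have hin : ∀ c₁ : Bool, ∑ w ∈ (W Λ r c₁).filter
        (fun w => endc c₁ w = c' ∧ (D w : ℝ) ≤ Real.exp (t / 4)),
        1 / (D w : ℝ) * h c₁ (t + r * Real.log 5 - Real.log (D w)) ≤
        b * ∑ w ∈ (W Λ r c₁).filter (fun w => endc c₁ w = c'), 1 / (D w : ℝ)
          + 9 * Real.exp 1 * 0.81 ^ r + 3 * (5 ^ r / Real.sqrt E) := by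
      intro c₁
      have hsub1 : (W Λ r c₁).filter
          (fun w => endc c₁ w = c' ∧ (D w : ℝ) ≤ Real.exp (t / 4)) ⊆
          (W Λ r c₁).filter (fun w => endc c₁ w = c') := by
        intro w hw
        rw [Finset.mem_filter] at hw ⊢
        exact ⟨hw.1, hw.2.1⟩
      refine (Finset.sum_le_sum fun w _ => hterm c₁ w).trans ?_
      rw [Finset.sum_add_distrib, Finset.sum_add_distrib]
      refine add_le_add (add_le_add ?_ ?_) ?_
      · rw [← Finset.sum_mul, mul_comm]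
        refine mul_le_mul_of_nonneg_left ?_ hb
        exact Finset.sum_le_sum_of_subset_of_nonneg hsub1 fun w _ _ => by positivity
      · refine le_trans ?_ (hsm c₁)
        refine Finset.sum_le_sum_of_subset_of_nonneg (Finset.filter_subset _ _) fun w _ _ => ?_
        split_ifs <;> positivity
      · refine le_trans ?_ (hlg c₁)
        refine Finset.sum_le_sum_of_subset_of_nonneg (Finset.filter_subset _ _) fun w _ _ => ?_
        split_ifs <;> positivity
    refine (Finset.sum_le_sum fun c₁ _ => hin c₁).trans ?_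
    rw [Finset.sum_add_distrib, Finset.sum_add_distrib, ← Finset.mul_sum]
    have h6 : b * ∑ c₁ : Bool, ∑ w ∈ (W Λ r c₁).filter (fun w => endc c₁ w = c'),
        1 / (D w : ℝ) ≤ b := by
      calc _ ≤ b * 1 := mul_le_mul_of_nonneg_left hcol hb
        _ = b := mul_one b
    simp only [Finset.sum_const, Finset.card_univ, Fintype.card_bool, nsmul_eq_mul]
    push_cast
    linarith
  linarith

private lemma pr_81 (r : ℕ) : (0.81 : ℝ) ^ r ≤ Real.exp (-(0.19 * r)) := by
  have h1 : (0.81 : ℝ) ≤ Real.exp (-0.19) := by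
    have := Real.add_one_le_exp (-0.19 : ℝ)
    norm_num at this ⊢
    linarith
  calc (0.81 : ℝ) ^ r ≤ (Real.exp (-0.19)) ^ r := pow_le_pow_left₀ (by norm_num) h1 r
    _ = Real.exp (-(0.19 * r)) := by
      rw [← Real.exp_nat_mul]
      congr 1
      ring

private lemma pr_log5 : Real.log 5 ≤ 1.64 := by
  have h1 : 3 * Real.log 5 ≤ 7 * Real.log 2 := by
    have e1 : 3 * Real.log 5 = Real.log ((5 : ℝ) ^ 3) := by rw [Real.log_pow]; norm_num
    have e2 : 7 * Real.log 2 = Real.log ((2 : ℝ) ^ 7) := by rw [Real.log_pow]; norm_num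
    rw [e1, e2]
    exact Real.log_le_log (by norm_num) (by norm_num)
  have h2 := Real.log_two_lt_d9
  norm_num at h2 ⊢
  linarith

private lemma pr_large (r : ℕ) (u : ℝ) (hu : 0 ≤ u) (hr : (r : ℝ) ≤ u / 2) :
    (5 : ℝ) ^ r / Real.sqrt (5 ^ r * Real.exp u) ≤ Real.exp (-(0.09 * u)) := by
  have h5 : (5 : ℝ) ^ r = Real.exp (r * Real.log 5) := by
    rw [Real.exp_nat_mul, Real.exp_log (by norm_num)]
  have hs : Real.sqrt (5 ^ r * Real.exp u) = Real.exp ((r * Real.log 5 + u) / 2) := by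
    rw [h5, ← Real.exp_add, Real.exp_half]
  rw [hs, h5, ← Real.exp_sub]
  apply Real.exp_le_exp.2
  have h1 := pr_log5
  have h2 : (0 : ℝ) ≤ Real.log 5 := Real.log_nonneg (by norm_num)
  have h3 : (r : ℝ) * Real.log 5 ≤ u / 2 * 1.64 :=
    mul_le_mul hr h1 h2 (by linarith)
  linarith

private lemma pr_rr (t : ℝ) : t / 2000 - 1 ≤ (rr t : ℝ) := by
  have h1 : t / 100 < (kk t : ℝ) + 1 := Nat.lt_floor_add_one _
  have h2 : kk t < 20 * (rr t + 1) := by
    unfold rr
    omega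
  have h3 : (kk t : ℝ) + 1 ≤ 20 * ((rr t : ℝ) + 1) := by exact_mod_cast h2
  linarith

/-- the step with the chosen `r` -/
private lemma pr_step' (A : ℕ) (t₀ C : ℝ) (h : Bool → ℝ → ℝ) (hTI : TI A t₀ C h)
    (h3 : ∀ c t, h c t ≤ 3) (s₀ t b : ℝ) (ht0 : t₀ ≤ t) (hst : s₀ ≤ t) (ht : 0 ≤ t)
    (hb : 0 ≤ b) (hw : ∀ c s, s₀ ≤ s → s ≤ t - 1 → h c s ≤ b) (c' : Bool) :
    h c' t ≤ b + 500 * Real.exp (-(0.09 * (t - s₀))) + 500 * Real.exp (-(0.00009 * t))
      + C / t ^ A := by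
  set u := t - s₀ with hu
  have hu0 : 0 ≤ u := by rw [hu]; linarith
  set r := min ⌊u / 2⌋₊ (rr t) with hr
  have h1 := pr_step A t₀ C h hTI h3 s₀ t b ht0 hb hw r (min_le_right _ _) c'
  have hr2 : (r : ℝ) ≤ u / 2 := by
    have h2 : (⌊u / 2⌋₊ : ℝ) ≤ u / 2 := Nat.floor_le (by linarith)
    have h4 : (r : ℝ) ≤ (⌊u / 2⌋₊ : ℝ) := by exact_mod_cast min_le_left _ _
    linarith
  have hl := pr_large r u hu0 hr2
  have he1 : Real.exp 1 ≤ 3 := by
    have := Real.exp_one_lt_d9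
    norm_num at this ⊢
    linarith
  have he2 : Real.exp 0.19 ≤ 3 := by
    refine (Real.exp_le_exp.2 ?_).trans he1
    norm_num
  have hs : (0.81 : ℝ) ^ r ≤ 3 * Real.exp (-(0.09 * u)) + 3 * Real.exp (-(0.00009 * t)) := by
    have hp1 := Real.exp_pos (-(0.09 * u))
    have hp2 := Real.exp_pos (-(0.00009 * t))
    rcases min_choice ⌊u / 2⌋₊ (rr t) with hc | hc
    · have h2 : u / 2 - 1 < (r : ℝ) := by
        rw [hr, hc]
        have := Nat.lt_floor_add_one (u / 2)
        linarith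
      calc (0.81 : ℝ) ^ r ≤ Real.exp (-(0.19 * r)) := pr_81 r
        _ ≤ Real.exp (0.19 + -(0.09 * u)) := by
          apply Real.exp_le_exp.2
          linarith
        _ = Real.exp 0.19 * Real.exp (-(0.09 * u)) := Real.exp_add _ _
        _ ≤ 3 * Real.exp (-(0.09 * u)) := mul_le_mul_of_nonneg_right he2 hp1.le
        _ ≤ _ := by linarith
    · have h2 : t / 2000 - 1 ≤ (r : ℝ) := by
        rw [hr, hc]
        exact pr_rr t
      calc (0.81 : ℝ) ^ r ≤ Real.exp (-(0.19 * r)) := pr_81 r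
        _ ≤ Real.exp (0.19 + -(0.00009 * t)) := by
          apply Real.exp_le_exp.2
          linarith
        _ = Real.exp 0.19 * Real.exp (-(0.00009 * t)) := Real.exp_add _ _
        _ ≤ 3 * Real.exp (-(0.00009 * t)) := mul_le_mul_of_nonneg_right he2 hp2.le
        _ ≤ _ := by linarith
  have hp1 := Real.exp_pos (-(0.09 * u))
  have hp2 := Real.exp_pos (-(0.00009 * t))
  have h5 : 18 * Real.exp 1 * (0.81 : ℝ) ^ r ≤
      54 * (3 * Real.exp (-(0.09 * u)) + 3 * Real.exp (-(0.00009 * t))) := by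
    have h6 : (0 : ℝ) ≤ 0.81 ^ r := by positivity
    calc 18 * Real.exp 1 * (0.81 : ℝ) ^ r ≤ 54 * (0.81 : ℝ) ^ r := by
          apply mul_le_mul_of_nonneg_right _ h6
          linarith
      _ ≤ _ := by linarith
  linarith

private lemma pr_tel (x q : ℝ) (hq : 0 < q) :
    Real.exp (-(q * x)) =
      (1 / (1 - Real.exp (-q))) * (Real.exp (-(q * x)) - Real.exp (-(q * (x + 1)))) := by
  have h1 : Real.exp (-q) < 1 := by
    rw [Real.exp_lt_one_iff]
    linarith
  have h2 : (1 : ℝ) - Real.exp (-q) ≠ 0 := by linarith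
  have h3 : Real.exp (-(q * (x + 1))) = Real.exp (-(q * x)) * Real.exp (-q) := by
    rw [← Real.exp_add]
    congr 1
    ring
  rw [h3]
  field_simp

private lemma pr_key1 (x a b c : ℝ) (ha : 0 < a) (hb : 0 < b) (hc : 0 ≤ c) :
    x ≤ x + 500 * a + 500 * b + c := by linarith

private lemma pr_key2 (y x a b c a' b' c' : ℝ) (h : y ≤ x + 500 * a + 500 * b + c) (ha : a ≤ a')
    (hb : b ≤ b') (hc : c ≤ c') : y ≤ x + 500 * a' + 500 * b' + c' := by linarith

private lemma pr_key3 (β x1 x2 x3 y1 y2 y3 z w : ℝ) (h1 : x1 ≤ y1) (h2 : x2 ≤ y2) (h3 : x3 ≤ y3)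
    (h4 : y1 ≤ z) (h5 : y2 + y3 ≤ w) : β + x1 + x2 + x3 ≤ β + z + w := by linarith

theorem propagate : Propagate := by
  intro A hA
  set q₁ : ℝ := 0.09 with hq₁
  set q₂ : ℝ := 0.00009 with hq₂
  have q1pos : (0 : ℝ) < q₁ := by rw [hq₁]; norm_num
  have q2pos : (0 : ℝ) < q₂ := by rw [hq₂]; norm_num
  set G₁ : ℝ := 1 / (1 - Real.exp (-q₁)) with hG₁
  set G₂ : ℝ := 1 / (1 - Real.exp (-q₂)) with hG₂
  have hG1 : 0 < G₁ := by
    have : Real.exp (-q₁) < 1 := by rw [Real.exp_lt_one_iff]; linarith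
    rw [hG₁]
    apply one_div_pos.2
    linarith
  have hG2 : 0 < G₂ := by
    have : Real.exp (-q₂) < 1 := by rw [Real.exp_lt_one_iff]; linarith
    rw [hG₂]
    apply one_div_pos.2
    linarith
  set M : ℝ := (A.factorial : ℝ) / q₂ ^ A with hM
  have hMpos : 0 < M := by
    have : (0 : ℝ) < A.factorial := by exact_mod_cast A.factorial_pos
    positivity
  refine ⟨500 * G₁ + 500 * G₂ * M + 2, q₁, 1, by positivity, q1pos, le_rfl, ?_⟩
  intro t₀ C h hC hTI h0 h3 s₀ l β hts hTs hTl hβ hwin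
  have hs1 : (1 : ℝ) ≤ s₀ := hTs
  have hs0 : (0 : ℝ) < s₀ := by linarith
  -- the majorant
  set B : ℕ → ℝ := fun n => β
    + 500 * G₁ * (Real.exp (-(q₁ * l)) - Real.exp (-(q₁ * (l + n))))
    + 500 * G₂ * (Real.exp (-(q₂ * s₀)) - Real.exp (-(q₂ * (s₀ + n))))
    + C / s₀ ^ (A - 1) * (1 / (s₀ - 1 / 2) - 1 / (s₀ + n - 1 / 2)) with hB
  have hB0 : B 0 = β := by
    simp [hB]
  have hstep : ∀ n : ℕ, B (n + 1) = B n + 500 * Real.exp (-(q₁ * (l + n)))
      + 500 * Real.exp (-(q₂ * (s₀ + n)))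
      + C / s₀ ^ (A - 1) * (1 / (s₀ + n - 1 / 2) - 1 / (s₀ + n + 1 / 2)) := by
    intro n
    have e1 := pr_tel (l + n) q₁ q1pos
    have e2 := pr_tel (s₀ + n) q₂ q2pos
    rw [← hG₁] at e1
    rw [← hG₂] at e2
    have e3 : (l + ((n + 1 : ℕ) : ℝ)) = l + n + 1 := by push_cast; ring
    have e4 : (s₀ + ((n + 1 : ℕ) : ℝ)) = s₀ + n + 1 := by push_cast; ring
    have e5 : s₀ + (n : ℝ) + 1 - 1 / 2 = s₀ + n + 1 / 2 := by ring
    simp only [hB, e3, e4, e5]
    generalize Real.exp (-(q₁ * (l + (n : ℝ)))) = a1 at *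
    generalize Real.exp (-(q₁ * (l + (n : ℝ) + 1))) = a2 at *
    generalize Real.exp (-(q₂ * (s₀ + (n : ℝ)))) = b1 at *
    generalize Real.exp (-(q₂ * (s₀ + (n : ℝ) + 1))) = b2 at *
    linear_combination (-500) * e1 + (-500) * e2
  have hn0 : ∀ n : ℕ, (0 : ℝ) ≤ n := fun n => Nat.cast_nonneg n
  have hinc : ∀ n : ℕ, 0 ≤ C / s₀ ^ (A - 1) *
      (1 / (s₀ + n - 1 / 2) - 1 / (s₀ + n + 1 / 2)) := by
    intro n
    have := hn0 n
    apply mul_nonneg (by positivity)
    have h1 : (0 : ℝ) < s₀ + n - 1 / 2 := by linarith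
    have h2 : 1 / (s₀ + n + 1 / 2) ≤ 1 / (s₀ + n - 1 / 2) :=
      one_div_le_one_div_of_le h1 (by linarith)
    linarith
  have hmono : ∀ n : ℕ, B n ≤ B (n + 1) := by
    intro n
    rw [hstep n]
    exact pr_key1 _ _ _ _ (Real.exp_pos _) (Real.exp_pos _) (hinc n)
  have hBpos : ∀ n : ℕ, 0 ≤ B n := by
    intro n
    induction n with
    | zero => rw [hB0]; exact hβ
    | succ n ih => exact ih.trans (hmono n)
  -- the induction
  have hind : ∀ n : ℕ, ∀ c s, s₀ ≤ s → s ≤ s₀ + l + n → h c s ≤ B n := by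
    intro n
    induction n with
    | zero =>
      intro c s h1 h2
      rw [hB0]
      exact hwin c s h1 (by simpa using h2)
    | succ n ih =>
      intro c s h1 h2
      by_cases hc : s ≤ s₀ + l + n
      · exact (ih c s h1 hc).trans (hmono n)
      · push Not at hc
        have hn := hn0 n
        have h4 := pr_step' (A + 1) t₀ C h hTI h3 s₀ s (B n) (by linarith) h1 (by linarith)
          (hBpos n) (fun c s' h5 h6 => ih c s' h5 (by push_cast at h2; linarith)) c
        rw [hstep n]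
        have g1 : Real.exp (-(0.09 * (s - s₀))) ≤ Real.exp (-(q₁ * (l + n))) := by
          apply Real.exp_le_exp.2
          rw [← hq₁]
          have : q₁ * (l + n) ≤ q₁ * (s - s₀) :=
            mul_le_mul_of_nonneg_left (by linarith) q1pos.le
          linarith
        have g2 : Real.exp (-(0.00009 * s)) ≤ Real.exp (-(q₂ * (s₀ + n))) := by
          apply Real.exp_le_exp.2
          rw [← hq₂]
          have : q₂ * (s₀ + n) ≤ q₂ * s :=
            mul_le_mul_of_nonneg_left (by linarith) q2pos.le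
          linarith
        have g3 : C / s ^ (A + 1) ≤ C / s₀ ^ (A - 1) *
            (1 / (s₀ + n - 1 / 2) - 1 / (s₀ + n + 1 / 2)) := by
          have k1 : (0 : ℝ) < s₀ + n - 1 / 2 := by linarith
          have k2 : (0 : ℝ) < s₀ + n + 1 / 2 := by linarith
          have k3 : (0 : ℝ) < s₀ + n := by linarith
          have k4 : 1 / (s₀ + n) ^ 2 ≤ 1 / (s₀ + n - 1 / 2) - 1 / (s₀ + n + 1 / 2) := by
            rw [div_sub_div _ _ k1.ne' k2.ne', div_le_div_iff₀ (by positivity) (by positivity)]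
            nlinarith
          have k5 : s₀ ^ (A - 1) * (s₀ + n) ^ 2 ≤ s ^ (A + 1) := by
            calc s₀ ^ (A - 1) * (s₀ + n) ^ 2 ≤ s ^ (A - 1) * s ^ 2 := by
                  apply mul_le_mul
                  · exact pow_le_pow_left₀ hs0.le h1 _
                  · exact pow_le_pow_left₀ k3.le (by linarith) _
                  · positivity
                  · exact pow_nonneg (by linarith) _
              _ = s ^ (A + 1) := by
                rw [← pow_add]
                congr 1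
                omega
          calc C / s ^ (A + 1) ≤ C / (s₀ ^ (A - 1) * (s₀ + n) ^ 2) := by
                apply div_le_div_of_nonneg_left hC (by positivity) k5
            _ = C / s₀ ^ (A - 1) * (1 / (s₀ + n) ^ 2) := by
              rw [div_mul_div_comm, mul_one]
            _ ≤ _ := mul_le_mul_of_nonneg_left k4 (by positivity)
        exact pr_key2 _ _ _ _ _ _ _ _ h4 g1 g2 g3
  -- conclusion
  intro c s hs
  obtain ⟨n, hn⟩ := exists_nat_ge (s - s₀ - l)
  have h4 := hind n c s hs (by linarith)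
  refine h4.trans ?_
  have hn' := hn0 n
  have p1 := Real.exp_pos (-(q₁ * (l + (n : ℝ))))
  have p2 := Real.exp_pos (-(q₂ * (s₀ + (n : ℝ))))
  have p3 := Real.exp_pos (-(q₁ * l))
  have p4 := Real.exp_pos (-(q₂ * s₀))
  have hsA : (0 : ℝ) < s₀ ^ A := by positivity
  have e1 : 500 * G₁ * (Real.exp (-(q₁ * l)) - Real.exp (-(q₁ * (l + n)))) ≤
      500 * G₁ * Real.exp (-(q₁ * l)) :=
    mul_le_mul_of_nonneg_left (by linarith) (by positivity)
  have e2 : 500 * G₂ * (Real.exp (-(q₂ * s₀)) - Real.exp (-(q₂ * (s₀ + n)))) ≤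
      500 * G₂ * (M / s₀ ^ A) := by
    refine mul_le_mul_of_nonneg_left ?_ (by positivity)
    have k1 : Real.exp (-(q₂ * s₀)) ≤ M / s₀ ^ A := by
      have k2 := Real.pow_div_factorial_le_exp (q₂ * s₀) (by positivity) A
      have hf : (0 : ℝ) < A.factorial := by exact_mod_cast A.factorial_pos
      rw [Real.exp_neg, hM, div_div, ← mul_pow, ← inv_div]
      exact inv_anti₀ (by positivity) k2
    exact (sub_le_self _ p2.le).trans k1
  have e3 : C / s₀ ^ (A - 1) * (1 / (s₀ - 1 / 2) - 1 / (s₀ + n - 1 / 2)) ≤ 2 * C / s₀ ^ A := by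
    have k1 : (0 : ℝ) < s₀ + n - 1 / 2 := by linarith
    have k2 : 1 / (s₀ - 1 / 2) - 1 / (s₀ + n - 1 / 2) ≤ 2 / s₀ := by
      have k3 : (0 : ℝ) < 1 / (s₀ + n - 1 / 2) := by positivity
      have k4 : 1 / (s₀ - 1 / 2) ≤ 2 / s₀ := by
        rw [div_le_div_iff₀ (by linarith) hs0]
        linarith
      linarith
    calc C / s₀ ^ (A - 1) * (1 / (s₀ - 1 / 2) - 1 / (s₀ + n - 1 / 2))
        ≤ C / s₀ ^ (A - 1) * (2 / s₀) := mul_le_mul_of_nonneg_left k2 (by positivity)
      _ = 2 * C / s₀ ^ A := by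
        obtain ⟨a, rfl⟩ : ∃ a, A = a + 1 := ⟨A - 1, by omega⟩
        rw [Nat.add_sub_cancel, pow_succ]
        field_simp
  have e4 : (500 * G₁ + 500 * G₂ * M + 2) * Real.exp (-(q₁ * l)) ≥
      500 * G₁ * Real.exp (-(q₁ * l)) := by
    apply mul_le_mul_of_nonneg_right _ p3.le
    have : 0 ≤ 500 * G₂ * M := by positivity
    linarith
  have e5 : 500 * G₂ * (M / s₀ ^ A) + 2 * C / s₀ ^ A ≤
      (500 * G₁ + 500 * G₂ * M + 2) * (C + 1) / s₀ ^ A := by
    have : 500 * G₂ * (M / s₀ ^ A) + 2 * C / s₀ ^ A = (500 * G₂ * M + 2 * C) / s₀ ^ A := by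
      ring
    rw [this]
    apply div_le_div_of_nonneg_right _ hsA.le
    have k1 : 0 ≤ 500 * G₂ * M := by positivity
    nlinarith [mul_nonneg k1 hC, mul_nonneg hG1.le hC]
  exact pr_key3 _ _ _ _ _ _ _ _ _ e1 e2 e3 e4 e5

end K5.ID
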