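import Pool.Agent.Lib.MP_a4658c_nt.ID.Stm
import Pool.Agent.Lib.MP_a4658c_nt.K5.K1

/-! Piece TAUB: from the smoothed density to the natural density. -/

set_option autoImplicit false

open Filter Topology

namespace K5.ID

open K5

/-- three ranges for the difference of two kernels -/
private lemma ker_diff_lower {x l : ℝ} (hx : 0 < x) (hl : 1 < l) (n : ℕ) (hn : 1 ≤ n) :
    (if (n : ℝ) ≤ x then (1 - (l ^ 2)⁻¹) / x else 0) ≤ ker x n - ker (l * x) n / l := by
  have hl0 : 0 < l := by linarith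
  have hn0 : (0 : ℝ) < n := by exact_mod_cast hn
  have hlx : 0 < l * x := by positivity
  have hk2 : ker (l * x) n ≤ 1 / (l * x) := min_le_left _ _
  have hk3 : ker (l * x) n ≤ (l * x) / (n : ℝ) ^ 2 := min_le_right _ _
  split_ifs with h
  · have hk1 : ker x n = 1 / x := by
      unfold ker
      apply min_eq_left
      rw [div_le_div_iff₀ hx (by positivity)]
      nlinarith
    rw [hk1]
    have : ker (l * x) n / l ≤ 1 / (l * x) / l := div_le_div_of_nonneg_right hk2 hl0.le
    have e : (1 - (l ^ 2)⁻¹) / x = 1 / x - 1 / (l * x) / l := by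
      field_simp
    rw [e]
    linarith
  · push Not at h
    have hk1 : ker x n = x / (n : ℝ) ^ 2 := by
      unfold ker
      apply min_eq_right
      rw [div_le_div_iff₀ (by positivity) hx]
      nlinarith
    rw [hk1]
    have : ker (l * x) n / l ≤ (l * x) / (n : ℝ) ^ 2 / l := div_le_div_of_nonneg_right hk3 hl0.le
    have e : (l * x) / (n : ℝ) ^ 2 / l = x / (n : ℝ) ^ 2 := by
      field_simp
    rw [e] at this
    linarith

private lemma ker_diff_upper {x l : ℝ} (hx : 0 < x) (hl : 1 < l) (n : ℕ) (hn : 1 ≤ n) :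
    ker x n - ker (l * x) n / l ≤ (if (n : ℝ) ≤ l * x then (1 - (l ^ 2)⁻¹) / x else 0) := by
  have hl0 : 0 < l := by linarith
  have hn0 : (0 : ℝ) < n := by exact_mod_cast hn
  have hlx : 0 < l * x := by positivity
  split_ifs with h
  · have hk1 : ker (l * x) n = 1 / (l * x) := by
      unfold ker
      apply min_eq_left
      rw [div_le_div_iff₀ hlx (by positivity)]
      nlinarith
    have hk2 : ker x n ≤ 1 / x := min_le_left _ _
    rw [hk1]
    have e : (1 - (l ^ 2)⁻¹) / x = 1 / x - 1 / (l * x) / l := by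
      field_simp
    rw [e]
    linarith
  · push Not at h
    have hk1 : ker (l * x) n = (l * x) / (n : ℝ) ^ 2 := by
      unfold ker
      apply min_eq_right
      rw [div_le_div_iff₀ (by positivity) hlx]
      nlinarith
    have hk2 : ker x n ≤ x / (n : ℝ) ^ 2 := min_le_right _ _
    rw [hk1]
    have e : (l * x) / (n : ℝ) ^ 2 / l = x / (n : ℝ) ^ 2 := by
      field_simp
    rw [e]
    linarith

open Classical in
private noncomputable def tQ (Q : ℕ → Prop) (x : ℝ) (n : ℕ) : ℝ :=
  if 1 ≤ n ∧ Q n then ker x n else 0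

private lemma tQ_summable (Q : ℕ → Prop) {x : ℝ} (hx : 0 < x) : Summable (tQ Q x) := by
  have h1 : Summable (fun n : ℕ => x * (1 / (n : ℝ) ^ 2)) :=
    (Real.summable_one_div_nat_pow.2 (by norm_num)).mul_left x
  refine Summable.of_nonneg_of_le (fun n => ?_) (fun n => ?_) h1
  · unfold tQ
    split_ifs
    · exact ker_nonneg hx n
    · exact le_rfl
  · unfold tQ
    split_ifs
    · have : ker x n ≤ x / (n : ℝ) ^ 2 := min_le_right _ _
      rw [mul_one_div]
      exact this
    · positivity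

private lemma tQ_diff (Q : ℕ → Prop) {x l : ℝ} (hx : 0 < x) (hl : 1 < l) :
    ∑' n, tQ Q x n - (∑' n, tQ Q (l * x) n) / l = ∑' n, (tQ Q x n - tQ Q (l * x) n / l) := by
  have hlx : 0 < l * x := by positivity
  rw [Summable.tsum_sub (tQ_summable Q hx) ((tQ_summable Q hlx).div_const l), tsum_div_const]

open Classical in
private lemma cnt_eq (Q : ℕ → Prop) (N : ℕ) (k : ℝ) :
    ∑' n : ℕ, (if 1 ≤ n ∧ Q n ∧ n ≤ N then k else 0) =
      (((Finset.Icc 1 N).filter (fun n => Q n)).card : ℝ) * k := by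
  rw [tsum_eq_sum (s := (Finset.Icc 1 N).filter (fun n => Q n))]
  · rw [Finset.sum_congr rfl (g := fun _ => k)]
    · rw [Finset.sum_const, nsmul_eq_mul]
    · intro n hn
      rw [Finset.mem_filter, Finset.mem_Icc] at hn
      rw [if_pos ⟨hn.1.1, hn.2, hn.1.2⟩]
  · intro n hn
    rw [if_neg]
    rintro ⟨h1, h2, h3⟩
    exact hn (by rw [Finset.mem_filter, Finset.mem_Icc]; exact ⟨⟨h1, h3⟩, h2⟩)

open Classical in
private lemma cnt_summable (Q : ℕ → Prop) (N : ℕ) (k : ℝ) :
    Summable (fun n : ℕ => if 1 ≤ n ∧ Q n ∧ n ≤ N then k else 0) := by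
  apply summable_of_ne_finset_zero (s := (Finset.Icc 1 N).filter (fun n => Q n))
  intro n hn
  rw [if_neg]
  rintro ⟨h1, h2, h3⟩
  exact hn (by rw [Finset.mem_filter, Finset.mem_Icc]; exact ⟨⟨h1, h3⟩, h2⟩)

open Classical in
private lemma low_bd (Q : ℕ → Prop) {N : ℕ} (hN : 1 ≤ N) {l : ℝ} (hl : 1 < l) :
    (((Finset.Icc 1 N).filter (fun n => Q n)).card : ℝ) * ((1 - (l ^ 2)⁻¹) / N) ≤
      ∑' n, tQ Q (N : ℝ) n - (∑' n, tQ Q (l * N) n) / l := by
  have hN0 : (0 : ℝ) < N := by exact_mod_cast hN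
  have hlx : 0 < l * (N : ℝ) := by positivity
  rw [tQ_diff Q hN0 hl, ← cnt_eq]
  refine Summable.tsum_le_tsum (fun n => ?_) (cnt_summable Q N _)
    ((tQ_summable Q hN0).sub ((tQ_summable Q hlx).div_const l))
  unfold tQ
  by_cases h : 1 ≤ n ∧ Q n
  · rw [if_pos h, if_pos h]
    have := ker_diff_lower hN0 hl n h.1
    have e : (if 1 ≤ n ∧ Q n ∧ n ≤ N then (1 - (l ^ 2)⁻¹) / (N : ℝ) else 0) =
        (if (n : ℝ) ≤ (N : ℝ) then (1 - (l ^ 2)⁻¹) / (N : ℝ) else 0) := by
      congr 1
      rw [Nat.cast_le, eq_iff_iff]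
      exact ⟨fun a => a.2.2, fun a => ⟨h.1, h.2, a⟩⟩
    rw [e]
    exact this
  · rw [if_neg h, if_neg h, if_neg (fun a => h ⟨a.1, a.2.1⟩)]
    simp

open Classical in
private lemma upp_bd (Q : ℕ → Prop) {N : ℕ} (hN : 1 ≤ N) {l : ℝ} (hl : 1 < l) :
    ∑' n, tQ Q (l⁻¹ * N) n - (∑' n, tQ Q (N : ℝ) n) / l ≤
    (((Finset.Icc 1 N).filter (fun n => Q n)).card : ℝ) * ((1 - (l ^ 2)⁻¹) / (l⁻¹ * N)) := by
  have hl0 : 0 < l := by linarith
  have hN0 : (0 : ℝ) < N := by exact_mod_cast hN
  have hx : 0 < l⁻¹ * (N : ℝ) := by positivity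
  have hlx : l * (l⁻¹ * (N : ℝ)) = N := by
    rw [← mul_assoc, mul_inv_cancel₀ hl0.ne', one_mul]
  have h1 := tQ_diff Q hx hl
  rw [hlx] at h1
  rw [h1, ← cnt_eq]
  refine Summable.tsum_le_tsum (fun n => ?_)
    ((tQ_summable Q hx).sub ((tQ_summable Q hN0).div_const l)) (cnt_summable Q N _)
  unfold tQ
  by_cases h : 1 ≤ n ∧ Q n
  · rw [if_pos h, if_pos h]
    have := ker_diff_upper hx hl n h.1
    rw [hlx] at this
    have e : (if 1 ≤ n ∧ Q n ∧ n ≤ N then (1 - (l ^ 2)⁻¹) / (l⁻¹ * (N : ℝ)) else 0) =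
        (if (n : ℝ) ≤ (N : ℝ) then (1 - (l ^ 2)⁻¹) / (l⁻¹ * (N : ℝ)) else 0) := by
      congr 1
      rw [Nat.cast_le, eq_iff_iff]
      exact ⟨fun a => a.2.2, fun a => ⟨h.1, h.2, a⟩⟩
    rw [e]
    exact this
  · rw [if_neg h, if_neg h, if_neg (fun a => h ⟨a.1, a.2.1⟩)]
    simp

theorem taub : Taub := by
  classical
  intro Q M hM
  -- the smoothed density as a function of `x`
  have hF : Tendsto (fun x : ℝ => ∑' n, tQ Q x n) atTop (𝓝 M) := by
    have h1 : Tendsto (fun x : ℝ => ∑' n : ℕ, tQ Q (Real.exp (Real.log x)) n) atTop (𝓝 M) := by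
      have h2 : Tendsto (fun t : ℝ => ∑' n : ℕ, tQ Q (Real.exp t) n) atTop (𝓝 M) := by
        refine hM.congr (fun t => ?_)
        apply tsum_congr
        intro n
        unfold tQ
        congr
      exact h2.comp Real.tendsto_log_atTop
    refine h1.congr' ?_
    filter_upwards [eventually_gt_atTop (0 : ℝ)] with x hx
    rw [Real.exp_log hx]
  have hcast : Tendsto (fun N : ℕ => (N : ℝ)) atTop atTop := tendsto_natCast_atTop_atTop
  have hgoal : Tendsto (fun N : ℕ => (((Finset.Icc 1 N).filter (fun n => Q n)).card : ℝ) / N) atTop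
      (𝓝 (M / 2)) := by
    rw [tendsto_order]
    constructor
    · intro a ha
      -- choose l > 1 with a (l + 1) < M
      obtain ⟨l, hl1, hl2⟩ : ∃ l : ℝ, 1 < l ∧ a * (l + 1) < M := by
        have hc : Tendsto (fun l : ℝ => a * (l + 1)) (𝓝[>] 1) (𝓝 (a * (1 + 1))) := by
          apply Tendsto.mono_left _ nhdsWithin_le_nhds
          exact (Continuous.tendsto (by fun_prop) 1)
        have h1 : ∀ᶠ l in 𝓝[>] (1 : ℝ), a * (l + 1) < M :=
          hc.eventually_lt_const (by linarith)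
        obtain ⟨l, h2, h3⟩ := (h1.and self_mem_nhdsWithin).exists
        exact ⟨l, h3, h2⟩
      have hl0 : 0 < l := by linarith
      have hlim : Tendsto (fun N : ℕ => ∑' n, tQ Q (l⁻¹ * N) n - (∑' n, tQ Q (N : ℝ) n) / l) atTop
          (𝓝 (M - M / l)) := by
        apply Tendsto.sub
        · exact hF.comp (hcast.const_mul_atTop (by positivity))
        · exact (hF.comp hcast).div_const l
      have hκ : 0 < 1 - (l ^ 2)⁻¹ := by
        have : (l ^ 2)⁻¹ < 1 := inv_lt_one_of_one_lt₀ (by nlinarith)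
        linarith
      have hlt : a * ((1 - (l ^ 2)⁻¹) * l) < M - M / l := by
        have e1 : (1 - (l ^ 2)⁻¹) * l = (l + 1) * (1 - 1 / l) := by
          field_simp
          ring
        have e2 : M - M / l = M * (1 - 1 / l) := by ring
        rw [e1, e2, ← mul_assoc]
        apply mul_lt_mul_of_pos_right hl2
        have : 1 / l < 1 := by rw [div_lt_one hl0]; exact hl1
        linarith
      filter_upwards [hlim.eventually_const_lt hlt, eventually_ge_atTop 1] with N h1 h2
      have hN0 : (0 : ℝ) < N := by exact_mod_cast h2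
      have h3 := upp_bd Q h2 hl1
      have h4 := lt_of_lt_of_le h1 h3
      have e : (((Finset.Icc 1 N).filter (fun n => Q n)).card : ℝ) *
          ((1 - (l ^ 2)⁻¹) / (l⁻¹ * N)) =
          (((Finset.Icc 1 N).filter (fun n => Q n)).card : ℝ) / N * ((1 - (l ^ 2)⁻¹) * l) := by
        field_simp
      rw [e] at h4
      exact lt_of_mul_lt_mul_right h4 (by positivity)
    · intro b hb
      obtain ⟨l, hl1, hl2⟩ : ∃ l : ℝ, 1 < l ∧ M < b * (1 + l⁻¹) := by
        have hc : Tendsto (fun l : ℝ => b * (1 + l⁻¹)) (𝓝[>] 1) (𝓝 (b * (1 + 1⁻¹))) := by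
          apply Tendsto.mono_left _ nhdsWithin_le_nhds
          apply Tendsto.const_mul
          apply Tendsto.const_add
          exact tendsto_inv₀ one_ne_zero
        have h1 : ∀ᶠ l in 𝓝[>] (1 : ℝ), M < b * (1 + l⁻¹) :=
          hc.eventually_const_lt (by norm_num; linarith)
        obtain ⟨l, h2, h3⟩ := (h1.and self_mem_nhdsWithin).exists
        exact ⟨l, h3, h2⟩
      have hl0 : 0 < l := by linarith
      have hlim : Tendsto (fun N : ℕ => ∑' n, tQ Q (N : ℝ) n - (∑' n, tQ Q (l * N) n) / l) atTop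
          (𝓝 (M - M / l)) := by
        apply Tendsto.sub
        · exact hF.comp hcast
        · exact (hF.comp (hcast.const_mul_atTop hl0)).div_const l
      have hκ : 0 < 1 - (l ^ 2)⁻¹ := by
        have : (l ^ 2)⁻¹ < 1 := inv_lt_one_of_one_lt₀ (by nlinarith)
        linarith
      have hlt : M - M / l < b * (1 - (l ^ 2)⁻¹) := by
        have e1 : (1 - (l ^ 2)⁻¹) = (1 + l⁻¹) * (1 - 1 / l) := by
          field_simp
          ring
        have e2 : M - M / l = M * (1 - 1 / l) := by ring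
        rw [e1, e2, ← mul_assoc]
        apply mul_lt_mul_of_pos_right hl2
        have : 1 / l < 1 := by rw [div_lt_one hl0]; exact hl1
        linarith
      filter_upwards [hlim.eventually_lt_const hlt, eventually_ge_atTop 1] with N h1 h2
      have hN0 : (0 : ℝ) < N := by exact_mod_cast h2
      have h3 := low_bd Q h2 hl1
      have h4 := lt_of_le_of_lt h3 h1
      have e : (((Finset.Icc 1 N).filter (fun n => Q n)).card : ℝ) *
          ((1 - (l ^ 2)⁻¹) / N) =
          (((Finset.Icc 1 N).filter (fun n => Q n)).card : ℝ) / N * (1 - (l ^ 2)⁻¹) := by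
        field_simp
      rw [e] at h4
      exact lt_of_mul_lt_mul_right h4 hκ.le
  exact hgoal

end K5.ID
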