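import Pool.Agent.Lib.MP_a4658c_nt.ID.StmB
import Pool.Agent.Lib.MP_a4658c_nt.K5.K1

/-!
MP_a4658c_nt, project ID: the smoothed density of a residue class mod 6.
-/

set_option autoImplicit false

namespace K5.ID

open K5

private lemma UC_class (c' : Bool) :
    ∃ r : ℕ, r < 6 ∧ ∀ n : ℕ, (U n ∧ cl n = c') ↔ n % 6 = r := by
  cases c'
  · refine ⟨5, by norm_num, fun n => ?_⟩
    unfold U cl
    simp only [decide_eq_false_iff_not]
    omega
  · refine ⟨1, by norm_num, fun n => ?_⟩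
    unfold U cl
    simp only [decide_eq_true_eq]
    omega

/-- telescoping, above -/
private lemma UC_telU {M : ℕ} (hM : 1 ≤ M) (N : ℕ) (h : M ≤ N) :
    ∑ n ∈ Finset.Icc (M + 1) N, 1 / (n : ℝ) ^ 2 ≤ 1 / (M : ℝ) - 1 / (N : ℝ) := by
  induction N, h using Nat.le_induction with
  | base => rw [Finset.Icc_eq_empty (by omega), Finset.sum_empty]; simp
  | succ N hN ih =>
    rw [Finset.sum_Icc_succ_top (by omega)]
    have hN0 : (0 : ℝ) < N := by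
      have : 0 < N := by omega
      exact_mod_cast this
    have h1 : 1 / ((N + 1 : ℕ) : ℝ) ^ 2 ≤ 1 / (N : ℝ) - 1 / ((N + 1 : ℕ) : ℝ) := by
      push_cast
      rw [div_sub_div _ _ hN0.ne' (by positivity), div_le_div_iff₀ (by positivity)
        (by positivity)]
      nlinarith
    linarith

/-- telescoping, below -/
private lemma UC_telL (M : ℕ) (N : ℕ) (h : M ≤ N) :
    1 / ((M : ℝ) + 1) - 1 / ((N : ℝ) + 1) ≤ ∑ n ∈ Finset.Icc (M + 1) N, 1 / (n : ℝ) ^ 2 := by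
  induction N, h using Nat.le_induction with
  | base => rw [Finset.Icc_eq_empty (by omega), Finset.sum_empty]; simp
  | succ N hN ih =>
    rw [Finset.sum_Icc_succ_top (by omega)]
    have hN0 : (0 : ℝ) ≤ N := Nat.cast_nonneg _
    have h1 : 1 / ((N : ℝ) + 1) - 1 / ((N : ℝ) + 1 + 1) ≤ 1 / ((N + 1 : ℕ) : ℝ) ^ 2 := by
      push_cast
      rw [div_sub_div _ _ (by positivity) (by positivity), div_le_div_iff₀ (by positivity)
        (by positivity)]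
      nlinarith
    push_cast at h1 ⊢
    linarith

private lemma UC_split {x : ℝ} (hx : 1 ≤ x) (N : ℕ) (hN : ⌊x⌋₊ ≤ N) :
    ∑ n ∈ Finset.Icc 1 N, ker x n = (⌊x⌋₊ : ℝ) * (1 / x) +
      x * ∑ n ∈ Finset.Icc (⌊x⌋₊ + 1) N, 1 / (n : ℝ) ^ 2 := by
  have hx0 : 0 < x := by linarith
  have h1 : Finset.Icc 1 N = Finset.Icc 1 ⌊x⌋₊ ∪ Finset.Icc (⌊x⌋₊ + 1) N := by
    ext n
    simp only [Finset.mem_union, Finset.mem_Icc]
    omega
  have h2 : Disjoint (Finset.Icc 1 ⌊x⌋₊) (Finset.Icc (⌊x⌋₊ + 1) N) := by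
    rw [Finset.disjoint_left]
    intro n hn hn'
    rw [Finset.mem_Icc] at hn hn'
    omega
  rw [h1, Finset.sum_union h2]
  have h3 : ∑ n ∈ Finset.Icc 1 ⌊x⌋₊, ker x n = ∑ _n ∈ Finset.Icc 1 ⌊x⌋₊, 1 / x := by
    apply Finset.sum_congr rfl
    intro n hn
    rw [Finset.mem_Icc] at hn
    have h4 : (n : ℝ) ≤ x := (Nat.le_floor_iff hx0.le).1 hn.2
    have h5 : (1 : ℝ) ≤ n := by exact_mod_cast hn.1
    unfold ker
    apply min_eq_left
    rw [div_le_div_iff₀ hx0 (by positivity)]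
    nlinarith
  have h6 : ∑ n ∈ Finset.Icc (⌊x⌋₊ + 1) N, ker x n =
      ∑ n ∈ Finset.Icc (⌊x⌋₊ + 1) N, x * (1 / (n : ℝ) ^ 2) := by
    apply Finset.sum_congr rfl
    intro n hn
    rw [Finset.mem_Icc] at hn
    have h4 : x < (n : ℝ) := (Nat.floor_lt hx0.le).1 (by omega)
    unfold ker
    rw [min_eq_right]
    · ring
    · rw [div_le_div_iff₀ (by nlinarith) hx0]
      nlinarith
  rw [h3, h6, Finset.sum_const, Nat.card_Icc, nsmul_eq_mul, Finset.mul_sum]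
  norm_num

private lemma UC_floor {x : ℝ} (hx : 1 ≤ x) : x ≤ 2 * (⌊x⌋₊ : ℝ) ∧ (1 : ℝ) ≤ (⌊x⌋₊ : ℝ) ∧
    (⌊x⌋₊ : ℝ) ≤ x ∧ x < ⌊x⌋₊ + 1 := by
  have h1 : 1 ≤ ⌊x⌋₊ := (Nat.le_floor_iff (by linarith)).2 (by simpa using hx)
  have h2 : (1 : ℝ) ≤ (⌊x⌋₊ : ℝ) := by exact_mod_cast h1
  have h3 := Nat.lt_floor_add_one x
  have h4 := Nat.floor_le (show 0 ≤ x by linarith)
  exact ⟨by linarith, h2, h4, h3⟩

private lemma UC_upper {x : ℝ} (hx : 1 ≤ x) (N : ℕ) :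
    ∑ n ∈ Finset.Icc 1 N, ker x n ≤ 2 + 2 / x := by
  have hx0 : 0 < x := by linarith
  obtain ⟨f1, f2, f3, f4⟩ := UC_floor hx
  have hmono : ∑ n ∈ Finset.Icc 1 N, ker x n ≤ ∑ n ∈ Finset.Icc 1 (N + ⌊x⌋₊), ker x n := by
    apply Finset.sum_le_sum_of_subset_of_nonneg
    · intro n hn
      rw [Finset.mem_Icc] at hn ⊢
      omega
    · intro n _ _
      exact ker_nonneg hx0 n
  refine hmono.trans ?_
  rw [UC_split hx _ (by omega)]
  have h1 := UC_telU (M := ⌊x⌋₊) (by exact_mod_cast f2) (N + ⌊x⌋₊) (by omega)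
  have h2 : (0 : ℝ) ≤ 1 / ((N + ⌊x⌋₊ : ℕ) : ℝ) := by positivity
  have h3 : x * ∑ n ∈ Finset.Icc (⌊x⌋₊ + 1) (N + ⌊x⌋₊), 1 / (n : ℝ) ^ 2 ≤
      x * (1 / (⌊x⌋₊ : ℝ)) := mul_le_mul_of_nonneg_left (by linarith) hx0.le
  have h4 : x * (1 / (⌊x⌋₊ : ℝ)) ≤ 1 + 2 / x := by
    rw [mul_one_div, div_le_iff₀ (by linarith)]
    have h5 : 1 ≤ 2 / x * (⌊x⌋₊ : ℝ) := by
      rw [div_mul_eq_mul_div, le_div_iff₀ hx0]
      linarith
    nlinarith
  have h6 : (⌊x⌋₊ : ℝ) * (1 / x) ≤ 1 := by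
    rw [mul_one_div, div_le_iff₀ hx0]
    linarith
  linarith

private lemma UC_lower {x : ℝ} (hx : 1 ≤ x) (N : ℕ) (hN : ⌊x⌋₊ ≤ N) (hN2 : x ^ 2 ≤ N) :
    2 - 3 / x ≤ ∑ n ∈ Finset.Icc 1 N, ker x n := by
  have hx0 : 0 < x := by linarith
  obtain ⟨f1, f2, f3, f4⟩ := UC_floor hx
  rw [UC_split hx _ hN]
  have h1 := UC_telL ⌊x⌋₊ N hN
  have h3 : x * (1 / ((⌊x⌋₊ : ℝ) + 1) - 1 / ((N : ℝ) + 1)) ≤
      x * ∑ n ∈ Finset.Icc (⌊x⌋₊ + 1) N, 1 / (n : ℝ) ^ 2 := mul_le_mul_of_nonneg_left h1 hx0.le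
  have h4 : 1 - 1 / x ≤ x * (1 / ((⌊x⌋₊ : ℝ) + 1)) := by
    rw [mul_one_div, le_div_iff₀ (by linarith)]
    have h5 : (1 - 1 / x) * ((⌊x⌋₊ : ℝ) + 1) ≤ (1 - 1 / x) * (x + 1) := by
      apply mul_le_mul_of_nonneg_left (by linarith)
      have : 1 / x ≤ 1 := by
        rw [div_le_iff₀ hx0]
        linarith
      linarith
    have h6 : (1 - 1 / x) * (x + 1) = x - 1 / x := by
      field_simp
      ring
    have h7 : 0 ≤ 1 / x := by positivity
    linarith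
  have h8 : x * (1 / ((N : ℝ) + 1)) ≤ 1 / x := by
    rw [mul_one_div, div_le_div_iff₀ (by positivity) hx0]
    nlinarith
  have h9 : 1 - 1 / x ≤ (⌊x⌋₊ : ℝ) * (1 / x) := by
    rw [mul_one_div, le_div_iff₀ hx0]
    have : (1 - 1 / x) * x = x - 1 := by
      field_simp
    linarith
  have h10 : x * (1 / ((⌊x⌋₊ : ℝ) + 1) - 1 / ((N : ℝ) + 1)) =
      x * (1 / ((⌊x⌋₊ : ℝ) + 1)) - x * (1 / ((N : ℝ) + 1)) := by ring
  have h11 : 3 / x = 1 / x + 1 / x + 1 / x := by ring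
  linarith

open Classical in
private lemma UC_term {x : ℝ} {c : Bool} {r : ℕ} (hr : ∀ n : ℕ, (U n ∧ cl n = c) ↔ n % 6 = r)
    (N : ℕ) :
    ∑ n ∈ Finset.range (N + 1),
      (if 1 ≤ n ∧ U n ∧ True ∧ cl n = c then ker x n else 0) =
    ∑ n ∈ (Finset.Icc 1 N).filter (fun n => n % 6 = r), ker x n := by
  rw [← Finset.sum_filter]
  apply Finset.sum_congr _ (fun _ _ => rfl)
  ext n
  simp only [Finset.mem_filter, Finset.mem_range, Finset.mem_Icc, true_and]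
  constructor
  · rintro ⟨h1, h2, h3⟩
    exact ⟨⟨h2, by omega⟩, (hr n).1 h3⟩
  · rintro ⟨⟨h1, h2⟩, h3⟩
    exact ⟨by omega, h1, (hr n).2 h3⟩

open Classical in
/-- UC, the smoothed density of a residue class mod 6 -/
theorem uc : UC := by
  refine ⟨2, by norm_num, fun c t ht => ?_⟩
  obtain ⟨x, hxe⟩ : ∃ x, x = Real.exp t := ⟨_, rfl⟩
  have hx : 1 ≤ x := by
    rw [hxe]
    exact Real.one_le_exp ht
  have hx0 : 0 < x := by linarith
  obtain ⟨r, hr6, hr⟩ := UC_class c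
  have h0 : ∀ n, 0 ≤ ker x n := ker_nonneg hx0
  have hanti : ∀ m n, 1 ≤ m → m ≤ n → ker x n ≤ ker x m := fun m n hm h => ker_anti hx0 hm h
  have h1x : ker x 1 ≤ 1 / x := ker_le_inv hx0 1
  have hf : fP (fun _ => True) c t =
      ∑' n : ℕ, if 1 ≤ n ∧ U n ∧ True ∧ cl n = c then ker x n else 0 := by
    rw [hxe]
    unfold fP
    apply tsum_congr
    intro n
    by_cases h : 1 ≤ n ∧ U n ∧ True ∧ cl n = c
    · rw [if_pos h, if_pos h]
    · rw [if_neg h, if_neg h]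
  obtain ⟨g, hg⟩ : ∃ g : ℕ → ℝ, g = fun n => if 1 ≤ n ∧ U n ∧ True ∧ cl n = c then ker x n
      else 0 := ⟨_, rfl⟩
  have hg0 : ∀ n, 0 ≤ g n := by
    intro n
    rw [hg]
    dsimp only
    split_ifs
    · exact h0 n
    · exact le_rfl
  have hpart : ∀ N, ∑ n ∈ Finset.range (N + 1), g n =
      ∑ n ∈ (Finset.Icc 1 N).filter (fun n => n % 6 = r), ker x n := by
    intro N
    rw [hg]
    exact UC_term hr N
  have hup : ∀ N, ∑ n ∈ Finset.range (N + 1), g n ≤ 1 / 3 + 4 / 3 * (1 / x) := by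
    intro N
    rw [hpart]
    have h1 := class_sum_le (ker x) h0 hanti 6 r N (by norm_num)
    have h2 := UC_upper hx N
    push_cast at h1
    have h3 : 2 / x = 1 / x + 1 / x := by ring
    linarith
  have hup' : ∀ N, ∑ n ∈ Finset.range N, g n ≤ 1 / 3 + 4 / 3 * (1 / x) := by
    intro N
    refine le_trans ?_ (hup N)
    rw [Finset.sum_range_succ]
    have := hg0 N
    linarith
  have hsum : Summable g := summable_of_sum_range_le hg0 hup'
  have htsU : ∑' n, g n ≤ 1 / 3 + 4 / 3 * (1 / x) := Real.tsum_le_of_sum_range_le hg0 hup'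
  obtain ⟨N, hN⟩ := exists_nat_ge (x ^ 2)
  have hfl : ⌊x⌋₊ ≤ N := by
    have h1 := Nat.floor_le hx0.le
    have h2 : (⌊x⌋₊ : ℝ) ≤ N := by nlinarith
    exact_mod_cast h2
  have hlow : 1 / 3 - 3 / 2 * (1 / x) ≤ ∑' n, g n := by
    have h1 : ∑ n ∈ Finset.range (N + 1), g n ≤ ∑' n, g n :=
      hsum.sum_le_tsum _ (fun n _ => hg0 n)
    refine le_trans ?_ h1
    rw [hpart]
    have h2 := class_sum_ge (ker x) h0 hanti 6 r N (by norm_num) hr6
    have h3 := UC_lower hx N hfl hN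
    push_cast at h2
    have h4 : 3 / x = 1 / x + 1 / x + 1 / x := by ring
    linarith
  have hexp : Real.exp (-t) = 1 / x := by
    rw [Real.exp_neg, hxe, one_div]
  rw [hf, hexp]
  have hgeq : (∑' n : ℕ, if 1 ≤ n ∧ U n ∧ True ∧ cl n = c then ker x n else 0) = ∑' n, g n := by
    rw [hg]
  rw [hgeq]
  have hxi : 0 < 1 / x := by positivity
  rw [abs_le]
  constructor
  · linarith
  · linarith

end K5.ID
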