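import Pool.Agent.Lib.MP_a4658c_nt.ID.Main
import Pool.Agent.Lib.MP_a4658c_nt.ID.MinLaw
import Pool.Agent.Lib.MP_a4658c_nt.ID.Num1
import Pool.Agent.Lib.MP_a4658c_nt.ID.Num2
import Pool.Agent.Lib.MP_a4658c_nt.ID.Prop
import Pool.Agent.Lib.MP_a4658c_nt.ID.Near
import Pool.Agent.Lib.MP_a4658c_nt.ID.Taub
import Pool.Agent.Lib.MP_a4658c_nt.ID.AllSig
import Pool.Agent.Lib.MP_a4658c_nt.ID.UC
import Pool.Agent.Lib.MP_a4658c_nt.ID.AllZero
import Pool.Agent.Lib.MP_a4658c_nt.K5.R6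

/-!
MP_a4658c_nt, natural density of the invariant sets of the Kakutani map: the theorems.
-/

set_option autoImplicit false

open Filter Topology

namespace K5.ID

open K5

theorem trans_holds : Trans := trans_of num_basic num_deficit num_tails num_rest num_factor num_mix

open Classical in
theorem density_exists (A : Set ℕ) (n₀ : ℕ) (hA : ∀ n > n₀, (n ∈ A ↔ kak n ∈ A)) :
    ∃ d : ℝ, Tendsto (fun N : ℕ => (((Finset.Icc 1 N).filter (fun n => n ∈ A)).card : ℝ) / N)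
      atTop (𝓝 d) ∧ (d = 0 → ∀ c, Tendsto (fP (fun n => n ∈ A) c) atTop (𝓝 0)) :=
  density_of trans_holds uc near propagate taub allInt A n₀ hA

open Classical in
theorem additive (A : ℕ → Set ℕ) (d : ℕ → ℝ) (hA : ∀ i, ∀ n ≥ 1, (n ∈ A i ↔ kak n ∈ A i))
    (hdis : Pairwise (fun i j => Disjoint (A i) (A j)))
    (hd : ∀ i, Tendsto (fun N : ℕ => (((Finset.Icc 1 N).filter (fun n => n ∈ A i)).card : ℝ) / N)
      atTop (𝓝 (d i))) :
    Summable d ∧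
    Tendsto (fun N : ℕ => (((Finset.Icc 1 N).filter (fun n => ∃ i, n ∈ A i)).card : ℝ) / N) atTop
      (𝓝 (∑' i, d i)) :=
  sigma count_kak A d hA hdis hd

open Classical in
theorem min_law : ∃ (δ : ℕ → ℝ) (C c : ℝ), 0 < C ∧ 0 < c ∧
    (∀ m, Tendsto (fun N : ℕ =>
      (((Finset.Icc 1 N).filter (fun n => n ∈ Amin m)).card : ℝ) / N) atTop (𝓝 (δ m))) ∧
    HasSum δ 1 ∧ ∀ X : ℕ, 1 ≤ X → 1 - ∑ m ∈ Finset.Icc 1 X, δ m ≤ C * (X : ℝ) ^ (-c) := by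
  have h1 : ∀ m, ∃ d : ℝ, Tendsto (fun N : ℕ =>
      (((Finset.Icc 1 N).filter (fun n => n ∈ Amin m)).card : ℝ) / N) atTop (𝓝 d) := by
    intro m
    obtain ⟨d, hd, -⟩ := density_exists (Amin m) m (Amin_inv m)
    exact ⟨d, hd⟩
  choose δ hδ using h1
  obtain ⟨C, c, hC, hc, hcount⟩ := count_kak
  obtain ⟨h2, h3⟩ := minLaw hc hcount δ hδ
  exact ⟨δ, C, c, hC, hc, hδ, h3, h2⟩

open Classical in
theorem dichotomy (A : Set ℕ) (n₀ : ℕ) (hA : ∀ n > n₀, (n ∈ A ↔ kak n ∈ A)) :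
    (∃ d : ℝ, 0 < d ∧ Tendsto (fun N : ℕ =>
      (((Finset.Icc 1 N).filter (fun n => n ∈ A)).card : ℝ) / N) atTop (𝓝 d)) ∨
    ∀ B : ℕ, ∃ C : ℝ, ∀ N : ℕ, 1 ≤ N → (((Finset.Icc 1 N).filter (fun n => n ∈ A)).card : ℝ)
      ≤ C * N / (1 + Real.log N) ^ B := by
  obtain ⟨d, hd, h0⟩ := density_exists A n₀ hA
  have hd0 : 0 ≤ d := ge_of_tendsto' hd fun N => by positivity
  rcases hd0.lt_or_eq with h | h
  · exact Or.inl ⟨d, h, hd⟩
  · exact Or.inr fun B => sparse_of trans_holds uc propagate allZero A n₀ hA (h0 h.symm) B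

end K5.ID
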