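import Pool.Agent.Lib.MP_a4658c_nt.ID.StmC
import Pool.Agent.Lib.MP_a4658c_nt.K5.F1

/-!
MP_a4658c_nt, equidistribution of the invariant sets of the Kakutani map in residue classes:
mixing for shorter words modulo the same power of 5 (removal of the last letters).
-/

set_option autoImplicit false

namespace K5.ID

open K5

/-! ### abstract recursions -/

section abs

variable {V : Type*} [AddCommGroup V] [Module ℝ V] (p : Seminorm ℝ V)

private lemma invRec (L : ℕ) (hL : 1 ≤ L) (x e q K : ℝ) (hx : x ≠ 0) (he : |x| ^ L ≤ e)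
    (f H : ℤ → V) (hf : ∀ A < 0, f A = 0)
    (hH : ∀ A, H A = ∑ a ∈ Finset.range L, x ^ (a + 1) • f (A - (a + 1)))
    (hq : ∀ A, p (H A) ≤ q) (hK : (|x|⁻¹ + 1) * q + e * K ≤ K) (hK0 : 0 ≤ K) (A : ℤ) :
    p (f A) ≤ K := by
  have key : ∀ A : ℤ, f A = x⁻¹ • H (A + 1) - H A + x ^ L • f (A - L) := by
    intro A
    have h1 : H (A + 1) + x ^ (L + 1) • f (A - L) = x • f A + x • H A := by
      have e1 : ∑ a ∈ Finset.range (L + 1), x ^ (a + 1) • f (A + 1 - (a + 1))
          = H (A + 1) + x ^ (L + 1) • f (A - L) := by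
        rw [Finset.sum_range_succ, ← hH]
        congr 3
        ring
      have e2 : ∑ a ∈ Finset.range (L + 1), x ^ (a + 1) • f (A + 1 - (a + 1))
          = x • f A + x • H A := by
        rw [Finset.sum_range_succ', hH A, Finset.smul_sum, add_comm]
        congr 1
        · simp
        · refine Finset.sum_congr rfl fun a _ => ?_
          rw [smul_smul, ← pow_succ']
          congr 2
          push_cast
          ring
      rw [← e1, e2]
    have h2 : x⁻¹ • (H (A + 1) + x ^ (L + 1) • f (A - L)) = f A + H A := by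
      rw [h1, smul_add, smul_smul, smul_smul, inv_mul_cancel₀ hx, one_smul, one_smul]
    rw [smul_add, smul_smul, pow_succ', ← mul_assoc, inv_mul_cancel₀ hx, one_mul] at h2
    rw [eq_sub_of_add_eq h2.symm]
    abel
  have main : ∀ n : ℕ, ∀ A : ℤ, A < n → p (f A) ≤ K := by
    intro n
    induction n with
    | zero => intro A hA; rw [hf A (by simpa using hA), map_zero]; exact hK0
    | succ n ih =>
      intro A hA
      have h3 : p (f (A - L)) ≤ K := ih _ (by push_cast at hA; omega)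
      have h4 : p (x⁻¹ • H (A + 1)) ≤ |x|⁻¹ * q := by
        rw [map_smul_eq_mul, Real.norm_eq_abs, abs_inv]
        exact mul_le_mul_of_nonneg_left (hq _) (by positivity)
      have h5 : p (x ^ L • f (A - L)) ≤ e * K := by
        rw [map_smul_eq_mul, Real.norm_eq_abs, abs_pow]
        exact mul_le_mul he h3 (apply_nonneg _ _) (le_trans (by positivity) he)
      calc p (f A) = p (x⁻¹ • H (A + 1) - H A + x ^ L • f (A - L)) := by rw [← key A]
        _ ≤ p (x⁻¹ • H (A + 1) - H A) + p (x ^ L • f (A - L)) := map_add_le_add _ _ _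
        _ ≤ (p (x⁻¹ • H (A + 1)) + p (H A)) + p (x ^ L • f (A - L)) := by
            gcongr
            exact map_sub_le_add _ _ _
        _ ≤ (|x|⁻¹ * q + q) + e * K := by
            gcongr
            exact hq A
        _ ≤ K := by linarith
  exact main (A.toNat + 1) A (by push_cast; omega)

private lemma oddSum (L : ℕ) :
    ∑ a ∈ Finset.range L, (if a % 2 = 0 then 0 else (1 / 2 : ℝ) ^ (a + 1)) ≤ 1 / 3 := by
  have h : ∀ L : ℕ, ∑ a ∈ Finset.range L, (if a % 2 = 0 then 0 else (1 / 2 : ℝ) ^ (a + 1))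
      ≤ 1 / 3 - (1 / 3) * (1 / 2 : ℝ) ^ L * (if L % 2 = 0 then 1 else 2) := by
    intro L
    induction L with
    | zero => simp
    | succ L ih =>
      rw [Finset.sum_range_succ]
      rcases Nat.mod_two_eq_zero_or_one L with h | h
      · have h' : (L + 1) % 2 ≠ 0 := by omega
        rw [if_pos h] at ih ⊢
        rw [if_neg h', pow_succ]
        linarith
      · have h' : (L + 1) % 2 = 0 := by omega
        have h'' : ¬ (L % 2 = 0) := by omega
        rw [if_neg h''] at ih ⊢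
        rw [if_pos h', pow_succ]
        linarith
  refine (h L).trans ?_
  have : (0 : ℝ) ≤ (1 / 3) * (1 / 2 : ℝ) ^ L * (if L % 2 = 0 then 1 else 2) := by
    split_ifs <;> positivity
  linarith

private lemma invAbs (L : ℕ) (hL : 2 ≤ L) (q : ℝ) (hq : 0 ≤ q) (Gt Gf Ht Hf : ℤ → ℤ → V)
    (hGt : ∀ A B, (A < 0 ∨ B < 0) → Gt A B = 0) (hGf : ∀ A B, (A < 0 ∨ B < 0) → Gf A B = 0)
    (hHf : ∀ A B, Hf A B = ∑ a ∈ Finset.range L, (1 / 2 : ℝ) ^ (a + 1) •
      (if a % 2 = 0 then Gt (A - (a + 1)) B else Gf (A - (a + 1)) B))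
    (hHt : ∀ A B, Ht A B = ∑ a ∈ Finset.range L, (1 / 2 : ℝ) ^ (a + 1) •
      ∑ b ∈ Finset.range L, (1 / 3 : ℝ) ^ (b + 1) •
        (Gt (A - (a + 1)) (B - (b + 1)) + Gf (A - (a + 1)) (B - (b + 1))))
    (pt : ∀ A B, p (Ht A B) ≤ q) (pf : ∀ A B, p (Hf A B) ≤ q) (A B : ℤ) :
    p (Gt A B) ≤ 52 * q ∧ p (Gf A B) ≤ 52 * q := by
  have hL1 : 1 ≤ L := by omega
  -- the first sum
  have s1 : ∀ A B, p (∑ b ∈ Finset.range L, (1 / 3 : ℝ) ^ (b + 1) •
      (Gt A (B - (b + 1)) + Gf A (B - (b + 1)))) ≤ 4 * q := by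
    intro A B
    refine invRec p L hL1 (1 / 2) (1 / 4) q (4 * q) (by norm_num) ?_
      (fun A => ∑ b ∈ Finset.range L, (1 / 3 : ℝ) ^ (b + 1) •
      (Gt A (B - (b + 1)) + Gf A (B - (b + 1)))) (fun A => Ht A B) ?_ (fun A => hHt A B)
      (fun A => pt A B) ?_ (by positivity) A
    · rw [abs_of_pos (by norm_num : (0 : ℝ) < 1 / 2)]
      calc (1 / 2 : ℝ) ^ L ≤ (1 / 2) ^ 2 := pow_le_pow_of_le_one (by norm_num) (by norm_num) hL
        _ = 1 / 4 := by norm_num
    · intro A hA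
      refine Finset.sum_eq_zero fun b _ => ?_
      rw [hGt _ _ (Or.inl hA), hGf _ _ (Or.inl hA), add_zero, smul_zero]
    · rw [abs_of_pos (by norm_num : (0 : ℝ) < 1 / 2)]
      linarith
  have s2 : ∀ A B, p (Gt A B + Gf A B) ≤ 18 * q := by
    intro A B
    refine invRec p L hL1 (1 / 3) (1 / 9) (4 * q) (18 * q) (by norm_num) ?_
      (fun B => Gt A B + Gf A B) (fun B => ∑ b ∈ Finset.range L, (1 / 3 : ℝ) ^ (b + 1) •
      (Gt A (B - (b + 1)) + Gf A (B - (b + 1)))) ?_ (fun B => rfl)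
      (fun B => s1 A B) ?_ (by positivity) B
    · rw [abs_of_pos (by norm_num : (0 : ℝ) < 1 / 3)]
      calc (1 / 3 : ℝ) ^ L ≤ (1 / 3) ^ 2 := pow_le_pow_of_le_one (by norm_num) (by norm_num) hL
        _ = 1 / 9 := by norm_num
    · intro B hB
      rw [hGt _ _ (Or.inr hB), hGf _ _ (Or.inr hB), add_zero]
    · rw [abs_of_pos (by norm_num : (0 : ℝ) < 1 / 3)]
      linarith
  have s3 : ∀ A B, p (∑ a ∈ Finset.range L, (-(1 / 2) : ℝ) ^ (a + 1) • Gt (A - (a + 1)) B)
      ≤ 7 * q := by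
    intro A B
    have e : ∑ a ∈ Finset.range L, (-(1 / 2) : ℝ) ^ (a + 1) • Gt (A - (a + 1)) B
        = ∑ a ∈ Finset.range L, (if a % 2 = 0 then 0 else (1 / 2 : ℝ) ^ (a + 1)) •
          (Gt (A - (a + 1)) B + Gf (A - (a + 1)) B) - Hf A B := by
      rw [hHf, ← Finset.sum_sub_distrib]
      refine Finset.sum_congr rfl fun a _ => ?_
      rcases Nat.mod_two_eq_zero_or_one a with h | h
      · have ho : Odd (a + 1) := by rw [Nat.odd_iff]; omega
        rw [if_pos h, if_pos h, ho.neg_pow, zero_smul, zero_sub, neg_smul]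
      · have h' : ¬ (a % 2 = 0) := by omega
        have ho : Even (a + 1) := by rw [Nat.even_iff]; omega
        rw [if_neg h', if_neg h', ho.neg_pow, smul_add]
        abel
    rw [e]
    calc p (∑ a ∈ Finset.range L, (if a % 2 = 0 then 0 else (1 / 2 : ℝ) ^ (a + 1)) •
          (Gt (A - (a + 1)) B + Gf (A - (a + 1)) B) - Hf A B)
        ≤ p (∑ a ∈ Finset.range L, (if a % 2 = 0 then 0 else (1 / 2 : ℝ) ^ (a + 1)) •
          (Gt (A - (a + 1)) B + Gf (A - (a + 1)) B)) + p (Hf A B) := map_sub_le_add _ _ _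
      _ ≤ (∑ a ∈ Finset.range L, p ((if a % 2 = 0 then 0 else (1 / 2 : ℝ) ^ (a + 1)) •
          (Gt (A - (a + 1)) B + Gf (A - (a + 1)) B))) + q := by
          gcongr
          · exact Finset.le_sum_of_subadditive p (map_zero p).le (map_add_le_add p) _ _
          · exact pf A B
      _ ≤ (∑ a ∈ Finset.range L, (if a % 2 = 0 then 0 else (1 / 2 : ℝ) ^ (a + 1)) *
          (18 * q)) + q := by
          gcongr with a _
          rw [map_smul_eq_mul, Real.norm_eq_abs]
          have h0 : 0 ≤ (if a % 2 = 0 then 0 else (1 / 2 : ℝ) ^ (a + 1)) := by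
            split_ifs <;> positivity
          rw [abs_of_nonneg h0]
          exact mul_le_mul_of_nonneg_left (s2 _ _) h0
      _ ≤ 7 * q := by
          rw [← Finset.sum_mul]
          have := mul_le_mul_of_nonneg_right (oddSum L) (by positivity : 0 ≤ 18 * q)
          linarith
  have s4 : ∀ A B, p (Gt A B) ≤ 28 * q := by
    intro A B
    refine invRec p L hL1 (-(1 / 2)) (1 / 4) (7 * q) (28 * q) (by norm_num) ?_
      (fun A => Gt A B)
      (fun A => ∑ a ∈ Finset.range L, (-(1 / 2) : ℝ) ^ (a + 1) • Gt (A - (a + 1)) B)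
      ?_ (fun A => rfl) (fun A => s3 A B) ?_ (by positivity) A
    · rw [abs_neg, abs_of_pos (by norm_num : (0 : ℝ) < 1 / 2)]
      calc (1 / 2 : ℝ) ^ L ≤ (1 / 2) ^ 2 := pow_le_pow_of_le_one (by norm_num) (by norm_num) hL
        _ = 1 / 4 := by norm_num
    · intro A hA
      exact hGt _ _ (Or.inl hA)
    · rw [abs_neg, abs_of_pos (by norm_num : (0 : ℝ) < 1 / 2)]
      linarith
  refine ⟨(s4 A B).trans (by linarith), ?_⟩
  calc p (Gf A B) = p ((Gt A B + Gf A B) - Gt A B) := by rw [add_sub_cancel_left]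
    _ ≤ p (Gt A B + Gf A B) + p (Gt A B) := map_sub_le_add _ _ _
    _ ≤ 18 * q + 28 * q := add_le_add (s2 A B) (s4 A B)
    _ ≤ 52 * q := by linarith

end abs

/-! ### the seminorm -/

private noncomputable def oscF (M r : ℕ) (f : ZMod (5 ^ M) → ℝ) (y : ZMod (5 ^ M)) : ℝ :=
  5 ^ M * f y - 5 ^ (M - r) *
    ∑ y' : ZMod (5 ^ M), if (5 : ZMod (5 ^ M)) ^ r * (y' - y) = 0 then f y' else 0

private noncomputable def osc (M r : ℕ) : Seminorm ℝ (ZMod (5 ^ M) → ℝ) :=
  Seminorm.of (fun f => ∑ y : ZMod (5 ^ M), |oscF M r f y|)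
    (by
      intro f g
      rw [← Finset.sum_add_distrib]
      refine Finset.sum_le_sum fun y _ => ?_
      have h : oscF M r (f + g) y = oscF M r f y + oscF M r g y := by
        unfold oscF
        have : (∑ y' : ZMod (5 ^ M),
            if (5 : ZMod (5 ^ M)) ^ r * (y' - y) = 0 then (f + g) y' else 0)
            = (∑ y' : ZMod (5 ^ M), if (5 : ZMod (5 ^ M)) ^ r * (y' - y) = 0 then f y' else 0)
            + ∑ y' : ZMod (5 ^ M), if (5 : ZMod (5 ^ M)) ^ r * (y' - y) = 0 then g y' else 0 := by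
          rw [← Finset.sum_add_distrib]
          refine Finset.sum_congr rfl fun y' _ => ?_
          split_ifs <;> simp
        rw [this, Pi.add_apply]
        ring
      rw [h]
      exact abs_add_le _ _)
    (by
      intro a f
      rw [Finset.mul_sum]
      refine Finset.sum_congr rfl fun y _ => ?_
      have h : oscF M r (a • f) y = a * oscF M r f y := by
        unfold oscF
        have : (∑ y' : ZMod (5 ^ M),
            if (5 : ZMod (5 ^ M)) ^ r * (y' - y) = 0 then (a • f) y' else 0)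
            = a * ∑ y' : ZMod (5 ^ M),
              if (5 : ZMod (5 ^ M)) ^ r * (y' - y) = 0 then f y' else 0 := by
          rw [Finset.mul_sum]
          refine Finset.sum_congr rfl fun y' _ => ?_
          split_ifs <;> simp
        rw [this, Pi.smul_apply, smul_eq_mul]
        ring
      rw [h, abs_mul, Real.norm_eq_abs])

private lemma osc_apply (M r : ℕ) (f : ZMod (5 ^ M) → ℝ) :
    osc M r f = ∑ y : ZMod (5 ^ M), |oscF M r f y| := rfl

private lemma osc_trans (M r : ℕ) (f : ZMod (5 ^ M) → ℝ) (t : ZMod (5 ^ M)) :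
    osc M r (fun y => f (y + t)) = osc M r f := by
  rw [osc_apply, osc_apply, ← Equiv.sum_comp (Equiv.addRight t) (fun y => |oscF M r f y|)]
  refine Finset.sum_congr rfl fun y _ => ?_
  have h : (∑ y' : ZMod (5 ^ M),
      if (5 : ZMod (5 ^ M)) ^ r * (y' - y) = 0 then f (y' + t) else 0)
      = ∑ y' : ZMod (5 ^ M),
        if (5 : ZMod (5 ^ M)) ^ r * (y' - (y + t)) = 0 then f y' else 0 := by
    rw [← Equiv.sum_comp (Equiv.addRight t)
      (fun y' => if (5 : ZMod (5 ^ M)) ^ r * (y' - (y + t)) = 0 then f y' else 0)]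
    refine Finset.sum_congr rfl fun y' _ => ?_
    rw [Equiv.coe_addRight, add_sub_add_right_eq_sub]
  unfold oscF
  rw [Equiv.coe_addRight, h]

/-! ### the measures -/

open Classical in
private noncomputable def lam (Λ k lmax M : ℕ) (Y : ℝ) (c c' : Bool) (A B : ℤ)
    (y : ZMod (5 ^ M)) : ℝ :=
  ∑ w ∈ W Λ k c, if endc c w = c' ∧ (sA w : ℤ) = A ∧ (sB w : ℤ) = B ∧ Tm M lmax Y w ∧ Fm M w = y
    then 1 / (D w : ℝ) else 0

private lemma lam_neg (Λ k lmax M : ℕ) (Y : ℝ) (c c' : Bool) (A B : ℤ) (h : A < 0 ∨ B < 0) :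
    lam Λ k lmax M Y c c' A B = 0 := by
  funext y
  unfold lam
  refine Finset.sum_eq_zero fun w _ => ?_
  rw [if_neg]
  rintro ⟨_, h1, h2, _⟩
  omega

private lemma hh_eq (Λ k lmax M : ℕ) (Y : ℝ) (c c' : Bool) (A B : ℕ) (y : ZMod (5 ^ M)) :
    hh M (TTs Λ k lmax M Y c c' A B) y = 5 ^ M * lam Λ k lmax M Y c c' A B y := by
  classical
  unfold hh lam TTs
  congr 1
  rw [Finset.filter_filter, Finset.sum_filter]
  refine Finset.sum_congr rfl fun w _ => ?_
  refine if_congr ?_ rfl rfl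
  constructor
  · rintro ⟨⟨h1, h2, h3, h4⟩, h5⟩
    exact ⟨h1, by exact_mod_cast h2, by exact_mod_cast h3, h4, h5⟩
  · rintro ⟨h1, h2, h3, h4, h5⟩
    exact ⟨⟨h1, by exact_mod_cast h2, by exact_mod_cast h3, h4⟩, h5⟩

private lemma ht_eq (Λ k lmax M r : ℕ) (Y : ℝ) (c c' : Bool) (A B : ℕ) (y : ZMod (5 ^ M)) :
    ht M r (TTs Λ k lmax M Y c c' A B) y = 5 ^ (M - r) *
      ∑ y' : ZMod (5 ^ M), if (5 : ZMod (5 ^ M)) ^ r * (y' - y) = 0 then
        lam Λ k lmax M Y c c' A B y' else 0 := by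
  classical
  unfold ht lam TTs
  congr 1
  rw [Finset.filter_filter, Finset.sum_filter]
  have e : ∀ y' : ZMod (5 ^ M), (if (5 : ZMod (5 ^ M)) ^ r * (y' - y) = 0 then
      (∑ w ∈ W Λ k c, if endc c w = c' ∧ (sA w : ℤ) = (A : ℤ) ∧ (sB w : ℤ) = (B : ℤ) ∧
        Tm M lmax Y w ∧ Fm M w = y' then 1 / (D w : ℝ) else 0) else 0)
      = ∑ w ∈ W Λ k c, if Fm M w = y' then (if (5 : ZMod (5 ^ M)) ^ r * (Fm M w - y) = 0 ∧
        endc c w = c' ∧ (sA w : ℤ) = (A : ℤ) ∧ (sB w : ℤ) = (B : ℤ) ∧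
        Tm M lmax Y w then 1 / (D w : ℝ) else 0) else 0 := by
    intro y'
    split_ifs with h
    · refine Finset.sum_congr rfl fun w _ => ?_
      by_cases h1 : Fm M w = y'
      · subst h1
        rw [if_pos rfl]
        refine if_congr ?_ rfl rfl
        tauto
      · rw [if_neg h1, if_neg]
        tauto
    · symm
      refine Finset.sum_eq_zero fun w _ => ?_
      by_cases h1 : Fm M w = y'
      · subst h1
        rw [if_pos rfl, if_neg]
        tauto
      · rw [if_neg h1]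
  rw [Finset.sum_congr rfl fun y' _ => e y', Finset.sum_comm]
  refine Finset.sum_congr rfl fun w _ => ?_
  rw [Finset.sum_ite_eq Finset.univ (Fm M w), if_pos (Finset.mem_univ _)]
  refine if_congr ?_ rfl rfl
  constructor
  · rintro ⟨⟨h1, h2, h3, h4⟩, h5⟩
    exact ⟨h5, h1, by exact_mod_cast h2, by exact_mod_cast h3, h4⟩
  · rintro ⟨h5, h1, h2, h3, h4⟩
    exact ⟨⟨h1, by exact_mod_cast h2, by exact_mod_cast h3, h4⟩, h5⟩

private lemma osc_lam (Λ k lmax M r : ℕ) (Y : ℝ) (c c' : Bool) (A B : ℕ) :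
    osc M r (lam Λ k lmax M Y c c' A B) = ∑ y : ZMod (5 ^ M),
      |hh M (TTs Λ k lmax M Y c c' A B) y - ht M r (TTs Λ k lmax M Y c c' A B) y| := by
  rw [osc_apply]
  refine Finset.sum_congr rfl fun y _ => ?_
  rw [hh_eq, ht_eq]
  rfl

/-! ### the last letter -/

private lemma Tm_append {M lmax : ℕ} {Y : ℝ} {w : List Let} (l : Let) (h : lmax ≤ w.length) :
    Tm M lmax Y (w ++ [l]) ↔ Tm M lmax Y w := by
  have ht : ∀ n ≤ lmax, (w ++ [l]).take n = w.take n := fun n hn =>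
    List.take_append_of_le_length (hn.trans h)
  unfold Tm Stop
  constructor
  · rintro ⟨n, hn, ⟨h1, h2⟩, h3⟩
    rw [ht n hn] at h1 h3
    exact ⟨n, hn, ⟨h1, fun n' hn' => by rw [← ht n' (by omega)]; exact h2 n' hn'⟩, h3⟩
  · rintro ⟨n, hn, ⟨h1, h2⟩, h3⟩
    rw [← ht n hn] at h1 h3
    exact ⟨n, hn, ⟨h1, fun n' hn' => by rw [ht n' (by omega)]; exact h2 n' hn'⟩, h3⟩

/-- the translation -/
private noncomputable def tht (M k : ℕ) (A B : ℤ) : ZMod (5 ^ M) :=
  5 ^ k * (((2 ^ A.toNat * 3 ^ B.toNat : ℕ) : ZMod (5 ^ M)))⁻¹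

private lemma Fm_last (M : ℕ) (w : List Let) (l : Let) :
    Fm M (w ++ [l]) = Fm M w
      + tht M w.length ((sA w : ℤ) + (l.1 : ℤ)) ((sB w : ℤ) + (l.2 : ℤ)) := by
  have e1 : ((sA w : ℤ) + (l.1 : ℤ)).toNat = sA w + l.1 := by omega
  have e2 : ((sB w : ℤ) + (l.2 : ℤ)).toNat = sB w + l.2 := by omega
  rw [Fm_append]
  unfold tht
  rw [e1, e2, mul_assoc]
  congr 2
  have h1 := D_mul_inv M w
  have h2 := uu_mul M l
  have h3 : Fm M [l] = uu M l := by
    rw [Fm_cons]
    have h0 : Fm M [] = 0 := by simp [Fm]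
    rw [h0, mul_zero, add_zero, mul_one]
  rw [h3]
  symm
  apply ZMod.inv_eq_of_mul_eq_one
  have e3 : (2 ^ (sA w + l.1) * 3 ^ (sB w + l.2) : ℕ) = D w * dd l := by
    rw [D_eq, dd]
    ring
  rw [e3]
  push_cast
  calc ((D w : ℕ) : ZMod (5 ^ M)) * ((dd l : ℕ) : ZMod (5 ^ M)) *
        (((D w : ℕ) : ZMod (5 ^ M))⁻¹ * uu M l)
      = (((D w : ℕ) : ZMod (5 ^ M)) * ((D w : ℕ) : ZMod (5 ^ M))⁻¹) *
        (uu M l * ((dd l : ℕ) : ZMod (5 ^ M))) := by ring
    _ = 1 := by rw [h1, h2, one_mul]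

open Classical in
private lemma lam_peel {Λ k lmax M : ℕ} {Y : ℝ} {c : Bool} (c' : Bool) (A B : ℤ)
    (y : ZMod (5 ^ M)) (hk : lmax ≤ k) :
    lam Λ (k + 1) lmax M Y c c' A B (y + tht M k A B)
      = ∑ w ∈ W Λ k c, ∑ l ∈ L Λ (endc c w),
        if nx l = c' ∧ (sA w : ℤ) + l.1 = A ∧ (sB w : ℤ) + l.2 = B ∧ Tm M lmax Y w ∧ Fm M w = y
        then 1 / (D w : ℝ) * (1 / (dd l : ℝ)) else 0 := by
  unfold lam
  rw [sum_W_add]
  refine Finset.sum_congr rfl fun w hw => ?_
  rw [sum_W_succ]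
  refine Finset.sum_congr rfl fun l _ => ?_
  rw [sum_W_zero]
  have hlen := length_of_mem_W hw
  have hT := Tm_append (M := M) (Y := Y) l (by rw [hlen]; exact hk : lmax ≤ w.length)
  have hF := Fm_last M w l
  have hD : (1 / (D (w ++ [l]) : ℝ)) = 1 / (D w : ℝ) * (1 / (dd l : ℝ)) := by
    rw [D_append, D_cons, D_nil, mul_one, one_div_mul_one_div]
    push_cast
    rfl
  rw [hD]
  refine if_congr ?_ rfl rfl
  rw [hT, hF, endc_append, sA_append, sB_append, hlen]
  simp only [endc_cons, endc_nil, sA_cons, sA_nil, sB_cons, sB_nil, add_zero]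
  push_cast
  constructor
  · rintro ⟨h1, h2, h3, h4, h5⟩
    rw [h2, h3] at h5
    exact ⟨h1, h2, h3, h4, add_right_cancel h5⟩
  · rintro ⟨h1, h2, h3, h4, h5⟩
    refine ⟨h1, h2, h3, h4, ?_⟩
    rw [h2, h3, h5]

private lemma sum_L (Λ : ℕ) (c : Bool) (f : Let → ℝ) :
    ∑ l ∈ L Λ c, f l = ∑ a ∈ Finset.range Λ, ((∑ b ∈ Finset.range Λ, f (a + 1, b + 1))
      + if (if a % 2 = 0 then true else false) = c then f (a + 1, 0) else 0) := by
  unfold L
  rw [Finset.sum_filter, Finset.sum_product]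
  have h1 : ∀ g : ℕ → ℝ, ∑ a ∈ Finset.Icc 1 Λ, g a = ∑ a ∈ Finset.range Λ, g (a + 1) := by
    intro g
    rw [Finset.range_eq_Ico, Finset.sum_Ico_add' g 0 Λ 1]
    rfl
  rw [h1]
  refine Finset.sum_congr rfl fun a _ => ?_
  rw [Finset.sum_range_succ']
  refine congrArg₂ (fun s t : ℝ => s + t) (Finset.sum_congr rfl fun b _ => ?_) ?_
  · rw [if_pos]
    left
    simp
  · refine if_congr ?_ rfl rfl
    rcases Nat.mod_two_eq_zero_or_one a with h | h
    · have h' : (a + 1) % 2 = 1 := by omega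
      cases c <;> simp [h, h']
    · have h' : (a + 1) % 2 = 0 := by omega
      cases c <;> simp [h, h']

private lemma dd_two (a b : ℕ) :
    (1 / (dd (a, b) : ℝ)) = (1 / 2 : ℝ) ^ a * (1 / 3 : ℝ) ^ b := by
  unfold dd
  push_cast
  rw [one_div_pow, one_div_pow, one_div_mul_one_div]

open Classical in
private lemma rec_false {Λ k lmax M : ℕ} {Y : ℝ} {c : Bool} (A B : ℤ) (hk : lmax ≤ k) :
    (fun y => lam Λ (k + 1) lmax M Y c false A B (y + tht M k A B))
      = ∑ a ∈ Finset.range Λ, (1 / 2 : ℝ) ^ (a + 1) •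
        (if a % 2 = 0 then lam Λ k lmax M Y c true (A - (a + 1)) B
          else lam Λ k lmax M Y c false (A - (a + 1)) B) := by
  funext y
  rw [lam_peel false A B y hk, Finset.sum_apply]
  have e : ∀ a : ℕ, ((1 / 2 : ℝ) ^ (a + 1) •
        (if a % 2 = 0 then lam Λ k lmax M Y c true (A - (a + 1)) B
          else lam Λ k lmax M Y c false (A - (a + 1)) B)) y
      = ∑ w ∈ W Λ k c, if (if a % 2 = 0 then true else false) = endc c w then
        (if (sA w : ℤ) + (a + 1 : ℕ) = A ∧ (sB w : ℤ) = B ∧ Tm M lmax Y w ∧ Fm M w = y then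
          1 / (D w : ℝ) * (1 / 2 : ℝ) ^ (a + 1) else 0) else 0 := by
    intro a
    have e' : ∀ cc : Bool, ((1 / 2 : ℝ) ^ (a + 1) • lam Λ k lmax M Y c cc (A - (a + 1)) B) y
        = ∑ w ∈ W Λ k c, if cc = endc c w then
        (if (sA w : ℤ) + (a + 1 : ℕ) = A ∧ (sB w : ℤ) = B ∧ Tm M lmax Y w ∧ Fm M w = y then
          1 / (D w : ℝ) * (1 / 2 : ℝ) ^ (a + 1) else 0) else 0 := by
      intro cc
      rw [Pi.smul_apply, smul_eq_mul]
      unfold lam
      rw [Finset.mul_sum]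
      refine Finset.sum_congr rfl fun w _ => ?_
      rw [← ite_and, mul_ite, mul_zero]
      refine if_congr ?_ (mul_comm _ _) rfl
      push_cast
      constructor
      · rintro ⟨h1, h2, h3, h4, h5⟩
        exact ⟨h1.symm, by omega, h3, h4, h5⟩
      · rintro ⟨h1, h2, h3, h4, h5⟩
        exact ⟨h1.symm, by omega, h3, h4, h5⟩
    split_ifs with h
    · exact e' true
    · exact e' false
  rw [Finset.sum_congr rfl fun a _ => e a, Finset.sum_comm]
  refine Finset.sum_congr rfl fun w _ => ?_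
  rw [sum_L]
  refine Finset.sum_congr rfl fun a _ => ?_
  have h0 : (∑ b ∈ Finset.range Λ,
      (if nx (a + 1, b + 1) = false ∧ (sA w : ℤ) + ((a + 1, b + 1) : Let).1 = A ∧
        (sB w : ℤ) + ((a + 1, b + 1) : Let).2 = B ∧ Tm M lmax Y w ∧ Fm M w = y
        then 1 / (D w : ℝ) * (1 / (dd (a + 1, b + 1) : ℝ)) else 0)) = 0 := by
    refine Finset.sum_eq_zero fun b _ => ?_
    rw [if_neg]
    rintro ⟨h, _⟩
    simp [nx] at h
  rw [h0, zero_add]
  refine if_congr Iff.rfl (if_congr ?_ ?_ rfl) rfl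
  · simp [nx]
  · rw [dd_two, pow_zero, mul_one]

open Classical in
private lemma rec_true {Λ k lmax M : ℕ} {Y : ℝ} {c : Bool} (A B : ℤ) (hk : lmax ≤ k) :
    (fun y => lam Λ (k + 1) lmax M Y c true A B (y + tht M k A B))
      = ∑ a ∈ Finset.range Λ, (1 / 2 : ℝ) ^ (a + 1) •
        ∑ b ∈ Finset.range Λ, (1 / 3 : ℝ) ^ (b + 1) •
          (lam Λ k lmax M Y c true (A - (a + 1)) (B - (b + 1))
            + lam Λ k lmax M Y c false (A - (a + 1)) (B - (b + 1))) := by
  funext y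
  rw [lam_peel true A B y hk, Finset.sum_apply]
  have e : ∀ a : ℕ, ((1 / 2 : ℝ) ^ (a + 1) •
        ∑ b ∈ Finset.range Λ, (1 / 3 : ℝ) ^ (b + 1) •
          (lam Λ k lmax M Y c true (A - (a + 1)) (B - (b + 1))
            + lam Λ k lmax M Y c false (A - (a + 1)) (B - (b + 1)))) y
      = ∑ w ∈ W Λ k c, ∑ b ∈ Finset.range Λ,
        (if (sA w : ℤ) + (a + 1 : ℕ) = A ∧ (sB w : ℤ) + (b + 1 : ℕ) = B ∧ Tm M lmax Y w ∧
          Fm M w = y then 1 / (D w : ℝ) * ((1 / 2 : ℝ) ^ (a + 1) * (1 / 3 : ℝ) ^ (b + 1))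
          else 0) := by
    intro a
    rw [Pi.smul_apply, smul_eq_mul, Finset.sum_apply, Finset.mul_sum, Finset.sum_comm]
    refine Finset.sum_congr rfl fun b _ => ?_
    rw [Pi.smul_apply, smul_eq_mul, Pi.add_apply]
    unfold lam
    rw [← Finset.sum_add_distrib, Finset.mul_sum, Finset.mul_sum]
    refine Finset.sum_congr rfl fun w _ => ?_
    have e1 : ((sA w : ℤ) = A - (a + 1)) ↔ ((sA w : ℤ) + (a + 1 : ℕ) = A) := by
      push_cast; omega
    have e2 : ((sB w : ℤ) = B - (b + 1)) ↔ ((sB w : ℤ) + (b + 1 : ℕ) = B) := by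
      push_cast; omega
    simp only [e1, e2]
    by_cases h : (sA w : ℤ) + (a + 1 : ℕ) = A ∧ (sB w : ℤ) + (b + 1 : ℕ) = B ∧ Tm M lmax Y w ∧
        Fm M w = y
    · rw [if_pos h]
      cases hc : endc c w
      · rw [if_neg (by simp), if_pos ⟨rfl, h⟩]
        ring
      · rw [if_pos ⟨rfl, h⟩, if_neg (by simp)]
        ring
    · rw [if_neg h, if_neg (fun h' => h h'.2), if_neg (fun h' => h h'.2)]
      ring
  rw [Finset.sum_congr rfl fun a _ => e a, Finset.sum_comm]
  refine Finset.sum_congr rfl fun w _ => ?_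
  rw [sum_L]
  refine Finset.sum_congr rfl fun a _ => ?_
  have h0 : (if (if a % 2 = 0 then true else false) = endc c w then
      (if nx (a + 1, 0) = true ∧ (sA w : ℤ) + ((a + 1, 0) : Let).1 = A ∧
        (sB w : ℤ) + ((a + 1, 0) : Let).2 = B ∧ Tm M lmax Y w ∧ Fm M w = y
        then 1 / (D w : ℝ) * (1 / (dd (a + 1, 0) : ℝ)) else 0) else 0) = 0 := by
    rw [ite_eq_right_iff]
    intro _
    rw [if_neg]
    rintro ⟨h, _⟩
    simp [nx] at h
  rw [h0, add_zero]
  refine Finset.sum_congr rfl fun b _ => ?_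
  refine if_congr ?_ ?_ rfl
  · simp [nx]
  · rw [dd_two]

private lemma inv_step {Λ k lmax M r : ℕ} {Y q : ℝ} {c : Bool} (hΛ : 2 ≤ Λ) (hk : lmax ≤ k)
    (hq : 0 ≤ q)
    (h : ∀ (c' : Bool) (A B : ℕ), osc M r (lam Λ (k + 1) lmax M Y c c' A B) ≤ q)
    (c' : Bool) (A B : ℕ) : osc M r (lam Λ k lmax M Y c c' A B) ≤ 52 * q := by
  have hz : ∀ (c' : Bool) (A B : ℤ),
      osc M r (fun y => lam Λ (k + 1) lmax M Y c c' A B (y + tht M k A B)) ≤ q := by
    intro c' A B
    rw [osc_trans M r (lam Λ (k + 1) lmax M Y c c' A B)]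
    by_cases hn : A < 0 ∨ B < 0
    · rw [lam_neg _ _ _ _ _ _ _ _ _ hn, map_zero]
      exact hq
    · obtain ⟨A', rfl⟩ := Int.eq_ofNat_of_zero_le (by omega : 0 ≤ A)
      obtain ⟨B', rfl⟩ := Int.eq_ofNat_of_zero_le (by omega : 0 ≤ B)
      exact h c' A' B'
  have := invAbs (osc M r) Λ hΛ q hq (fun A B => lam Λ k lmax M Y c true A B)
    (fun A B => lam Λ k lmax M Y c false A B)
    (fun A B => fun y => lam Λ (k + 1) lmax M Y c true A B (y + tht M k A B))
    (fun A B => fun y => lam Λ (k + 1) lmax M Y c false A B (y + tht M k A B))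
    (fun A B hn => lam_neg _ _ _ _ _ _ _ _ _ hn) (fun A B hn => lam_neg _ _ _ _ _ _ _ _ _ hn)
    (fun A B => rec_false A B hk) (fun A B => rec_true A B hk)
    (fun A B => hz true A B) (fun A B => hz false A B) A B
  cases c'
  · exact this.2
  · exact this.1

theorem inversion : Inversion := by
  intro s
  induction s with
  | zero =>
    intro Λ M r lmax Y Mx c _ _ _ _ h c' A B
    rw [pow_zero, one_mul, Nat.sub_zero]
    exact h c' A B
  | succ s ih =>
    intro Λ M r lmax Y Mx c hΛ hr hs hMx h c' A B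
    have h1 := ih Λ M r lmax Y Mx c hΛ hr (by omega) hMx h
    obtain ⟨k, hk⟩ : ∃ k, M - s = k + 1 := ⟨M - s - 1, by omega⟩
    have hk' : M - (s + 1) = k := by omega
    rw [hk] at h1
    rw [hk', ← osc_lam, pow_succ', mul_assoc]
    refine inv_step hΛ (by omega) (by positivity) (fun c' A B => ?_) c' A B
    rw [osc_lam]
    exact h1 c' A B

end K5.ID
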