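import Pool.Agent.Lib.MP_a4658c_nt.ID.Final
import Pool.Agent.Lib.MP_a4658c_nt.ID.EqConv
import Pool.Agent.Lib.MP_a4658c_nt.ID.Inversion
import Pool.Agent.Lib.MP_a4658c_nt.ID.Cells

/-!
MP_a4658c_nt, equidistribution of the invariant sets of the Kakutani map in residue classes: the
theorem.
-/

set_option autoImplicit false

open Filter Topology

namespace K5.ID

open K5

theorem transR_holds : TransR :=
  transR_of num_basic num_deficit num_tails num_rest num_factor num_mix inversion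

open Classical in
theorem compl_density (A : Set ℕ) (d : ℝ)
    (hd : Tendsto (fun N : ℕ => (((Finset.Icc 1 N).filter (fun n => n ∈ A)).card : ℝ) / N)
      atTop (𝓝 d)) :
    Tendsto (fun N : ℕ => (((Finset.Icc 1 N).filter (fun n => n ∈ Aᶜ)).card : ℝ) / N)
      atTop (𝓝 (1 - d)) := by
  have h1 : Tendsto (fun N : ℕ =>
      1 - (((Finset.Icc 1 N).filter (fun n => n ∈ A)).card : ℝ) / N) atTop (𝓝 (1 - d)) :=
    tendsto_const_nhds.sub hd
  refine h1.congr' ?_
  filter_upwards [eventually_ge_atTop 1] with N hN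
  have hN0 : (0 : ℝ) < N := by exact_mod_cast hN
  have h2 : ((Finset.Icc 1 N).filter (fun n => n ∈ A)).card +
      ((Finset.Icc 1 N).filter (fun n => n ∈ Aᶜ)).card = N := by
    have h3 := Finset.card_filter_add_card_filter_not (s := Finset.Icc 1 N) (fun n => n ∈ A)
    rw [Nat.card_Icc, Nat.add_sub_cancel] at h3
    exact h3
  have h4 : (((Finset.Icc 1 N).filter (fun n => n ∈ A)).card : ℝ) +
      (((Finset.Icc 1 N).filter (fun n => n ∈ Aᶜ)).card : ℝ) = N := by exact_mod_cast h2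
  rw [eq_div_iff hN0.ne', sub_mul, div_mul_cancel₀ _ hN0.ne']
  linarith

open Classical in
theorem equidistribution (A : Set ℕ) (n₀ : ℕ) (hA : ∀ n > n₀, (n ∈ A ↔ kak n ∈ A)) (d : ℝ)
    (hd : Tendsto (fun N : ℕ => (((Finset.Icc 1 N).filter (fun n => n ∈ A)).card : ℝ) / N)
      atTop (𝓝 d)) (i j l a : ℕ) (ha : a < 2 ^ i * 3 ^ j * 5 ^ l) :
    Tendsto (fun N : ℕ => (((Finset.Icc 1 N).filter
      (fun n => n % (2 ^ i * 3 ^ j * 5 ^ l) = a ∧ n ∈ A)).card : ℝ) / N) atTop
      (𝓝 (d / (2 ^ i * 3 ^ j * 5 ^ l))) := by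
  have hA' : ∀ n > n₀, (n ∈ Aᶜ ↔ kak n ∈ Aᶜ) := by
    intro n hn
    rw [Set.mem_compl_iff, Set.mem_compl_iff, hA n hn]
  have h1 := star_of trans_holds uc near propagate taub allInt transR_holds A n₀ hA hd
  have h2 := star_of trans_holds uc near propagate taub allInt transR_holds Aᶜ n₀ hA'
    (by convert compl_density A d (by convert hd))
  exact cells A n₀ d hA h1 h2 i j l a ha

end K5.ID
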