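import Pool.Agent.Lib.MP_a4658c_nt.ID.Defs
import Pool.Agent.Lib.MP_a4658c_nt.K5.R2

/-!
MP_a4658c_nt, natural density of the invariant sets of the Kakutani map: pushing forward
(generalisation of K5.R2 and of a lemma of K5.R4 to invariant predicates).
-/

set_option autoImplicit false

namespace K5.ID

open K5

private lemma idCnum (u : List Let) (hu : u ≠ []) : 5 ^ u.length ≤ 5 * cnum u := by
  induction u with
  | nil => exact absurd rfl hu
  | cons l u ih =>
    simp only [List.length_cons, cnum_cons]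
    by_cases h : u = []
    · subst h
      simp
    · have := ih h
      have hD := D_pos u
      rw [pow_succ]
      nlinarith


/-- all the points above `m = S^j n` on a word with bounded offset are large -/
theorem high {j m n : ℕ} {X K : ℝ} {w : List Let} (hU : U n) (hK : 1 ≤ K) (hS : S^[j] n = m)
    (hfw : fword j n = w) (hF : Fr w ≤ K) (hX : X < ((m : ℝ) - K) / (5 * K)) :
    ∀ i < j, X < (S^[i] n : ℝ) := by
  intro i hi
  have hK0 : 0 < K := by linarith
  set u := fword (j - i) (S^[i] n) with hu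
  have hsplit : w = u ++ fword i n := by
    rw [hu, ← fword_add, Nat.sub_add_cancel hi.le, hfw]
  have hulen : u.length = j - i := length_fword _ _
  have hune : u ≠ [] := by
    intro h0
    rw [h0] at hulen
    simp at hulen
    omega
  have hDu : (0 : ℝ) < D u := by exact_mod_cast D_pos u
  have hFu : Fr u ≤ K := by
    have h1 : Fr w = Fr u + 5 ^ u.length / D u * Fr (fword i n) := by rw [hsplit, Fr_append]
    have h2 : 0 ≤ 5 ^ u.length / (D u : ℝ) * Fr (fword i n) :=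
      mul_nonneg (by positivity) (Fr_nonneg _)
    linarith
  have heq : 5 ^ (j - i) * S^[i] n + cnum u = D u * m := by
    have h1 := fword_eq (U_iter hU i) (j - i)
    rw [← hu] at h1
    have h2 : S^[j - i] (S^[i] n) = m := by
      rw [← Function.iterate_add_apply, Nat.sub_add_cancel hi.le, hS]
    rw [h2] at h1
    exact h1
  have hcn : (5 : ℝ) ^ (j - i) ≤ 5 * cnum u := by
    have := idCnum u hune
    rw [hulen] at this
    exact_mod_cast this
  have hcK : (cnum u : ℝ) ≤ K * D u := by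
    have := hFu
    unfold Fr at this
    rwa [div_le_iff₀ hDu] at this
  have heqR : (5 : ℝ) ^ (j - i) * (S^[i] n : ℝ) + cnum u = D u * m := by exact_mod_cast heq
  have h5 : (0 : ℝ) < 5 ^ (j - i) := by positivity
  have hn0 : (0 : ℝ) ≤ (S^[i] n : ℝ) := Nat.cast_nonneg _
  rcases le_or_gt K (m : ℝ) with hmK | hmK
  · refine hX.trans_le ?_
    rw [div_le_iff₀ (by positivity)]
    have h6 : (5 : ℝ) ^ (j - i) ≤ 5 * K * D u := by nlinarith
    have h7 : (D u : ℝ) * (m - K) ≤ 5 ^ (j - i) * (S^[i] n : ℝ) := by nlinarith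
    have h8 : (5 : ℝ) ^ (j - i) * (S^[i] n : ℝ) ≤ 5 * K * D u * (S^[i] n : ℝ) :=
      mul_le_mul_of_nonneg_right h6 hn0
    have h9 : (D u : ℝ) * (m - K) ≤ D u * ((S^[i] n : ℝ) * (5 * K)) := by
      calc (D u : ℝ) * (m - K) ≤ 5 * K * D u * (S^[i] n : ℝ) := h7.trans h8
        _ = _ := by ring
    exact le_of_mul_le_mul_left h9 hDu
  · refine hX.trans_le ((div_nonpos_of_nonpos_of_nonneg (by linarith) (by positivity)).trans hn0)

theorem X_lt {m : ℕ} {X K : ℝ} (hK : 1 ≤ K) (hX : X < ((m : ℝ) - K) / (5 * K)) :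
    X < (m : ℝ) := by
  refine hX.trans_le ?_
  rw [div_le_iff₀ (by positivity)]
  have hm : (0 : ℝ) ≤ m := Nat.cast_nonneg _
  nlinarith

/-- invariance along an orbit segment above `X` -/
theorem iter_iff {X : ℝ} {P : ℕ → Prop} (hP : Inv X P) {n : ℕ} (hU : U n) (j : ℕ)
    (h : ∀ i ≤ j, X < (S^[i] n : ℝ)) : P n ↔ P (S^[j] n) := by
  induction j with
  | zero => exact Iff.rfl
  | succ j ih =>
    rw [ih (fun i hi => h i (by omega)), Function.iterate_succ_apply']
    refine hP _ (U_iter hU j) (h j (by omega)) ?_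
    have := h (j + 1) le_rfl
    rwa [Function.iterate_succ_apply'] at this

/-- the two ends of a word with bounded offset -/
theorem ends_iff {X K : ℝ} {P : ℕ → Prop} (hP : Inv X P) {j m n : ℕ} {w : List Let} (hU : U n)
    (hK : 1 ≤ K) (hS : S^[j] n = m) (hfw : fword j n = w) (hF : Fr w ≤ K)
    (hX : X < ((m : ℝ) - K) / (5 * K)) : P n ↔ P m := by
  rw [← hS]
  refine iter_iff hP hU j fun i hi => ?_
  rcases Nat.lt_or_ge i j with h | h
  · exact high hU hK hS hfw hF hX i h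
  · have : i = j := by omega
    subst this
    rw [hS]
    exact X_lt hK hX

theorem Inv.not {X : ℝ} {P : ℕ → Prop} (hP : Inv X P) : Inv X (fun n => ¬ P n) := by
  intro n h1 h2 h3
  exact not_congr (hP n h1 h2 h3)

/-- the pointwise bound -/
lemma idPoint {K x z₁ P Dw cn : ℝ} {n m : ℕ} (hx : 0 < x) (hz₁ : 0 < z₁)
    (hKz : K < z₁) (hn : 1 ≤ n) (hP : 0 < P) (hD : 0 < Dw) (hcn : 0 ≤ cn) (hF : cn / Dw ≤ K)
    (hm : z₁ ≤ (m : ℝ)) (he : P * n + cn = Dw * m) :
    ker x n ≤ (1 / (1 - K / z₁)) ^ 2 * (1 / (m : ℝ) * (P / Dw * kr ((m : ℝ) * Dw / P) x)) := by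
  have hn0 : (0 : ℝ) < n := by exact_mod_cast hn
  have hm0 : (0 : ℝ) < m := by linarith
  have hK0 : 0 ≤ K := (by positivity : (0 : ℝ) ≤ cn / Dw).trans hF
  set y : ℝ := (m : ℝ) * Dw / P with hy
  have hy0 : 0 < y := by positivity
  have hyn : (n : ℝ) ≤ y := by
    rw [hy, le_div_iff₀ hP]
    linarith
  have hq1 : 0 < 1 - K / z₁ := by
    rw [sub_pos, div_lt_one hz₁]
    exact hKz
  have hq : y / n ≤ 1 / (1 - K / z₁) := by
    rw [div_le_div_iff₀ hn0 hq1]
    have h1 : cn / Dw / m ≤ K / z₁ := div_le_div₀ hK0 hF hz₁ hm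
    have h2 : y * (cn / Dw / m) = cn / P := by
      rw [hy]
      field_simp
    have h3 : y = n + cn / P := by
      rw [hy]
      field_simp
      linarith
    have h4 : y * (cn / Dw / m) ≤ y * (K / z₁) := mul_le_mul_of_nonneg_left h1 hy0.le
    nlinarith
  have hk := (kr_lip hn0 hyn hx).2
  have hkn : 0 ≤ kr y x := kr_nonneg hy0 hx
  rw [ker_eq hx hn]
  have e1 : 1 / (n : ℝ) = y / n * (1 / (m : ℝ) * (P / Dw)) := by
    rw [hy]
    field_simp
  have hyq : 0 ≤ y / n := by positivity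
  calc 1 / (n : ℝ) * kr n x ≤ 1 / (n : ℝ) * (y / n * kr y x) :=
        mul_le_mul_of_nonneg_left hk (by positivity)
    _ = y / n * (1 / (m : ℝ) * (P / Dw)) * (y / n * kr y x) := by rw [← e1]
    _ = (y / n) ^ 2 * (1 / (m : ℝ) * (P / Dw * kr y x)) := by ring
    _ ≤ (1 / (1 - K / z₁)) ^ 2 * (1 / (m : ℝ) * (P / Dw * kr y x)) := by
        refine mul_le_mul_of_nonneg_right (pow_le_pow_left₀ hyq hq 2) (by positivity)

open Classical in
/-- (4)(iii). -/
lemma push {Λ k lmax N N₂ : ℕ} {c' : Bool} {P : ℕ → Prop} {X x Y K E z z' z₁ z₂ : ℝ}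
    (hP : Inv X P) (hx : 0 < x) (hK : 1 ≤ K) (hX : X < (z₁ - K) / (5 * K))
    (hE : 1 ≤ E) (hz₁ : 0 < z₁) (hKz : K < z₁) (h1 : z₁ * E ≤ z) (h2 : 5 ^ k * z' + K ≤ z₂)
    (hN₂ : z₂ ≤ N₂) (hTm : ∀ c, ∀ w ∈ W Λ k c, Pgood lmax Y K E w → Tm k lmax Y w) :
    ∑ n ∈ (Finset.Icc 1 N).filter (fun n => U n ∧ P n ∧ cl n = c' ∧ z ≤ (n : ℝ) ∧ (n : ℝ) ≤ z' ∧
        GoodN Λ k lmax Y K E n), ker x n
      ≤ (1 / (1 - K / z₁)) ^ 2 * ∑ c : Bool, ∑ m ∈ MP P c N₂ z₁ z₂, 1 / (m : ℝ) *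
          ∑ w ∈ (TA Λ k lmax Y E c c').filter (fun w => Fm k w = (m : ZMod (5 ^ k))),
            5 ^ k / (D w : ℝ) * kr ((m : ℝ) * D w / 5 ^ k) x := by
  set A := (Finset.Icc 1 N).filter (fun n => U n ∧ P n ∧ cl n = c' ∧ z ≤ (n : ℝ) ∧ (n : ℝ) ≤ z' ∧
        GoodN Λ k lmax Y K E n) with hA
  set T : Finset (Σ _ : Bool, Σ _ : ℕ, List Let) :=
    (Finset.univ : Finset Bool).sigma (fun c => (MP P c N₂ z₁ z₂).sigma (fun m =>
      (TA Λ k lmax Y E c c').filter (fun w => Fm k w = (m : ZMod (5 ^ k))))) with hT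
  set g : (Σ _ : Bool, Σ _ : ℕ, List Let) → ℝ := fun p =>
    1 / (p.2.1 : ℝ) * (5 ^ k / (D p.2.2 : ℝ) * kr ((p.2.1 : ℝ) * D p.2.2 / 5 ^ k) x) with hg
  set φ : ℕ → (Σ _ : Bool, Σ _ : ℕ, List Let) :=
    fun n => ⟨cl (S^[k] n), S^[k] n, fword k n⟩ with hφ
  have hrhs : ∑ c : Bool, ∑ m ∈ MP P c N₂ z₁ z₂, 1 / (m : ℝ) *
          ∑ w ∈ (TA Λ k lmax Y E c c').filter (fun w => Fm k w = (m : ZMod (5 ^ k))),
            5 ^ k / (D w : ℝ) * kr ((m : ℝ) * D w / 5 ^ k) x = ∑ p ∈ T, g p := by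
    rw [hT, Finset.sum_sigma]
    refine Finset.sum_congr rfl fun c _ => ?_
    rw [Finset.sum_sigma]
    refine Finset.sum_congr rfl fun m _ => ?_
    rw [Finset.mul_sum]
  rw [hrhs]
  have hfact : ∀ n ∈ A, φ n ∈ T ∧ ker x n ≤ (1 / (1 - K / z₁)) ^ 2 * g (φ n) := by
    intro n hn
    rw [hA, Finset.mem_filter, Finset.mem_Icc] at hn
    obtain ⟨⟨hn1, -⟩, hU, hPn, hcl, hzn, hnz, hgood⟩ := hn
    obtain ⟨hW, hY, hF, hDE⟩ := hgood
    have heq := fword_eq hU k
    have hUm := U_iter hU k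
    set m : ℕ := S^[k] n with hm
    set w : List Let := fword k n with hw
    have hD0 : (0 : ℝ) < D w := by exact_mod_cast D_pos w
    have hD1 : (1 : ℝ) ≤ D w := by exact_mod_cast D_pos w
    have hP1 : (1 : ℝ) ≤ 5 ^ k := one_le_pow₀ (by norm_num)
    have heqR : (5 : ℝ) ^ k * n + (cnum w : ℝ) = (D w : ℝ) * m := by exact_mod_cast heq
    have hc0 : (0 : ℝ) ≤ (cnum w : ℝ) := Nat.cast_nonneg _
    have hn0 : (0 : ℝ) < n := by exact_mod_cast hn1
    have hm1 : 1 ≤ m := by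
      have := hUm.1
      omega
    have hm0 : (0 : ℝ) ≤ m := Nat.cast_nonneg _
    have hmz₁ : z₁ ≤ (m : ℝ) := by
      have e1 : (n : ℝ) ≤ 5 ^ k * n := le_mul_of_one_le_left hn0.le hP1
      have e2 : (D w : ℝ) * m ≤ E * m := mul_le_mul_of_nonneg_right hDE hm0
      have e3 : z₁ * E ≤ E * m := by linarith
      have e4 : E * z₁ ≤ E * m := by linarith
      exact le_of_mul_le_mul_left e4 (by linarith)
    have hFK : (cnum w : ℝ) / D w ≤ K := hF
    have hmz₂ : (m : ℝ) ≤ z₂ := by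
      have e1 : (m : ℝ) = 5 ^ k * n / D w + (cnum w : ℝ) / D w := by
        field_simp
        linarith
      have e2 : (5 : ℝ) ^ k * n / D w ≤ 5 ^ k * n := div_le_self (by positivity) hD1
      have e3 : (5 : ℝ) ^ k * n ≤ 5 ^ k * z' := mul_le_mul_of_nonneg_left hnz (by positivity)
      linarith
    constructor
    · rw [hT, hφ]
      simp only [Finset.mem_sigma, Finset.mem_univ, true_and, Finset.mem_filter]
      refine ⟨?_, ?_, ?_⟩
      · rw [MP, Finset.mem_filter, Finset.mem_Icc]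
        refine ⟨⟨hm1, ?_⟩, hUm, ?_, rfl, hmz₁, hmz₂⟩
        · exact_mod_cast hmz₂.trans hN₂
        · refine (ends_iff hP hU hK hm.symm hw.symm hF ?_).1 hPn
          refine hX.trans_le ?_
          exact div_le_div_of_nonneg_right (by linarith) (by positivity)
      · rw [TA, Finset.mem_filter]
        refine ⟨hW, ?_, hDE, hTm _ _ hW ⟨hY, hF, hDE⟩⟩
        have := endc_fword hU k
        rw [← hm, ← hw] at this
        rw [this, hcl]
      · unfold Fm
        have hz5 : ((5 : ZMod (5 ^ k))) ^ k = 0 := by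
          have := ZMod.natCast_self (5 ^ k)
          exact_mod_cast this
        have e1 : (5 : ZMod (5 ^ k)) ^ k * n + (cnum w : ZMod (5 ^ k))
            = ((D w : ℕ) : ZMod (5 ^ k)) * m := by exact_mod_cast congrArg (Nat.cast) heq
        rw [hz5, zero_mul, zero_add] at e1
        show (cnum w : ZMod (5 ^ k)) * ((D w : ℕ) : ZMod (5 ^ k))⁻¹ = _
        rw [e1, mul_comm, ← mul_assoc, mul_comm _ ((D w : ℕ) : ZMod (5 ^ k)), D_mul_inv, one_mul]
    · exact idPoint hx hz₁ hKz hn1 (by positivity) hD0 hc0 hFK hmz₁ heqR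
  have hinj : Set.InjOn φ (A : Set ℕ) := by
    intro n hn n' hn' hee
    rw [Finset.mem_coe, hA, Finset.mem_filter] at hn hn'
    have e1 := fword_eq hn.2.1 k
    have e2 := fword_eq hn'.2.1 k
    rw [hφ] at hee
    simp only [Sigma.mk.injEq, heq_eq_eq] at hee
    obtain ⟨-, hmm, hww⟩ := hee
    rw [hmm, hww] at e1
    have e3 : 5 ^ k * n = 5 ^ k * n' := by omega
    exact Nat.eq_of_mul_eq_mul_left (by positivity) e3
  have hg0 : ∀ p ∈ T, 0 ≤ g p := by
    intro p hp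
    rw [hT] at hp
    simp only [Finset.mem_sigma, Finset.mem_univ, true_and, Finset.mem_filter] at hp
    have hm := hp.1
    rw [MP, Finset.mem_filter] at hm
    have hm0 : (0 : ℝ) < (p.2.1 : ℝ) := lt_of_lt_of_le hz₁ hm.2.2.2.2.1
    have hD0 : (0 : ℝ) < D p.2.2 := by exact_mod_cast D_pos _
    have := kr_nonneg (by positivity : (0 : ℝ) < (p.2.1 : ℝ) * D p.2.2 / 5 ^ k) hx
    rw [hg]
    positivity
  calc ∑ n ∈ A, ker x n ≤ ∑ n ∈ A, (1 / (1 - K / z₁)) ^ 2 * g (φ n) :=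
        Finset.sum_le_sum fun n hn => (hfact n hn).2
    _ = (1 / (1 - K / z₁)) ^ 2 * ∑ n ∈ A, g (φ n) := by rw [Finset.mul_sum]
    _ = (1 / (1 - K / z₁)) ^ 2 * ∑ p ∈ A.image φ, g p := by rw [Finset.sum_image hinj]
    _ ≤ (1 / (1 - K / z₁)) ^ 2 * ∑ p ∈ T, g p := by
        refine mul_le_mul_of_nonneg_left ?_ (by positivity)
        refine Finset.sum_le_sum_of_subset_of_nonneg ?_ (fun p hp _ => hg0 p hp)
        intro p hp
        rw [Finset.mem_image] at hp
        obtain ⟨n, hn, rfl⟩ := hp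
        exact (hfact n hn).1


end K5.ID
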