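import Pool.Agent.Lib.MP_a4658c_nt.ID.Defs

/-!
MP_a4658c_nt, natural density of the invariant sets of the Kakutani map: the statements of the
pieces (as propositions; each piece file proves one of them).
-/

set_option autoImplicit false

open Filter Topology

namespace K5.ID

open K5

/-- NUM, numerics -/
def NumBasic : Prop := ∀ A : ℕ, ∃ t₀ : ℝ, 0 < t₀ ∧ ∀ t, t₀ ≤ t →
    rr t ≤ kk t ∧ lm t ≤ kk t - rr t ∧ 2 ≤ LA A t ∧ 1 ≤ KA A t ∧ 1 ≤ YA A t ∧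
    KA A t * (YA A t * 6 ^ LA A t) < 5 ^ kk t ∧ 1 ≤ EE t ∧ KA A t < Real.exp (t / 2) ∧
    (∀ X : ℝ, X ≤ Real.exp (t / 4) → X < (Real.exp (t / 2) - KA A t) / (5 * KA A t)) ∧
    5 ^ kk t * Real.exp (5 * t / 4) + KA A t ≤ Real.exp (2 * t)

def NumDeficit : Prop := ∀ A : ℕ, ∃ t₀ C : ℝ, 0 < t₀ ∧ 0 < C ∧ ∀ t, t₀ ≤ t →
    kk t * (2 * (1 / 2 : ℝ) ^ LA A t) + 6 * YA A t * (0.81 / 5) ^ lm t + 40 / KA A t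
      + 2 * (5 ^ kk t / Real.sqrt (EE t)) ≤ C / t ^ A

def NumTails : Prop := ∀ A : ℕ, ∃ t₀ C : ℝ, 0 < t₀ ∧ 0 < C ∧ ∀ t, t₀ ≤ t →
    3 * Real.exp (-(t / 4)) + (1 + 8 / 3 * EE t) / Real.exp t ≤ C / t ^ A

def NumRest : Prop := ∀ A : ℕ, ∃ t₀ C : ℝ, 0 < t₀ ∧ 0 < C ∧ ∀ t, t₀ ≤ t → ∀ r : ℕ,
    54 / KA A t * (5 ^ (kk t - r) / Real.exp (t / 2)
      + Real.log (Real.exp (2 * t) / Real.exp (t / 2))) ≤ C / t ^ A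

def NumFactor : Prop := ∀ A : ℕ, ∃ t₀ C : ℝ, 0 < t₀ ∧ 0 < C ∧ ∀ t, t₀ ≤ t →
    (1 / (1 - KA A t / Real.exp (t / 2))) ^ 3 ≤ 1 + C / t ^ A ∧
    0 < 1 - KA A t / Real.exp (t / 2)

def NumMix : Prop := ∀ (A : ℕ) (K₀ : ℝ), 0 < K₀ → ∃ t₀ C : ℝ, 0 < t₀ ∧ 0 < C ∧ ∀ t, t₀ ≤ t →
    ∀ r : ℕ, r ≤ rr t →
    2 * (((kk t : ℝ) * LA A t + 1) ^ 2 *
      (5 ^ kk t * (2 * ((lm t : ℝ) + 1) * ((kk t : ℝ) * LA A t + 1) ^ 2) *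
        (8 * (K₀ / (((kk t - r - lm t : ℕ) : ℝ) + 1) ^ (10 * A + 28)) *
          Real.sqrt (5 ^ kk t / YA A t))) *
      (1 / Real.exp (t / 2) + Real.log (Real.exp (2 * t) / Real.exp (t / 2)) / 5 ^ kk t))
      ≤ C / t ^ A

/-- PROP, propagation of an upper bound from a window to everything above it -/
def Propagate : Prop := ∀ A : ℕ, 1 ≤ A → ∃ K κ T : ℝ, 0 < K ∧ 0 < κ ∧ 1 ≤ T ∧
  ∀ (t₀ C : ℝ) (h : Bool → ℝ → ℝ), 0 ≤ C → TI (A + 1) t₀ C h → (∀ c t, 0 ≤ h c t) →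
    (∀ c t, h c t ≤ 3) → ∀ s₀ l β : ℝ, t₀ ≤ s₀ → T ≤ s₀ → T ≤ l → 0 ≤ β →
    (∀ c s, s₀ ≤ s → s ≤ s₀ + l → h c s ≤ β) →
    ∀ c s, s₀ ≤ s → h c s ≤ β + K * Real.exp (-(κ * l)) + K * (C + 1) / s₀ ^ A

/-- NEAR, near-maximal windows -/
def Near : Prop := ∀ (t₀ C : ℝ) (h : Bool → ℝ → ℝ), 0 ≤ C → TI 1 t₀ C h → (∀ c t, 0 ≤ h c t) →
    (∀ c s s', s ≤ s' → h c s' ≤ Real.exp (s' - s) * h c s ∧
      h c s ≤ Real.exp (s' - s) * h c s') →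
    ∀ M : ℝ, (∀ ε > 0, ∃ T : ℝ, ∀ t ≥ T, ∀ c, h c t ≤ M + ε) →
    (∀ ε > 0, ∀ T : ℝ, ∃ t ≥ T, ∃ c, M - ε ≤ h c t) →
    ∀ ε > 0, ∀ l T : ℝ, ∃ s₀ ≥ T, ∀ c s, s₀ ≤ s → s ≤ s₀ + l → M - ε ≤ h c s

open Classical in
/-- TAUB, from the smoothed density to the natural density -/
def Taub : Prop := ∀ (Q : ℕ → Prop) (M : ℝ),
    Tendsto (fun t : ℝ => ∑' n : ℕ, if 1 ≤ n ∧ Q n then ker (Real.exp t) n else 0) atTop (𝓝 M) →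
    Tendsto (fun N : ℕ => (((Finset.Icc 1 N).filter (fun n => Q n)).card : ℝ) / N) atTop
      (𝓝 (M / 2))

open Classical in
/-- ALL, from the integers prime to 6 to all integers -/
def AllInt : Prop := ∀ (A : Set ℕ) (n₀ : ℕ) (d : ℝ), (∀ n > n₀, (n ∈ A ↔ kak n ∈ A)) →
    Tendsto (fun N : ℕ => (((Finset.Icc 1 N).filter (fun n => U n ∧ n ∈ A)).card : ℝ) / N) atTop
      (𝓝 d) →
    Tendsto (fun N : ℕ => (((Finset.Icc 1 N).filter (fun n => n ∈ A)).card : ℝ) / N) atTop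
      (𝓝 (3 * d))

open Classical in
/-- SIGMA, countable additivity -/
def Sigma : Prop :=
  (∃ C c : ℝ, 0 < C ∧ 0 < c ∧ ∀ (X : ℝ), 1 ≤ X → ∀ N : ℕ,
    (((Finset.Icc 1 N).filter (fun n => ∀ k : ℕ, X < (kak^[k] n : ℝ))).card : ℝ)
      ≤ C * X ^ (-c) * N) →
  ∀ (A : ℕ → Set ℕ) (d : ℕ → ℝ), (∀ i, ∀ n ≥ 1, (n ∈ A i ↔ kak n ∈ A i)) →
    Pairwise (fun i j => Disjoint (A i) (A j)) →
    (∀ i, Tendsto (fun N : ℕ => (((Finset.Icc 1 N).filter (fun n => n ∈ A i)).card : ℝ) / N) atTop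
      (𝓝 (d i))) →
    Summable d ∧
    Tendsto (fun N : ℕ => (((Finset.Icc 1 N).filter (fun n => ∃ i, n ∈ A i)).card : ℝ) / N) atTop
      (𝓝 (∑' i, d i))

end K5.ID
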