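import Pool.Agent.Lib.MP_a4658c_nt.ID.TransferN

/-!
MP_a4658c_nt, natural density of the invariant sets of the Kakutani map: the smoothed densities
`fP` and the transfer inequality for them.
-/

set_option autoImplicit false

open Filter Topology

namespace K5.ID

open K5

open Classical in
/-- the terms of `fP` -/
noncomputable def tP (P : ℕ → Prop) (c : Bool) (x : ℝ) (n : ℕ) : ℝ :=
  if 1 ≤ n ∧ U n ∧ P n ∧ cl n = c then ker x n else 0

theorem fP_eq (P : ℕ → Prop) (c : Bool) (t : ℝ) : fP P c t = ∑' n : ℕ, tP P c (Real.exp t) n := rfl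

theorem tP_nonneg (P : ℕ → Prop) (c : Bool) {x : ℝ} (hx : 0 < x) (n : ℕ) : 0 ≤ tP P c x n := by
  unfold tP
  split_ifs
  · exact ker_nonneg hx n
  · exact le_rfl

theorem tP_le (P : ℕ → Prop) (c : Bool) {x : ℝ} (hx : 0 < x) (n : ℕ) :
    tP P c x n ≤ x * (1 / (n : ℝ) ^ 2) := by
  unfold tP
  split_ifs
  · unfold ker
    refine (min_le_right _ _).trans (le_of_eq ?_)
    ring
  · positivity

theorem tP_summable (P : ℕ → Prop) (c : Bool) {x : ℝ} (hx : 0 < x) : Summable (tP P c x) := by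
  refine Summable.of_nonneg_of_le (tP_nonneg P c hx) (tP_le P c hx) ?_
  exact (Real.summable_one_div_nat_pow.2 (by norm_num)).mul_left x

theorem RP_eq (P : ℕ → Prop) (c : Bool) (N : ℕ) (x : ℝ) :
    RP P c N x = ∑ n ∈ Finset.Icc 1 N, tP P c x n := by
  classical
  unfold RP tP
  rw [Finset.sum_filter]
  refine Finset.sum_congr rfl fun n hn => ?_
  have h1 : 1 ≤ n := (Finset.mem_Icc.1 hn).1
  by_cases h : U n ∧ P n ∧ cl n = c
  · rw [if_pos h, if_pos ⟨h1, h⟩]
  · rw [if_neg h, if_neg (fun h' => h h'.2)]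

theorem RP_le_fP (P : ℕ → Prop) (c : Bool) (N : ℕ) (t : ℝ) : RP P c N (Real.exp t) ≤ fP P c t := by
  rw [RP_eq, fP_eq]
  exact (tP_summable P c (Real.exp_pos t)).sum_le_tsum _
    fun n _ => tP_nonneg P c (Real.exp_pos t) n

theorem fP_le_of_RP (P : ℕ → Prop) (c : Bool) (t B : ℝ) (h : ∀ N, RP P c N (Real.exp t) ≤ B) :
    fP P c t ≤ B := by
  rw [fP_eq]
  refine Real.tsum_le_of_sum_range_le (tP_nonneg P c (Real.exp_pos t)) fun n => ?_
  refine le_trans ?_ (h n)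
  rw [RP_eq]
  rcases n with _ | n
  · simp
  · rw [Finset.sum_range_succ']
    have h0 : tP P c (Real.exp t) 0 = 0 := by
      unfold tP
      rw [if_neg (by omega)]
    rw [h0, add_zero]
    have h1 : ∑ k ∈ Finset.range n, tP P c (Real.exp t) (k + 1) =
        ∑ k ∈ Finset.Icc 1 n, tP P c (Real.exp t) k := by
      rw [Finset.range_eq_Ico, Finset.sum_Ico_add' (fun k => tP P c (Real.exp t) k) 0 n 1]
      rfl
    rw [h1]
    refine Finset.sum_le_sum_of_subset_of_nonneg (Finset.Icc_subset_Icc le_rfl (by omega)) ?_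
    exact fun k _ _ => tP_nonneg P c (Real.exp_pos t) k

theorem fP_nonneg (P : ℕ → Prop) (c : Bool) (t : ℝ) : 0 ≤ fP P c t := by
  rw [fP_eq]
  exact tsum_nonneg (tP_nonneg P c (Real.exp_pos t))

theorem fP_le_three (P : ℕ → Prop) (c : Bool) (t : ℝ) : fP P c t ≤ 3 :=
  fP_le_of_RP P c t 3 fun N => RP_le_three P c N (Real.exp_pos t)

theorem ker_lip {x x' : ℝ} (hx : 0 < x) (h : x ≤ x') (n : ℕ) :
    ker x' n ≤ x' / x * ker x n ∧ ker x n ≤ x' / x * ker x' n := by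
  have hx' : 0 < x' := lt_of_lt_of_le hx h
  have h1 : 1 ≤ x' / x := by rwa [le_div_iff₀ hx, one_mul]
  have h0 : 0 ≤ x' / x := by positivity
  unfold ker
  rw [mul_min_of_nonneg _ _ h0, mul_min_of_nonneg _ _ h0]
  constructor
  · apply min_le_min
    · have h2 : 1 / x' ≤ 1 / x := one_div_le_one_div_of_le hx h
      calc 1 / x' ≤ 1 / x := h2
        _ ≤ x' / x * (1 / x) := le_mul_of_one_le_left (by positivity) h1
    · apply le_of_eq
      field_simp
  · apply min_le_min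
    · apply le_of_eq
      field_simp
    · have h2 : x / (n : ℝ) ^ 2 ≤ x' / (n : ℝ) ^ 2 :=
        div_le_div_of_nonneg_right h (by positivity)
      exact h2.trans (le_mul_of_one_le_left (by positivity) h1)

theorem fP_lip (P : ℕ → Prop) (c : Bool) {s s' : ℝ} (h : s ≤ s') :
    fP P c s' ≤ Real.exp (s' - s) * fP P c s ∧ fP P c s ≤ Real.exp (s' - s) * fP P c s' := by
  have hx := Real.exp_pos s
  have hx' := Real.exp_pos s'
  have hq : Real.exp (s' - s) = Real.exp s' / Real.exp s := Real.exp_sub s' s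
  have hm : ∀ n, tP P c (Real.exp s') n ≤ Real.exp (s' - s) * tP P c (Real.exp s) n ∧
      tP P c (Real.exp s) n ≤ Real.exp (s' - s) * tP P c (Real.exp s') n := by
    intro n
    unfold tP
    split_ifs
    · rw [hq]
      exact ker_lip hx (Real.exp_le_exp.2 h) n
    · simp
  rw [fP_eq, fP_eq, ← tsum_mul_left, ← tsum_mul_left]
  constructor
  · exact (tP_summable P c hx').tsum_le_tsum (fun n => (hm n).1)
      ((tP_summable P c hx).mul_left _)
  · exact (tP_summable P c hx).tsum_le_tsum (fun n => (hm n).2)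
      ((tP_summable P c hx').mul_left _)

theorem fP_add (P : ℕ → Prop) (c : Bool) (t : ℝ) :
    fP P c t + fP (fun n => ¬ P n) c t = fP (fun _ => True) c t := by
  rw [fP_eq, fP_eq, fP_eq, ← (tP_summable P c (Real.exp_pos t)).tsum_add
    (tP_summable (fun n => ¬ P n) c (Real.exp_pos t))]
  refine tsum_congr fun n => ?_
  unfold tP
  by_cases h1 : 1 ≤ n ∧ U n ∧ cl n = c
  · by_cases h2 : P n
    · rw [if_pos ⟨h1.1, h1.2.1, h2, h1.2.2⟩, if_neg (fun h => h.2.2.1 h2),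
        if_pos ⟨h1.1, h1.2.1, trivial, h1.2.2⟩, add_zero]
    · rw [if_neg (fun h => h2 h.2.2.1), if_pos ⟨h1.1, h1.2.1, h2, h1.2.2⟩,
        if_pos ⟨h1.1, h1.2.1, trivial, h1.2.2⟩, zero_add]
  · rw [if_neg (fun h => h1 ⟨h.1, h.2.1, h.2.2.2⟩), if_neg (fun h => h1 ⟨h.1, h.2.1, h.2.2.2⟩),
      if_neg (fun h => h1 ⟨h.1, h.2.1, h.2.2.2⟩), add_zero]

open Classical in
/-- the transfer inequality for the smoothed densities, in the form used below -/
def Trans : Prop := ∀ A : ℕ, ∃ t₀ C : ℝ, 0 < t₀ ∧ 0 < C ∧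
    ∀ (P : ℕ → Prop) (X t : ℝ), Inv X P → t₀ ≤ t → X ≤ Real.exp (t / 4) →
    ∀ r : ℕ, r ≤ rr t → ∀ c' : Bool,
      fP P c' t ≤ ∑ c₁ : Bool, ∑ w ∈ (W (LA A t) r c₁).filter
        (fun w => endc c₁ w = c' ∧ (D w : ℝ) ≤ Real.exp (t / 4)),
        1 / (D w : ℝ) * fP P c₁ (t + r * Real.log 5 - Real.log (D w)) + C / t ^ A

theorem trans_of (n1 : NumBasic) (n2 : NumDeficit) (n3 : NumTails) (n4 : NumRest)
    (n6 : NumFactor) (n7 : NumMix) : Trans := by
  classical
  intro A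
  obtain ⟨t₀, C, ht₀, hC, H⟩ := transferN n1 n2 n3 n4 n6 n7 A
  refine ⟨t₀, C, ht₀, hC, ?_⟩
  intro P X t hP ht hX r hr c'
  refine fP_le_of_RP P c' t _ fun N => ?_
  obtain ⟨N', hN'⟩ := H P X t hP ht hX r hr c' N
  refine hN'.trans ?_
  gcongr with c₁ _ w _
  have hD : (0 : ℝ) < D w := by exact_mod_cast D_pos w
  have h1 : Real.exp t * 5 ^ r / D w =
      Real.exp (t + r * Real.log 5 - Real.log (D w)) := by
    rw [Real.exp_sub, Real.exp_add, Real.exp_log hD, mul_comm (r : ℝ), Real.exp_mul,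
      Real.exp_log (by norm_num : (0 : ℝ) < 5), Real.rpow_natCast]
  rw [h1]
  exact RP_le_fP P c₁ N' _

/-- `TI` for a pair of functions from `Trans` -/
theorem TI_of {A : ℕ} {t₀ C : ℝ} {P : ℕ → Prop} {X : ℝ} (hP : Inv X P)
    (H : ∀ (P : ℕ → Prop) (X t : ℝ), Inv X P → t₀ ≤ t → X ≤ Real.exp (t / 4) →
    ∀ r : ℕ, r ≤ rr t → ∀ c' : Bool,
      fP P c' t ≤ ∑ c₁ : Bool, ∑ w ∈ (W (LA A t) r c₁).filter
        (fun w => endc c₁ w = c' ∧ (D w : ℝ) ≤ Real.exp (t / 4)),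
        1 / (D w : ℝ) * fP P c₁ (t + r * Real.log 5 - Real.log (D w)) + C / t ^ A)
    {T : ℝ} (hT : t₀ ≤ T) (hX : X ≤ Real.exp (T / 4)) : TI A T C (fP P) := by
  intro t ht r hr c'
  have h1 : X ≤ Real.exp (t / 4) := hX.trans (Real.exp_le_exp.2 (by linarith))
  exact H P X t hP (hT.trans ht) h1 r hr c'

end K5.ID
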