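import Pool.Agent.Lib.MP_a4658c_nt.ID.Mix
import Pool.Agent.Lib.MP_a4658c_nt.ID.Stm
import Pool.Agent.Lib.MP_a4658c_nt.K5.R1
import Pool.Agent.Lib.MP_a4658c_nt.K5.M3
import Pool.Agent.Lib.MP_a4658c_nt.K5.F10

/-!
MP_a4658c_nt, natural density of the invariant sets of the Kakutani map: the transfer inequality
for invariant predicates.
-/

set_option autoImplicit false

namespace K5.ID

open K5

theorem RP_nonneg (P : ℕ → Prop) (c : Bool) (N : ℕ) {x : ℝ} (hx : 0 < x) : 0 ≤ RP P c N x :=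
  Finset.sum_nonneg fun n _ => ker_nonneg hx n

theorem RP_le_three (P : ℕ → Prop) (c : Bool) (N : ℕ) {x : ℝ} (hx : 0 < x) :
    RP P c N x ≤ 3 := by
  classical
  refine le_trans ?_ (ker_sum_le hx N)
  unfold RP
  exact Finset.sum_le_sum_of_subset_of_nonneg (Finset.filter_subset _ _)
    fun n _ _ => ker_nonneg hx n

lemma id5_ite_nonneg {P : Prop} [Decidable P] {a : ℝ} (ha : 0 ≤ a) :
    0 ≤ if P then a else 0 := by
  split_ifs
  · exact ha
  · exact le_rfl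

open Classical in
/-- splitting `R_c^N(x)` -/
lemma id5_split (Λ k lmax N : ℕ) (c' : Bool) (P : ℕ → Prop) (x Y K E z z' : ℝ)
    (hx : 0 < x) :
    RP P c' N x ≤
      (∑ n ∈ (Finset.Icc 1 N).filter (fun n : ℕ => (n : ℝ) < z), ker x n) +
      (∑ n ∈ (Finset.Icc 1 N).filter (fun n : ℕ => z' < (n : ℝ)), ker x n) +
      (∑ n ∈ (Finset.Icc 1 N).filter (fun n => U n ∧ cl n = c' ∧
        ¬ (fword k n ∈ W Λ k (cl (S^[k] n)) ∧ Pgood lmax Y K E (fword k n))), ker x n) +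
      ∑ n ∈ (Finset.Icc 1 N).filter (fun n => U n ∧ P n ∧ cl n = c' ∧ z ≤ (n : ℝ) ∧ (n : ℝ) ≤ z' ∧
        GoodN Λ k lmax Y K E n), ker x n := by
  unfold RP
  rw [Finset.sum_filter, Finset.sum_filter, Finset.sum_filter, Finset.sum_filter,
    Finset.sum_filter, ← Finset.sum_add_distrib, ← Finset.sum_add_distrib,
    ← Finset.sum_add_distrib]
  apply Finset.sum_le_sum
  intro n _
  have h0 := ker_nonneg hx n
  have i1 : 0 ≤ if (n : ℝ) < z then ker x n else 0 := id5_ite_nonneg h0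
  have i2 : 0 ≤ if z' < (n : ℝ) then ker x n else 0 := id5_ite_nonneg h0
  have i3 : 0 ≤ if U n ∧ cl n = c' ∧ ¬ (fword k n ∈ W Λ k (cl (S^[k] n)) ∧
      Pgood lmax Y K E (fword k n)) then ker x n else 0 := id5_ite_nonneg h0
  have i4 : 0 ≤ if U n ∧ P n ∧ cl n = c' ∧ z ≤ (n : ℝ) ∧ (n : ℝ) ≤ z' ∧
      GoodN Λ k lmax Y K E n then ker x n else 0 := id5_ite_nonneg h0
  by_cases hG : U n ∧ P n ∧ cl n = c'
  · rw [if_pos hG]
    by_cases h1 : (n : ℝ) < z
    · rw [if_pos h1] at i1 ⊢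
      linarith
    · by_cases h2 : z' < (n : ℝ)
      · rw [if_pos h2] at i2 ⊢
        linarith
      · by_cases h3 : GoodN Λ k lmax Y K E n
        · have h4 : U n ∧ P n ∧ cl n = c' ∧ z ≤ (n : ℝ) ∧ (n : ℝ) ≤ z' ∧
            GoodN Λ k lmax Y K E n := ⟨hG.1, hG.2.1, hG.2.2, not_lt.1 h1, not_lt.1 h2, h3⟩
          rw [if_pos h4] at i4 ⊢
          linarith
        · have h4 : U n ∧ cl n = c' ∧ ¬ (fword k n ∈ W Λ k (cl (S^[k] n)) ∧
            Pgood lmax Y K E (fword k n)) := ⟨hG.1, hG.2.2, h3⟩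
          rw [if_pos h4] at i3 ⊢
          linarith
  · rw [if_neg hG]
    linarith

lemma id5_fsplit {α : Type*} (s : Finset α) (P : α → Prop) (g h : α → ℝ) (K : ℝ)
    [DecidablePred (fun w => P w)] [DecidablePred (fun w => P w ∧ g w ≤ K)]
    [DecidablePred (fun w => P w ∧ K < g w)] :
    ∑ w ∈ s.filter (fun w => P w), h w = (∑ w ∈ s.filter (fun w => P w ∧ g w ≤ K), h w) +
      ∑ w ∈ s.filter (fun w => P w ∧ K < g w), h w := by
  rw [Finset.sum_filter, Finset.sum_filter, Finset.sum_filter, ← Finset.sum_add_distrib]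
  apply Finset.sum_congr rfl
  intro w _
  by_cases hP : P w
  · rcases le_or_gt (g w) K with h1 | h1
    · rw [if_pos hP, if_pos ⟨hP, h1⟩, if_neg (fun h2 => absurd h2.2 (not_lt.2 h1)), add_zero]
    · rw [if_pos hP, if_neg (fun h2 => absurd h2.2 (not_le.2 h1)), if_pos ⟨hP, h1⟩, zero_add]
  · rw [if_neg hP, if_neg (fun h2 => hP h2.1), if_neg (fun h2 => hP h2.1), add_zero]


open Classical in
/-- the main term is bounded -/
lemma id5_main_le (P : ℕ → Prop) {E : ℝ} (Λ r N' : ℕ) (c' : Bool) (g : List Let → ℝ)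
    (hg : ∀ w, 0 < g w) :
    ∑ c₁ : Bool, ∑ w₂ ∈ (W Λ r c₁).filter (fun w₂ => endc c₁ w₂ = c' ∧ (D w₂ : ℝ) ≤ E),
      1 / (D w₂ : ℝ) * RP P c₁ N' (g w₂) ≤ 3 := by
  have h1 : ∀ c₁ : Bool, ∑ w₂ ∈ (W Λ r c₁).filter (fun w₂ => endc c₁ w₂ = c' ∧
      (D w₂ : ℝ) ≤ E), 1 / (D w₂ : ℝ) * RP P c₁ N' (g w₂) ≤
      3 * ∑ w ∈ (W Λ r c₁).filter (fun w => endc c₁ w = c'), 1 / (D w : ℝ) := by
    intro c₁
    rw [Finset.mul_sum]
    refine (Finset.sum_le_sum (g := fun w₂ => 3 * (1 / (D w₂ : ℝ))) ?_).trans ?_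
    · intro w _
      have h2 := RP_le_three P c₁ N' (hg w)
      have hD : (0 : ℝ) < D w := by exact_mod_cast D_pos w
      rw [mul_comm 3]
      exact mul_le_mul_of_nonneg_left h2 (by positivity)
    · refine Finset.sum_le_sum_of_subset_of_nonneg ?_ (fun w _ _ => by positivity)
      intro w hw
      rw [Finset.mem_filter] at hw ⊢
      exact ⟨hw.1, hw.2.1⟩
  refine (Finset.sum_le_sum fun c₁ _ => h1 c₁).trans ?_
  rw [← Finset.mul_sum]
  have := col_le Λ r c'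
  linarith

open Classical in
/-- the good part -/
lemma id5_good {Λ k r lmax N : ℕ} {c' : Bool} {P : ℕ → Prop} {t X Y K E Mx : ℝ}
    (hP : Inv X P) (hr : r ≤ k) (hK : 1 ≤ K) (hE : E = Real.exp (t / 4)) (htp : 0 < t)
    (hY : 1 ≤ Y)
    (hKY : K * (Y * 6 ^ Λ) < 5 ^ k) (hKz : K < Real.exp (t / 2))
    (hX : X < (Real.exp (t / 2) - K) / (5 * K))
    (h2 : 5 ^ k * Real.exp (5 * t / 4) + K ≤ Real.exp (2 * t)) (hMx : 0 ≤ Mx)
    (hmix : ∀ (c : Bool) (A B : ℕ), ∑ y : ZMod (5 ^ k),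
      |hh k (TT Λ k lmax Y c c' A B) y - ht k r (TT Λ k lmax Y c c' A B) y| ≤ Mx) :
    ∃ N' : ℕ, ∑ n ∈ (Finset.Icc 1 N).filter (fun n => U n ∧ P n ∧ cl n = c' ∧
        Real.exp (3 * t / 4) ≤ (n : ℝ) ∧ (n : ℝ) ≤ Real.exp (5 * t / 4) ∧
        GoodN Λ k lmax Y K E n), ker (Real.exp t) n ≤
      (1 / (1 - K / Real.exp (t / 2))) ^ 2 *
        ((1 / (1 - K / Real.exp (t / 2))) *
          (∑ c₁ : Bool, ∑ w₂ ∈ (W Λ r c₁).filter (fun w₂ => endc c₁ w₂ = c' ∧ (D w₂ : ℝ) ≤ E),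
            1 / (D w₂ : ℝ) * RP P c₁ N' (Real.exp t * 5 ^ r / D w₂)) +
        54 / K * (5 ^ (k - r) / Real.exp (t / 2)
          + Real.log (Real.exp (2 * t) / Real.exp (t / 2))) +
        2 * ((k * Λ + 1) ^ 2 * Mx * (1 / Real.exp (t / 2) +
          Real.log (Real.exp (2 * t) / Real.exp (t / 2)) / 5 ^ k))) := by
  have hx : 0 < Real.exp t := Real.exp_pos t
  have hz₁ : 0 < Real.exp (t / 2) := Real.exp_pos _
  have hz₁1 : 1 ≤ Real.exp (t / 2) := Real.one_le_exp (by linarith)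
  have hz12 : Real.exp (t / 2) ≤ Real.exp (2 * t) := Real.exp_le_exp.2 (by linarith)
  have hE1 : 1 ≤ E := by rw [hE]; exact Real.one_le_exp (by linarith)
  have hEt : E ≤ Real.exp t := by rw [hE]; exact Real.exp_le_exp.2 (by linarith)
  obtain ⟨N₂, hN₂⟩ : ∃ N₂ : ℕ, Real.exp (2 * t) ≤ N₂ := exists_nat_ge _
  obtain ⟨N', hN'⟩ : ∃ N' : ℕ, Real.exp (2 * t) * E ≤ N' := exists_nat_ge _
  refine ⟨N', ?_⟩
  have h1 : Real.exp (t / 2) * E ≤ Real.exp (3 * t / 4) := by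
    rw [hE, ← Real.exp_add]
    apply Real.exp_le_exp.2
    linarith
  have hpush := push (Λ := Λ) (k := k) (lmax := lmax) (N := N) (N₂ := N₂) (c' := c') (X := X)
    (P := P) (x := Real.exp t) (Y := Y) (K := K) (E := E) (z := Real.exp (3 * t / 4))
    (z' := Real.exp (5 * t / 4)) (z₁ := Real.exp (t / 2)) (z₂ := Real.exp (2 * t)) hP hx
    hK hX hE1 hz₁ hKz h1 h2 hN₂
    (fun c w hw hg => good_Tm hw hY (by linarith) hKY hg)
  refine hpush.trans ?_
  have hfrac : 0 < 1 - K / Real.exp (t / 2) := by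
    rw [sub_pos, div_lt_one hz₁]
    exact hKz
  apply mul_le_mul_of_nonneg_left _ (by positivity)
  have hmx : ∀ c : Bool, _ := fun c => mix_apply (Λ := Λ) (k := k) (r := r) (lmax := lmax)
    (N₂ := N₂) (c := c) (c' := c') (P := P) (x := Real.exp t) (Y := Y) (E := E)
    (z₁ := Real.exp (t / 2)) (z₂ := Real.exp (2 * t)) (Mx := Mx) hx hr hz₁1 hz12 hMx (hmix c)
  refine (Finset.sum_le_sum fun c _ => hmx c).trans ?_
  rw [Finset.sum_add_distrib, Finset.sum_const, Finset.card_univ, Fintype.card_bool, nsmul_eq_mul,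
    Nat.cast_ofNat]
  apply add_le_add _ le_rfl
  have hmain := coarse_main (Λ := Λ) (k := k) (r := r) (lmax := lmax) (N₂ := N₂) (N' := N') hr
    (c' := c') (P := P) (X := X) (x := Real.exp t) (Y := Y) (K := K) (E := E)
    (z₁ := Real.exp (t / 2)) (z₂ := Real.exp (2 * t)) hP hx hK hE1 hKz hX hN'
  have hrest := coarse_rest (Λ := Λ) (k := k) (r := r) (lmax := lmax) (N₂ := N₂) hr
    (c' := c') (P := P) (x := Real.exp t) (Y := Y) (K := K) (E := E)
    (z₁ := Real.exp (t / 2)) (z₂ := Real.exp (2 * t)) hx hK hz₁1 hz12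
  have hsplit : ∀ c : Bool, ∑ m ∈ MP P c N₂ (Real.exp (t / 2)) (Real.exp (2 * t)),
      1 / (m : ℝ) * ∑ w ∈ (TA Λ k lmax Y E c c').filter (fun w =>
            (5 : ZMod (5 ^ k)) ^ r * (Fm k w - (m : ZMod (5 ^ k))) = 0),
            5 ^ (k - r) / (D w : ℝ) * kr ((m : ℝ) * D w / 5 ^ k) (Real.exp t) =
      (∑ m ∈ MP P c N₂ (Real.exp (t / 2)) (Real.exp (2 * t)), 1 / (m : ℝ) *
        ∑ w ∈ (TA Λ k lmax Y E c c').filter (fun w =>
          (5 : ZMod (5 ^ k)) ^ r * (Fm k w - (m : ZMod (5 ^ k))) = 0 ∧ Fr (w.take (k - r)) ≤ K),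
          5 ^ (k - r) / (D w : ℝ) * kr ((m : ℝ) * D w / 5 ^ k) (Real.exp t)) +
      ∑ m ∈ MP P c N₂ (Real.exp (t / 2)) (Real.exp (2 * t)), 1 / (m : ℝ) *
        ∑ w ∈ (TA Λ k lmax Y E c c').filter (fun w =>
          (5 : ZMod (5 ^ k)) ^ r * (Fm k w - (m : ZMod (5 ^ k))) = 0 ∧ K < Fr (w.take (k - r))),
          5 ^ (k - r) / (D w : ℝ) * kr ((m : ℝ) * D w / 5 ^ k) (Real.exp t) := by
    intro c
    rw [← Finset.sum_add_distrib]
    apply Finset.sum_congr rfl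
    intro m _
    rw [← mul_add]
    congr 1
    exact id5_fsplit (TA Λ k lmax Y E c c') (fun w =>
      (5 : ZMod (5 ^ k)) ^ r * (Fm k w - (m : ZMod (5 ^ k))) = 0) (fun w => Fr (w.take (k - r)))
      (fun w => 5 ^ (k - r) / (D w : ℝ) * kr ((m : ℝ) * D w / 5 ^ k) (Real.exp t)) K
  rw [Finset.sum_congr rfl fun c _ => hsplit c, Finset.sum_add_distrib]
  exact add_le_add hmain hrest

open Classical in
/-- the transfer inequality for the cut off smoothed densities -/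
theorem transferN (n1 : NumBasic) (n2 : NumDeficit) (n3 : NumTails) (n4 : NumRest)
    (n6 : NumFactor) (n7 : NumMix) (A : ℕ) : ∃ t₀ C : ℝ, 0 < t₀ ∧ 0 < C ∧
    ∀ (P : ℕ → Prop) (X t : ℝ), Inv X P → t₀ ≤ t → X ≤ Real.exp (t / 4) →
    ∀ r : ℕ, r ≤ rr t → ∀ (c' : Bool) (N : ℕ), ∃ N' : ℕ,
      RP P c' N (Real.exp t) ≤ ∑ c₁ : Bool, ∑ w ∈ (W (LA A t) r c₁).filter
        (fun w => endc c₁ w = c' ∧ (D w : ℝ) ≤ Real.exp (t / 4)),
        1 / (D w : ℝ) * RP P c₁ N' (Real.exp t * 5 ^ r / D w) + C / t ^ A := by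
  obtain ⟨K₀, hK₀, hFD⟩ := FD (10 * A + 28)
  obtain ⟨t1, ht1, H1⟩ := n1 A
  obtain ⟨t2, C2, ht2, hC2, H2⟩ := n2 A
  obtain ⟨t3, C3, ht3, hC3, H3⟩ := n3 A
  obtain ⟨t4, C4, ht4, hC4, H4⟩ := n4 A
  obtain ⟨t6, C6, ht6, hC6, H6⟩ := n6 A
  obtain ⟨t7, C7, ht7, hC7, H7⟩ := n7 A K₀ hK₀
  obtain ⟨Dc, hDc⟩ : ∃ Dc, Dc = C4 + C7 := ⟨_, rfl⟩
  have hDc0 : 0 < Dc := by linarith
  refine ⟨1 + t1 + t2 + t3 + t4 + t6 + t7, C3 + C2 / 2 + (3 * C6 + Dc + C6 * Dc),
    by linarith, by positivity, ?_⟩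
  intro P X t hP htt hXt r hr c' N
  have htpos : 0 < t := by linarith
  have ht1' : 1 ≤ t := by linarith
  have htA : 0 < t ^ A := by positivity
  have htA1 : 1 ≤ t ^ A := one_le_pow₀ ht1'
  obtain ⟨b1, b2, b3, b4, b5, b6, b7, b8, b9, b10⟩ := H1 t (by linarith)
  have h2 := H2 t (by linarith)
  have h3 := H3 t (by linarith)
  have h4 := H4 t (by linarith) r
  obtain ⟨h6, h6'⟩ := H6 t (by linarith)
  have h7 := H7 t (by linarith) r hr
  have hrk : r ≤ kk t := hr.trans b1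
  have hlmr : lm t ≤ kk t - r := b2.trans (Nat.sub_le_sub_left hr _)
  -- the parts
  have hx : 0 < Real.exp t := Real.exp_pos t
  have hsp := id5_split (LA A t) (kk t) (lm t) N c' P (Real.exp t) (YA A t) (KA A t) (EE t)
    (Real.exp (3 * t / 4)) (Real.exp (5 * t / 4)) hx
  have hlow := ker_sum_low hx (Real.exp_pos (3 * t / 4)).le N
  have hhigh := ker_sum_high hx (Real.one_le_exp (by linarith : 0 ≤ 5 * t / 4)) N
  have hbad := bad_mass (LA A t) (kk t) N c' (Pgood (lm t) (YA A t) (KA A t) (EE t)) (E := EE t)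
    (x := Real.exp t) (by linarith) hx (fun w hw => hw.2.2)
  have hdef := good_deficit (LA A t) (kk t) (lm t) (by omega) (by omega) (Y := YA A t)
    (K := KA A t) (E := EE t) (by linarith) (by linarith) (by linarith) c'
  obtain ⟨q, hq⟩ : ∃ q, q = K₀ / (((kk t - r - lm t : ℕ) : ℝ) + 1) ^ (10 * A + 28) := ⟨_, rfl⟩
  have hq0 : 0 ≤ q := by rw [hq]; positivity
  have hYpos : 0 < YA A t := by linarith
  have hmix : ∀ (c : Bool) (A' B' : ℕ), ∑ y : ZMod (5 ^ kk t),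
      |hh (kk t) (TT (LA A t) (kk t) (lm t) (YA A t) c c' A' B') y -
        ht (kk t) r (TT (LA A t) (kk t) (lm t) (YA A t) c c' A' B') y| ≤
      5 ^ kk t * (2 * ((lm t : ℝ) + 1) * ((kk t : ℝ) * LA A t + 1) ^ 2) *
        (8 * q * Real.sqrt (5 ^ kk t / YA A t)) := by
    intro c A' B'
    refine mixing hrk hlmr hYpos hq0 ?_ c c' A' B'
    intro ψ hψ R hR
    refine QB_mono (by positivity) le_rfl ?_ (hFD (LA A t) (kk t) ψ b3 hψ R)
    rw [hq]
    apply div_le_div_of_nonneg_left hK₀.le (by positivity)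
    apply pow_le_pow_left₀ (by positivity)
    have : ((kk t - r - lm t : ℕ) : ℝ) ≤ R := by exact_mod_cast hR
    linarith
  obtain ⟨N', hgood⟩ := id5_good (Λ := LA A t) (k := kk t) (r := r) (lmax := lm t) (N := N)
    (c' := c') (P := P)
    (t := t) (X := X) (Y := YA A t) (K := KA A t) (E := EE t) hP hrk b4 rfl htpos b5 b6 b8
    (b9 X hXt) b10 (by positivity) hmix
  refine ⟨N', ?_⟩
  rw [hq] at hgood
  -- tails
  have e1 : Real.exp (3 * t / 4) / Real.exp t = Real.exp (-(t / 4)) := by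
    rw [← Real.exp_sub]
    congr 1
    ring
  have e2 : 2 * Real.exp t / Real.exp (5 * t / 4) = 2 * Real.exp (-(t / 4)) := by
    rw [mul_div_assoc, ← Real.exp_sub]
    congr 2
    ring
  rw [e1] at hlow
  rw [e2] at hhigh
  have hEE : EE t = Real.exp (t / 4) := rfl
  obtain ⟨Mn, hMn⟩ : ∃ Mn, Mn = ∑ c₁ : Bool, ∑ w ∈ (W (LA A t) r c₁).filter
        (fun w => endc c₁ w = c' ∧ (D w : ℝ) ≤ Real.exp (t / 4)),
        1 / (D w : ℝ) * RP P c₁ N' (Real.exp t * 5 ^ r / D w) := ⟨_, rfl⟩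
  have hMn3 : Mn ≤ 3 := by
    rw [hMn]
    refine id5_main_le P (LA A t) r N' c' (fun w => Real.exp t * 5 ^ r / D w) ?_
    intro w
    have hD : (0 : ℝ) < D w := by exact_mod_cast D_pos w
    positivity
  have hMn0 : 0 ≤ Mn := by
    rw [hMn]
    refine Finset.sum_nonneg fun c₁ _ => Finset.sum_nonneg fun w _ => ?_
    have hD : (0 : ℝ) < D w := by exact_mod_cast D_pos w
    exact mul_nonneg (by positivity) (RP_nonneg P c₁ N' (by positivity))
  rw [← hMn]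
  rw [hEE] at hgood
  rw [← hMn] at hgood
  obtain ⟨F, hF⟩ : ∃ F, F = 1 / (1 - KA A t / Real.exp (t / 2)) := ⟨_, rfl⟩
  rw [← hF] at hgood h6
  have hF1 : 1 ≤ F := by
    rw [hF, le_div_iff₀ h6', one_mul]
    have : 0 ≤ KA A t / Real.exp (t / 2) := by positivity
    linarith
  have hF0 : 0 < F := by linarith
  -- the final estimate of the good part
  have hg2 : F ^ 2 * (F * Mn +
        54 / KA A t * (5 ^ (kk t - r) / Real.exp (t / 2)
          + Real.log (Real.exp (2 * t) / Real.exp (t / 2))) +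
        2 * (((kk t : ℝ) * LA A t + 1) ^ 2 * (5 ^ kk t * (2 * ((lm t : ℝ) + 1) *
          ((kk t : ℝ) * LA A t + 1) ^ 2) *
          (8 * (K₀ / (((kk t - r - lm t : ℕ) : ℝ) + 1) ^ (10 * A + 28)) *
            Real.sqrt (5 ^ kk t / YA A t))) * (1 / Real.exp (t / 2) +
          Real.log (Real.exp (2 * t) / Real.exp (t / 2)) / 5 ^ kk t))) ≤
      Mn + (3 * C6 + Dc + C6 * Dc) / t ^ A := by
    have g2 : C4 / t ^ A ≤ F * (C4 / t ^ A) := le_mul_of_one_le_left (by positivity) hF1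
    have g3 : C7 / t ^ A ≤ F * (C7 / t ^ A) := le_mul_of_one_le_left (by positivity) hF1
    have g4 : F * Mn + F * (C4 / t ^ A) + F * (C7 / t ^ A) = F * (Mn + Dc / t ^ A) := by
      rw [hDc]
      ring
    have g5 : 0 ≤ Mn + Dc / t ^ A := by positivity
    have g6 : F ^ 3 * (Mn + Dc / t ^ A) ≤ (1 + C6 / t ^ A) * (Mn + Dc / t ^ A) :=
      mul_le_mul_of_nonneg_right h6 g5
    have g7 : (1 + C6 / t ^ A) * (Mn + Dc / t ^ A) ≤ Mn + (3 * C6 + Dc + C6 * Dc) / t ^ A := by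
      have g8 : C6 / t ^ A * Mn ≤ C6 / t ^ A * 3 := mul_le_mul_of_nonneg_left hMn3 (by positivity)
      have g9 : C6 / t ^ A * (Dc / t ^ A) ≤ C6 * Dc / t ^ A := by
        rw [div_mul_div_comm]
        apply div_le_div_of_nonneg_left (by positivity) htA
        exact le_mul_of_one_le_left htA.le htA1
      have g10 : (3 * C6 + Dc + C6 * Dc) / t ^ A =
          C6 / t ^ A * 3 + Dc / t ^ A + C6 * Dc / t ^ A := by ring
      have g12 : (1 + C6 / t ^ A) * (Mn + Dc / t ^ A) =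
          Mn + Dc / t ^ A + C6 / t ^ A * Mn + C6 / t ^ A * (Dc / t ^ A) := by ring
      rw [g10, g12]
      linarith
    refine le_trans ?_ (g6.trans g7)
    have g11 : F ^ 3 * (Mn + Dc / t ^ A) = F ^ 2 * (F * (Mn + Dc / t ^ A)) := by ring
    rw [g11]
    apply mul_le_mul_of_nonneg_left _ (by positivity)
    rw [← g4]
    linarith
  have hgood' := hgood.trans hg2
  have hfin : (C3 + C2 / 2 + (3 * C6 + Dc + C6 * Dc)) / t ^ A =
      C3 / t ^ A + C2 / t ^ A / 2 + (3 * C6 + Dc + C6 * Dc) / t ^ A := by ring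
  rw [hfin]
  have hdef' := hdef.trans h2
  rw [hEE] at hsp hbad hdef'
  rw [hEE] at h3
  linarith

end K5.ID
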